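import Pool.Agent.Work.MP_b30479_gt.TwoBridgeAlt

/-!
# Closed 3-braids together with the braid axis
-/

namespace Pool.Agent.Work.MP_b30479_gt

/-- A word in the generators of `B_4` whose closure is the closure of the 3-braid `β` (carried by
the strands `1, 2, 3`) together with its braid axis: the strand `0` winds once around the other
three strands, so its closure is a curve of type (longitude + meridian) on the boundary of the
solid torus that contains the closure of `β`; this curve is isotopic, in the complementary solid
torus, to the core, the braid axis. -/
def axisWord (β : List (Fin 2 × Bool)) : List (Fin 3 × Bool) :=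
  β.map (fun g => (g.1.succ, g.2)) ++
    [(0, true), (1, true), (2, true), (2, true), (1, true), (0, true)]

/-- The 3-braid `(σ_1 σ_2^{-1})^K`. -/
def wordK (K : ℕ) : List (Fin 2 × Bool) :=
  (List.replicate K [((0 : Fin 2), true), ((1 : Fin 2), false)]).flatten

end Pool.Agent.Work.MP_b30479_gt
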