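import Pool.Agent.Work.MP_b30479_gt.Defs

/-!
# Coloured Jones polynomials of two-bridge links at roots of unity

A word `w` in the generators of the braid group `B_3` (the first letter of the word is the top
crossing) gives a `(1,1)`-tangle: the open strand enters at the bottom at position `0`, a cup
joins the bottom positions `1, 2`, a cap joins the top positions `0, 1`, and the open strand
leaves at the top at position `2`.  Its closure `L_w` is a two-bridge link, and every two-bridge
link arises in this way.

The colour is the representation `V` of dimension `n = 2s+1`, and `t` is a primitive `n`-th root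
of unity.  Then the cup is the invariant vector `∑_j t^{sj} e_j ⊗ e_{2s-j}` of `V ⊗ V` and the cap
is the invariant form `e_i ⊗ e_{2s-i} ↦ t^{-2s²} t^{si}`; they are normalised so that the straight
strand (`w = []`) has value `1`.
-/

namespace Pool.Agent.Work.MP_b30479_gt

/-- The value of the `(1,1)`-tangle of `w` (blackboard framing): the scalar by which it acts on
`V`, read off on the highest weight vector `e_0`. -/
def tangleValue {A : Type*} [CommRing A] (s : ℕ) (w : List (Fin 2 × Bool)) (t : Aˣ) : A :=
  ((t ^ (-(2 * (s : ℤ) ^ 2)) : Aˣ) : A) * ∑ i : Fin (2 * s + 1), ∑ j : Fin (2 * s + 1),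
    ((t ^ (s * ((i : ℕ) + (j : ℕ))) : Aˣ) : A) *
      braidMatrix s t w ![i, Fin.rev i, 0] ![0, j, Fin.rev j]

/-- Orientations (`1` is up, `-1` is down) of the three strands above the braid word `w`, when
they are `o` below it. -/
def orientAfter : List (Fin 2 × Bool) → (Fin 3 → ℤ) → (Fin 3 → ℤ)
  | [], o => o
  | g :: w, o => fun l => orientAfter w o (Equiv.swap g.1.castSucc g.1.succ l)

/-- The writhe of the braid word `w` whose strands have the orientations `o` at the bottom. -/
def orientedWrithe : List (Fin 2 × Bool) → (Fin 3 → ℤ) → ℤ
  | [], _ => 0
  | g :: w, o => orientedWrithe w o + (if g.2 then 1 else -1) *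
      (orientAfter w o g.1.castSucc * orientAfter w o g.1.succ)

/-- `δ = ±1` (the direction of the bottom position `1`) is an orientation of the link `L_w` for
which the open strand is directed upwards. -/
def IsOrientation (w : List (Fin 2 × Bool)) (δ : ℤ) : Prop :=
  (δ = 1 ∨ δ = -1) ∧ orientAfter w ![1, δ, -δ] 2 = 1

/-- `L_w` is a knot: it does not have both orientations `δ = 1` and `δ = -1` (the open strand
being directed upwards). -/
def IsTwoBridgeKnot (w : List (Fin 2 × Bool)) : Prop :=
  ¬ (IsOrientation w 1 ∧ IsOrientation w (-1))

/-- The normalised coloured Jones polynomial `J_{2s+1}(L_w; t)` of the two-bridge link `L_w` with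
orientation `δ`, at `t` a primitive root of unity of order `2s+1`. -/
def twoBridgeJones {A : Type*} [CommRing A] (s : ℕ) (w : List (Fin 2 × Bool)) (δ : ℤ) (t : Aˣ) :
    A :=
  ((t ^ (-(orientedWrithe w ![1, δ, -δ] * (s * (s + 1)))) : Aˣ) : A) * tangleValue s w t

/-- The word read backwards, with the two generators exchanged and all crossings changed. -/
def mirrorRev (w : List (Fin 2 × Bool)) : List (Fin 2 × Bool) :=
  (w.map fun g => (Fin.rev g.1, !g.2)).reverse

end Pool.Agent.Work.MP_b30479_gt
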