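import Pool.Agent.Work.MP_b30479_gt.TwoBridge

/-!
# Alternating words
-/

namespace Pool.Agent.Work.MP_b30479_gt

/-- The word `w` is alternating: its letters are `σ_1` and `σ_2^{-1}`, i.e. `(0, true)` and
`(1, false)`. Every two-bridge link has an alternating diagram of this form whose number of
crossings (the length of the word) is the crossing number. -/
def IsAlternating (w : List (Fin 2 × Bool)) : Prop := ∀ g ∈ w, g = (0, true) ∨ g = (1, false)

/-- The word `(σ_2^{-1} σ_1)^k`; its two-bridge link is `C(1,1,...,1)` with `2k` entries: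
the figure-eight knot `4_1` for `k = 2`, the knot `6_3` for `k = 3`. -/
def powWord (k : ℕ) : List (Fin 2 × Bool) :=
  (List.replicate k [((1 : Fin 2), false), ((0 : Fin 2), true)]).flatten

/-- `a_n = J_n(L_w; e^{2πi/n})` for odd `n` (junk value for even `n`). -/
noncomputable def twoBridgeKashaev (w : List (Fin 2 × Bool)) (δ : ℤ) (n : ℕ) : ℂ :=
  twoBridgeJones ((n - 1) / 2) w δ
    (Units.mk0 (Complex.exp (2 * Real.pi * Complex.I / n)) (Complex.exp_ne_zero _))

/-- The volume `2 v_3 = 6 Λ(π/3) = 2.02988...` of the complement of the figure-eight knot, where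
`v_3 = 3 Λ(π/3)` is the volume of the regular ideal tetrahedron. -/
noncomputable def volFigureEight : ℝ := -6 * ∫ x in (0 : ℝ)..(Real.pi / 3), Real.log (2 * Real.sin x)

end Pool.Agent.Work.MP_b30479_gt
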