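import Mathlib

/-!
# The coloured Jones polynomial of a braid closure in odd dimension `N = 2s+1`

Let `V` be the `N`-dimensional irreducible representation of `U_q(sl_2)`, `q = v = t^{1/2}`, with
basis `e_0, ..., e_{N-1}`, `H e_i = (N-1-2i) e_i`, `F e_i = [i+1] e_{i+1}`, `E e_i = [N-i] e_{i-1}`.
The universal R-matrix
`R = v^{H ⊗ H / 2} ∑_k v^{k(k-1)/2} (v - v⁻¹)^k / [k]! · E^k ⊗ F^k`
gives the braiding `Ř = P ∘ R` on `V ⊗ V`.  Since `N` is odd, in the rescaled basis
`v^{i(i-1)/2} e_i` all matrix entries of `Ř` and of `Ř⁻¹` are Laurent polynomials in `t`: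

* `Ř (e_i ⊗ e_j) = ∑_k coeffPos s t i j k · e_{j+k} ⊗ e_{i-k}`,
* `Ř⁻¹ (e_i ⊗ e_j) = ∑_k coeffNeg s t i j k · e_{j-k} ⊗ e_{i+k}`.

Both are defined below over an arbitrary commutative ring, for an arbitrary unit `t`.
-/

namespace Pool.Agent.Work.MP_b30479_gt

/-- The Gaussian binomial coefficient `[n choose k]_t`. -/
def gauss {A : Type*} [CommRing A] (t : A) : ℕ → ℕ → A
  | _, 0 => 1
  | 0, _ + 1 => 0
  | n + 1, k + 1 => gauss t n k + t ^ (k + 1) * gauss t n (k + 1)

/-- The coefficient of `e_{j+k} ⊗ e_{i-k}` in `Ř (e_i ⊗ e_j)`, for the representation of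
dimension `2s+1`. -/
def coeffPos {A : Type*} [CommRing A] (s : ℕ) (t : Aˣ) (i j k : ℕ) : A :=
  ((t ^ ((k.choose 2 : ℤ) - s * k + ((s : ℤ) - i + k) * ((s : ℤ) - j - k)) : Aˣ) : A) *
    gauss (t : A) (2 * s - i + k) k * ∏ x ∈ Finset.range k, ((t : A) ^ (j + 1 + x) - 1)

/-- The coefficient of `e_{j-k} ⊗ e_{i+k}` in `Ř⁻¹ (e_i ⊗ e_j)`, for the representation of
dimension `2s+1`. -/
def coeffNeg {A : Type*} [CommRing A] (s : ℕ) (t : Aˣ) (i j k : ℕ) : A :=
  (-1) ^ k * ((t ^ (-(s : ℤ) * k - ((s : ℤ) - i) * ((s : ℤ) - j)) : Aˣ) : A) *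
    gauss (t : A) (2 * s - j + k) k * ∏ x ∈ Finset.range k, ((t : A) ^ (i + 1 + x) - 1)

/-- The coefficient of `e_a ⊗ e_b` in `Ř^{±1} (e_i ⊗ e_j)` (`true` is `Ř`, `false` is `Ř⁻¹`). -/
def entry {A : Type*} [CommRing A] (s : ℕ) (t : Aˣ) (positive : Bool) (i j a b : ℕ) : A :=
  if positive then (if j ≤ a ∧ a + b = i + j then coeffPos s t i j (a - j) else 0)
  else (if i ≤ b ∧ a + b = i + j then coeffNeg s t i j (b - i) else 0)

/-- The matrix, on `V^{⊗ (r+1)}`, of the braid generator `g.1` (crossing of strands `g.1` and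
`g.1 + 1`), acting by `Ř` if `g.2 = true` and by `Ř⁻¹` if `g.2 = false`. -/
def crossing {A : Type*} [CommRing A] {r : ℕ} (s : ℕ) (t : Aˣ) (g : Fin r × Bool) :
    Matrix (Fin (r + 1) → Fin (2 * s + 1)) (Fin (r + 1) → Fin (2 * s + 1)) A := fun y x =>
  if ∀ l, l ≠ g.1.castSucc → l ≠ g.1.succ → y l = x l then
    entry s t g.2 (x g.1.castSucc) (x g.1.succ) (y g.1.castSucc) (y g.1.succ)
  else 0

/-- The matrix of a braid word with `r+1` strands. -/
def braidMatrix {A : Type*} [CommRing A] {r : ℕ} (s : ℕ) (t : Aˣ) (β : List (Fin r × Bool)) :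
    Matrix (Fin (r + 1) → Fin (2 * s + 1)) (Fin (r + 1) → Fin (2 * s + 1)) A :=
  (β.map (crossing s t)).prod

/-- The writhe (exponent sum) of a braid word. -/
def writhe {r : ℕ} (β : List (Fin r × Bool)) : ℤ :=
  (β.map fun g => if g.2 then (1 : ℤ) else -1).sum

/-- The permutation of the strands induced by a braid word. -/
def braidPerm {r : ℕ} (β : List (Fin r × Bool)) : Equiv.Perm (Fin (r + 1)) :=
  (β.map fun g => Equiv.swap g.1.castSucc g.1.succ).prod

/-- The closure of the braid word `β` is a knot (one component). -/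
def IsKnot {r : ℕ} (β : List (Fin r × Bool)) : Prop :=
  ∀ i j, (braidPerm β).SameCycle i j

/-- The normalised coloured Jones polynomial `J_{2s+1}(K; t)` of the closure `K` of the braid
word `β` with `r+1` strands (colour: the irreducible representation of dimension `2s+1`):
the braid is closed along the strands `1, ..., r` by the quantum trace, with weights
`K e_i = t^{s-i} e_i`, the resulting endomorphism of `V` is a scalar, read off on `e_0`,
and the framing is corrected by the twist `t^{s(s+1)}`. It is `1` for the unknot. -/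
def colouredJones {A : Type*} [CommRing A] {r : ℕ} (s : ℕ) (β : List (Fin r × Bool)) (t : Aˣ) :
    A :=
  ((t ^ (-(writhe β) * (s * (s + 1))) : Aˣ) : A) *
    ∑ x : Fin (r + 1) → Fin (2 * s + 1),
      if x 0 = 0 then
        (∏ l : Fin r, ((t ^ ((s : ℤ) - ((x l.succ : ℕ) : ℤ)) : Aˣ) : A)) * braidMatrix s t β x x
      else 0

/-- `a_n = J_n(K; e^{2πi/n})` for odd `n`, where `K` is the closure of the braid word `β`
(junk value for even `n`). -/
noncomputable def kashaev {r : ℕ} (β : List (Fin r × Bool)) (n : ℕ) : ℂ :=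
  colouredJones ((n - 1) / 2) β
    (Units.mk0 (Complex.exp (2 * Real.pi * Complex.I / n)) (Complex.exp_ne_zero _))

end Pool.Agent.Work.MP_b30479_gt
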