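import Pool.Agent.Work.MP_b30479_gt.Defs

/-!
# Coloured Jones polynomials of arborescent links at roots of unity

A weighted tree describes a tangle with four ends, two at the bottom and two at the top:

* `twist b` is the braid `σ^b` on two strands, a vertical twist region with `b` crossings
  (`Ř^b` on `V ⊗ V`);
* `attach T U` is the tangle `T` stacked on top of the tangle `U` rotated clockwise by a quarter
  turn.

The vertices of the tree are the twist regions; `attach T U` joins the root of `U` to the root of
`T` by an edge (the root of `attach T U` is the root of `T`).  The tangle is closed to a link as a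
2-braid is.  This link is the boundary of the plumbing of the twisted bands (annuli and Möbius
bands, with `b` half twists) according to the tree, and the links obtained in this way are the
arborescent (algebraic) links.

The colour is the representation `V` of dimension `n = 2s+1`, `t` is a unit (`t^n = 1` is used for
the rotation), and `e_0, ..., e_{2s}` is the basis of `V` of `Defs.lean`.  The quarter turn is made
with the cup `1 ↦ ∑_j t^{sj} e_j ⊗ e_{2s-j}` on the left and the cap
`e_i ⊗ e_{2s-i} ↦ t^{-2s²} t^{si}` on the right, which are the ones used in `TwoBridge.lean`.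
-/

namespace Pool.Agent.Work.MP_b30479_gt

/-- Weighted plane trees, or arborescent tangles. -/
inductive ArbTree : Type
  | twist (b : ℤ) : ArbTree
  | attach (T U : ArbTree) : ArbTree

/-- Endomorphisms of `V ⊗ V`; the entry at `(a, b)`, `(i, j)` is the coefficient of `e_a ⊗ e_b` in
the image of `e_i ⊗ e_j`. -/
abbrev TangleOp (A : Type*) (s : ℕ) :=
  Matrix (Fin (2 * s + 1) × Fin (2 * s + 1)) (Fin (2 * s + 1) × Fin (2 * s + 1)) A

/-- The braiding `Ř` (`c = true`) and its inverse (`c = false`). -/
def braiding {A : Type*} [CommRing A] (s : ℕ) (t : Aˣ) (c : Bool) : TangleOp A s := fun p q =>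
  entry s t c q.1 q.2 p.1 p.2

/-- The operator of a tangle after a clockwise quarter turn: `e_i ⊗ e_j ↦ (id ⊗ id ⊗ cap)
(id ⊗ T ⊗ id) (cup ⊗ e_i ⊗ e_j)`. -/
def rotateOp {A : Type*} [CommRing A] (s : ℕ) (t : Aˣ) (T : TangleOp A s) : TangleOp A s :=
  fun p q => ((t ^ ((s : ℤ) * (((p.1 : ℕ) : ℤ) - ((q.2 : ℕ) : ℤ))) : Aˣ) : A) *
    T (p.2, Fin.rev q.2) (Fin.rev p.1, q.1)

/-- The operator of an arborescent tangle (blackboard framing). -/
def ArbTree.op {A : Type*} [CommRing A] (s : ℕ) (t : Aˣ) : ArbTree → TangleOp A s
  | .twist b => braiding s t (decide (0 ≤ b)) ^ b.natAbs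
  | .attach T U => T.op s t * rotateOp s t (U.op s t)

/-- `T.Oriented sw se nw ne w`: the tangle `T` has an orientation for which the strands have the
directions `sw`, `se` at the bottom (left, right) and `nw`, `ne` at the top (`1` is up, `-1` is
down), and the sum of the signs of the crossings is `w`. -/
inductive ArbTree.Oriented : ArbTree → ℤ → ℤ → ℤ → ℤ → ℤ → Prop
  | twist (b x y : ℤ) (hx : x = 1 ∨ x = -1) (hy : y = 1 ∨ y = -1) :
      Oriented (.twist b) x y (if Even b then x else y) (if Even b then y else x) (b * (x * y))
  | attach {T U : ArbTree} {x y m₁ m₂ z₁ z₂ w₁ w₂ : ℤ} (hU : Oriented U (-m₁) x m₂ (-y) w₁)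
      (hT : Oriented T m₁ m₂ z₁ z₂ w₂) : Oriented (.attach T U) x y z₁ z₂ (w₁ + w₂)

/-- `W` is the writhe of the closure of the tangle `T`, for some orientation of this link (its
first strand being directed upwards). -/
def ArbTree.IsWrithe (T : ArbTree) (W : ℤ) : Prop := ∃ δ, T.Oriented 1 δ 1 δ W

/-- The normalised coloured Jones polynomial `J_{2s+1}(L; t)` of the closure `L` of the tangle `T`,
with writhe `W`, at `t` a primitive root of unity of order `2s+1`: the second strand is closed by
the quantum trace, the resulting endomorphism of `V` is a scalar, read off on `e_0`, and the framing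
is corrected by the twist `t^{s(s+1)}`. -/
def arbJones {A : Type*} [CommRing A] (s : ℕ) (T : ArbTree) (W : ℤ) (t : Aˣ) : A :=
  ((t ^ (-(W * (s * (s + 1)))) : Aˣ) : A) *
    ∑ j : Fin (2 * s + 1), ((t ^ ((s : ℤ) - ((j : ℕ) : ℤ)) : Aˣ) : A) * T.op s t (0, j) (0, j)

/-- `J_n(L; e^{2πi/n})` for odd `n`, where `L` is the closure of the tangle `T`, with writhe `W`
(junk value for even `n`). -/
noncomputable def arbKashaev (T : ArbTree) (W : ℤ) (n : ℕ) : ℂ :=
  arbJones ((n - 1) / 2) T W
    (Units.mk0 (Complex.exp (2 * Real.pi * Complex.I / n)) (Complex.exp_ne_zero _))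

/-! ### the tree -/

/-- The vertices of the tree. -/
def ArbTree.V : ArbTree → Type
  | .twist _ => Unit
  | .attach T U => T.V ⊕ U.V

/-- The edges of the tree. -/
def ArbTree.E : ArbTree → Type
  | .twist _ => Empty
  | .attach T U => Option (T.E ⊕ U.E)

/-- The root. -/
def ArbTree.root : (T : ArbTree) → T.V
  | .twist _ => ()
  | .attach T _ => Sum.inl T.root

/-- The weights (numbers of crossings). -/
def ArbTree.weight : (T : ArbTree) → T.V → ℤ
  | .twist b => fun _ => b
  | .attach T U => Sum.elim T.weight U.weight

/-- The end of an edge which is closer to the root. -/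
def ArbTree.src : (T : ArbTree) → T.E → T.V
  | .twist _ => Empty.elim
  | .attach T U => fun e => e.elim (Sum.inl T.root) (Sum.map T.src U.src)

/-- The other end of an edge. -/
def ArbTree.tgt : (T : ArbTree) → T.E → T.V
  | .twist _ => Empty.elim
  | .attach T U => fun e => e.elim (Sum.inr U.root) (Sum.map T.tgt U.tgt)

instance ArbTree.fintypeV : (T : ArbTree) → Fintype T.V
  | .twist _ => inferInstanceAs (Fintype Unit)
  | .attach T U => @instFintypeSum T.V U.V T.fintypeV U.fintypeV

instance ArbTree.fintypeE : (T : ArbTree) → Fintype T.E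
  | .twist _ => inferInstanceAs (Fintype Empty)
  | .attach T U => @instFintypeOption _ (@instFintypeSum T.E U.E T.fintypeE U.fintypeE)

instance ArbTree.decEqV : (T : ArbTree) → DecidableEq T.V
  | .twist _ => inferInstanceAs (DecidableEq Unit)
  | .attach T U => @instDecidableEqSum T.V U.V T.decEqV U.decEqV

/-- The degree of a vertex. -/
def ArbTree.deg (T : ArbTree) (v : T.V) : ℕ :=
  (Finset.univ.filter fun e => T.src e = v).card + (Finset.univ.filter fun e => T.tgt e = v).card

end Pool.Agent.Work.MP_b30479_gt
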