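import Pool.Agent.Work.MP_b30479_gt.Core

namespace Pool.Agent.Work.MP_b30479_gt

variable {A : Type*} [CommRing A] [IsDomain A]

/-- decomposition of states into blocks and residues -/
def blockEquiv (r L M N : ℕ) (h : L * M = N) :
    ((Fin (r + 1) → Fin L) × (Fin (r + 1) → Fin M)) ≃ (Fin (r + 1) → Fin N) :=
  (Equiv.arrowProdEquivProdArrow (Fin (r + 1)) (fun _ => Fin L) (fun _ => Fin M)).symm.trans
    (Equiv.arrowCongr (Equiv.refl _) (finProdFinEquiv.trans (finCongr h)))

lemma blockEquiv_apply (r L M N : ℕ) (h : L * M = N) (b : Fin (r + 1) → Fin L)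
    (c : Fin (r + 1) → Fin M) (l : Fin (r + 1)) :
    ((blockEquiv r L M N h (b, c) l : Fin N) : ℕ) = (c l : ℕ) + M * (b l : ℕ) := rfl

lemma crossing_block {r s s' u : ℕ} (h : (2 * u + 1) * (2 * s' + 1) = 2 * s + 1) {t : Aˣ}
    (ht : IsPrimitiveRoot (t : A) (2 * s' + 1)) (g : Fin r × Bool)
    (b b' : Fin (r + 1) → Fin (2 * u + 1)) (c c' : Fin (r + 1) → Fin (2 * s' + 1)) :
    crossing s t g (blockEquiv r _ _ _ h (b', c')) (blockEquiv r _ _ _ h (b, c)) =
      if b' = b ∘ (Equiv.swap g.1.castSucc g.1.succ) then crossing s' t g c' c else 0 := by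
  have hs : s = s' + (2 * s' + 1) * u := by
    have : 2 * s + 1 = 2 * (s' + (2 * s' + 1) * u) + 1 := by rw [← h]; ring
    omega
  have hne : g.1.castSucc ≠ g.1.succ := by
    intro hcon
    have := congrArg Fin.val hcon
    simp at this
  unfold crossing
  have hentry := entry_eq (m := 2 * s' + 1) rfl hs ht g.2
    (c g.1.castSucc).isLt (b1 := (b g.1.castSucc : ℕ)) (by have := (b g.1.castSucc).isLt; omega)
    (c g.1.succ).isLt (b2 := (b g.1.succ : ℕ)) (by have := (b g.1.succ).isLt; omega)
    (c' g.1.castSucc).isLt (e1 := (b' g.1.castSucc : ℕ)) (c' g.1.succ).isLt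
    (e2 := (b' g.1.succ : ℕ))
  simp only [blockEquiv_apply]
  rw [hentry]
  have hval : ∀ l, (blockEquiv r _ _ _ h (b', c') l = blockEquiv r _ _ _ h (b, c) l) ↔
      (b' l = b l ∧ c' l = c l) := by
    intro l
    constructor
    · intro hl
      have := congrArg Fin.val hl
      rw [blockEquiv_apply, blockEquiv_apply] at this
      obtain ⟨h1, h2⟩ := div_unique (c' l).isLt (c l).isLt this
      exact ⟨Fin.ext h1, Fin.ext h2⟩
    · rintro ⟨h1, h2⟩
      apply Fin.ext
      rw [blockEquiv_apply, blockEquiv_apply, h1, h2]
  simp only [hval]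
  by_cases hb : b' = b ∘ (Equiv.swap g.1.castSucc g.1.succ)
  · rw [if_pos hb]
    have e1 : b' g.1.castSucc = b g.1.succ := by rw [hb]; simp
    have e2 : b' g.1.succ = b g.1.castSucc := by rw [hb]; simp
    have e3 : ∀ l, l ≠ g.1.castSucc → l ≠ g.1.succ → b' l = b l := by
      intro l h1 h2
      rw [hb]
      simp [Equiv.swap_apply_of_ne_of_ne h1 h2]
    by_cases hc : ∀ l, l ≠ g.1.castSucc → l ≠ g.1.succ → c' l = c l
    · rw [if_pos (fun l h1 h2 => ⟨e3 l h1 h2, hc l h1 h2⟩), if_pos hc,
        if_pos ⟨by rw [e1], by rw [e2]⟩]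
    · rw [if_neg (fun hcon => hc (fun l h1 h2 => (hcon l h1 h2).2)), if_neg hc]
  · rw [if_neg hb]
    split_ifs with h1 h2
    · exfalso
      apply hb
      funext l
      rw [Function.comp_apply]
      by_cases hl1 : l = g.1.castSucc
      · subst hl1
        rw [Equiv.swap_apply_left]
        exact Fin.ext h2.1
      · by_cases hl2 : l = g.1.succ
        · subst hl2
          rw [Equiv.swap_apply_right]
          exact Fin.ext h2.2
        · rw [Equiv.swap_apply_of_ne_of_ne hl1 hl2]
          exact (h1 l hl1 hl2).1
    · rfl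
    · rfl

lemma braidMatrix_block {r s s' u : ℕ} (h : (2 * u + 1) * (2 * s' + 1) = 2 * s + 1) {t : Aˣ}
    (ht : IsPrimitiveRoot (t : A) (2 * s' + 1)) (β : List (Fin r × Bool))
    (b b' : Fin (r + 1) → Fin (2 * u + 1)) (c c' : Fin (r + 1) → Fin (2 * s' + 1)) :
    braidMatrix s t β (blockEquiv r _ _ _ h (b', c')) (blockEquiv r _ _ _ h (b, c)) =
      if b = b' ∘ (braidPerm β) then braidMatrix s' t β c' c else 0 := by
  induction β generalizing b' c' with
  | nil =>
    unfold braidMatrix braidPerm
    simp only [List.map_nil, List.prod_nil, Matrix.one_apply, Equiv.apply_eq_iff_eq,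
      Prod.mk.injEq]
    have h1 : b' ∘ ((1 : Equiv.Perm (Fin (r + 1))) : Fin (r + 1) → Fin (r + 1)) = b' := rfl
    rw [h1]
    by_cases hb : b' = b
    · subst hb
      by_cases hc : c' = c <;> simp [hc]
    · rw [if_neg (fun hcon => hb hcon.1), if_neg (fun hcon => hb hcon.symm)]
  | cons g β ih =>
    have e1 : braidMatrix s t (g :: β) = crossing s t g * braidMatrix s t β := by
      unfold braidMatrix; simp
    have e2 : braidMatrix s' t (g :: β) = crossing s' t g * braidMatrix s' t β := by
      unfold braidMatrix; simp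
    have e3 : braidPerm (g :: β) = Equiv.swap g.1.castSucc g.1.succ * braidPerm β := by
      unfold braidPerm; simp
    rw [e1, e2, e3, Matrix.mul_apply, Matrix.mul_apply]
    rw [← Equiv.sum_comp (blockEquiv r (2 * u + 1) (2 * s' + 1) (2 * s + 1) h)]
    rw [Fintype.sum_prod_type]
    have key : ∀ b'' c'', crossing s t g (blockEquiv r _ _ _ h (b', c'))
        (blockEquiv r _ _ _ h (b'', c'')) *
        braidMatrix s t β (blockEquiv r _ _ _ h (b'', c'')) (blockEquiv r _ _ _ h (b, c)) =
        if b'' = b' ∘ (Equiv.swap g.1.castSucc g.1.succ) then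
          (if b = b' ∘ (Equiv.swap g.1.castSucc g.1.succ * braidPerm β : Equiv.Perm _) then
            crossing s' t g c' c'' * braidMatrix s' t β c'' c else 0) else 0 := by
      intro b'' c''
      rw [crossing_block h ht, ih]
      have hinv : (b' = b'' ∘ (Equiv.swap g.1.castSucc g.1.succ)) ↔
          (b'' = b' ∘ (Equiv.swap g.1.castSucc g.1.succ)) := by
        constructor
        · intro hb; rw [hb]; funext l; simp
        · intro hb; rw [hb]; funext l; simp
      by_cases hb : b'' = b' ∘ (Equiv.swap g.1.castSucc g.1.succ)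
      · rw [if_pos (hinv.mpr hb), if_pos hb]
        subst hb
        have : (b' ∘ (Equiv.swap g.1.castSucc g.1.succ)) ∘ (braidPerm β) =
            b' ∘ (Equiv.swap g.1.castSucc g.1.succ * braidPerm β : Equiv.Perm _) := by
          funext l; simp
        rw [this]
        split_ifs <;> simp
      · rw [if_neg (fun hcon => hb (hinv.mp hcon)), if_neg hb, zero_mul]
    simp only [key]
    rw [Finset.sum_comm]
    simp only [Finset.sum_ite_eq', Finset.mem_univ, if_true]
    split_ifs with hb
    · rfl
    · simp

lemma jones_block {r s s' u : ℕ} (h : (2 * u + 1) * (2 * s' + 1) = 2 * s + 1) {t : Aˣ}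
    (ht : IsPrimitiveRoot (t : A) (2 * s' + 1)) (β : List (Fin r × Bool)) (hβ : IsKnot β) :
    colouredJones s β t = colouredJones s' β t := by
  have hs : s = s' + (2 * s' + 1) * u := by
    have : 2 * s + 1 = 2 * (s' + (2 * s' + 1) * u) + 1 := by rw [← h]; ring
    omega
  have htm : t ^ (2 * s' + 1) = 1 := by
    apply Units.ext
    rw [Units.val_pow_eq_pow_val, ht.pow_eq_one, Units.val_one]
  unfold colouredJones
  congr 1
  · congr 1
    apply zpow_congr htm (z := -(writhe β) * (u * (s + s' + 1)))
    subst hs
    push_cast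
    ring
  · rw [← Equiv.sum_comp (blockEquiv r (2 * u + 1) (2 * s' + 1) (2 * s + 1) h)]
    rw [Fintype.sum_prod_type, Finset.sum_comm]
    apply Finset.sum_congr rfl
    intro c _
    rw [Finset.sum_eq_single (fun _ => (0 : Fin (2 * u + 1)))]
    · have h0 : (blockEquiv r (2 * u + 1) (2 * s' + 1) (2 * s + 1) h (fun _ => 0, c) 0 = 0) ↔
          c 0 = 0 := by
        rw [← Fin.val_eq_zero_iff, blockEquiv_apply, ← Fin.val_eq_zero_iff]
        simp
      simp only [h0]
      split_ifs with hc
      · rw [braidMatrix_block h ht, if_pos (by funext l; rfl)]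
        congr 1
        apply Finset.prod_congr rfl
        intro l _
        rw [blockEquiv_apply]
        congr 1
        apply zpow_congr htm (z := (u : ℤ))
        subst hs
        push_cast
        simp
        ring
      · rfl
    · intro b _ hb
      split_ifs with h0
      · rw [braidMatrix_block h ht]
        split_ifs with hbb
        · exfalso
          apply hb
          have hconst : ∀ l, b l = b 0 := by
            intro l
            obtain ⟨k, hk⟩ := hβ 0 l
            rw [← hk]
            have hz : ∀ k : ℤ, ∀ x, b ((braidPerm β ^ k) x) = b x := by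
              have h1 : ∀ x, b (braidPerm β x) = b x := fun x => (congrFun hbb x).symm
              have h2 : ∀ x, b ((braidPerm β)⁻¹ x) = b x := by
                intro x
                rw [← h1 ((braidPerm β)⁻¹ x)]
                simp
              intro k
              induction k using Int.induction_on with
              | zero => intro x; simp
              | succ n ih => intro x; rw [zpow_add_one, Equiv.Perm.mul_apply, ih, h1]
              | pred n ih => intro x; rw [zpow_sub_one, Equiv.Perm.mul_apply, ih, h2]
            exact hz k 0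
          have hb0 : b 0 = 0 := by
            have := congrArg Fin.val h0
            rw [blockEquiv_apply] at this
            apply Fin.ext
            simp at this ⊢
            exact this.2
          funext l
          rw [hconst l, hb0]
        · simp
      · rfl
    · intro hcon
      exact absurd (Finset.mem_univ _) hcon

end Pool.Agent.Work.MP_b30479_gt
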