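import Pool.Agent.Work.MP_b30479_gt.VermaPoly

/-!
# Order of vanishing and leading coefficients at roots of unity
-/

namespace Pool.Agent.Work.MP_b30479_gt

open Finset Polynomial

lemma cyc_prime {m : ℕ} (hm : 0 < m) : Prime (cyclotomic m ℤ) :=
  (cyclotomic.irreducible hm).prime

lemma cyc_not_dvd_X_pow {m : ℕ} (hm : 0 < m) (E : ℕ) : ¬ cyclotomic m ℤ ∣ (X : ℤ[X]) ^ E := by
  rintro ⟨Q, hQ⟩
  have hζ := root_prim hm
  have h1 : aeval (root m) (cyclotomic m ℤ) = 0 := by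
    rw [aeval_def, ← eval_map, map_cyclotomic]
    exact hζ.isRoot_cyclotomic hm
  have h2 := congrArg (aeval (root m)) hQ
  rw [map_mul, h1, zero_mul, map_pow, aeval_X] at h2
  exact pow_ne_zero E (hζ.ne_zero hm.ne') h2

lemma cyc_dvd_X_pow_sub_one (m : ℕ) : cyclotomic m ℤ ∣ (X : ℤ[X]) ^ m - 1 :=
  cyclotomic.dvd_X_pow_sub_one m ℤ

lemma cyc_pow_dvd_iff_le {r : ℕ} {β : List (Fin r × Bool)} (hβ : IsKnot β) {m i D D' : ℕ}
    (hm : 0 < m) (hD : m * i ≤ D) (hDD : D ≤ D') :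
    cyclotomic m ℤ ^ i ∣ vF β D ↔ cyclotomic m ℤ ^ i ∣ vF β D' := by
  have h := vF_congr hβ hm hD hDD
  have h1 : cyclotomic m ℤ ^ i ∣ vF β D' * X ^ vE β D - vF β D * X ^ vE β D' :=
    (pow_dvd_pow_of_dvd (cyc_dvd_X_pow_sub_one m) i).trans h
  constructor
  · intro h2
    have h3 : cyclotomic m ℤ ^ i ∣ vF β D' * X ^ vE β D := by
      have := dvd_add h1 (h2.mul_right (X ^ vE β D'))
      rwa [sub_add_cancel] at this
    exact (cyc_prime hm).pow_dvd_of_dvd_mul_right i (cyc_not_dvd_X_pow hm _) h3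
  · intro h2
    have h3 : cyclotomic m ℤ ^ i ∣ vF β D * X ^ vE β D' := by
      have := dvd_sub (h2.mul_right (X ^ vE β D)) h1
      rwa [sub_sub_cancel] at this
    exact (cyc_prime hm).pow_dvd_of_dvd_mul_right i (cyc_not_dvd_X_pow hm _) h3

lemma cyc_pow_dvd_iff {r : ℕ} {β : List (Fin r × Bool)} (hβ : IsKnot β) {m i D D' : ℕ}
    (hm : 0 < m) (hD : m * i ≤ D) (hD' : m * i ≤ D') :
    cyclotomic m ℤ ^ i ∣ vF β D ↔ cyclotomic m ℤ ^ i ∣ vF β D' := by
  rcases le_total D D' with h | h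
  · exact cyc_pow_dvd_iff_le hβ hm hD h
  · exact (cyc_pow_dvd_iff_le hβ hm hD' h).symm

/-- the order of vanishing at the primitive `m`-th roots of unity is `j` -/
def OrdEq {r : ℕ} (β : List (Fin r × Bool)) (m j : ℕ) : Prop :=
  cyclotomic m ℤ ^ j ∣ vF β (m * (j + 1)) ∧ ¬ cyclotomic m ℤ ^ (j + 1) ∣ vF β (m * (j + 1))

/-- `F = Φ_m^j H` at level `m (j+1)` -/
def Lead {r : ℕ} (β : List (Fin r × Bool)) (m j : ℕ) (H : ℤ[X]) : Prop :=
  vF β (m * (j + 1)) = cyclotomic m ℤ ^ j * H ∧ ¬ cyclotomic m ℤ ∣ H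

lemma OrdEq.exists_lead {r : ℕ} {β : List (Fin r × Bool)} {m j : ℕ} (h : OrdEq β m j) :
    ∃ H, Lead β m j H := by
  obtain ⟨⟨H, hH⟩, h2⟩ := h
  refine ⟨H, hH, ?_⟩
  rintro ⟨Q, hQ⟩
  apply h2
  rw [hH, hQ]
  exact ⟨Q, by ring⟩

/-- same decomposition at every higher level, with leading values of the same modulus -/
lemma Lead.level {r : ℕ} {β : List (Fin r × Bool)} (hβ : IsKnot β) {m j : ℕ} (hm : 0 < m)
    {H : ℤ[X]} (h : Lead β m j H) {D : ℕ} (hD : m * (j + 1) ≤ D) :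
    ∃ H' : ℤ[X], vF β D = cyclotomic m ℤ ^ j * H' ∧
      ∀ w ∈ primitiveRoots m ℂ, ‖aeval w H'‖ = ‖aeval w H‖ := by
  obtain ⟨h1, h2⟩ := h
  have h3 : cyclotomic m ℤ ^ j ∣ vF β D := by
    have h4 : m * j ≤ m * (j + 1) := Nat.mul_le_mul_left m (by omega)
    rw [← cyc_pow_dvd_iff hβ hm h4 (h4.trans hD)]
    exact ⟨H, h1⟩
  obtain ⟨H', hH'⟩ := h3
  refine ⟨H', hH', ?_⟩
  intro w hw
  rw [mem_primitiveRoots hm] at hw
  have h4 := vF_congr hβ hm (i := j + 1) (le_refl _) hD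
  have h5 : cyclotomic m ℤ ^ (j + 1) ∣
      cyclotomic m ℤ ^ j * (H' * X ^ vE β (m * (j + 1)) - H * X ^ vE β D) := by
    have := (pow_dvd_pow_of_dvd (cyc_dvd_X_pow_sub_one m) (j + 1)).trans h4
    rw [hH', h1] at this
    convert this using 1
    ring
  have h6 : cyclotomic m ℤ ∣ H' * X ^ vE β (m * (j + 1)) - H * X ^ vE β D := by
    rw [pow_succ] at h5
    exact (mul_dvd_mul_iff_left (pow_ne_zero j (cyclotomic_ne_zero m ℤ))).mp h5
  obtain ⟨Q, hQ⟩ := h6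
  have h7 : aeval w (cyclotomic m ℤ) = 0 := by
    rw [aeval_def, ← eval_map, map_cyclotomic]
    exact hw.isRoot_cyclotomic hm
  have h8 := congrArg (aeval w) hQ
  rw [map_mul, h7, zero_mul, map_sub, map_mul, map_mul, map_pow, map_pow, aeval_X, sub_eq_zero]
    at h8
  have h9 := congrArg norm h8
  have hw1 : ‖w‖ = 1 := hw.norm'_eq_one hm.ne'
  rw [norm_mul, norm_mul, norm_pow, norm_pow, hw1, one_pow, one_pow, mul_one, mul_one] at h9
  exact h9

/-- `Φ_{m p^b} ≡ p S mod Φ_m` -/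
lemma cyc_congr {m p b : ℕ} (hp : p.Prime) (hpm : ¬ p ∣ m) (hb : 1 ≤ b) :
    ∃ S Q : ℤ[X], cyclotomic (m * p ^ b) ℤ = C (p : ℤ) * S + cyclotomic m ℤ * Q := by
  have := Fact.mk hp
  have h1 : (cyclotomic (m * p ^ b) ℤ - cyclotomic m ℤ ^ (p ^ b - p ^ (b - 1))).map
      (Int.castRingHom (ZMod p)) = 0 := by
    rw [Polynomial.map_sub, Polynomial.map_pow, map_cyclotomic, map_cyclotomic, mul_comm m,
      cyclotomic_mul_prime_pow_eq (ZMod p) hpm (by omega), sub_self]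
  have h2 : C (p : ℤ) ∣ cyclotomic (m * p ^ b) ℤ - cyclotomic m ℤ ^ (p ^ b - p ^ (b - 1)) := by
    rw [C_dvd_iff_dvd_coeff]
    intro i
    have h3 := congrArg (fun q => q.coeff i) h1
    simp only [coeff_map, coeff_zero, eq_intCast] at h3
    exact (ZMod.intCast_zmod_eq_zero_iff_dvd _ p).mp h3
  obtain ⟨S, hS⟩ := h2
  have h3 : p ^ (b - 1) < p ^ b := Nat.pow_lt_pow_right hp.one_lt (by omega)
  refine ⟨S, cyclotomic m ℤ ^ (p ^ b - p ^ (b - 1) - 1), ?_⟩
  have h4 : cyclotomic m ℤ * cyclotomic m ℤ ^ (p ^ b - p ^ (b - 1) - 1) =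
      cyclotomic m ℤ ^ (p ^ b - p ^ (b - 1)) := by
    rw [← pow_succ']
    congr 1
    omega
  rw [h4, ← hS]
  ring

lemma cyc_ne_of_ne {a b : ℕ} (hab : a ≠ b) : cyclotomic a ℤ ≠ cyclotomic b ℤ := by
  intro h
  exact hab (cyclotomic_injective h)

lemma cyc_not_dvd {a b : ℕ} (ha : 0 < a) (hb : 0 < b) (hab : a ≠ b) :
    ¬ cyclotomic a ℤ ∣ cyclotomic b ℤ := by
  intro h
  have h1 := (cyc_prime ha).irreducible.associated_of_dvd (cyc_prime hb).irreducible h
  have h2 := eq_of_monic_of_associated (cyclotomic.monic a ℤ) (cyclotomic.monic b ℤ) h1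
  exact cyc_ne_of_ne hab h2

/-- **order bound** -/
theorem order_bound {r : ℕ} {β : List (Fin r × Bool)} (hβ : IsKnot β) {m j : ℕ} (hm : 0 < m)
    {H : ℤ[X]} (hL : Lead β m j H) (S : Finset ℕ) (b c : ℕ → ℕ)
    (hS : ∀ p ∈ S, p.Prime ∧ ¬ p ∣ m ∧ 1 ≤ b p ∧
      cyclotomic (m * p ^ b p) ℤ ^ c p ∣ vF β (m * p ^ b p * c p)) :
    m.totient * ∑ p ∈ S, c p * Real.log p ≤
      ∑ w ∈ primitiveRoots m ℂ, Real.log ‖aeval w H‖ := by
  classical
  set D : ℕ := m * (j + 1) + ∑ p ∈ S, m * p ^ b p * c p with hD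
  obtain ⟨H', hH', hnorm⟩ := hL.level hβ hm (D := D) (by omega)
  have hne : ∀ p ∈ S, m * p ^ b p ≠ m := by
    intro p hp
    obtain ⟨hpp, -, hb, -⟩ := hS p hp
    have : 1 < p ^ b p := Nat.one_lt_pow (by omega) hpp.one_lt
    intro h
    nlinarith
  have hpos : ∀ p ∈ S, 0 < m * p ^ b p := by
    intro p hp
    exact Nat.mul_pos hm (pow_pos (hS p hp).1.pos _)
  have hdvd : ∀ p ∈ S, cyclotomic (m * p ^ b p) ℤ ^ c p ∣ H' := by
    intro p hp
    obtain ⟨hpp, hpm, hb, hd⟩ := hS p hp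
    have hle : m * p ^ b p * c p ≤ D := by
      have := Finset.single_le_sum (f := fun p => m * p ^ b p * c p)
        (fun _ _ => Nat.zero_le _) hp
      omega
    have h1 : cyclotomic (m * p ^ b p) ℤ ^ c p ∣ vF β D :=
      (cyc_pow_dvd_iff hβ (hpos p hp) (le_refl _) hle).mp hd
    rw [hH'] at h1
    refine (cyc_prime (hpos p hp)).pow_dvd_of_dvd_mul_left (c p) ?_ h1
    intro h2
    exact cyc_not_dvd (hpos p hp) hm (hne p hp) ((cyc_prime (hpos p hp)).dvd_of_dvd_pow h2)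
  have hprod : ∏ p ∈ S, cyclotomic (m * p ^ b p) ℤ ^ c p ∣ H' := by
    apply Finset.prod_dvd_of_isRelPrime
    · intro p hp q hq hpq
      show IsRelPrime _ _
      apply IsRelPrime.pow
      rw [(cyc_prime (hpos p hp)).irreducible.isRelPrime_iff_not_dvd]
      apply cyc_not_dvd (hpos p hp) (hpos q hq)
      intro h
      have h1 : p ^ b p = q ^ b q := Nat.eq_of_mul_eq_mul_left hm h
      have h2 : p ∣ q ^ b q := by
        rw [← h1]
        exact dvd_pow_self p (by have := (hS p hp).2.2.1; omega)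
      have h3 := (hS p hp).1.dvd_of_dvd_pow h2
      exact hpq ((Nat.prime_dvd_prime_iff_eq (hS p hp).1 (hS q hq).1).mp h3)
    · exact hdvd
  obtain ⟨Q, hQ⟩ := hprod
  -- choose S_p
  have hcong : ∀ p : ℕ, ∃ Sp : ℤ[X], p ∈ S → ∀ w ∈ primitiveRoots m ℂ,
      aeval w (cyclotomic (m * p ^ b p) ℤ) = (p : ℂ) * aeval w Sp := by
    intro p
    by_cases hp : p ∈ S
    · obtain ⟨hpp, hpm, hb, -⟩ := hS p hp
      obtain ⟨Sp, Qp, hSp⟩ := cyc_congr hpp hpm hb
      refine ⟨Sp, fun _ w hw => ?_⟩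
      rw [mem_primitiveRoots hm] at hw
      have h7 : aeval w (cyclotomic m ℤ) = 0 := by
        rw [aeval_def, ← eval_map, map_cyclotomic]
        exact hw.isRoot_cyclotomic hm
      rw [hSp, map_add, map_mul, map_mul, h7, zero_mul, add_zero, aeval_C]
      simp
    · exact ⟨0, fun h => absurd h hp⟩
  choose Sp hSp using hcong
  set R : ℤ[X] := (∏ p ∈ S, Sp p ^ c p) * Q with hR
  set N : ℕ := ∏ p ∈ S, p ^ c p with hN
  have hval : ∀ w ∈ primitiveRoots m ℂ, aeval w H' = (N : ℂ) * aeval w R := by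
    intro w hw
    rw [hQ, map_mul, map_prod, hR, map_mul, map_prod, hN]
    push_cast
    rw [← mul_assoc, ← Finset.prod_mul_distrib]
    congr 1
    apply Finset.prod_congr rfl
    intro p hp
    rw [map_pow, map_pow, hSp p hp w hw, mul_pow]
  have hH0 : ∀ w ∈ primitiveRoots m ℂ, aeval w H ≠ 0 := by
    intro w hw h0
    rw [mem_primitiveRoots hm] at hw
    exact hL.2 (cyclotomic_dvd_of_root hm hw h0)
  have hH'0 : ∀ w ∈ primitiveRoots m ℂ, aeval w H' ≠ 0 := by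
    intro w hw h0
    have h1 := hnorm w hw
    rw [h0, norm_zero] at h1
    exact hH0 w hw (norm_eq_zero.mp h1.symm)
  have hRw : ∀ w ∈ primitiveRoots m ℂ, aeval w R ≠ 0 := by
    intro w hw h0
    apply hH'0 w hw
    rw [hval w hw, h0, mul_zero]
  have h1 := one_le_prod hm hRw
  have hNpos : 0 < N := Finset.prod_pos fun p hp => pow_pos (hS p hp).1.pos _
  have hlogN : Real.log N = ∑ p ∈ S, c p * Real.log p := by
    rw [hN]
    push_cast
    rw [Real.log_prod]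
    · apply Finset.sum_congr rfl
      intro p _
      rw [Real.log_pow]
    · intro p hp
      exact pow_ne_zero _ (by exact_mod_cast (hS p hp).1.pos.ne')
  have h2 : (m.totient : ℝ) * Real.log N ≤ ∑ w ∈ primitiveRoots m ℂ, Real.log ‖aeval w H'‖ := by
    have h3 : ∑ w ∈ primitiveRoots m ℂ, Real.log ‖aeval w H'‖ =
        (m.totient : ℝ) * Real.log N + ∑ w ∈ primitiveRoots m ℂ, Real.log ‖aeval w R‖ := by
      rw [← Complex.card_primitiveRoots, ← nsmul_eq_mul, ← Finset.sum_const,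
        ← Finset.sum_add_distrib]
      apply Finset.sum_congr rfl
      intro w hw
      rw [hval w hw, norm_mul, Complex.norm_natCast, Real.log_mul]
      · exact_mod_cast hNpos.ne'
      · exact norm_ne_zero_iff.mpr (hRw w hw)
    rw [h3, ← Real.log_prod (fun w hw => norm_ne_zero_iff.mpr (hRw w hw))]
    have := Real.log_nonneg h1
    linarith
  rw [← hlogN]
  refine h2.trans (le_of_eq ?_)
  apply Finset.sum_congr rfl
  intro w hw
  rw [hnorm w hw]

end Pool.Agent.Work.MP_b30479_gt
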