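import Mathlib

/-!
# `m ≤ 2 φ(m) (1 + log m)`
-/

namespace Pool.Agent.Work.MP_b30479_gt

open Finset

lemma prod_ratio_le (S : Finset ℕ) (hS : ∀ p ∈ S, 2 ≤ p) :
    ∏ p ∈ S, ((p : ℝ) / (p - 1)) ≤ S.card + 1 := by
  induction S using Finset.induction_on_max with
  | empty => simp
  | insert a S ha ih =>
    have hnot : a ∉ S := fun h => lt_irrefl a (ha a h)
    have ha2 : 2 ≤ a := hS a (Finset.mem_insert_self a S)
    rw [Finset.prod_insert hnot, Finset.card_insert_of_notMem hnot]
    have ih' := ih (fun p hp => hS p (Finset.mem_insert_of_mem hp))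
    have hcard : S.card + 2 ≤ a := by
      have hsub : S ⊆ Ico 2 a := by
        intro p hp
        rw [Finset.mem_Ico]
        exact ⟨hS p (Finset.mem_insert_of_mem hp), ha p hp⟩
      have := Finset.card_le_card hsub
      rw [Nat.card_Ico] at this
      omega
    have hcard' : (S.card : ℝ) + 2 ≤ a := by exact_mod_cast hcard
    have hpos : (0 : ℝ) ≤ S.card := Nat.cast_nonneg _
    have ha1 : (0 : ℝ) < (a : ℝ) - 1 := by linarith
    have h1 : (a : ℝ) / (a - 1) ≤ ((S.card : ℝ) + 2) / (S.card + 1) := by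
      rw [div_le_div_iff₀ ha1 (by linarith)]
      nlinarith
    have h2 : 0 ≤ ∏ p ∈ S, ((p : ℝ) / (p - 1)) := by
      apply Finset.prod_nonneg
      intro p hp
      have : (2 : ℝ) ≤ p := by exact_mod_cast hS p (Finset.mem_insert_of_mem hp)
      exact div_nonneg (by linarith) (by linarith)
    calc (a : ℝ) / (a - 1) * ∏ p ∈ S, ((p : ℝ) / (p - 1))
        ≤ ((S.card : ℝ) + 2) / (S.card + 1) * (S.card + 1) :=
          mul_le_mul h1 ih' h2 (by positivity)
      _ = ((S.card + 1 : ℕ) : ℝ) + 1 := by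
          push_cast
          field_simp
          ring

theorem le_two_mul_totient {m : ℕ} (hm : 0 < m) :
    (m : ℝ) ≤ 2 * m.totient * (1 + Real.log m) := by
  have hm' : (0 : ℝ) < m := by exact_mod_cast hm
  have hlog : 0 ≤ Real.log m := Real.log_natCast_nonneg m
  have hS : ∀ p ∈ m.primeFactors, 2 ≤ p := fun p hp => (Nat.prime_of_mem_primeFactors hp).two_le
  have h1 := prod_ratio_le m.primeFactors hS
  have h2 : (m.totient : ℝ) * ∏ p ∈ m.primeFactors, ((p : ℝ) / (p - 1)) = m := by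
    have h := Nat.totient_eq_mul_prod_factors m
    have h3 : ((m.totient : ℚ) : ℝ) = ((m * ∏ p ∈ m.primeFactors, (1 - (p : ℚ)⁻¹) : ℚ) : ℝ) := by
      rw [h]
    push_cast at h3
    rw [h3, mul_assoc, ← Finset.prod_mul_distrib]
    have : ∏ p ∈ m.primeFactors, ((1 - (p : ℝ)⁻¹) * ((p : ℝ) / (p - 1))) = 1 := by
      apply Finset.prod_eq_one
      intro p hp
      have hp2 : (2 : ℝ) ≤ p := by exact_mod_cast hS p hp
      have h4 : (p : ℝ) - 1 ≠ 0 := by linarith
      have h5 : (p : ℝ) ≠ 0 := by linarith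
      field_simp
    rw [this, mul_one]
  have h3 : (m.primeFactors.card : ℝ) ≤ 2 * Real.log m := by
    have h4 : 2 ^ m.primeFactors.card ≤ m := by
      calc 2 ^ m.primeFactors.card ≤ ∏ p ∈ m.primeFactors, p :=
            Finset.pow_card_le_prod _ _ _ hS
        _ ≤ m := Nat.le_of_dvd hm (Nat.prod_primeFactors_dvd m)
    have h5 : ((2 : ℝ) ^ m.primeFactors.card) ≤ m := by exact_mod_cast h4
    have h6 := Real.log_le_log (by positivity) h5
    rw [Real.log_pow] at h6
    have h7 : (1 : ℝ) / 2 ≤ Real.log 2 := by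
      have := Real.log_two_gt_d9
      linarith
    have h8 : (0 : ℝ) ≤ m.primeFactors.card := Nat.cast_nonneg _
    nlinarith
  have hφ : (0 : ℝ) ≤ m.totient := Nat.cast_nonneg _
  calc (m : ℝ) = (m.totient : ℝ) * ∏ p ∈ m.primeFactors, ((p : ℝ) / (p - 1)) := h2.symm
    _ ≤ m.totient * (m.primeFactors.card + 1) := mul_le_mul_of_nonneg_left h1 hφ
    _ ≤ m.totient * (2 * (1 + Real.log m)) := by
        apply mul_le_mul_of_nonneg_left _ hφ
        linarith
    _ = _ := by ring

end Pool.Agent.Work.MP_b30479_gt
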