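import Pool.Agent.Work.MP_b30479_gt.NearJones
import Pool.Agent.Work.MP_b30479_gt.Order
import Pool.Agent.Work.MP_b30479_gt.Totient

/-!
# Bounds for the leading values via the maximum principle
-/

namespace Pool.Agent.Work.MP_b30479_gt

open Finset Polynomial

/-- `Φ_m'(ζ)` -/
noncomputable def dcyc (m : ℕ) (ζ : ℂ) : ℂ := aeval ζ (derivative (cyclotomic m ℤ))

lemma aeval_cyc_eq_prod {m : ℕ} (hm : 0 < m) (z : ℂ) :
    aeval z (cyclotomic m ℤ) = ∏ μ ∈ primitiveRoots m ℂ, (z - μ) := by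
  have h1 := cyclotomic_eq_prod_X_sub_primitiveRoots (root_prim hm)
  rw [aeval_def, ← eval_map, show algebraMap ℤ ℂ = Int.castRingHom ℂ from RingHom.ext_int _ _,
    map_cyclotomic, h1, eval_prod]
  simp

lemma dcyc_eq_prod {m : ℕ} (hm : 0 < m) {ζ : ℂ} (hζ : IsPrimitiveRoot ζ m) :
    dcyc m ζ = ∏ μ ∈ (primitiveRoots m ℂ).erase ζ, (ζ - μ) := by
  have hmem : ζ ∈ primitiveRoots m ℂ := (mem_primitiveRoots hm).mpr hζ
  have h1 := cyclotomic_eq_prod_X_sub_primitiveRoots (root_prim hm)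
  unfold dcyc
  rw [aeval_def, ← eval_map, ← derivative_map, show algebraMap ℤ ℂ = Int.castRingHom ℂ from
    RingHom.ext_int _ _, map_cyclotomic, h1, ← Finset.mul_prod_erase _ _ hmem, derivative_mul,
    eval_add, eval_mul, eval_mul, eval_prod]
  simp

lemma norm_sub_root_ge {m : ℕ} (hm : 2 ≤ m) {ζ μ : ℂ} (hζ : IsPrimitiveRoot ζ m)
    (hμ : IsPrimitiveRoot μ m) (hne : μ ≠ ζ) : 2 / (m : ℝ) ≤ ‖ζ - μ‖ := by
  have : NeZero m := ⟨by omega⟩
  obtain ⟨i, hi, -, hiμ⟩ := hζ.isPrimitiveRoot_iff.mp hμ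
  have h1 : ζ * (1 - ζ ^ (m - 1 + i)) = ζ - μ := by
    rw [mul_sub, mul_one, pow_add, ← mul_assoc, ← pow_succ', Nat.sub_add_cancel (by omega),
      hζ.pow_eq_one, one_mul, hiμ]
  have h2 : ¬ m ∣ m - 1 + i := by
    intro h
    have h3 : ζ ^ (m - 1 + i) = 1 := (hζ.pow_eq_one_iff_dvd _).mpr h
    rw [h3, sub_self, mul_zero] at h1
    exact hne (sub_eq_zero.mp h1.symm).symm
  have h3 := one_sub_pow_ge hm hζ h2
  rw [← h1, norm_mul, hζ.norm'_eq_one (by omega), one_mul]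
  exact h3

lemma norm_dcyc_pos {m : ℕ} (hm : 2 ≤ m) {ζ : ℂ} (hζ : IsPrimitiveRoot ζ m) : 0 < ‖dcyc m ζ‖ := by
  rw [dcyc_eq_prod (by omega) hζ, norm_prod]
  apply Finset.prod_pos
  intro μ hμ
  rw [Finset.mem_erase, mem_primitiveRoots (by omega)] at hμ
  have h1 := norm_sub_root_ge hm hζ hμ.2 hμ.1
  have : (0 : ℝ) < m := by exact_mod_cast (by omega : 0 < m)
  exact lt_of_lt_of_le (by positivity) h1

lemma sum_log_dcyc_nonneg {m : ℕ} (hm : 2 ≤ m) :
    0 ≤ ∑ ζ ∈ primitiveRoots m ℂ, Real.log ‖dcyc m ζ‖ := by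
  have h1 : ∀ ζ ∈ primitiveRoots m ℂ, aeval ζ (derivative (cyclotomic m ℤ)) ≠ 0 := by
    intro ζ hζ
    rw [mem_primitiveRoots (by omega)] at hζ
    exact norm_pos_iff.mp (norm_dcyc_pos hm hζ)
  show 0 ≤ ∑ ζ ∈ primitiveRoots m ℂ, Real.log ‖aeval ζ (derivative (cyclotomic m ℤ))‖
  rw [← Real.log_prod (fun ζ hζ => norm_ne_zero_iff.mpr (h1 ζ hζ))]
  exact Real.log_nonneg (one_le_prod (by omega) h1)

/-- lower bound for the cyclotomic polynomial near a root -/
lemma norm_cyc_ge {m W : ℕ} {ζ : ℂ} {w : ℂˣ} (h : NearW m W ζ w) :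
    1 / (18 * (W : ℝ) ^ 3) * ‖dcyc m ζ‖ ≤ ‖aeval (w : ℂ) (cyclotomic m ℤ)‖ := by
  have hW3 := h.W_three
  have hm3 := h.hm
  have hm' : (3 : ℝ) ≤ m := by exact_mod_cast hm3
  have hmW : (m : ℝ) ≤ W := by exact_mod_cast h.hW
  have hp := h.rho_pos
  have hmem : ζ ∈ primitiveRoots m ℂ := (mem_primitiveRoots (by omega)).mpr h.hζ
  rw [aeval_cyc_eq_prod (by omega), dcyc_eq_prod (by omega) h.hζ,
    ← Finset.mul_prod_erase _ _ hmem, norm_mul, h.dist, norm_prod, norm_prod]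
  set ρ : ℝ := 1 / (9 * (W : ℝ) ^ 3) with hρ
  have h1 : ∀ μ ∈ (primitiveRoots m ℂ).erase ζ, ‖ζ - μ‖ * (1 - ρ * m / 2) ≤ ‖(w : ℂ) - μ‖ := by
    intro μ hμ
    rw [Finset.mem_erase, mem_primitiveRoots (by omega)] at hμ
    have h2 := norm_sub_root_ge (by omega) h.hζ hμ.2 hμ.1
    have h3 : ‖ζ - μ‖ ≤ ‖(w : ℂ) - μ‖ + ‖(w : ℂ) - ζ‖ := by
      have := norm_sub_le ((w : ℂ) - μ) ((w : ℂ) - ζ)
      rwa [sub_sub_sub_cancel_left] at this
    rw [h.dist] at h3
    have h4 : 1 ≤ ‖ζ - μ‖ * (m / 2) := by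
      rw [div_le_iff₀ (by linarith)] at h2
      linarith
    nlinarith
  have hx : ρ * m / 2 * m ≤ 1 / 2 := by
    have h2 : ρ * m * m ≤ ρ * W * W := by
      have : (m : ℝ) * m ≤ W * W := by nlinarith
      nlinarith
    have h3 : ρ * W * W = 1 / (9 * W) := by
      rw [hρ]
      field_simp
    have h4 : 1 / (9 * (W : ℝ)) ≤ 1 := by
      rw [div_le_one (by positivity)]
      linarith
    nlinarith
  have hx0 : 0 ≤ ρ * m / 2 := by positivity
  have hx1 : ρ * m / 2 ≤ 1 / 2 := by nlinarith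
  have h2 : (∏ μ ∈ (primitiveRoots m ℂ).erase ζ, ‖ζ - μ‖) * (1 - ρ * m / 2) ^
      ((primitiveRoots m ℂ).erase ζ).card ≤ ∏ μ ∈ (primitiveRoots m ℂ).erase ζ, ‖(w : ℂ) - μ‖ := by
    rw [← Finset.prod_const, ← Finset.prod_mul_distrib]
    apply Finset.prod_le_prod
    · intro μ _
      exact mul_nonneg (norm_nonneg _) (by linarith)
    · exact h1
  have h3 : 1 / 2 ≤ (1 - ρ * m / 2) ^ ((primitiveRoots m ℂ).erase ζ).card := by
    have h4 := one_add_mul_le_pow (a := -(ρ * m / 2)) (by linarith)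
      ((primitiveRoots m ℂ).erase ζ).card
    have h5 : (((primitiveRoots m ℂ).erase ζ).card : ℝ) ≤ m := by
      have h6 : ((primitiveRoots m ℂ).erase ζ).card ≤ m := by
        refine (Finset.card_erase_le).trans ?_
        rw [Complex.card_primitiveRoots]
        exact Nat.totient_le m
      exact_mod_cast h6
    rw [← sub_eq_add_neg] at h4
    refine le_trans ?_ h4
    nlinarith
  have hΔ : 0 ≤ ∏ μ ∈ (primitiveRoots m ℂ).erase ζ, ‖ζ - μ‖ :=
    Finset.prod_nonneg fun _ _ => norm_nonneg _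
  have h4 : (∏ μ ∈ (primitiveRoots m ℂ).erase ζ, ‖ζ - μ‖) * (1 / 2) ≤
      ∏ μ ∈ (primitiveRoots m ℂ).erase ζ, ‖(w : ℂ) - μ‖ :=
    (mul_le_mul_of_nonneg_left h3 hΔ).trans h2
  calc 1 / (18 * (W : ℝ) ^ 3) * ∏ μ ∈ (primitiveRoots m ℂ).erase ζ, ‖ζ - μ‖
      = ρ * ((∏ μ ∈ (primitiveRoots m ℂ).erase ζ, ‖ζ - μ‖) * (1 / 2)) := by
        rw [hρ]
        field_simp
        ring
    _ ≤ _ := mul_le_mul_of_nonneg_left h4 hp.le

/-- **bound for the leading value at one root of unity** -/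
theorem norm_lead_le {r : ℕ} {β : List (Fin r × Bool)} {m j : ℕ} (hm : 3 ≤ m) (hodd : Odd m)
    {H : ℤ[X]} (hL : Lead β m j H) {ζ : ℂ} (hζ : IsPrimitiveRoot ζ m) {D W : ℕ}
    (hD : D = m * (j + 1)) (hW : W = (r + 1) * D) :
    ‖aeval ζ H‖ * (1 / (18 * (W : ℝ) ^ 3) * ‖dcyc m ζ‖) ^ j ≤ (D : ℝ) ^ (r + 1) *
      (Real.exp 1 * ((W + 1) * Real.exp (NearW.lam m W ζ)) ^ β.length) := by
  set M : ℝ := (D : ℝ) ^ (r + 1) *
      (Real.exp 1 * ((W + 1) * Real.exp (NearW.lam m W ζ)) ^ β.length) with hM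
  set δ : ℝ := 1 / (18 * (W : ℝ) ^ 3) * ‖dcyc m ζ‖ with hδ
  have hmD : m ≤ D := by rw [hD]; nlinarith
  have hDW : D ≤ W := by rw [hW]; nlinarith
  have hW3 : (3 : ℝ) ≤ W := by exact_mod_cast (by omega : 3 ≤ W)
  have hδ0 : 0 < δ := by
    have := norm_dcyc_pos (m := m) (by omega) hζ
    positivity
  set ρ : ℝ := 1 / (9 * (W : ℝ) ^ 3) with hρ
  have hρ0 : 0 < ρ := by positivity
  have hρ1 : ρ < 1 := by
    rw [hρ, div_lt_one (by positivity)]
    have : (27 : ℝ) ≤ (W : ℝ) ^ 3 := by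
      calc (27 : ℝ) = 3 ^ 3 := by norm_num
        _ ≤ (W : ℝ) ^ 3 := pow_le_pow_left₀ (by norm_num) hW3 3
    linarith
  have hz1 : ‖ζ‖ = 1 := hζ.norm'_eq_one (by omega)
  have hne : ∀ z ∈ Metric.closedBall ζ ρ, z ≠ 0 := by
    rintro z hz rfl
    rw [Metric.mem_closedBall, dist_zero_left, hz1] at hz
    linarith
  let f : ℂ → ℂ := fun z => aeval z H * (z⁻¹) ^ vE β D
  have hdiff : DiffContOnCl ℂ f (Metric.ball ζ ρ) := by
    apply DifferentiableOn.diffContOnCl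
    rw [closure_ball ζ hρ0.ne']
    intro z hz
    apply DifferentiableAt.differentiableWithinAt
    apply DifferentiableAt.mul
    · exact (Polynomial.differentiable_aeval H) z
    · apply DifferentiableAt.pow
      exact differentiableAt_inv (hne z hz)
  have hfr : ∀ z ∈ frontier (Metric.ball ζ ρ), ‖f z‖ ≤ M / δ ^ j := by
    intro z hz
    rw [frontier_ball ζ hρ0.ne'] at hz
    have hz0 : z ≠ 0 := hne z (Metric.sphere_subset_closedBall hz)
    rw [Metric.mem_sphere, dist_eq_norm] at hz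
    let w : ℂˣ := Units.mk0 z hz0
    have hw : NearW m W ζ w := ⟨hm, hodd, by omega, hζ, hz⟩
    have h1 := hw.norm_vSum_le (r := r) (D := D) β (by rw [hW]) (by omega)
    have h2 := norm_cyc_ge hw
    have h3 := vF_spec β D ℂ w
    rw [hD, hL.1, ← hD] at h3
    have h4 : z ^ vE β D * vSum w β D = aeval z (cyclotomic m ℤ) ^ j * aeval z H := by
      have : eval₂ (Int.castRingHom ℂ) z (cyclotomic m ℤ ^ j * H) =
          aeval z (cyclotomic m ℤ ^ j * H) := by
        rw [aeval_def, show algebraMap ℤ ℂ = Int.castRingHom ℂ from RingHom.ext_int _ _]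
      rw [← map_pow, ← map_mul, ← this]
      exact h3
    have h5 : f z * aeval z (cyclotomic m ℤ) ^ j = vSum w β D := by
      have h6 : z ^ vE β D ≠ 0 := pow_ne_zero _ hz0
      apply mul_left_cancel₀ h6
      rw [h4]
      show z ^ vE β D * (aeval z H * (z⁻¹) ^ vE β D * aeval z (cyclotomic m ℤ) ^ j) = _
      rw [inv_pow]
      field_simp
    rw [le_div_iff₀ (pow_pos hδ0 j)]
    calc ‖f z‖ * δ ^ j ≤ ‖f z‖ * ‖aeval z (cyclotomic m ℤ)‖ ^ j := by
          apply mul_le_mul_of_nonneg_left _ (norm_nonneg _)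
          exact pow_le_pow_left₀ hδ0.le h2 j
      _ = ‖f z * aeval z (cyclotomic m ℤ) ^ j‖ := by
          rw [norm_mul (f z), norm_pow (aeval z (cyclotomic m ℤ))]
      _ = ‖vSum w β D‖ := by rw [h5]
      _ ≤ M := h1
  have h1 := Complex.norm_le_of_forall_mem_frontier_norm_le Metric.isBounded_ball hdiff hfr
    (subset_closure (Metric.mem_ball_self hρ0))
  have h2 : ‖f ζ‖ = ‖aeval ζ H‖ := by
    show ‖aeval ζ H * (ζ⁻¹) ^ vE β D‖ = _
    rw [norm_mul, norm_pow, norm_inv, hz1, inv_one, one_pow, mul_one]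
  rw [h2, le_div_iff₀ (pow_pos hδ0 j)] at h1
  exact h1

lemma sum_comp_sq {m : ℕ} (hm : 0 < m) (hodd : Odd m) (g : ℂ → ℝ) :
    ∑ ζ ∈ primitiveRoots m ℂ, g (ζ ^ 2) = ∑ ζ ∈ primitiveRoots m ℂ, g ζ := by
  obtain ⟨s, hs⟩ := hodd
  refine Finset.sum_bij' (fun ζ _ => ζ ^ 2) (fun ζ _ => ζ ^ (s + 1)) ?_ ?_ ?_ ?_ ?_
  · intro ζ hζ
    rw [mem_primitiveRoots hm] at hζ ⊢
    apply hζ.pow_of_coprime
    rw [Nat.coprime_two_left]
    exact ⟨s, hs⟩
  · intro ζ hζ
    rw [mem_primitiveRoots hm] at hζ ⊢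
    apply hζ.pow_of_coprime
    rw [hs, show 2 * s + 1 = s + 1 + s by ring, Nat.coprime_self_add_right]
    simp
  · intro ζ hζ
    rw [mem_primitiveRoots hm] at hζ
    show (ζ ^ 2) ^ (s + 1) = ζ
    rw [← pow_mul, show 2 * (s + 1) = m + 1 by omega, pow_succ, hζ.pow_eq_one, one_mul]
  · intro ζ hζ
    rw [mem_primitiveRoots hm] at hζ
    show (ζ ^ (s + 1)) ^ 2 = ζ
    rw [← pow_mul, show (s + 1) * 2 = m + 1 by omega, pow_succ, hζ.pow_eq_one, one_mul]
  · intro ζ _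
    rfl

/-- the constant -/
noncomputable def cst {r : ℕ} (β : List (Fin r × Bool)) : ℝ :=
  5 * (r + 1) + 10 + β.length * ((r + 1) ^ 2 + 7 * (r + 1) + 115)

/-- **sum of the leading values** -/
theorem sum_log_lead_le {r : ℕ} {β : List (Fin r × Bool)} {m j : ℕ} (hm : 3 ≤ m) (hodd : Odd m)
    {H : ℤ[X]} (hL : Lead β m j H) :
    ∑ ζ ∈ primitiveRoots m ℂ, Real.log ‖aeval ζ H‖ ≤
      m.totient * (cst β * (j + 1) * (1 + Real.log (j + 1)) * (1 + Real.log m) ^ 4) := by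
  set D : ℕ := m * (j + 1) with hD
  set W : ℕ := (r + 1) * D with hW
  have hmD : m ≤ D := by rw [hD]; nlinarith
  have hDW : D ≤ W := by rw [hW]; nlinarith
  have hm' : (3 : ℝ) ≤ m := by exact_mod_cast hm
  have hDr : (3 : ℝ) ≤ D := by exact_mod_cast (by omega : 3 ≤ D)
  have hW3 : (3 : ℝ) ≤ W := by exact_mod_cast (by omega : 3 ≤ W)
  have hlm : 0 ≤ Real.log m := Real.log_natCast_nonneg m
  have hQ : W / m = (r + 1) * (j + 1) := by
    rw [hW, hD, show (r + 1) * (m * (j + 1)) = m * ((r + 1) * (j + 1)) by ring]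
    exact Nat.mul_div_cancel_left _ (by omega)
  -- pointwise
  have hpt : ∀ ζ ∈ primitiveRoots m ℂ, Real.log ‖aeval ζ H‖ ≤
      ((r + 1) * Real.log D + (1 + β.length * (Real.log (W + 1) + (12 + 2 * ((W / m : ℕ) *
        Real.log m) + (W / m : ℕ) * Real.log (18 * (W : ℝ) / m)))) +
        j * Real.log (18 * (W : ℝ) ^ 3)) + 5 * β.length * ubd m (ζ ^ 2) -
        j * Real.log ‖dcyc m ζ‖ := by
    intro ζ hζ
    rw [mem_primitiveRoots (by omega)] at hζ
    have h1 := norm_lead_le hm hodd hL hζ hD hW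
    have hH0 : 0 < ‖aeval ζ H‖ := by
      rw [norm_pos_iff]
      intro h0
      exact hL.2 (cyclotomic_dvd_of_root (by omega) hζ h0)
    have hd := norm_dcyc_pos (m := m) (by omega) hζ
    have hc : 0 < 1 / (18 * (W : ℝ) ^ 3) := by positivity
    have h2 := Real.log_le_log (by positivity) h1
    rw [Real.log_mul (by positivity) (by positivity), Real.log_pow,
      Real.log_mul (by positivity) (by positivity), Real.log_mul (by positivity) (by positivity),
      Real.log_pow, Real.log_mul (by positivity) (by positivity), Real.log_exp, Real.log_pow,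
      Real.log_mul (by positivity) (by positivity), Real.log_exp, one_div, Real.log_inv] at h2
    unfold NearW.lam at h2
    push_cast at h2 ⊢
    linarith
  refine (Finset.sum_le_sum hpt).trans ?_
  rw [Finset.sum_sub_distrib, Finset.sum_add_distrib, Finset.sum_const, ← Finset.mul_sum,
    ← Finset.mul_sum, Complex.card_primitiveRoots, nsmul_eq_mul,
    sum_comp_sq (by omega) hodd (ubd m)]
  have h1 := sum_ubd_le (m := m) (by omega)
  have h2 := sum_log_dcyc_nonneg (m := m) (by omega)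
  have h3 := le_two_mul_totient (m := m) (by omega)
  have hφ : (0 : ℝ) < m.totient := by exact_mod_cast Nat.totient_pos.mpr (by omega)
  set ℓ : ℝ := 1 + Real.log m with hℓ
  set T : ℝ := (j : ℝ) + 1 with hT
  set τ : ℝ := 1 + Real.log T with hτ
  set R : ℝ := (r : ℝ) + 1 with hR
  have hT1 : 1 ≤ T := by rw [hT]; have : (0 : ℝ) ≤ j := Nat.cast_nonneg _; linarith
  have hR1 : 1 ≤ R := by rw [hR]; have : (0 : ℝ) ≤ r := Nat.cast_nonneg _; linarith
  have hlT : 0 ≤ Real.log T := Real.log_nonneg hT1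
  have hℓ1 : 1 ≤ ℓ := by linarith
  have hτ1 : 1 ≤ τ := by linarith
  have hDc : (D : ℝ) = m * T := by rw [hD, hT]; push_cast; ring
  have hWc : (W : ℝ) = R * (m * T) := by rw [hW, hR]; push_cast; rw [hDc]
  have hlogR : Real.log R ≤ R := by
    have := Real.log_le_sub_one_of_pos (by linarith : 0 < R)
    linarith
  have hlog18 : Real.log 18 ≤ 3 := by
    rw [Real.log_le_iff_le_exp (by norm_num)]
    have h4 := Real.exp_one_gt_d9
    have h5 : Real.exp 3 = Real.exp 1 ^ 3 := by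
      rw [← Real.exp_nat_mul]; norm_num
    rw [h5]
    calc (18 : ℝ) ≤ 2.7182818283 ^ 3 := by norm_num
      _ ≤ Real.exp 1 ^ 3 := pow_le_pow_left₀ (by norm_num) h4.le 3
  have hlog2 : Real.log 2 ≤ 1 := by
    have := Real.log_two_lt_d9
    linarith
  have hlD : Real.log D = Real.log m + Real.log T := by
    rw [hDc, Real.log_mul (by positivity) (by positivity)]
  have hlW : Real.log W = Real.log R + (Real.log m + Real.log T) := by
    rw [hWc, Real.log_mul (by positivity) (by positivity),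
      Real.log_mul (by positivity) (by positivity)]
  have hlogR0 : 0 ≤ Real.log R := Real.log_nonneg hR1
  have hlW1 : Real.log (W + 1) ≤ 1 + Real.log W := by
    have : Real.log (W + 1) ≤ Real.log (2 * W) := Real.log_le_log (by positivity) (by linarith)
    rw [Real.log_mul (by norm_num) (by positivity)] at this
    linarith
  have hprod1 : 1 ≤ ℓ * τ := by nlinarith
  have hprod2 : ℓ ≤ ℓ * τ := by nlinarith
  have hprod3 : τ ≤ ℓ * τ := by nlinarith
  have e1 : Real.log D ≤ 2 * (ℓ * τ) := by rw [hlD]; linarith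
  have e2 : Real.log (W + 1) ≤ (R + 3) * (ℓ * τ) := by
    have : Real.log (W + 1) ≤ 1 + (R + (ℓ + τ)) := by rw [hlW] at hlW1; linarith
    nlinarith
  have e3 : Real.log (18 * (W : ℝ) / m) ≤ (R + 3) * τ := by
    have h5 : 18 * (W : ℝ) / m = 18 * (R * T) := by
      rw [hWc]
      field_simp
    rw [h5, Real.log_mul (by norm_num) (by positivity),
      Real.log_mul (by positivity) (by positivity)]
    nlinarith
  have e4 : Real.log (18 * (W : ℝ) ^ 3) ≤ (3 * R + 9) * (ℓ * τ) := by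
    rw [Real.log_mul (by norm_num) (by positivity), Real.log_pow, hlW]
    push_cast
    nlinarith
  have hQr : ((W / m : ℕ) : ℝ) = R * T := by rw [hQ, hR, hT]; push_cast; ring
  rw [hQr]
  have hj : (j : ℝ) ≤ T := by rw [hT]; linarith
  have hj0 : (0 : ℝ) ≤ j := Nat.cast_nonneg _
  have hL0 : (0 : ℝ) ≤ β.length := Nat.cast_nonneg _
  set L : ℝ := (β.length : ℝ) with hLdef
  set P : ℝ := T * (ℓ * τ) with hP
  have hP1 : ℓ * τ ≤ P := by rw [hP]; nlinarith
  have f1 : R * Real.log D ≤ 2 * R * P := by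
    calc R * Real.log D ≤ R * (2 * (ℓ * τ)) := mul_le_mul_of_nonneg_left e1 (by linarith)
      _ ≤ R * (2 * P) := mul_le_mul_of_nonneg_left (by linarith) (by linarith)
      _ = 2 * R * P := by ring
  have f2 : Real.log (W + 1) ≤ (R + 3) * P :=
    e2.trans (mul_le_mul_of_nonneg_left hP1 (by linarith))
  have f3 : 2 * (R * T * Real.log m) ≤ 2 * R * P := by
    have : T * Real.log m ≤ P := by
      rw [hP]
      apply mul_le_mul_of_nonneg_left _ (by linarith)
      linarith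
    nlinarith
  have f4 : R * T * Real.log (18 * (W : ℝ) / m) ≤ (R ^ 2 + 3 * R) * P := by
    calc R * T * Real.log (18 * (W : ℝ) / m) ≤ R * T * ((R + 3) * τ) :=
          mul_le_mul_of_nonneg_left e3 (by positivity)
      _ = (R ^ 2 + 3 * R) * (T * τ) := by ring
      _ ≤ (R ^ 2 + 3 * R) * P := by
          apply mul_le_mul_of_nonneg_left _ (by positivity)
          rw [hP]
          exact mul_le_mul_of_nonneg_left hprod3 (by linarith)
  have f5 : (j : ℝ) * Real.log (18 * (W : ℝ) ^ 3) ≤ (3 * R + 9) * P := by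
    calc (j : ℝ) * Real.log (18 * (W : ℝ) ^ 3) ≤ j * ((3 * R + 9) * (ℓ * τ)) :=
          mul_le_mul_of_nonneg_left e4 hj0
      _ ≤ T * ((3 * R + 9) * (ℓ * τ)) := by
          apply mul_le_mul_of_nonneg_right hj (by positivity)
      _ = (3 * R + 9) * P := by rw [hP]; ring
  have f6 : (1 : ℝ) ≤ P := hprod1.trans hP1
  have g1 : R * Real.log D + (1 + L * (Real.log (W + 1) + (12 + 2 * (R * T * Real.log m) +
      R * T * Real.log (18 * (W : ℝ) / m)))) + j * Real.log (18 * (W : ℝ) ^ 3) ≤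
      (5 * R + 10 + L * (R ^ 2 + 7 * R + 15)) * P := by
    have : L * (Real.log (W + 1) + (12 + 2 * (R * T * Real.log m) +
      R * T * Real.log (18 * (W : ℝ) / m))) ≤ L * ((R ^ 2 + 7 * R + 15) * P) := by
      apply mul_le_mul_of_nonneg_left _ hL0
      nlinarith
    nlinarith
  have hℓ4 : ℓ ≤ ℓ ^ 4 := by
    calc ℓ = ℓ ^ 1 := (pow_one ℓ).symm
      _ ≤ ℓ ^ 4 := pow_le_pow_right₀ hℓ1 (by norm_num)
  have g2 : P ≤ T * τ * ℓ ^ 4 := by
    rw [hP]
    calc T * (ℓ * τ) = T * τ * ℓ := by ring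
      _ ≤ T * τ * ℓ ^ 4 := mul_le_mul_of_nonneg_left hℓ4 (by positivity)
  have g3 : ∑ ζ ∈ primitiveRoots m ℂ, ubd m ζ ≤ m.totient * (20 * ℓ ^ 4) := by
    refine h1.trans ?_
    calc 10 * (m : ℝ) * ℓ ^ 3 ≤ 10 * (2 * m.totient * ℓ) * ℓ ^ 3 := by
          apply mul_le_mul_of_nonneg_right _ (by positivity)
          linarith
      _ = m.totient * (20 * ℓ ^ 4) := by ring
  have g4 : ℓ ^ 4 ≤ T * τ * ℓ ^ 4 := by
    have : 1 ≤ T * τ := by nlinarith
    have h6 : 0 < ℓ ^ 4 := by positivity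
    nlinarith
  have hcoef : 0 ≤ 5 * R + 10 + L * (R ^ 2 + 7 * R + 15) := by positivity
  calc (m.totient : ℝ) * (R * Real.log D + (1 + L * (Real.log (W + 1) + (12 + 2 * (R * T *
        Real.log m) + R * T * Real.log (18 * (W : ℝ) / m)))) + j * Real.log (18 * (W : ℝ) ^ 3)) +
        5 * L * ∑ ζ ∈ primitiveRoots m ℂ, ubd m ζ -
        j * ∑ ζ ∈ primitiveRoots m ℂ, Real.log ‖dcyc m ζ‖
      ≤ m.totient * ((5 * R + 10 + L * (R ^ 2 + 7 * R + 15)) * (T * τ * ℓ ^ 4)) +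
        5 * L * (m.totient * (20 * (T * τ * ℓ ^ 4))) := by
        have k1 := mul_le_mul_of_nonneg_left (g1.trans (mul_le_mul_of_nonneg_left g2 hcoef)) hφ.le
        have k2 : 5 * L * ∑ ζ ∈ primitiveRoots m ℂ, ubd m ζ ≤
            5 * L * (m.totient * (20 * (T * τ * ℓ ^ 4))) := by
          apply mul_le_mul_of_nonneg_left _ (by positivity)
          refine g3.trans ?_
          apply mul_le_mul_of_nonneg_left _ hφ.le
          linarith
        have k3 : 0 ≤ (j : ℝ) * ∑ ζ ∈ primitiveRoots m ℂ, Real.log ‖dcyc m ζ‖ :=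
          mul_nonneg hj0 h2
        linarith
    _ = m.totient * (cst β * T * τ * ℓ ^ 4) := by
        unfold cst
        rw [← hR, ← hLdef]
        ring

end Pool.Agent.Work.MP_b30479_gt
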