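import Pool.Agent.Work.MP_b30479_gt.Gauss

namespace Pool.Agent.Work.MP_b30479_gt

variable {A : Type*} [CommRing A] [IsDomain A]

/-- common part of the coefficients -/
def core (s : ℕ) (t : A) (i j k : ℕ) : A :=
  gauss t (2 * s - i + k) k * ∏ x ∈ Finset.range k, (t ^ (j + 1 + x) - 1)

lemma div_unique {m c b d e : ℕ} (hc : c < m) (hd : d < m) (h : c + m * b = d + m * e) :
    b = e ∧ c = d := by
  have hm : 0 < m := by omega
  have h1 : (c + m * b) / m = b := by
    rw [Nat.add_mul_div_left _ _ hm, Nat.div_eq_of_lt hc, zero_add]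
  have h2 : (d + m * e) / m = e := by
    rw [Nat.add_mul_div_left _ _ hm, Nat.div_eq_of_lt hd, zero_add]
  have : b = e := by rw [← h1, ← h2, h]
  subst this
  exact ⟨rfl, by omega⟩

lemma core_eq {m s s' u : ℕ} (hm : 2 * s' + 1 = m) (hs : s = s' + m * u) {t : A}
    (ht : IsPrimitiveRoot t m) {c1 b1 c2 b2 d e k : ℕ} (hc1 : c1 < m) (hb1 : b1 ≤ 2 * u)
    (hc2 : c2 < m) (hd : d < m) (hk : k ≤ c1 + m * b1) (hjk : c2 + m * b2 + k = d + m * e) :
    core s t (c1 + m * b1) (c2 + m * b2) k =
      if e = b2 ∧ k ≤ c1 then core s' t c1 c2 k else 0 := by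
  have hm0 : 0 < m := by omega
  have hNs : 2 * s + 1 = m * (2 * u + 1) := by rw [hs, ← hm]; ring
  by_cases he : e = b2
  · subst he
    have hk1 : k < m := by omega
    have hdk : d = c2 + k := by omega
    have hpr : ∏ x ∈ Finset.range k, (t ^ (c2 + m * e + 1 + x) - 1) =
        ∏ x ∈ Finset.range k, (t ^ (c2 + 1 + x) - 1) := by
      apply Finset.prod_congr rfl
      intro x _
      have : c2 + m * e + 1 + x = m * e + (c2 + 1 + x) := by ring
      rw [this, pow_add, pow_mul, ht.pow_eq_one, one_pow, one_mul]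
    have hbu : b1 + (2 * u - b1) = 2 * u := by omega
    obtain ⟨w, hw⟩ : ∃ w, b1 + w = 2 * u := ⟨_, hbu⟩
    have h2s : 2 * s = m * b1 + m * w + (m - 1) := by
      have : 2 * s + 1 = m * (b1 + w) + m := by rw [hNs, hw]; ring
      rw [mul_add] at this
      omega
    by_cases hkc : k ≤ c1
    · rw [if_pos ⟨rfl, hkc⟩]
      unfold core
      rw [hpr]
      congr 1
      have e1 : 2 * s - (c1 + m * b1) + k = m * w + (2 * s' - c1 + k) := by
        omega
      rw [e1, gauss_shift_mul t ht _ _ hk1]
    · rw [if_neg (by tauto)]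
      unfold core
      have e1 : 2 * s - (c1 + m * b1) + k = m * (w + 1) + (k - 1 - c1) := by
        rw [mul_add, mul_one]; omega
      rw [e1, gauss_shift_mul t ht _ _ hk1, gauss_eq_zero_of_lt t (by omega), zero_mul]
  · rw [if_neg (by tauto)]
    unfold core
    have hlt : b2 < e := by
      by_contra hcon
      have : e < b2 := by omega
      have h1 : m * (e + 1) ≤ m * b2 := Nat.mul_le_mul_left _ this
      rw [mul_add, mul_one] at h1
      omega
    have h1 : m * (b2 + 1) ≤ m * e := Nat.mul_le_mul_left _ hlt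
    rw [mul_add, mul_one] at h1
    have hz : ∏ x ∈ Finset.range k, (t ^ (c2 + m * b2 + 1 + x) - 1) = 0 := by
      apply Finset.prod_eq_zero (i := m * e - (c2 + m * b2) - 1)
      · rw [Finset.mem_range]; omega
      · have : c2 + m * b2 + 1 + (m * e - (c2 + m * b2) - 1) = m * e := by omega
        rw [this, pow_mul, ht.pow_eq_one, one_pow, sub_self]
    rw [hz, mul_zero]

lemma zpow_congr {m : ℕ} {t : Aˣ} (ht : t ^ m = 1) {x y z : ℤ} (h : x = y + m * z) :
    t ^ x = t ^ y := by
  rw [h, zpow_add, zpow_mul, zpow_natCast, ht, one_zpow, mul_one]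

lemma coeffPos_eq_core (s : ℕ) (t : Aˣ) (i j k : ℕ) :
    coeffPos s t i j k =
    ((t ^ ((k.choose 2 : ℤ) - s * k + ((s : ℤ) - i + k) * ((s : ℤ) - j - k)) : Aˣ) : A) *
      core s (t : A) i j k := by
  unfold coeffPos core; ring

lemma coeffNeg_eq_core (s : ℕ) (t : Aˣ) (i j k : ℕ) :
    coeffNeg s t i j k =
    (-1) ^ k * ((t ^ (-(s : ℤ) * k - ((s : ℤ) - i) * ((s : ℤ) - j)) : Aˣ) : A) *
      core s (t : A) j i k := by
  unfold coeffNeg core; ring

lemma entry_eq {m s s' u : ℕ} (hm : 2 * s' + 1 = m) (hs : s = s' + m * u) {t : Aˣ}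
    (ht : IsPrimitiveRoot (t : A) m) (pos : Bool) {c1 b1 c2 b2 d1 e1 d2 e2 : ℕ}
    (hc1 : c1 < m) (hb1 : b1 ≤ 2 * u) (hc2 : c2 < m) (hb2 : b2 ≤ 2 * u)
    (hd1 : d1 < m) (hd2 : d2 < m) :
    entry s t pos (c1 + m * b1) (c2 + m * b2) (d1 + m * e1) (d2 + m * e2) =
      if e1 = b2 ∧ e2 = b1 then entry s' t pos c1 c2 d1 d2 else 0 := by
  have htm : t ^ m = 1 := by
    apply Units.ext
    rw [Units.val_pow_eq_pow_val, ht.pow_eq_one, Units.val_one]
  cases pos with
  | true =>
    unfold entry
    simp only [if_true]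
    by_cases h : c2 + m * b2 ≤ d1 + m * e1 ∧ d1 + m * e1 + (d2 + m * e2) =
      c1 + m * b1 + (c2 + m * b2)
    · rw [if_pos h]
      obtain ⟨h1, h2⟩ := h
      obtain ⟨k, hk⟩ := Nat.exists_eq_add_of_le h1
      have hk' : d1 + m * e1 - (c2 + m * b2) = k := by omega
      rw [hk', coeffPos_eq_core, core_eq hm hs ht hc1 hb1 hc2 hd1 (by omega) hk.symm]
      by_cases he : e1 = b2 ∧ k ≤ c1
      · obtain ⟨he1, hkc⟩ := he
        subst he1
        have hee : e2 = b1 ∧ d2 = c1 - k := by
          apply div_unique hd2 (by omega : c1 - k < m)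
          omega
        obtain ⟨he2, hd2'⟩ := hee
        subst he2
        rw [if_pos ⟨rfl, hkc⟩, if_pos ⟨rfl, rfl⟩, if_pos (by omega)]
        have hk2 : d1 - c2 = k := by omega
        rw [hk2, coeffPos_eq_core]
        congr 2
        apply zpow_congr htm (z := -(u : ℤ) * k + (((s' : ℤ) - c1 + k) * (u - e1) +
          (u - e2) * ((s' : ℤ) - c2 - k) + m * (u - e2) * (u - e1)))
        subst hs
        push_cast
        ring
      · rw [if_neg he, mul_zero]
        split_ifs with h3 h4
        · exfalso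
          obtain ⟨h3a, h3b⟩ := h3
          subst h3a
          subst h3b
          apply he
          refine ⟨rfl, ?_⟩
          omega
        · rfl
        · rfl
    · rw [if_neg h]
      split_ifs with h3 h4
      · exfalso
        obtain ⟨h3a, h3b⟩ := h3
        subst h3a
        subst h3b
        apply h
        omega
      · rfl
      · rfl
  | false =>
    unfold entry
    simp only [Bool.false_eq_true, if_false]
    by_cases h : c1 + m * b1 ≤ d2 + m * e2 ∧ d1 + m * e1 + (d2 + m * e2) =
      c1 + m * b1 + (c2 + m * b2)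
    · rw [if_pos h]
      obtain ⟨h1, h2⟩ := h
      obtain ⟨k, hk⟩ := Nat.exists_eq_add_of_le h1
      have hk' : d2 + m * e2 - (c1 + m * b1) = k := by omega
      rw [hk', coeffNeg_eq_core, core_eq hm hs ht hc2 hb2 hc1 hd2 (by omega) hk.symm]
      by_cases he : e2 = b1 ∧ k ≤ c2
      · obtain ⟨he1, hkc⟩ := he
        subst he1
        have hee : e1 = b2 ∧ d1 = c2 - k := by
          apply div_unique hd1 (by omega : c2 - k < m)
          omega
        obtain ⟨he2, hd2'⟩ := hee
        subst he2
        rw [if_pos ⟨rfl, hkc⟩, if_pos ⟨rfl, rfl⟩, if_pos (by omega)]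
        have hk2 : d2 - c1 = k := by omega
        rw [hk2, coeffNeg_eq_core]
        congr 3
        apply zpow_congr htm (z := -(u : ℤ) * k - (((s' : ℤ) - c1) * (u - e1) +
          (u - e2) * ((s' : ℤ) - c2) + m * (u - e2) * (u - e1)))
        subst hs
        push_cast
        ring
      · rw [if_neg he, mul_zero]
        split_ifs with h3 h4
        · exfalso
          obtain ⟨h3a, h3b⟩ := h3
          subst h3a
          subst h3b
          apply he
          refine ⟨rfl, ?_⟩
          omega
        · rfl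
        · rfl
    · rw [if_neg h]
      split_ifs with h3 h4
      · exfalso
        obtain ⟨h3a, h3b⟩ := h3
        subst h3a
        subst h3b
        apply h
        omega
      · rfl
      · rfl

end Pool.Agent.Work.MP_b30479_gt
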