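import Pool.Agent.Work.MP_b30479_gt.Mertens

/-!
# Counting: few exceptional primes imply few bad integers
-/

namespace Pool.Agent.Work.MP_b30479_gt.Counting

open Finset

/-- primes up to `N` -/
def primesLE (N : ℕ) : Finset ℕ := (Icc 1 N).filter Nat.Prime

lemma mem_primesLE {N p : ℕ} : p ∈ primesLE N ↔ p.Prime ∧ p ≤ N := by
  unfold primesLE
  rw [mem_filter, mem_Icc]
  constructor
  · rintro ⟨⟨_, h⟩, h2⟩
    exact ⟨h2, h⟩
  · rintro ⟨h, h2⟩
    exact ⟨⟨h.pos, h2⟩, h⟩

theorem sum_pow_card_le (N : ℕ) {z : ℝ} (hz : 0 ≤ z) :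
    ∑ n ∈ Icc 1 N, (1 + z) ^ n.primeFactors.card ≤
      N * Real.exp (z * ∑ p ∈ primesLE N, (1 : ℝ) / p) := by
  classical
  have h1 : ∀ n ∈ Icc 1 N, (1 + z) ^ n.primeFactors.card =
      ∑ S ∈ (primesLE N).powerset, if S ⊆ n.primeFactors then z ^ S.card else 0 := by
    intro n hn
    rw [mem_Icc] at hn
    have hsub : n.primeFactors ⊆ primesLE N := by
      intro p hp
      rw [mem_primesLE]
      exact ⟨Nat.prime_of_mem_primeFactors hp, (Nat.le_of_mem_primeFactors hp).trans hn.2⟩
    have h2 := Finset.sum_pow_mul_eq_add_pow z 1 n.primeFactors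
    rw [← Finset.sum_filter]
    have h3 : (primesLE N).powerset.filter (fun S => S ⊆ n.primeFactors) =
        n.primeFactors.powerset := by
      ext S
      rw [mem_filter, mem_powerset, mem_powerset]
      exact ⟨fun h => h.2, fun h => ⟨h.trans hsub, h⟩⟩
    rw [h3, add_comm, ← h2]
    apply Finset.sum_congr rfl
    intro S _
    rw [one_pow, mul_one]
  rw [Finset.sum_congr rfl h1, Finset.sum_comm]
  have h2 : ∀ S ∈ (primesLE N).powerset,
      ∑ n ∈ Icc 1 N, (if S ⊆ n.primeFactors then z ^ S.card else 0) ≤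
        N * ∏ p ∈ S, (z * ((1 : ℝ) / p)) := by
    intro S hS
    rw [mem_powerset] at hS
    rw [← Finset.sum_filter, Finset.sum_const, nsmul_eq_mul]
    have hprime : ∀ p ∈ S, p.Prime := fun p hp => (mem_primesLE.mp (hS hp)).1
    have h3 : ((Icc 1 N).filter (fun n => S ⊆ n.primeFactors)).card ≤ N / ∏ p ∈ S, p := by
      rw [← Nat.Ioc_filter_dvd_card_eq_div]
      apply Finset.card_le_card
      intro n hn
      rw [mem_filter, mem_Icc] at hn
      rw [mem_filter, mem_Ioc]
      refine ⟨⟨by omega, hn.1.2⟩, ?_⟩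
      apply Finset.prod_primes_dvd
      · intro p hp
        exact (hprime p hp).prime
      · intro p hp
        exact Nat.dvd_of_mem_primeFactors (hn.2 hp)
    have h4 : ((N / ∏ p ∈ S, p : ℕ) : ℝ) ≤ N * ∏ p ∈ S, ((1 : ℝ) / p) := by
      refine Nat.cast_div_le.trans (le_of_eq ?_)
      push_cast
      rw [Finset.prod_div_distrib, Finset.prod_const_one, mul_one_div]
    rw [Finset.prod_mul_distrib, Finset.prod_const]
    calc (((Icc 1 N).filter (fun n => S ⊆ n.primeFactors)).card : ℝ) * z ^ S.card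
        ≤ (N * ∏ p ∈ S, ((1 : ℝ) / p)) * z ^ S.card := by
          apply mul_le_mul_of_nonneg_right _ (by positivity)
          exact le_trans (by exact_mod_cast h3) h4
      _ = _ := by ring
  refine (Finset.sum_le_sum h2).trans ?_
  rw [← Finset.mul_sum, ← Finset.prod_one_add, Finset.mul_sum]
  apply mul_le_mul_of_nonneg_left _ (Nat.cast_nonneg _)
  rw [Real.exp_sum]
  apply Finset.prod_le_prod
  · intro p _
    positivity
  · intro p _
    have := Real.add_one_le_exp (z * ((1 : ℝ) / p))
    linarith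

theorem sum_inv_primes_le : ∃ C : ℝ, 0 < C ∧ ∀ N : ℕ, 2 ≤ N →
    ∑ p ∈ primesLE N, (1 : ℝ) / p ≤ Real.log (Real.log N) + C := by
  obtain ⟨CM, hCM, hM⟩ := Mertens.mertens_second
  have hlog2 : 0 < Real.log 2 := Real.log_pos (by norm_num)
  refine ⟨1 / 2 + CM / Real.log 2 + |Real.log (Real.log 2)|, by positivity, ?_⟩
  intro N hN
  have hNr : (2 : ℝ) ≤ N := by exact_mod_cast hN
  have hlogN : 0 < Real.log N := Real.log_pos (by linarith)
  have h4 := hM 2 N (le_refl _) hNr
  have h5 : ∑ p ∈ primesLE N, ((1 : ℝ) / p) ≤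
      ∑ p ∈ insert 2 (Mertens.PB 2 (N : ℝ)), ((1 : ℝ) / p) := by
    apply Finset.sum_le_sum_of_subset_of_nonneg
    · intro p hp
      obtain ⟨hpp, hp2⟩ := mem_primesLE.mp hp
      rw [Finset.mem_insert]
      rcases Nat.lt_or_ge 2 p with h | h
      · right
        rw [Mertens.mem_PB (by norm_num) (by positivity)]
        exact ⟨hpp, by exact_mod_cast h, by exact_mod_cast hp2⟩
      · left
        have := hpp.two_le
        omega
    · intro p _ _
      positivity
  have h6 : (2 : ℕ) ∉ Mertens.PB 2 (N : ℝ) := by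
    rw [Mertens.mem_PB (by norm_num) (by positivity)]
    rintro ⟨-, h, -⟩
    norm_num at h
  rw [Finset.sum_insert h6] at h5
  rw [Real.log_div hlogN.ne' hlog2.ne'] at h4
  have h8 : (1 : ℝ) / ((2 : ℕ) : ℝ) = 1 / 2 := by norm_num
  rw [h8] at h5
  have h9 := neg_abs_le (Real.log (Real.log 2))
  linarith

/-- integers with many prime factors are rare -/
theorem card_many_le (N R : ℕ) {z : ℝ} (hz : 0 ≤ z) :
    (((Icc 1 N).filter (fun n => R < n.primeFactors.card)).card : ℝ) * (1 + z) ^ (R + 1) ≤
      N * Real.exp (z * ∑ p ∈ primesLE N, (1 : ℝ) / p) := by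
  refine le_trans ?_ (sum_pow_card_le N hz)
  rw [← nsmul_eq_mul, ← Finset.sum_const]
  calc ∑ _n ∈ (Icc 1 N).filter (fun n => R < n.primeFactors.card), (1 + z) ^ (R + 1)
      ≤ ∑ n ∈ (Icc 1 N).filter (fun n => R < n.primeFactors.card),
          (1 + z) ^ n.primeFactors.card := by
        apply Finset.sum_le_sum
        intro n hn
        rw [mem_filter] at hn
        exact pow_le_pow_right₀ (by linarith) (by omega)
    _ ≤ _ := by
        apply Finset.sum_le_sum_of_subset_of_nonneg (Finset.filter_subset _ _)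
        intro n _ _
        positivity

/-- a large prime power component -/
lemma exists_big {n R : ℕ} (hn : 2 ≤ n) (hR : n.primeFactors.card ≤ R) :
    ∃ p k m : ℕ, p.Prime ∧ 1 ≤ k ∧ ¬ p ∣ m ∧ n = m * p ^ k ∧ n ≤ (p ^ k) ^ R := by
  have hne : n.primeFactors.Nonempty := Nat.nonempty_primeFactors.mpr (by omega)
  obtain ⟨p, hp, hmax⟩ := Finset.exists_max_image n.primeFactors
    (fun p => p ^ n.factorization p) hne
  have hpp := Nat.prime_of_mem_primeFactors hp
  have hpd := Nat.dvd_of_mem_primeFactors hp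
  have hn0 : n ≠ 0 := by omega
  refine ⟨p, n.factorization p, n / p ^ n.factorization p, hpp, ?_, ?_, ?_, ?_⟩
  · exact hpp.factorization_pos_of_dvd hn0 hpd
  · exact Nat.not_dvd_ordCompl hpp hn0
  · exact (Nat.div_mul_cancel (Nat.ordProj_dvd n p)).symm
  · have h1 : n = ∏ q ∈ n.primeFactors, q ^ n.factorization q :=
      (Nat.prod_factorization_pow_eq_self hn0).symm
    have h2 : ∏ q ∈ n.primeFactors, q ^ n.factorization q ≤
        (p ^ n.factorization p) ^ n.primeFactors.card :=
      Finset.prod_le_pow_card _ _ _ hmax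
    have h3 : (p ^ n.factorization p) ^ n.primeFactors.card ≤ (p ^ n.factorization p) ^ R :=
      Nat.pow_le_pow_right (pow_pos hpp.pos _) hR
    calc n = ∏ q ∈ n.primeFactors, q ^ n.factorization q := h1
      _ ≤ _ := h2.trans h3

lemma card_primeFactors_mul {m p k : ℕ} (hp : p.Prime) (hk : 1 ≤ k) (hpm : ¬ p ∣ m) :
    (m * p ^ k).primeFactors.card = m.primeFactors.card + 1 := by
  have hcop : Nat.Coprime m (p ^ k) := by
    apply Nat.Coprime.pow_right
    rw [Nat.coprime_comm]
    exact (Nat.Prime.coprime_iff_not_dvd hp).mpr hpm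
  rw [hcop.primeFactors_mul, Finset.card_union_of_disjoint hcop.disjoint_primeFactors,
    Nat.primeFactors_prime_pow (by omega) hp, Finset.card_singleton]

/-- bad integers with few prime factors -/
theorem card_few_le {Bad : ℕ → Prop} [DecidablePred Bad] {E : ℕ → Finset ℕ} {B : ℝ} {D : ℕ}
    (hB : 1 ≤ B)
    (hcard : ∀ m : ℕ, Odd m → ((E m).card : ℝ) ≤
      (B * (1 + Real.log m) ^ D) ^ (m.primeFactors.card + 1))
    (hE : ∀ m p k : ℕ, Odd m → p.Prime → Odd p → ¬ p ∣ m → 1 ≤ k → Bad (m * p ^ k) → p ∈ E m)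
    {N R : ℕ} (hN : 1 ≤ N) (hR : 1 ≤ R) :
    (((Icc 1 N).filter (fun n => (Odd n ∧ Bad n) ∧ n.primeFactors.card ≤ R)).card : ℝ) ≤
      1 + N * Real.exp (-(Real.log N / R)) * (B * (1 + Real.log N) ^ D) ^ R *
        (2 * Real.log N) := by
  classical
  have hNr : (1 : ℝ) ≤ N := by exact_mod_cast hN
  have hL : 0 ≤ Real.log N := Real.log_nonneg hNr
  have hRr : (1 : ℝ) ≤ R := by exact_mod_cast hR
  set M : ℕ := ⌊(N : ℝ) * Real.exp (-(Real.log N / R))⌋₊ with hM
  set K : ℕ := Nat.log 2 N with hK
  set A : Finset ℕ := (Icc 1 M).filter (fun m => Odd m ∧ m.primeFactors.card + 1 ≤ R) with hA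
  set T : Finset ((_ : ℕ) × ℕ) := A.sigma E with hT
  set U : Finset (((_ : ℕ) × ℕ) × ℕ) := T ×ˢ Icc 1 K with hU
  have hsub : (Icc 1 N).filter (fun n => (Odd n ∧ Bad n) ∧ n.primeFactors.card ≤ R) ⊆
      insert 1 (U.image (fun t => t.1.1 * t.1.2 ^ t.2)) := by
    intro n hn
    rw [mem_filter, mem_Icc] at hn
    obtain ⟨⟨hn1, hnN⟩, ⟨hodd, hbad⟩, hcardn⟩ := hn
    rw [mem_insert]
    rcases Nat.lt_or_ge n 2 with h | h
    · left; omega
    · right
      obtain ⟨p, k, m, hp, hk, hpm, hnm, hbig⟩ := exists_big h hcardn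
      rw [mem_image]
      refine ⟨(⟨m, p⟩, k), ?_, hnm.symm⟩
      rw [hnm] at hodd
      have hmodd : Odd m := (Nat.odd_mul.mp hodd).1
      have hpodd : Odd p := by
        have h1 := (Nat.odd_mul.mp hodd).2
        exact Nat.Odd.of_mul_left (m := p) (n := p ^ (k - 1)) (by
          rwa [← pow_succ', Nat.sub_add_cancel hk])
      have hm0 : 0 < m := hmodd.pos
      have hpk0 : 0 < p ^ k := pow_pos hp.pos k
      have hmr : (0 : ℝ) < m := by exact_mod_cast hm0
      have hpkr : (0 : ℝ) < (p : ℝ) ^ k := by exact_mod_cast hpk0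
      have hnr : (0 : ℝ) < n := by exact_mod_cast hn1
      rw [hU, mem_product]
      refine ⟨?_, ?_⟩
      · rw [hT, mem_sigma]
        refine ⟨?_, ?_⟩
        · rw [hA, mem_filter, mem_Icc]
          refine ⟨⟨hm0, ?_⟩, hmodd, ?_⟩
          · show m ≤ M
            apply Nat.le_floor
            have h1 : Real.log n ≤ R * Real.log ((p : ℝ) ^ k) := by
              rw [← Real.log_pow]
              apply Real.log_le_log hnr
              exact_mod_cast hbig
            have h2 : Real.log n = Real.log m + Real.log ((p : ℝ) ^ k) := by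
              rw [← Real.log_mul hmr.ne' hpkr.ne']
              congr 1
              exact_mod_cast hnm
            have h3 : Real.log n ≤ Real.log N := Real.log_le_log hnr (by exact_mod_cast hnN)
            have h4 : Real.log m ≤ Real.log N - Real.log N / R := by
              have h5 : Real.log n / R ≤ Real.log ((p : ℝ) ^ k) := by
                rw [div_le_iff₀ (by linarith)]
                linarith
              have h6 : Real.log n - Real.log n / R ≤ Real.log N - Real.log N / R := by
                have h7 : Real.log n - Real.log n / R = Real.log n * (1 - 1 / R) := by ring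
                have h8 : Real.log N - Real.log N / R = Real.log N * (1 - 1 / R) := by ring
                rw [h7, h8]
                apply mul_le_mul_of_nonneg_right h3
                rw [sub_nonneg, div_le_one (by linarith)]
                exact hRr
              linarith
            calc (m : ℝ) = Real.exp (Real.log m) := (Real.exp_log hmr).symm
              _ ≤ Real.exp (Real.log N - Real.log N / R) := Real.exp_le_exp.mpr h4
              _ = N * Real.exp (-(Real.log N / R)) := by
                  rw [sub_eq_add_neg, Real.exp_add, Real.exp_log (by linarith)]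
          · rw [← card_primeFactors_mul hp hk hpm, ← hnm]
            exact hcardn
        · exact hE m p k hmodd hp hpodd hpm hk (by rw [← hnm]; exact hbad)
      · rw [mem_Icc]
        refine ⟨hk, ?_⟩
        apply Nat.le_log_of_pow_le (by norm_num)
        calc 2 ^ k ≤ p ^ k := Nat.pow_le_pow_left hp.two_le k
          _ ≤ m * p ^ k := Nat.le_mul_of_pos_left _ hm0
          _ = n := hnm.symm
          _ ≤ N := hnN
  have hcardU : (U.card : ℝ) ≤ M * (B * (1 + Real.log N) ^ D) ^ R * K := by
    rw [hU, card_product, hT, card_sigma, Nat.card_Icc, Nat.add_sub_cancel]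
    push_cast
    apply mul_le_mul_of_nonneg_right _ (Nat.cast_nonneg _)
    calc ∑ m ∈ A, ((E m).card : ℝ) ≤ ∑ _m ∈ A, (B * (1 + Real.log N) ^ D) ^ R := by
          apply Finset.sum_le_sum
          intro m hm
          rw [hA, mem_filter, mem_Icc] at hm
          obtain ⟨⟨hm1, hmM⟩, hmodd, hmR⟩ := hm
          have hmr : (1 : ℝ) ≤ m := by exact_mod_cast hm1
          have hlm : 0 ≤ Real.log m := Real.log_nonneg hmr
          have hMN : (M : ℝ) ≤ N := by
            refine (Nat.floor_le (by positivity)).trans ?_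
            have : Real.exp (-(Real.log N / R)) ≤ 1 := by
              rw [Real.exp_le_one_iff, neg_nonpos]
              positivity
            nlinarith
          have hmN : Real.log m ≤ Real.log N := by
            apply Real.log_le_log (by linarith)
            have : (m : ℝ) ≤ M := by exact_mod_cast hmM
            linarith
          have hbase : (1 : ℝ) ≤ B * (1 + Real.log N) ^ D := by
            have : 1 ≤ (1 + Real.log N) ^ D := one_le_pow₀ (by linarith)
            nlinarith
          calc ((E m).card : ℝ) ≤ (B * (1 + Real.log m) ^ D) ^ (m.primeFactors.card + 1) :=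
                hcard m hmodd
            _ ≤ (B * (1 + Real.log N) ^ D) ^ (m.primeFactors.card + 1) := by
                apply pow_le_pow_left₀ (by positivity)
                apply mul_le_mul_of_nonneg_left _ (by linarith)
                exact pow_le_pow_left₀ (by linarith) (by linarith) D
            _ ≤ (B * (1 + Real.log N) ^ D) ^ R := pow_le_pow_right₀ hbase hmR
      _ ≤ M * (B * (1 + Real.log N) ^ D) ^ R := by
          rw [Finset.sum_const, nsmul_eq_mul]
          apply mul_le_mul_of_nonneg_right _ (by positivity)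
          have : A.card ≤ M := by
            refine (Finset.card_filter_le _ _).trans ?_
            rw [Nat.card_Icc, Nat.add_sub_cancel]
          exact_mod_cast this
  have hKL : (K : ℝ) ≤ 2 * Real.log N := by
    have h1 : (2 : ℝ) ^ K ≤ N := by exact_mod_cast Nat.pow_log_le_self 2 (by omega)
    have h2 := Real.log_le_log (by positivity) h1
    rw [Real.log_pow] at h2
    have h3 : (1 : ℝ) / 2 ≤ Real.log 2 := by
      have := Real.log_two_gt_d9
      linarith
    have h4 : (0 : ℝ) ≤ K := Nat.cast_nonneg _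
    nlinarith
  have h1 := Finset.card_le_card hsub
  have h2 := h1.trans (Finset.card_insert_le _ _)
  have h3 := h2.trans (Nat.add_le_add_right Finset.card_image_le 1)
  have h4 : (((Icc 1 N).filter (fun n => (Odd n ∧ Bad n) ∧ n.primeFactors.card ≤ R)).card : ℝ) ≤
      U.card + 1 := by exact_mod_cast h3
  have hMle : (M : ℝ) ≤ N * Real.exp (-(Real.log N / R)) := Nat.floor_le (by positivity)
  have hpow : 0 ≤ (B * (1 + Real.log N) ^ D) ^ R := by positivity
  have h5 : (M : ℝ) * (B * (1 + Real.log N) ^ D) ^ R * K ≤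
      N * Real.exp (-(Real.log N / R)) * (B * (1 + Real.log N) ^ D) ^ R * (2 * Real.log N) := by
    apply mul_le_mul _ hKL (Nat.cast_nonneg _) (by positivity)
    exact mul_le_mul_of_nonneg_right hMle hpow
  linarith

/-- **counting theorem** -/
theorem count_bad {Bad : ℕ → Prop} [DecidablePred Bad] {E : ℕ → Finset ℕ} {B : ℝ} {D : ℕ}
    (hB : 1 ≤ B)
    (hcard : ∀ m : ℕ, Odd m → ((E m).card : ℝ) ≤
      (B * (1 + Real.log m) ^ D) ^ (m.primeFactors.card + 1))
    (hE : ∀ m p k : ℕ, Odd m → p.Prime → Odd p → ¬ p ∣ m → 1 ≤ k → Bad (m * p ^ k) → p ∈ E m) :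
    ∃ c : ℝ, 0 < c ∧ ∃ N0 : ℕ, ∀ N : ℕ, N0 ≤ N →
      (((Icc 1 N).filter (fun n => Odd n ∧ Bad n)).card : ℝ) ≤
        N * Real.exp (-(c * Real.sqrt (Real.log N * Real.log (Real.log N)))) := by
  classical
  obtain ⟨C, hC, hMert⟩ := sum_inv_primes_le
  have hlogB : 0 ≤ Real.log B := Real.log_nonneg hB
  set C2 : ℝ := Real.log B + 2 * D + 1 with hC2
  have hC21 : 1 ≤ C2 := by
    have : (0 : ℝ) ≤ D := Nat.cast_nonneg _
    rw [hC2]
    linarith
  set c1 : ℝ := 1 / (C2 + 3) with hc1
  have hc1pos : 0 < c1 := by positivity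
  have hc1le : c1 ≤ 1 / 4 := by
    rw [hc1, div_le_div_iff₀ (by linarith) (by norm_num)]
    linarith
  refine ⟨c1 / 16, by positivity, ?_⟩
  -- eventually
  have hev : ∀ᶠ L : ℝ in Filter.atTop, Real.log L + (C + 1) ≤ c1 / 8 * L ^ ((1 : ℝ) / 4) ∧
      1 ≤ Real.log L ∧ 32 / c1 + 2 ≤ L ^ ((1 : ℝ) / 4) := by
    have h1 := (isLittleO_log_rpow_atTop (by norm_num : (0 : ℝ) < 1 / 4)).bound
      (by positivity : 0 < c1 / 16)
    have h2 := (tendsto_rpow_atTop (by norm_num : (0 : ℝ) < 1 / 4)).eventually_ge_atTop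
      ((C + 1) * (16 / c1))
    have h3 := (tendsto_rpow_atTop (by norm_num : (0 : ℝ) < 1 / 4)).eventually_ge_atTop
      (32 / c1 + 2)
    have h4 := Real.tendsto_log_atTop.eventually_ge_atTop 1
    have h5 := Filter.eventually_ge_atTop (1 : ℝ)
    filter_upwards [h1, h2, h3, h4, h5] with L h1 h2 h3 h4 h5
    refine ⟨?_, h4, h3⟩
    rw [Real.norm_of_nonneg (by linarith), Real.norm_of_nonneg (by positivity)] at h1
    have h6 : C + 1 ≤ c1 / 16 * L ^ ((1 : ℝ) / 4) := by
      have := mul_le_mul_of_nonneg_left h2 (by positivity : 0 ≤ c1 / 16)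
      have h7 : c1 / 16 * ((C + 1) * (16 / c1)) = C + 1 := by field_simp
      linarith
    linarith
  have hev2 := (Real.tendsto_log_atTop.comp tendsto_natCast_atTop_atTop).eventually hev
  rw [Filter.eventually_atTop] at hev2
  obtain ⟨N1, hN1⟩ := hev2
  refine ⟨max N1 3, ?_⟩
  intro N hN
  obtain ⟨e1, e2, e3⟩ := hN1 N (le_trans (le_max_left _ _) hN)
  have hN3 : 3 ≤ N := le_trans (le_max_right _ _) hN
  simp only [Function.comp_apply] at e1 e2 e3
  have hNr : (3 : ℝ) ≤ N := by exact_mod_cast hN3
  set L : ℝ := Real.log N with hL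
  set ℓ : ℝ := Real.log L with hℓ
  set t : ℝ := L ^ ((1 : ℝ) / 4) with ht
  have hLpos : 0 < L := Real.log_pos (by linarith)
  have ht4 : t ^ 4 = L := by
    rw [ht, ← Real.rpow_natCast, ← Real.rpow_mul hLpos.le]
    norm_num
  have ht2 : 2 ≤ t := by
    have : 0 < 32 / c1 := by positivity
    linarith
  have ht32 : 32 ≤ c1 * t := by
    have h1 : 32 / c1 ≤ t := by linarith
    rw [div_le_iff₀ hc1pos] at h1
    linarith
  have hL2 : 2 ≤ L := by
    rw [← ht4]
    calc (2 : ℝ) ≤ 2 ^ 4 := by norm_num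
      _ ≤ t ^ 4 := pow_le_pow_left₀ (by norm_num) ht2 4
  have hℓt : ℓ ≤ t := by nlinarith
  set Y : ℝ := Real.sqrt (L * ℓ) with hY
  have hYY : Y * Y = L * ℓ := Real.mul_self_sqrt (by positivity)
  have hY0 : 0 ≤ Y := Real.sqrt_nonneg _
  have hYt : t ^ 2 ≤ Y := by
    rw [hY]
    apply Real.le_sqrt_of_sq_le
    calc (t ^ 2) ^ 2 = L := by rw [← ht4]; ring
      _ ≤ L * ℓ := by nlinarith
  have hYpos : 0 < Y := lt_of_lt_of_le (by positivity) hYt
  have hYL : Y ≤ L := by
    have h1 : ℓ ≤ L := by
      have := Real.log_le_sub_one_of_pos hLpos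
      linarith
    nlinarith
  set s : ℝ := Y / ℓ with hs
  have hℓpos : 0 < ℓ := by linarith
  have hsℓ : s * ℓ = Y := by rw [hs]; field_simp
  have hsY : s * Y = L := by
    rw [hs, div_mul_eq_mul_div, hYY]
    field_simp
  have hspos : 0 < s := by positivity
  have hst : t ≤ s := by
    rw [hs, le_div_iff₀ hℓpos]
    nlinarith
  set R : ℕ := ⌊c1 * s⌋₊ with hR
  have hRle : (R : ℝ) ≤ c1 * s := Nat.floor_le (by positivity)
  have hRge : c1 * s ≤ R + 1 := (Nat.lt_floor_add_one _).le
  have hR1 : 1 ≤ R := by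
    apply Nat.le_floor
    push_cast
    nlinarith
  have hR1r : (1 : ℝ) ≤ R := by exact_mod_cast hR1
  -- few prime factors
  have hfew := card_few_le hB hcard hE (N := N) (R := R) (by omega) hR1
  rw [← hL] at hfew
  have hbase : (B * (1 + L) ^ D) ^ R ≤ Real.exp (R * (C2 * ℓ)) := by
    have h1 : 0 < B * (1 + L) ^ D := by positivity
    rw [← Real.log_le_iff_le_exp (by positivity), Real.log_pow]
    apply mul_le_mul_of_nonneg_left _ (by linarith)
    rw [Real.log_mul (by positivity) (by positivity), Real.log_pow]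
    have h2 : Real.log (1 + L) ≤ 2 * ℓ := by
      rw [hℓ, show (2 : ℝ) * Real.log L = ((2 : ℕ) : ℝ) * Real.log L by norm_num, ← Real.log_pow]
      apply Real.log_le_log (by linarith)
      nlinarith
    have h3 : (D : ℝ) * Real.log (1 + L) ≤ D * (2 * ℓ) :=
      mul_le_mul_of_nonneg_left h2 (Nat.cast_nonneg _)
    have h4 : Real.log B ≤ Real.log B * ℓ := by nlinarith
    rw [hC2]
    nlinarith
  have hRC : (R : ℝ) * (C2 * ℓ) ≤ Y := by
    have h1 : (R : ℝ) * (C2 * ℓ) ≤ c1 * s * (C2 * ℓ) :=
      mul_le_mul_of_nonneg_right hRle (by positivity)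
    have h2 : c1 * s * (C2 * ℓ) = c1 * C2 * Y := by rw [← hsℓ]; ring
    have h3 : c1 * C2 ≤ 1 := by
      rw [hc1, one_div, inv_mul_le_iff₀ (by linarith)]
      linarith
    nlinarith
  have hLR : (C2 + 3) * Y ≤ L / R := by
    rw [le_div_iff₀ (by linarith)]
    have h1 : (C2 + 3) * Y * R ≤ (C2 + 3) * Y * (c1 * s) :=
      mul_le_mul_of_nonneg_left hRle (by positivity)
    have h2 : (C2 + 3) * Y * (c1 * s) = (C2 + 3) * c1 * (s * Y) := by ring
    have h3 : (C2 + 3) * c1 = 1 := by
      rw [hc1]
      field_simp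
    rw [h2, h3, one_mul, hsY] at h1
    exact h1
  have h2L : 2 * L ≤ Real.exp Y := by
    rw [← Real.log_le_iff_le_exp (by positivity), Real.log_mul (by norm_num) (by positivity)]
    have h1 := Real.log_two_lt_d9
    have h2 : Real.log 2 + ℓ ≤ t := by nlinarith
    have h3 : t ≤ t ^ 2 := by nlinarith
    linarith
  have hfew2 : (((Icc 1 N).filter
      (fun n => (Odd n ∧ Bad n) ∧ n.primeFactors.card ≤ R)).card : ℝ) ≤
      2 * (N * Real.exp (-Y)) := by
    refine hfew.trans ?_
    have h1 : (1 : ℝ) ≤ N * Real.exp (-Y) := by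
      have h2 : (N : ℝ) = Real.exp L := (Real.exp_log (by linarith)).symm
      rw [h2, ← Real.exp_add]
      exact Real.one_le_exp (by linarith)
    have h2 : N * Real.exp (-(L / R)) * (B * (1 + L) ^ D) ^ R * (2 * L) ≤ N * Real.exp (-Y) := by
      calc N * Real.exp (-(L / R)) * (B * (1 + L) ^ D) ^ R * (2 * L)
          ≤ N * Real.exp (-((C2 + 3) * Y)) * Real.exp Y * Real.exp Y := by
            apply mul_le_mul _ h2L (by positivity) (by positivity)
            apply mul_le_mul _ (hbase.trans (Real.exp_le_exp.mpr hRC)) (by positivity)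
              (by positivity)
            apply mul_le_mul_of_nonneg_left _ (by positivity)
            apply Real.exp_le_exp.mpr
            linarith
        _ = N * Real.exp (-((C2 + 3) * Y) + Y + Y) := by
            rw [Real.exp_add, Real.exp_add]
            ring
        _ ≤ N * Real.exp (-Y) := by
            apply mul_le_mul_of_nonneg_left _ (by positivity)
            apply Real.exp_le_exp.mpr
            nlinarith
    linarith
  -- many prime factors
  have hmany := card_many_le N R (z := t) (by linarith)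
  have hM := hMert N (by omega)
  have hmany2 : (((Icc 1 N).filter (fun n => R < n.primeFactors.card)).card : ℝ) ≤
      N * Real.exp (-(c1 / 8 * Y)) := by
    have h1 : Real.exp (c1 / 4 * Y) ≤ (1 + t) ^ (R + 1) := by
      rw [← Real.le_log_iff_exp_le (by positivity), Real.log_pow]
      have h2 : ℓ / 4 ≤ Real.log (1 + t) := by
        have h3 : ℓ = 4 * Real.log t := by
          rw [hℓ, ← ht4, Real.log_pow]
          norm_num
        rw [h3]
        have h4 : Real.log t ≤ Real.log (1 + t) := Real.log_le_log (by linarith) (by linarith)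
        linarith
      calc c1 / 4 * Y = c1 * s * (ℓ / 4) := by rw [← hsℓ]; ring
        _ ≤ ((R + 1 : ℕ) : ℝ) * Real.log (1 + t) := by
            apply mul_le_mul _ h2 (by positivity) (by positivity)
            push_cast
            exact hRge
    have h2 : t * ∑ p ∈ primesLE N, (1 : ℝ) / p ≤ c1 / 8 * Y := by
      calc t * ∑ p ∈ primesLE N, (1 : ℝ) / p ≤ t * (c1 / 8 * t) := by
            apply mul_le_mul_of_nonneg_left _ (by linarith)
            refine hM.trans ?_
            rw [← hL, ← hℓ]
            linarith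
        _ = c1 / 8 * t ^ 2 := by ring
        _ ≤ c1 / 8 * Y := mul_le_mul_of_nonneg_left hYt (by positivity)
    have h3 : (((Icc 1 N).filter (fun n => R < n.primeFactors.card)).card : ℝ) *
        Real.exp (c1 / 4 * Y) ≤ N * Real.exp (c1 / 8 * Y) := by
      refine (mul_le_mul_of_nonneg_left h1 (Nat.cast_nonneg _)).trans (hmany.trans ?_)
      apply mul_le_mul_of_nonneg_left _ (Nat.cast_nonneg _)
      exact Real.exp_le_exp.mpr h2
    rw [← le_div_iff₀ (Real.exp_pos _)] at h3
    refine h3.trans (le_of_eq ?_)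
    rw [mul_div_assoc, ← Real.exp_sub]
    congr 2
    ring
  -- total
  have htot : (((Icc 1 N).filter (fun n => Odd n ∧ Bad n)).card : ℝ) ≤
      2 * (N * Real.exp (-Y)) + N * Real.exp (-(c1 / 8 * Y)) := by
    have h1 : (Icc 1 N).filter (fun n => Odd n ∧ Bad n) ⊆
        (Icc 1 N).filter (fun n => (Odd n ∧ Bad n) ∧ n.primeFactors.card ≤ R) ∪
        (Icc 1 N).filter (fun n => R < n.primeFactors.card) := by
      intro n hn
      rw [mem_filter] at hn
      rw [mem_union, mem_filter, mem_filter]
      rcases Nat.lt_or_ge R n.primeFactors.card with h | h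
      · right; exact ⟨hn.1, h⟩
      · left; exact ⟨hn.1, hn.2, h⟩
    have h2 := (Finset.card_le_card h1).trans (Finset.card_union_le _ _)
    have h3 : (((Icc 1 N).filter (fun n => Odd n ∧ Bad n)).card : ℝ) ≤
      (((Icc 1 N).filter (fun n => (Odd n ∧ Bad n) ∧ n.primeFactors.card ≤ R)).card : ℝ) +
      (((Icc 1 N).filter (fun n => R < n.primeFactors.card)).card : ℝ) := by exact_mod_cast h2
    linarith
  refine htot.trans ?_
  have h1 : Real.exp (-Y) ≤ Real.exp (-(c1 / 8 * Y)) := by
    apply Real.exp_le_exp.mpr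
    nlinarith
  have h2 : (3 : ℝ) ≤ Real.exp (c1 / 16 * Y) := by
    have h3 : (2 : ℝ) ≤ c1 / 16 * Y := by
      have : c1 * t ≤ c1 * Y := by
        apply mul_le_mul_of_nonneg_left _ hc1pos.le
        nlinarith
      linarith
    have h4 := Real.add_one_le_exp (c1 / 16 * Y)
    linarith
  have h3 : 2 * (N * Real.exp (-Y)) + N * Real.exp (-(c1 / 8 * Y)) ≤
      3 * (N * Real.exp (-(c1 / 8 * Y))) := by
    have : N * Real.exp (-Y) ≤ N * Real.exp (-(c1 / 8 * Y)) :=
      mul_le_mul_of_nonneg_left h1 (by positivity)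
    linarith
  refine h3.trans ?_
  calc 3 * (N * Real.exp (-(c1 / 8 * Y)))
      ≤ Real.exp (c1 / 16 * Y) * (N * Real.exp (-(c1 / 8 * Y))) :=
        mul_le_mul_of_nonneg_right h2 (by positivity)
    _ = N * Real.exp (-(c1 / 16 * Y)) := by
        rw [mul_left_comm, ← Real.exp_add]
        congr 2
        ring

end Pool.Agent.Work.MP_b30479_gt.Counting
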