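import Pool.Agent.Work.MP_b30479_gt.TwoBridgeAlt

/-!
# Twist regions
-/

namespace Pool.Agent.Work.MP_b30479_gt

/-- The alternating word with the given twist regions: `(true, m)` stands for `σ_1^m` and
`(false, m)` for `σ_2^{-m}`. -/
def twistWord (l : List (Bool × ℕ)) : List (Fin 2 × Bool) :=
  (l.map fun p => List.replicate p.2
    (if p.1 then ((0 : Fin 2), true) else ((1 : Fin 2), false))).flatten

/-- The volume `v_8 = 8 Λ(π/4) = 3.66386...` of the regular ideal octahedron. -/
noncomputable def volOctahedron : ℝ := -8 * ∫ x in (0 : ℝ)..(Real.pi / 4), Real.log (2 * Real.sin x)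

end Pool.Agent.Work.MP_b30479_gt
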