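import Pool.Agent.Work.MP_b30479_gt.Mertens

/-!
# A density lemma

If `1 ∈ A` and every odd `m ∈ A` has at most `C (1 + log m)^4` exceptional primes, such that
`m p^k ∈ A` for all odd primes `p ∤ m` that are not exceptional, then `A` contains a positive
proportion of the odd numbers.
-/

namespace Pool.Agent.Work.MP_b30479_gt.Density

open Finset

/-- existence of a bad pair -/
lemma exists_bad {A : Set ℕ} (hA1 : 1 ∈ A) (Exc : ℕ → Finset ℕ)
    (hstep : ∀ m ∈ A, Odd m → ∀ p : ℕ, p.Prime → p ≠ 2 → ¬ p ∣ m → p ∉ Exc m → ∀ k,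
      m * p ^ k ∈ A) {Q : ℕ} (hQ : 2 ∣ Q) (n : ℕ) (hn : 0 < n) (hnQ : n.Coprime Q) (hnA : n ∉ A) :
    ∃ m p : ℕ, 0 < m ∧ m ∈ A ∧ m.Coprime Q ∧ p.Prime ∧ p ∈ Exc m ∧
      (∀ q : ℕ, q.Prime → q ∣ m → q < p) ∧ m * p ∣ n := by
  induction n using Nat.strong_induction_on with
  | _ n ih =>
    have hn1 : n ≠ 1 := by rintro rfl; exact hnA hA1
    have hne : n.primeFactors.Nonempty := Nat.nonempty_primeFactors.mpr (by omega)
    set p := n.primeFactors.max' hne with hp
    have hpmem : p ∈ n.primeFactors := Finset.max'_mem _ _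
    have hpp : p.Prime := Nat.prime_of_mem_primeFactors hpmem
    have hpn : p ∣ n := Nat.dvd_of_mem_primeFactors hpmem
    set m := ordCompl[p] n with hm
    have hpm : ¬ p ∣ m := Nat.not_dvd_ordCompl hpp hn.ne'
    have hmn : m ∣ n := Nat.ordCompl_dvd n p
    have hm0 : 0 < m := Nat.ordCompl_pos p hn.ne'
    have heq : ordProj[p] n * m = n := Nat.ordProj_mul_ordCompl_eq_self n p
    have hv : 1 ≤ n.factorization p := (hpp.dvd_iff_one_le_factorization hn.ne').mp hpn
    have hmQ : m.Coprime Q := Nat.Coprime.coprime_dvd_left hmn hnQ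
    have hnodd : Odd n := by
      rw [← Nat.not_even_iff_odd, even_iff_two_dvd]
      intro h2
      have := Nat.dvd_gcd h2 hQ
      rw [hnQ] at this
      omega
    have hmodd : Odd m := hnodd.of_dvd_nat hmn
    have hp2 : p ≠ 2 := by
      rintro h2
      rw [h2] at hpn
      exact (Nat.not_even_iff_odd.mpr hnodd) (even_iff_two_dvd.mpr hpn)
    have hq : ∀ q : ℕ, q.Prime → q ∣ m → q < p := by
      intro q hqp hqm
      have h1 : q ≤ p := Finset.le_max' _ _ (Nat.mem_primeFactors.mpr ⟨hqp, hqm.trans hmn, hn.ne'⟩)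
      rcases Nat.lt_or_ge q p with h | h
      · exact h
      · have : q = p := le_antisymm h1 h
        rw [this] at hqm
        exact absurd hqm hpm
    by_cases hmA : m ∈ A
    · refine ⟨m, p, hm0, hmA, hmQ, hpp, ?_, hq, ?_⟩
      · by_contra hexc
        apply hnA
        rw [← heq, mul_comm]
        exact hstep m hmA hmodd p hpp hp2 hpm hexc _
      · have h1 : p ∣ ordProj[p] n := dvd_pow_self p (by omega)
        calc m * p ∣ m * ordProj[p] n := Nat.mul_dvd_mul_left m h1
          _ = n := by rw [mul_comm]; exact heq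
    · have hlt : m < n := by
        rcases Nat.lt_or_ge m n with h | h
        · exact h
        · have : m = n := le_antisymm (Nat.le_of_dvd hn hmn) h
          rw [this] at hpm
          exact absurd hpn hpm
      obtain ⟨m', p', h1, h2, h3, h4, h5, h6, h7⟩ := ih m hlt hm0 hmQ hmA
      exact ⟨m', p', h1, h2, h3, h4, h5, h6, h7.trans hmn⟩

lemma card_multiples_le (N d : ℕ) :
    (((Icc 1 N).filter (fun n => d ∣ n)).card : ℝ) ≤ N / d := by
  have h : ((Icc 1 N).filter (fun n => d ∣ n)).card = N / d := by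
    rw [← Nat.Ioc_filter_dvd_card_eq_div]
    congr 1
  rw [h]
  exact Nat.cast_div_le

/-- number of integers up to `N` prime to `Q` -/
lemma card_coprime_ge {Q : ℕ} (hQ : 0 < Q) (N : ℕ) :
    (N : ℝ) * (Q.totient / Q) - Q.totient ≤ (((Icc 1 N).filter (fun n => n.Coprime Q)).card : ℝ) := by
  have hblock : ∀ k : ℕ, ((Ico 1 (1 + k * Q)).filter (fun n => n.Coprime Q)).card =
      k * Q.totient := by
    intro k
    induction k with
    | zero => simp
    | succ k ih =>
      have h1 : Ico 1 (1 + (k + 1) * Q) = Ico 1 (1 + k * Q) ∪ Ico (1 + k * Q) (1 + k * Q + Q) := by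
        rw [Finset.Ico_union_Ico_eq_Ico (by omega) (by omega)]
        congr 1
        ring
      have h2 : Disjoint (Ico 1 (1 + k * Q)) (Ico (1 + k * Q) (1 + k * Q + Q)) :=
        Finset.Ico_disjoint_Ico_consecutive _ _ _
      rw [h1, Finset.filter_union, Finset.card_union_of_disjoint
        (Finset.disjoint_filter_filter h2), ih]
      have h3 := Nat.filter_coprime_Ico_eq_totient Q (1 + k * Q)
      simp only [Nat.coprime_comm (n := Q)] at h3
      rw [h3]
      ring
  have hk := hblock (N / Q)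
  have hsub : (Ico 1 (1 + N / Q * Q)).filter (fun n => n.Coprime Q) ⊆
      (Icc 1 N).filter (fun n => n.Coprime Q) := by
    apply Finset.filter_subset_filter
    intro x hx
    rw [Finset.mem_Ico] at hx
    rw [Finset.mem_Icc]
    have := Nat.div_mul_le_self N Q
    omega
  have h1 := Finset.card_le_card hsub
  rw [hk] at h1
  have h2 : ((N / Q * Q.totient : ℕ) : ℝ) ≤
      (((Icc 1 N).filter (fun n => n.Coprime Q)).card : ℝ) := by exact_mod_cast h1
  refine le_trans ?_ h2
  push_cast
  have hQ' : (0 : ℝ) < Q := by exact_mod_cast hQ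
  have h3 : (N : ℝ) / Q - 1 ≤ ((N / Q : ℕ) : ℝ) := by
    have h4 : N < (N / Q + 1) * Q := by
      have := Nat.lt_div_mul_add hQ (a := N)
      linarith
    have h5 : (N : ℝ) < (((N / Q : ℕ) : ℝ) + 1) * Q := by exact_mod_cast h4
    rw [sub_le_iff_le_add, div_le_iff₀ hQ']
    exact h5.le
  have h6 : (0 : ℝ) ≤ Q.totient := Nat.cast_nonneg _
  calc (N : ℝ) * (Q.totient / Q) - Q.totient = ((N : ℝ) / Q - 1) * Q.totient := by
        field_simp
    _ ≤ _ := mul_le_mul_of_nonneg_right h3 h6

end Pool.Agent.Work.MP_b30479_gt.Density
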