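import Pool.Agent.Work.MP_b30479_gt.DensitySmooth

/-!
# The density lemma
-/

namespace Pool.Agent.Work.MP_b30479_gt.Density

open Finset

/-- `log_2` of the largest prime factor -/
noncomputable def lp (m : ℕ) : ℕ := Nat.log 2 (m.primeFactors.sup id)

lemma le_sup {m q : ℕ} (hm : 0 < m) (hq : q.Prime) (hqm : q ∣ m) :
    q ≤ m.primeFactors.sup id :=
  Finset.le_sup (f := id) (Nat.mem_primeFactors.mpr ⟨hq, hqm, hm.ne'⟩)

lemma sup_mem {m : ℕ} (hm : 2 ≤ m) : (m.primeFactors.sup id).Prime ∧ m.primeFactors.sup id ∣ m := by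
  have hne : m.primeFactors.Nonempty := Nat.nonempty_primeFactors.mpr (by omega)
  obtain ⟨p, hp, hp2⟩ := Finset.exists_mem_eq_sup m.primeFactors hne id
  rw [hp2]
  exact ⟨Nat.prime_of_mem_primeFactors hp, Nat.dvd_of_mem_primeFactors hp⟩

lemma coprime_primorial {k0 m q : ℕ} (hm : m.Coprime (primorial (2 ^ k0))) (hq : q.Prime)
    (hqm : q ∣ m) : 2 ^ k0 < q := by
  by_contra h
  push Not at h
  have h1 : q ∣ primorial (2 ^ k0) := by
    rw [primorial]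
    apply Finset.dvd_prod_of_mem
    rw [Finset.mem_filter, Finset.mem_range]
    exact ⟨by omega, hq⟩
  have h2 := Nat.dvd_gcd hqm h1
  rw [hm] at h2
  exact hq.one_lt.ne' (Nat.dvd_one.mp h2)

theorem bad_card_le {A : Set ℕ} (hA1 : 1 ∈ A) (Exc : ℕ → Finset ℕ) {C C3 : ℝ} (hC : 0 ≤ C)
    (hcard : ∀ m ∈ A, Odd m → ((Exc m).card : ℝ) ≤ C * (1 + Real.log m) ^ 4)
    (hExc1 : Exc 1 = ∅)
    (hstep : ∀ m ∈ A, Odd m → ∀ p : ℕ, p.Prime → p ≠ 2 → ¬ p ∣ m → p ∉ Exc m → ∀ k,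
      m * p ^ k ∈ A) {k0 : ℕ} (hk0 : 5 ≤ k0)
    (hC3 : ∀ k : ℕ, k0 ≤ k → ∀ S : Finset ℕ,
      (∀ m ∈ S, m ∈ Nat.factoredNumbers (Ioo (2 ^ k0) (2 ^ (k + 1)))) →
      ∑ m ∈ S, (1 + Real.log m) ^ 4 / m ≤ C3 * ((k : ℝ) + 1) ^ 36) (N : ℕ)
    (B : Finset ℕ) (hB : ∀ n ∈ B, 1 ≤ n ∧ n ≤ N ∧ n.Coprime (primorial (2 ^ k0)) ∧ n ∉ A) :
    (B.card : ℝ) ≤ N * (C * ∑ k ∈ Icc k0 N, (1 / 2 : ℝ) ^ k * (C3 * ((k : ℝ) + 1) ^ 36)) := by
  classical
  set Q := primorial (2 ^ k0) with hQ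
  have h2Q : 2 ∣ Q := by
    rw [hQ, primorial]
    apply Finset.dvd_prod_of_mem
    rw [Finset.mem_filter, Finset.mem_range]
    have : 2 ^ 1 ≤ 2 ^ k0 := Nat.pow_le_pow_right (by norm_num) (by omega)
    exact ⟨by omega, Nat.prime_two⟩
  let M : Finset ℕ := (Icc 2 N).filter (fun m => m.Coprime Q ∧ m ∈ A)
  let E : ℕ → Finset ℕ := fun m => (Exc m).filter (fun p => p.Prime ∧ ∀ q : ℕ, q.Prime → q ∣ m → q < p)
  have hsub : B ⊆ M.biUnion (fun m => (E m).biUnion (fun p => (Icc 1 N).filter (fun n => m * p ∣ n))) := by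
    intro n hn
    obtain ⟨h1, h2, h3, h4⟩ := hB n hn
    obtain ⟨m, p, hm0, hmA, hmQ, hpp, hpE, hq, hd⟩ := exists_bad hA1 Exc hstep h2Q n h1 h3 h4
    have hm1 : m ≠ 1 := by
      rintro rfl
      rw [hExc1] at hpE
      exact absurd hpE (Finset.notMem_empty p)
    have hmn : m ≤ n := Nat.le_of_dvd h1 ((Dvd.intro p rfl).trans hd)
    rw [Finset.mem_biUnion]
    refine ⟨m, ?_, ?_⟩
    · exact Finset.mem_filter.mpr ⟨Finset.mem_Icc.mpr ⟨by omega, by omega⟩, hmQ, hmA⟩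
    · rw [Finset.mem_biUnion]
      exact ⟨p, Finset.mem_filter.mpr ⟨hpE, hpp, hq⟩,
        Finset.mem_filter.mpr ⟨Finset.mem_Icc.mpr ⟨h1, h2⟩, hd⟩⟩
  have hcardB : (B.card : ℝ) ≤ ∑ m ∈ M, ∑ p ∈ E m, (N : ℝ) / (m * p) := by
    have h1 : B.card ≤ ∑ m ∈ M, ∑ p ∈ E m, ((Icc 1 N).filter (fun n => m * p ∣ n)).card :=
      (Finset.card_le_card hsub).trans (Finset.card_biUnion_le.trans
        (Finset.sum_le_sum fun m _ => Finset.card_biUnion_le))
    calc (B.card : ℝ) ≤ ((∑ m ∈ M, ∑ p ∈ E m, ((Icc 1 N).filter (fun n => m * p ∣ n)).card : ℕ) : ℝ) := by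
          exact_mod_cast h1
      _ = ∑ m ∈ M, ∑ p ∈ E m, (((Icc 1 N).filter (fun n => m * p ∣ n)).card : ℝ) := by push_cast; rfl
      _ ≤ _ := by
          apply Finset.sum_le_sum
          intro m _
          apply Finset.sum_le_sum
          intro p _
          have := card_multiples_le N (m * p)
          push_cast at this
          exact this
  have hMprop : ∀ m ∈ M, 2 ≤ m ∧ m ≤ N ∧ m.Coprime Q ∧ m ∈ A := by
    intro m hm
    rw [Finset.mem_filter, Finset.mem_Icc] at hm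
    exact ⟨hm.1.1, hm.1.2, hm.2.1, hm.2.2⟩
  have hodd : ∀ m ∈ M, Odd m := by
    intro m hm
    rw [← Nat.not_even_iff_odd, even_iff_two_dvd]
    intro h2
    have h3 := Nat.dvd_gcd h2 h2Q
    rw [(hMprop m hm).2.2.1] at h3
    omega
  have hinner : ∀ m ∈ M, ∑ p ∈ E m, (N : ℝ) / (m * p) ≤
      N * (C * ((1 / 2 : ℝ) ^ lp m * ((1 + Real.log m) ^ 4 / m))) := by
    intro m hm
    obtain ⟨hm2, hmN, hmQ, hmA⟩ := hMprop m hm
    have hm' : (0 : ℝ) < m := by exact_mod_cast (by omega : 0 < m)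
    obtain ⟨hsp, hsd⟩ := sup_mem hm2
    have hterm : ∀ p ∈ E m, (N : ℝ) / (m * p) ≤ N / m * (1 / 2 : ℝ) ^ lp m := by
      intro p hp
      rw [Finset.mem_filter] at hp
      obtain ⟨-, hpp, hq⟩ := hp
      have h1 : m.primeFactors.sup id < p := hq _ hsp hsd
      have h2 : 2 ^ lp m ≤ m.primeFactors.sup id := Nat.pow_log_le_self 2 hsp.pos.ne'
      have h3 : (2 : ℝ) ^ lp m ≤ p := by exact_mod_cast (h2.trans h1.le)
      have h4 : (0 : ℝ) < (2 : ℝ) ^ lp m := by positivity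
      rw [div_mul_eq_div_div, div_eq_mul_inv ((N : ℝ) / m)]
      apply mul_le_mul_of_nonneg_left _ (by positivity)
      rw [one_div, inv_pow]
      exact inv_anti₀ h4 h3
    have hE : ((E m).card : ℝ) ≤ C * (1 + Real.log m) ^ 4 := by
      refine le_trans ?_ (hcard m hmA (hodd m hm))
      exact_mod_cast Finset.card_filter_le _ _
    calc ∑ p ∈ E m, (N : ℝ) / (m * p) ≤ ∑ p ∈ E m, N / m * (1 / 2 : ℝ) ^ lp m :=
          Finset.sum_le_sum hterm
      _ = (E m).card * (N / m * (1 / 2 : ℝ) ^ lp m) := by rw [Finset.sum_const, nsmul_eq_mul]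
      _ ≤ (C * (1 + Real.log m) ^ 4) * (N / m * (1 / 2 : ℝ) ^ lp m) :=
          mul_le_mul_of_nonneg_right hE (by positivity)
      _ = _ := by ring
  have hmaps : ∀ m ∈ M, lp m ∈ Icc k0 N := by
    intro m hm
    obtain ⟨hm2, hmN, hmQ, hmA⟩ := hMprop m hm
    obtain ⟨hsp, hsd⟩ := sup_mem hm2
    rw [Finset.mem_Icc]
    constructor
    · have h1 := coprime_primorial hmQ hsp hsd
      exact Nat.le_log_of_pow_le (by norm_num) h1.le
    · have h1 : m.primeFactors.sup id ≤ m := Nat.le_of_dvd (by omega) hsd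
      have h2 : Nat.log 2 (m.primeFactors.sup id) ≤ m.primeFactors.sup id := Nat.log_le_self _ _
      unfold lp
      omega
  have hfib : ∑ m ∈ M, (1 / 2 : ℝ) ^ lp m * ((1 + Real.log m) ^ 4 / m) ≤
      ∑ k ∈ Icc k0 N, (1 / 2 : ℝ) ^ k * (C3 * ((k : ℝ) + 1) ^ 36) := by
    rw [← Finset.sum_fiberwise_of_maps_to hmaps]
    apply Finset.sum_le_sum
    intro k hk
    rw [Finset.mem_Icc] at hk
    have h1 : ∑ m ∈ M.filter (fun m => lp m = k), (1 / 2 : ℝ) ^ lp m * ((1 + Real.log m) ^ 4 / m) =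
        (1 / 2 : ℝ) ^ k * ∑ m ∈ M.filter (fun m => lp m = k), (1 + Real.log m) ^ 4 / m := by
      rw [Finset.mul_sum]
      apply Finset.sum_congr rfl
      intro m hm
      rw [(Finset.mem_filter.mp hm).2]
    rw [h1]
    apply mul_le_mul_of_nonneg_left _ (by positivity)
    apply hC3 k hk.1
    intro m hm
    obtain ⟨hmM, hmk⟩ := Finset.mem_filter.mp hm
    obtain ⟨hm2, hmN, hmQ, hmA⟩ := hMprop m hmM
    rw [Nat.mem_factoredNumbers_iff_primeFactors_subset]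
    refine ⟨by omega, ?_⟩
    intro q hq
    have hqp := Nat.prime_of_mem_primeFactors hq
    have hqm := Nat.dvd_of_mem_primeFactors hq
    rw [Finset.mem_Ioo]
    refine ⟨coprime_primorial hmQ hqp hqm, ?_⟩
    have h2 : q ≤ m.primeFactors.sup id := le_sup (by omega) hqp hqm
    have h3 : m.primeFactors.sup id < 2 ^ (lp m + 1) := Nat.lt_pow_succ_log_self (by norm_num) _
    rw [hmk] at h3
    omega
  calc (B.card : ℝ) ≤ ∑ m ∈ M, ∑ p ∈ E m, (N : ℝ) / (m * p) := hcardB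
    _ ≤ ∑ m ∈ M, N * (C * ((1 / 2 : ℝ) ^ lp m * ((1 + Real.log m) ^ 4 / m))) :=
        Finset.sum_le_sum hinner
    _ = N * (C * ∑ m ∈ M, (1 / 2 : ℝ) ^ lp m * ((1 + Real.log m) ^ 4 / m)) := by
        rw [← Finset.mul_sum, ← Finset.mul_sum]
    _ ≤ _ := by
        apply mul_le_mul_of_nonneg_left _ (Nat.cast_nonneg _)
        exact mul_le_mul_of_nonneg_left hfib hC

/-- **density lemma** -/
theorem density {A : Set ℕ} [DecidablePred (· ∈ A)] (hA1 : 1 ∈ A) (Exc : ℕ → Finset ℕ) {C : ℝ}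
    (hC : 0 ≤ C)
    (hcard : ∀ m ∈ A, Odd m → ((Exc m).card : ℝ) ≤ C * (1 + Real.log m) ^ 4)
    (hExc1 : Exc 1 = ∅)
    (hstep : ∀ m ∈ A, Odd m → ∀ p : ℕ, p.Prime → p ≠ 2 → ¬ p ∣ m → p ∉ Exc m → ∀ k,
      m * p ^ k ∈ A) :
    ∃ δ : ℝ, 0 < δ ∧ ∃ N0 : ℕ, ∀ N : ℕ, N0 ≤ N →
      δ * N ≤ (((Icc 1 N).filter (fun n => Odd n ∧ n ∈ A)).card : ℝ) := by
  classical
  obtain ⟨C3, hC3, hsmooth⟩ := smooth_sum
  obtain ⟨c1, hc1, hrough⟩ := totient_primorial_ge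
  have hsummable : Summable (fun k : ℕ => ((k : ℝ) + 1) ^ 38 * (1 / 2 : ℝ) ^ k) := by
    have h := summable_pow_mul_geometric_of_norm_lt_one 38 (r := (1 / 2 : ℝ)) (by norm_num)
    have h2 := (summable_nat_add_iff 1).mpr h
    have h3 := h2.mul_left 2
    refine h3.congr ?_
    intro k
    push_cast
    rw [pow_succ (1 / 2 : ℝ) k]
    ring
  set η : ℝ := c1 / (2 * (C * C3 + 1)) with hη
  have hCC : 0 < C * C3 + 1 := by positivity
  have hηpos : 0 < η := by positivity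
  obtain ⟨s, hs⟩ := summable_iff_vanishing_norm.mp hsummable η hηpos
  set k0 : ℕ := max 5 (s.sup id + 1) with hk0
  have hk05 : 5 ≤ k0 := le_max_left _ _
  have hk0' : (0 : ℝ) < k0 := by exact_mod_cast (by omega : 0 < k0)
  have htail : ∀ N : ℕ, ∑ k ∈ Icc k0 N, (1 / 2 : ℝ) ^ k * ((k : ℝ) + 1) ^ 36 ≤ η / (k0 : ℝ) ^ 2 := by
    intro N
    have hdisj : Disjoint (Icc k0 N) s := by
      rw [Finset.disjoint_left]
      intro x hx hxs
      rw [Finset.mem_Icc] at hx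
      have h1 : x ≤ s.sup id := Finset.le_sup (f := id) hxs
      have h2 : s.sup id + 1 ≤ k0 := le_max_right _ _
      omega
    have h1 := (hs _ hdisj).le
    have h2 := (Real.le_norm_self (∑ k ∈ Icc k0 N, ((k : ℝ) + 1) ^ 38 * (1 / 2 : ℝ) ^ k)).trans h1
    rw [le_div_iff₀ (by positivity), Finset.sum_mul]
    refine le_trans (Finset.sum_le_sum ?_) h2
    intro k hk
    rw [Finset.mem_Icc] at hk
    have h3 : (k0 : ℝ) ≤ (k : ℝ) + 1 := by
      have : (k0 : ℝ) ≤ k := by exact_mod_cast hk.1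
      linarith
    have h4 : (k0 : ℝ) ^ 2 ≤ ((k : ℝ) + 1) ^ 2 := pow_le_pow_left₀ hk0'.le h3 2
    calc (1 / 2 : ℝ) ^ k * ((k : ℝ) + 1) ^ 36 * (k0 : ℝ) ^ 2
        ≤ (1 / 2 : ℝ) ^ k * ((k : ℝ) + 1) ^ 36 * ((k : ℝ) + 1) ^ 2 :=
          mul_le_mul_of_nonneg_left h4 (by positivity)
      _ = ((k : ℝ) + 1) ^ 38 * (1 / 2 : ℝ) ^ k := by ring
  set Q := primorial (2 ^ k0) with hQ
  have hQpos : 0 < Q := primorial_pos _
  have hQ' : (0 : ℝ) < Q := by exact_mod_cast hQpos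
  have hφ : (0 : ℝ) < Q.totient := by exact_mod_cast Nat.totient_pos.mpr hQpos
  set ρ : ℝ := (Q.totient : ℝ) / Q with hρ
  have hρpos : 0 < ρ := by positivity
  have hρc : c1 / (k0 : ℝ) ^ 2 ≤ ρ := hrough k0 (by omega)
  have h2Q : 2 ∣ Q := by
    rw [hQ, primorial]
    apply Finset.dvd_prod_of_mem
    rw [Finset.mem_filter, Finset.mem_range]
    have : 2 ^ 1 ≤ 2 ^ k0 := Nat.pow_le_pow_right (by norm_num) (by omega)
    exact ⟨by omega, Nat.prime_two⟩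
  refine ⟨ρ / 4, by positivity, 4 * Q, ?_⟩
  intro N hN
  have hNQ : (4 : ℝ) * Q ≤ N := by exact_mod_cast hN
  set G := (Icc 1 N).filter (fun n => n.Coprime Q) with hG
  set B := G.filter (fun n => n ∉ A) with hB
  have hgood : G \ B ⊆ (Icc 1 N).filter (fun n => Odd n ∧ n ∈ A) := by
    intro n hn
    rw [Finset.mem_sdiff, hB, Finset.mem_filter, hG, Finset.mem_filter] at hn
    obtain ⟨⟨hn1, hn2⟩, hn3⟩ := hn
    rw [Finset.mem_filter]
    refine ⟨hn1, ?_, ?_⟩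
    · rw [← Nat.not_even_iff_odd, even_iff_two_dvd]
      intro h2
      have h3 := Nat.dvd_gcd h2 h2Q
      rw [hn2] at h3
      omega
    · by_contra h
      exact hn3 ⟨Finset.mem_filter.mpr ⟨hn1, hn2⟩, h⟩
  have hcount : (G.card : ℝ) - B.card ≤ (((Icc 1 N).filter (fun n => Odd n ∧ n ∈ A)).card : ℝ) := by
    have h1 := Finset.card_le_card hgood
    rw [Finset.card_sdiff_of_subset (Finset.filter_subset _ _)] at h1
    have h2 : B.card ≤ G.card := Finset.card_le_card (Finset.filter_subset _ _)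
    have h3 : ((G.card - B.card : ℕ) : ℝ) ≤
        (((Icc 1 N).filter (fun n => Odd n ∧ n ∈ A)).card : ℝ) := by exact_mod_cast h1
    rwa [Nat.cast_sub h2] at h3
  have hGge : (N : ℝ) * ρ - Q.totient ≤ G.card := card_coprime_ge hQpos N
  have hBle : (B.card : ℝ) ≤ N * (ρ / 2) := by
    have h1 := bad_card_le hA1 Exc hC hcard hExc1 hstep hk05
      (fun k hk S hS => hsmooth k0 k hk05 hk S hS) N B (by
        intro n hn
        rw [hB, Finset.mem_filter, hG, Finset.mem_filter, Finset.mem_Icc] at hn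
        exact ⟨hn.1.1.1, hn.1.1.2, hn.1.2, hn.2⟩)
    refine h1.trans ?_
    apply mul_le_mul_of_nonneg_left _ (Nat.cast_nonneg _)
    have h2 : ∑ k ∈ Icc k0 N, (1 / 2 : ℝ) ^ k * (C3 * ((k : ℝ) + 1) ^ 36) =
        C3 * ∑ k ∈ Icc k0 N, (1 / 2 : ℝ) ^ k * ((k : ℝ) + 1) ^ 36 := by
      rw [Finset.mul_sum]
      apply Finset.sum_congr rfl
      intro k _
      ring
    rw [h2, ← mul_assoc]
    have h3 : C * C3 * ∑ k ∈ Icc k0 N, (1 / 2 : ℝ) ^ k * ((k : ℝ) + 1) ^ 36 ≤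
        C * C3 * (η / (k0 : ℝ) ^ 2) := mul_le_mul_of_nonneg_left (htail N) (by positivity)
    refine h3.trans ?_
    have h4 : C * C3 * (η / (k0 : ℝ) ^ 2) = (C * C3 / (C * C3 + 1)) * (c1 / (k0 : ℝ) ^ 2) / 2 := by
      rw [hη]
      field_simp
    have h5 : C * C3 / (C * C3 + 1) ≤ 1 := by
      rw [div_le_one hCC]
      linarith
    have h6 : 0 ≤ c1 / (k0 : ℝ) ^ 2 := by positivity
    rw [h4]
    have h7 : (C * C3 / (C * C3 + 1)) * (c1 / (k0 : ℝ) ^ 2) ≤ 1 * (c1 / (k0 : ℝ) ^ 2) :=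
      mul_le_mul_of_nonneg_right h5 h6
    linarith
  have hφN : (Q.totient : ℝ) ≤ N * (ρ / 4) := by
    have h1 : (4 : ℝ) * Q * (ρ / 4) ≤ N * (ρ / 4) := mul_le_mul_of_nonneg_right hNQ (by positivity)
    have h2 : (4 : ℝ) * Q * (ρ / 4) = Q.totient := by
      rw [hρ]; field_simp
    linarith
  linarith

end Pool.Agent.Work.MP_b30479_gt.Density
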