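import Pool.Agent.Work.MP_b30479_gt.Density

/-!
# Sums over smooth and rough numbers
-/

namespace Pool.Agent.Work.MP_b30479_gt.Density

open Finset

lemma inv_one_sub_le {x : ℝ} (h0 : 0 ≤ x) (h1 : x ≤ 1 / 2) : (1 - x)⁻¹ ≤ Real.exp (2 * x) := by
  have h2 : 0 < 1 - x := by linarith
  have h3 : (1 - x)⁻¹ ≤ 1 + 2 * x := by
    rw [inv_le_iff_one_le_mul₀ h2]
    nlinarith
  have h4 := Real.add_one_le_exp (2 * x)
  linarith

lemma exp_le_one_sub {x : ℝ} (h0 : 0 ≤ x) (h1 : x ≤ 1 / 2) : Real.exp (-(2 * x)) ≤ 1 - x := by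
  have h2 : 0 < 1 - x := by linarith
  rw [Real.exp_neg]
  exact inv_le_of_inv_le₀ h2 (inv_one_sub_le h0 h1)

/-- `m ↦ m^(ε-1)` -/
noncomputable def pw (e : ℝ) : ℕ →* ℝ where
  toFun m := (m : ℝ) ^ e
  map_one' := by simp
  map_mul' a b := by
    rw [Nat.cast_mul]
    exact Real.mul_rpow (Nat.cast_nonneg _) (Nat.cast_nonneg _)

lemma log_pow_le {k m : ℕ} (hm : 0 < m) :
    (1 + Real.log m) ^ 4 / m ≤ ((k : ℝ) + 1) ^ 4 * pw (4 / ((k : ℝ) + 1) - 1) m := by
  have hm' : (0 : ℝ) < m := by exact_mod_cast hm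
  have hlog : 0 ≤ Real.log m := Real.log_natCast_nonneg m
  have hk : (0 : ℝ) < (k : ℝ) + 1 := by positivity
  have hk1 : (1 : ℝ) ≤ (k : ℝ) + 1 := by
    have : (0 : ℝ) ≤ k := Nat.cast_nonneg k
    linarith
  have h1 : 1 + Real.log m ≤ ((k : ℝ) + 1) * Real.exp (Real.log m / ((k : ℝ) + 1)) := by
    have h2 := Real.add_one_le_exp (Real.log m / ((k : ℝ) + 1))
    have h3 : ((k : ℝ) + 1) * (Real.log m / ((k : ℝ) + 1) + 1) = Real.log m + ((k : ℝ) + 1) := by
      field_simp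
    have h4 := mul_le_mul_of_nonneg_left h2 hk.le
    rw [h3] at h4
    linarith
  have h5 : (1 + Real.log m) ^ 4 ≤
      (((k : ℝ) + 1) * Real.exp (Real.log m / ((k : ℝ) + 1))) ^ 4 :=
    pow_le_pow_left₀ (by linarith) h1 4
  have h6 : (((k : ℝ) + 1) * Real.exp (Real.log m / ((k : ℝ) + 1))) ^ 4 =
      ((k : ℝ) + 1) ^ 4 * (m : ℝ) ^ (4 / ((k : ℝ) + 1)) := by
    rw [mul_pow, ← Real.exp_nat_mul, Real.rpow_def_of_pos hm']
    congr 2
    push_cast
    ring
  have h7 : pw (4 / ((k : ℝ) + 1) - 1) m = (m : ℝ) ^ (4 / ((k : ℝ) + 1)) / m := by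
    show (m : ℝ) ^ (4 / ((k : ℝ) + 1) - 1) = _
    rw [Real.rpow_sub_one hm'.ne']
  rw [h7, ← mul_div_assoc]
  apply div_le_div_of_nonneg_right _ hm'.le
  rw [← h6]
  exact h5

/-- constant in the smooth sum -/
theorem smooth_sum : ∃ C3 : ℝ, 0 < C3 ∧ ∀ k0 k : ℕ, 5 ≤ k0 → k0 ≤ k → ∀ S : Finset ℕ,
    (∀ m ∈ S, m ∈ Nat.factoredNumbers (Ioo (2 ^ k0) (2 ^ (k + 1)))) →
    ∑ m ∈ S, (1 + Real.log m) ^ 4 / m ≤ C3 * ((k : ℝ) + 1) ^ 36 := by
  obtain ⟨CM, hCM, hM⟩ := Mertens.mertens_second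
  have hlog2 : 0 < Real.log 2 := Real.log_pos (by norm_num)
  refine ⟨Real.exp (32 * (CM / Real.log 2)), Real.exp_pos _, ?_⟩
  intro k0 k hk0 hk S hS
  set s := Ioo (2 ^ k0) (2 ^ (k + 1)) with hs
  set e : ℝ := 4 / ((k : ℝ) + 1) - 1 with he
  have hkpos : (0 : ℝ) < (k : ℝ) + 1 := by positivity
  have hk5 : (5 : ℝ) ≤ k := by exact_mod_cast (by omega : 5 ≤ k)
  have hneg : e < 0 := by
    rw [he, sub_neg, div_lt_one hkpos]
    linarith
  have hlt : ∀ {p : ℕ}, p.Prime → ‖pw e p‖ < 1 := by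
    intro p hp
    show ‖(p : ℝ) ^ e‖ < 1
    rw [Real.norm_of_nonneg (Real.rpow_nonneg (Nat.cast_nonneg _) _)]
    exact Real.rpow_lt_one_of_one_lt_of_neg (by exact_mod_cast hp.one_lt) hneg
  obtain ⟨-, hsum⟩ := EulerProduct.summable_and_hasSum_factoredNumbers_prod_filter_prime_geometric
    (f := pw e) hlt s
  have hnn : ∀ m : ℕ, 0 ≤ pw e m := fun m => Real.rpow_nonneg (Nat.cast_nonneg _) _
  have h1 : ∑ m ∈ S, pw e m ≤ ∏ p ∈ s with p.Prime, (1 - pw e p)⁻¹ := by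
    have h2 : ∑ m ∈ S, pw e m =
        ∑ m ∈ S.subtype (· ∈ Nat.factoredNumbers s), pw e (m : ℕ) := by
      rw [Finset.sum_subtype_of_mem (fun m => pw e m) hS]
    rw [h2]
    exact sum_le_hasSum _ (fun m _ => hnn m) hsum
  have hmemP : ∀ p ∈ s.filter Nat.Prime, p.Prime ∧ 2 ^ k0 < p ∧ p < 2 ^ (k + 1) := by
    intro p hp
    rw [Finset.mem_filter, hs, Finset.mem_Ioo] at hp
    exact ⟨hp.2, hp.1.1, hp.1.2⟩
  have h2 : ∏ p ∈ s with p.Prime, (1 - pw e p)⁻¹ ≤
      Real.exp (∑ p ∈ s with p.Prime, 32 * ((1 : ℝ) / p)) := by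
    rw [Real.exp_sum]
    apply Finset.prod_le_prod
    · intro p hp
      have := hlt (hmemP p hp).1
      rw [Real.norm_of_nonneg (hnn p)] at this
      exact inv_nonneg.mpr (by linarith)
    · intro p hp
      obtain ⟨hpp, hp1, hp2⟩ := hmemP p hp
      have hp0 : (0 : ℝ) < p := by exact_mod_cast hpp.pos
      have hp32 : (32 : ℝ) ≤ p := by
        have : 2 ^ 5 ≤ 2 ^ k0 := Nat.pow_le_pow_right (by norm_num) hk0
        exact_mod_cast (by omega : 32 ≤ p)
      have hpow : (p : ℝ) ^ (4 / ((k : ℝ) + 1)) ≤ 16 := by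
        have h3 : (p : ℝ) ≤ (2 : ℝ) ^ ((k : ℝ) + 1) := by
          have : (p : ℝ) ≤ (2 : ℝ) ^ (k + 1) := by exact_mod_cast hp2.le
          rw [show ((k : ℝ) + 1) = ((k + 1 : ℕ) : ℝ) by push_cast; ring, Real.rpow_natCast]
          exact this
        calc (p : ℝ) ^ (4 / ((k : ℝ) + 1)) ≤ ((2 : ℝ) ^ ((k : ℝ) + 1)) ^ (4 / ((k : ℝ) + 1)) :=
              Real.rpow_le_rpow hp0.le h3 (by positivity)
          _ = (2 : ℝ) ^ (4 : ℝ) := by
              rw [← Real.rpow_mul (by norm_num)]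
              congr 1
              field_simp
          _ = 16 := by norm_num
      have h4 : pw e p ≤ 16 / p := by
        show (p : ℝ) ^ e ≤ _
        rw [he, Real.rpow_sub_one hp0.ne']
        exact div_le_div_of_nonneg_right hpow hp0.le
      have h5 : 16 / (p : ℝ) ≤ 1 / 2 := by
        rw [div_le_div_iff₀ hp0 (by norm_num)]
        linarith
      have h6 := inv_one_sub_le (hnn p) (h4.trans h5)
      refine h6.trans (Real.exp_le_exp.mpr ?_)
      have : 2 * (16 / (p : ℝ)) = 32 * (1 / p) := by ring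
      linarith
  have h3 : ∑ p ∈ s with p.Prime, ((1 : ℝ) / p) ≤ Real.log ((k : ℝ) + 1) + CM / Real.log 2 := by
    have ha : (2 : ℝ) ≤ (2 : ℝ) ^ k0 := by
      calc (2 : ℝ) = 2 ^ 1 := by norm_num
        _ ≤ 2 ^ k0 := pow_le_pow_right₀ (by norm_num) (by omega)
    have hab : (2 : ℝ) ^ k0 ≤ (2 : ℝ) ^ (k + 1) := pow_le_pow_right₀ (by norm_num) (by omega)
    have h4 := hM _ _ ha hab
    have h5 : ∑ p ∈ s with p.Prime, ((1 : ℝ) / p) ≤
        ∑ p ∈ Mertens.PB ((2 : ℝ) ^ k0) ((2 : ℝ) ^ (k + 1)), ((1 : ℝ) / p) := by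
      apply Finset.sum_le_sum_of_subset_of_nonneg
      · intro p hp
        obtain ⟨hpp, hp1, hp2⟩ := hmemP p hp
        rw [Mertens.mem_PB (by positivity) (by positivity)]
        exact ⟨hpp, by exact_mod_cast hp1, by exact_mod_cast hp2.le⟩
      · intro p _ _
        positivity
    refine h5.trans (h4.trans ?_)
    have hk0' : (1 : ℝ) ≤ k0 := by exact_mod_cast (by omega : 1 ≤ k0)
    rw [Real.log_pow, Real.log_pow]
    apply add_le_add
    · apply Real.log_le_log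
      · positivity
      · rw [mul_div_mul_right _ _ hlog2.ne']
        push_cast
        exact div_le_self (by positivity) hk0'
    · apply div_le_div_of_nonneg_left hCM.le hlog2
      exact le_mul_of_one_le_left hlog2.le hk0'
  calc ∑ m ∈ S, (1 + Real.log m) ^ 4 / m
      ≤ ∑ m ∈ S, ((k : ℝ) + 1) ^ 4 * pw e m := by
        apply Finset.sum_le_sum
        intro m hm
        exact log_pow_le (Nat.pos_of_ne_zero (hS m hm).1)
    _ = ((k : ℝ) + 1) ^ 4 * ∑ m ∈ S, pw e m := by rw [Finset.mul_sum]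
    _ ≤ ((k : ℝ) + 1) ^ 4 * Real.exp (32 * (Real.log ((k : ℝ) + 1) + CM / Real.log 2)) := by
        apply mul_le_mul_of_nonneg_left _ (by positivity)
        refine h1.trans (h2.trans (Real.exp_le_exp.mpr ?_))
        rw [← Finset.mul_sum]
        linarith
    _ = Real.exp (32 * (CM / Real.log 2)) * ((k : ℝ) + 1) ^ 36 := by
        rw [mul_add, Real.exp_add]
        have : Real.exp (32 * Real.log ((k : ℝ) + 1)) = ((k : ℝ) + 1) ^ 32 := by
          rw [show (32 : ℝ) * Real.log ((k : ℝ) + 1) = ((32 : ℕ) : ℝ) * Real.log ((k : ℝ) + 1) by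
            norm_num, Real.exp_nat_mul, Real.exp_log hkpos]
        rw [this]
        ring

/-- lower bound for the density of rough numbers -/
theorem totient_primorial_ge : ∃ c1 : ℝ, 0 < c1 ∧ ∀ k0 : ℕ, 1 ≤ k0 →
    c1 / (k0 : ℝ) ^ 2 ≤ ((primorial (2 ^ k0)).totient : ℝ) / (primorial (2 ^ k0) : ℝ) := by
  obtain ⟨CM, hCM, hM⟩ := Mertens.mertens_second
  have hlog2 : 0 < Real.log 2 := Real.log_pos (by norm_num)
  refine ⟨Real.exp (-(2 * (1 / 2 + CM / Real.log 2))), Real.exp_pos _, ?_⟩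
  intro k0 hk0
  have hk0' : (0 : ℝ) < k0 := by exact_mod_cast hk0
  set Q := primorial (2 ^ k0) with hQ
  have hQpos : 0 < Q := primorial_pos _
  have hQ' : (0 : ℝ) < Q := by exact_mod_cast hQpos
  have h1 : (Q.totient : ℝ) / Q = ∏ p ∈ Q.primeFactors, (1 - (p : ℝ)⁻¹) := by
    have h := Nat.totient_eq_mul_prod_factors Q
    have h2 : ((Q.totient : ℚ) : ℝ) = ((Q * ∏ p ∈ Q.primeFactors, (1 - (p : ℚ)⁻¹) : ℚ) : ℝ) := by
      rw [h]
    push_cast at h2
    rw [h2]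
    field_simp
  have hmem : ∀ p ∈ Q.primeFactors, p.Prime ∧ p ≤ 2 ^ k0 := by
    intro p hp
    have hpp := Nat.prime_of_mem_primeFactors hp
    have hpd := Nat.dvd_of_mem_primeFactors hp
    refine ⟨hpp, ?_⟩
    rw [hQ, primorial] at hpd
    rw [Prime.dvd_finsetProd_iff hpp.prime] at hpd
    obtain ⟨q, hq, hpq⟩ := hpd
    rw [Finset.mem_filter, Finset.mem_range] at hq
    have := (Nat.prime_dvd_prime_iff_eq hpp hq.2).mp hpq
    omega
  have h2 : Real.exp (-∑ p ∈ Q.primeFactors, 2 * ((1 : ℝ) / p)) ≤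
      ∏ p ∈ Q.primeFactors, (1 - (p : ℝ)⁻¹) := by
    rw [← Finset.sum_neg_distrib, Real.exp_sum]
    apply Finset.prod_le_prod
    · intro p _
      exact (Real.exp_pos _).le
    · intro p hp
      have hp2 : (2 : ℝ) ≤ p := by exact_mod_cast (hmem p hp).1.two_le
      have := exp_le_one_sub (x := 1 / (p : ℝ)) (by positivity) (by
        rw [div_le_div_iff₀ (by linarith) (by norm_num)]
        linarith)
      rw [one_div] at this ⊢
      exact this
  have h3 : ∑ p ∈ Q.primeFactors, ((1 : ℝ) / p) ≤ 1 / 2 + CM / Real.log 2 + Real.log k0 := by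
    have hab : (2 : ℝ) ≤ (2 : ℝ) ^ k0 := by
      calc (2 : ℝ) = 2 ^ 1 := by norm_num
        _ ≤ 2 ^ k0 := pow_le_pow_right₀ (by norm_num) (by omega)
    have h4 := hM 2 _ (le_refl _) hab
    have h5 : ∑ p ∈ Q.primeFactors, ((1 : ℝ) / p) ≤
        ∑ p ∈ insert 2 (Mertens.PB 2 ((2 : ℝ) ^ k0)), ((1 : ℝ) / p) := by
      apply Finset.sum_le_sum_of_subset_of_nonneg
      · intro p hp
        obtain ⟨hpp, hp2⟩ := hmem p hp
        rw [Finset.mem_insert]
        rcases Nat.lt_or_ge 2 p with h | h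
        · right
          rw [Mertens.mem_PB (by norm_num) (by positivity)]
          exact ⟨hpp, by exact_mod_cast h, by exact_mod_cast hp2⟩
        · left
          have := hpp.two_le
          omega
      · intro p _ _
        positivity
    have h6 : (2 : ℕ) ∉ Mertens.PB 2 ((2 : ℝ) ^ k0) := by
      rw [Mertens.mem_PB (by norm_num) (by positivity)]
      rintro ⟨-, h, -⟩
      norm_num at h
    rw [Finset.sum_insert h6] at h5
    have h7 : Real.log (Real.log ((2 : ℝ) ^ k0) / Real.log 2) = Real.log k0 := by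
      rw [Real.log_pow, mul_div_assoc, div_self hlog2.ne', mul_one]
    rw [h7] at h4
    have h8 : (1 : ℝ) / ((2 : ℕ) : ℝ) = 1 / 2 := by norm_num
    rw [h8] at h5
    linarith
  rw [h1]
  refine le_trans ?_ h2
  have h9 : Real.exp (-(2 * (1 / 2 + CM / Real.log 2))) / (k0 : ℝ) ^ 2 =
      Real.exp (-(2 * (1 / 2 + CM / Real.log 2 + Real.log k0))) := by
    rw [mul_add 2 (1 / 2 + CM / Real.log 2), neg_add, Real.exp_add, div_eq_mul_inv]
    congr 1
    rw [Real.exp_neg, show (2 : ℝ) * Real.log k0 = ((2 : ℕ) : ℝ) * Real.log k0 by norm_num,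
      Real.exp_nat_mul, Real.exp_log hk0']
  rw [h9]
  apply Real.exp_le_exp.mpr
  rw [← Finset.mul_sum]
  linarith

end Pool.Agent.Work.MP_b30479_gt.Density
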