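import Pool.Agent.Work.MP_b30479_gt.Block

namespace Pool.Agent.Work.MP_b30479_gt

open Polynomial

section map
variable {A B : Type*} [CommRing A] [CommRing B] (f : A →+* B)

lemma entry_map (s : ℕ) (t : Aˣ) (pos : Bool) (i j a b : ℕ) :
    f (entry s t pos i j a b) = entry s (Units.map f t) pos i j a b := by
  unfold entry coeffPos coeffNeg
  have hz : ∀ x : ℤ, f ((t ^ x : Aˣ) : A) = (((Units.map (f : A →* B) t) ^ x : Bˣ) : B) := by
    intro x
    rw [← map_zpow]
    rfl
  have hg : ∀ n k, f (gauss (t : A) n k) = gauss ((Units.map (f : A →* B) t : Bˣ) : B) n k := by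
    intro n k
    rw [gauss_map]; rfl
  have hp : ∀ n : ℕ, f ((t : A) ^ n - 1) = ((Units.map (f : A →* B) t : Bˣ) : B) ^ n - 1 := by
    intro n
    rw [map_sub, map_pow, map_one]; rfl
  cases pos with
  | true =>
    simp only [if_true]
    split_ifs
    · rw [map_mul, map_mul, map_prod, hz, hg]
      simp only [hp]
    · exact map_zero f
  | false =>
    simp only [Bool.false_eq_true, if_false]
    split_ifs
    · rw [map_mul, map_mul, map_mul, map_prod, hz, hg, map_pow, map_neg, map_one]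
      simp only [hp]
    · exact map_zero f

lemma crossing_map {r : ℕ} (s : ℕ) (t : Aˣ) (g : Fin r × Bool) :
    (crossing s t g).map f = crossing s (Units.map f t) g := by
  ext y x
  rw [Matrix.map_apply]
  unfold crossing
  split_ifs
  · exact entry_map f _ _ _ _ _ _ _
  · exact map_zero f

lemma braidMatrix_map {r : ℕ} (s : ℕ) (t : Aˣ) (β : List (Fin r × Bool)) :
    (braidMatrix s t β).map f = braidMatrix s (Units.map f t) β := by
  induction β with
  | nil =>
    unfold braidMatrix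
    simp only [List.map_nil, List.prod_nil]
    ext y x
    simp only [Matrix.map_apply, Matrix.one_apply]
    split_ifs <;> simp
  | cons g β ih =>
    have e1 : braidMatrix s t (g :: β) = crossing s t g * braidMatrix s t β := by
      unfold braidMatrix; simp
    have e2 : braidMatrix s (Units.map (f : A →* B) t) (g :: β) =
        crossing s (Units.map (f : A →* B) t) g * braidMatrix s (Units.map (f : A →* B) t) β := by
      unfold braidMatrix; simp
    rw [e1, e2, Matrix.map_mul, crossing_map, ih]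

lemma colouredJones_map {r : ℕ} (s : ℕ) (t : Aˣ) (β : List (Fin r × Bool)) :
    f (colouredJones s β t) = colouredJones s β (Units.map f t) := by
  have hz : ∀ x : ℤ, f ((t ^ x : Aˣ) : A) = (((Units.map (f : A →* B) t) ^ x : Bˣ) : B) := by
    intro x
    rw [← map_zpow]
    rfl
  unfold colouredJones
  rw [map_mul, map_sum, hz]
  congr 1
  apply Finset.sum_congr rfl
  intro x _
  split_ifs
  · rw [map_mul, map_prod]
    simp only [hz]
    congr 1
    rw [← braidMatrix_map, Matrix.map_apply]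
  · exact map_zero f

end map

lemma braidMatrix_zero {A : Type*} [CommRing A] {r : ℕ} (t : Aˣ) (β : List (Fin r × Bool))
    (x y : Fin (r + 1) → Fin (2 * 0 + 1)) : braidMatrix 0 t β y x = 1 := by
  have huniq : ∀ z w : Fin (r + 1) → Fin (2 * 0 + 1), z = w := by
    intro z w
    funext l
    apply Fin.ext
    have h1 := (z l).isLt
    have h2 := (w l).isLt
    omega
  induction β generalizing x y with
  | nil =>
    unfold braidMatrix
    rw [huniq x y]
    simp
  | cons g β ih =>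
    have e1 : braidMatrix 0 t (g :: β) = crossing 0 t g * braidMatrix 0 t β := by
      unfold braidMatrix; simp
    rw [e1, Matrix.mul_apply]
    have hcard : (Finset.univ : Finset (Fin (r + 1) → Fin (2 * 0 + 1))) = {x} := by
      apply Finset.eq_singleton_iff_unique_mem.mpr
      exact ⟨Finset.mem_univ _, fun z _ => huniq z x⟩
    rw [hcard, Finset.sum_singleton, ih, mul_one]
    have hv : ∀ l, ((x l : Fin (2 * 0 + 1)) : ℕ) = 0 := fun l => by have := (x l).isLt; omega
    have hw : ∀ l, ((y l : Fin (2 * 0 + 1)) : ℕ) = 0 := fun l => by have := (y l).isLt; omega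
    unfold crossing
    rw [if_pos (fun l _ _ => congrFun (huniq y x) l)]
    simp only [hv, hw]
    unfold entry coeffPos coeffNeg
    cases g.2 <;> simp

lemma colouredJones_zero {A : Type*} [CommRing A] {r : ℕ} (t : Aˣ) (β : List (Fin r × Bool)) :
    colouredJones 0 β t = 1 := by
  have huniq : ∀ z w : Fin (r + 1) → Fin (2 * 0 + 1), z = w := by
    intro z w
    funext l
    apply Fin.ext
    have h1 := (z l).isLt
    have h2 := (w l).isLt
    omega
  unfold colouredJones
  have hcard : (Finset.univ : Finset (Fin (r + 1) → Fin (2 * 0 + 1))) = {fun _ => 0} := by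
    apply Finset.eq_singleton_iff_unique_mem.mpr
    exact ⟨Finset.mem_univ _, fun z _ => huniq z _⟩
  rw [hcard, Finset.sum_singleton, if_pos rfl, braidMatrix_zero]
  simp

/-- at `N`-th roots of unity the coloured Jones polynomial is given by one integral polynomial -/
lemma exists_poly {r : ℕ} (s : ℕ) (β : List (Fin r × Bool)) :
    ∃ G : ℤ[X], ∀ (F : Type) [CommRing F] (t : Fˣ), t ^ (2 * s + 1) = 1 →
      colouredJones s β t = eval₂ (Int.castRingHom F) (t : F) G := by
  let P : ℤ[X] := X ^ (2 * s + 1) - 1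
  have hroot : (AdjoinRoot.root P) ^ (2 * s + 1) = 1 := by
    have h := AdjoinRoot.eval₂_root P
    simp only [P, eval₂_sub, eval₂_pow, eval₂_X, eval₂_one] at h
    exact sub_eq_zero.mp h
  let t0 : (AdjoinRoot P)ˣ := Units.mkOfMulEqOne (AdjoinRoot.root P)
    ((AdjoinRoot.root P) ^ (2 * s)) (by rw [← pow_succ']; exact hroot)
  obtain ⟨G, hG⟩ := AdjoinRoot.mk_surjective (g := P) (colouredJones s β t0)
  refine ⟨G, ?_⟩
  intro F _ t ht
  have hev : eval₂ (Int.castRingHom F) (t : F) P = 0 := by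
    simp only [P, eval₂_sub, eval₂_pow, eval₂_X, eval₂_one]
    rw [← Units.val_pow_eq_pow_val, ht, Units.val_one, sub_self]
  let φ : AdjoinRoot P →+* F := AdjoinRoot.lift (Int.castRingHom F) (t : F) hev
  have hφ : Units.map (φ : AdjoinRoot P →* F) t0 = t := by
    apply Units.ext
    show φ (AdjoinRoot.root P) = t
    exact AdjoinRoot.lift_root hev
  rw [← hφ, ← colouredJones_map, ← hG]
  show φ (AdjoinRoot.mk P G) = _
  rw [show φ (AdjoinRoot.mk P G) = eval₂ (Int.castRingHom F) (t : F) G from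
    AdjoinRoot.lift_mk hev G]
  rw [hφ]

lemma kashaev_eq {r : ℕ} (β : List (Fin r × Bool)) {s n : ℕ} (hn : 2 * s + 1 = n) :
    ∃ ζ : ℂˣ, IsPrimitiveRoot (ζ : ℂ) n ∧ kashaev β n = colouredJones s β ζ := by
  refine ⟨Units.mk0 (Complex.exp (2 * Real.pi * Complex.I / n)) (Complex.exp_ne_zero _), ?_, ?_⟩
  · exact Complex.isPrimitiveRoot_exp n (by omega)
  · unfold kashaev
    have : (n - 1) / 2 = s := by omega
    rw [this]

lemma cyclotomic_dvd_of_root {n : ℕ} (hn : 0 < n) {ζ : ℂ} (hζ : IsPrimitiveRoot ζ n) {G : ℤ[X]}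
    (hG : aeval ζ G = 0) : cyclotomic n ℤ ∣ G := by
  rw [cyclotomic_eq_minpoly hζ hn]
  exact minpoly.isIntegrallyClosed_dvd (hζ.isIntegral hn) hG

/-- reduction modulo a prime above `p` -/
theorem descent {r : ℕ} (β : List (Fin r × Bool)) (hβ : IsKnot β) {m p k : ℕ} (hm : Odd m)
    (hp : p.Prime) (hp2 : p ≠ 2) (hpm : ¬ p ∣ m) (h0 : kashaev β (m * p ^ k) = 0) :
    haveI := Fact.mk hp
    ∃ τ : (AlgebraicClosure (ZMod p))ˣ, IsPrimitiveRoot (τ : AlgebraicClosure (ZMod p)) m ∧
      colouredJones ((m - 1) / 2) β τ = 0 := by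
  haveI := Fact.mk hp
  have hpodd : Odd p := hp.odd_of_ne_two hp2
  obtain ⟨s', hs'⟩ := hm
  obtain ⟨u, hu⟩ := hpodd.pow (n := k)
  obtain ⟨s, hs⟩ : Odd (m * p ^ k) := by
    rw [hs', hu]
    exact Odd.mul ⟨s', rfl⟩ ⟨u, rfl⟩
  have hmpos : 0 < m := by omega
  obtain ⟨ζ, hζ, hkash⟩ := kashaev_eq β (s := s) hs.symm
  obtain ⟨G, hG⟩ := exists_poly s β
  have hn0 : 0 < m * p ^ k := Nat.mul_pos hmpos (pow_pos hp.pos k)
  have hζ1 : ζ ^ (2 * s + 1) = 1 := by
    apply Units.ext
    rw [Units.val_pow_eq_pow_val, ← hs, hζ.pow_eq_one, Units.val_one]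
  have hG0 : aeval (ζ : ℂ) G = 0 := by
    rw [aeval_def, show algebraMap ℤ ℂ = Int.castRingHom ℂ from RingHom.ext_int _ _,
      ← hG ℂ ζ hζ1, ← hkash, h0]
  obtain ⟨Q, hQ⟩ := cyclotomic_dvd_of_root hn0 hζ hG0
  haveI : NeZero ((m : ℕ) : AlgebraicClosure (ZMod p)) := by
    refine ⟨fun h => hpm ?_⟩
    exact (CharP.cast_eq_zero_iff (AlgebraicClosure (ZMod p)) p m).mp h
  obtain ⟨τ0, hτ0⟩ := HasEnoughRootsOfUnity.exists_primitiveRoot (AlgebraicClosure (ZMod p)) m
  let τ : (AlgebraicClosure (ZMod p))ˣ := (hτ0.isUnit hmpos.ne').unit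
  have hτ : IsPrimitiveRoot (τ : AlgebraicClosure (ZMod p)) m := hτ0
  refine ⟨τ, hτ, ?_⟩
  have hcyc : eval₂ (Int.castRingHom (AlgebraicClosure (ZMod p)))
      (τ : AlgebraicClosure (ZMod p)) (cyclotomic (m * p ^ k) ℤ) = 0 := by
    rw [← eval_map, map_cyclotomic]
    have hr : (cyclotomic m (AlgebraicClosure (ZMod p))).eval
        (τ : AlgebraicClosure (ZMod p)) = 0 := hτ.isRoot_cyclotomic hmpos
    rcases Nat.eq_zero_or_pos k with hk | hk
    · subst hk
      rw [pow_zero, mul_one]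
      exact hr
    · rw [mul_comm m, cyclotomic_mul_prime_pow_eq _ hpm hk, eval_pow, hr, zero_pow]
      have : p ^ (k - 1) < p ^ k := Nat.pow_lt_pow_right hp.one_lt (by omega)
      omega
  have hτn : τ ^ (2 * s + 1) = 1 := by
    apply Units.ext
    rw [Units.val_pow_eq_pow_val, ← hs, pow_mul, hτ.pow_eq_one, one_pow, Units.val_one]
  have h1 : colouredJones s β τ = 0 := by
    rw [hG _ τ hτn, hQ, eval₂_mul, hcyc, zero_mul]
  have hsm : (m - 1) / 2 = s' := by omega
  rw [hsm]
  have hblock : (2 * u + 1) * (2 * s' + 1) = 2 * s + 1 := by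
    rw [← hu, ← hs', ← hs, mul_comm]
  rw [← jones_block hblock (by rw [← hs']; exact hτ) β hβ]
  exact h1

/-- non-vanishing at odd prime powers -/
theorem ne_zero_prime_pow {r : ℕ} (β : List (Fin r × Bool)) (hβ : IsKnot β) {p : ℕ}
    (hp : p.Prime) (hp2 : p ≠ 2) (k : ℕ) : kashaev β (p ^ k) ≠ 0 := by
  intro h0
  haveI := Fact.mk hp
  obtain ⟨τ, -, h⟩ := descent β hβ (m := 1) (p := p) (k := k) odd_one hp hp2
    (fun h => hp.one_lt.ne' (Nat.dvd_one.mp h)) (by rw [one_mul]; exact h0)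
  have : colouredJones ((1 - 1) / 2) β τ = 1 := colouredJones_zero τ β
  rw [this] at h
  exact one_ne_zero h

/-- for each odd `m` with `a_m ≠ 0`, all but finitely many primes `p` satisfy `a_{m p^k} ≠ 0` for
all `k` -/
theorem exists_exceptional {r : ℕ} (β : List (Fin r × Bool)) (hβ : IsKnot β) {m : ℕ} (hm : Odd m)
    (ham : kashaev β m ≠ 0) :
    ∃ c : ℕ, c ≠ 0 ∧ ∀ p : ℕ, p.Prime → p ≠ 2 → ¬ p ∣ c → ∀ k, kashaev β (m * p ^ k) ≠ 0 := by
  obtain ⟨s', hs'⟩ := hm
  have hmpos : 0 < m := by omega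
  obtain ⟨ζ, hζ, hkash⟩ := kashaev_eq β (s := s') hs'.symm
  obtain ⟨G, hG⟩ := exists_poly s' β
  have hζ1 : ζ ^ (2 * s' + 1) = 1 := by
    apply Units.ext
    rw [Units.val_pow_eq_pow_val, ← hs', hζ.pow_eq_one, Units.val_one]
  set α : ℂ := aeval (ζ : ℂ) G with hα
  have hα0 : α ≠ 0 := by
    rw [hα, aeval_def, show algebraMap ℤ ℂ = Int.castRingHom ℂ from RingHom.ext_int _ _,
      ← hG ℂ ζ hζ1, ← hkash]
    exact ham
  have hint : IsIntegral ℤ α := by
    rw [hα]
    exact IsIntegral.of_mem_of_fg _ ((hζ.isIntegral hmpos).fg_adjoin_singleton) _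
      (aeval_mem_adjoin_singleton ℤ _)
  set μ := minpoly ℤ α with hμ
  have hc0 : μ.coeff 0 ≠ 0 := by
    intro h
    have h1 : (minpoly ℚ α).coeff 0 = 0 := by
      rw [minpoly.isIntegrallyClosed_eq_field_fractions' ℚ hint, coeff_map, ← hμ, h, map_zero]
    exact minpoly.coeff_zero_ne_zero hint.tower_top hα0 h1
  have hP : aeval (ζ : ℂ) (G * μ.divX.comp G + C (μ.coeff 0)) = 0 := by
    have h1 : aeval α μ = 0 := minpoly.aeval ℤ α
    rw [← Polynomial.divX_mul_X_add μ] at h1
    rw [map_add, map_mul, aeval_X] at h1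
    rw [map_add, map_mul, aeval_comp, ← hα, mul_comm]
    rw [← h1]
    simp
  obtain ⟨Q, hQ⟩ := cyclotomic_dvd_of_root hmpos hζ hP
  refine ⟨(μ.coeff 0).natAbs * m, Nat.mul_ne_zero (Int.natAbs_ne_zero.mpr hc0) hmpos.ne', ?_⟩
  intro p hp hp2 hpc k h0
  haveI := Fact.mk hp
  have hpm : ¬ p ∣ m := fun h => hpc (Dvd.dvd.mul_left h _)
  obtain ⟨τ, hτ, hJ⟩ := descent β hβ (m := m) ⟨s', hs'⟩ hp hp2 hpm h0
  have hsm : (m - 1) / 2 = s' := by omega
  rw [hsm] at hJ
  have hτ1 : τ ^ (2 * s' + 1) = 1 := by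
    apply Units.ext
    rw [Units.val_pow_eq_pow_val, ← hs', hτ.pow_eq_one, Units.val_one]
  rw [hG _ τ hτ1] at hJ
  have h2 := congrArg (eval₂ (Int.castRingHom (AlgebraicClosure (ZMod p)))
    (τ : AlgebraicClosure (ZMod p))) hQ
  rw [eval₂_add, eval₂_mul, hJ, zero_mul, zero_add, eval₂_mul] at h2
  have hcyc : eval₂ (Int.castRingHom (AlgebraicClosure (ZMod p)))
      (τ : AlgebraicClosure (ZMod p)) (cyclotomic m ℤ) = 0 := by
    rw [← eval_map, map_cyclotomic]
    exact hτ.isRoot_cyclotomic hmpos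
  rw [hcyc, zero_mul] at h2
  have h3 : ((μ.coeff 0 : ℤ) : AlgebraicClosure (ZMod p)) = 0 := by
    rw [eval₂_C] at h2
    exact h2
  apply hpc
  apply Dvd.dvd.mul_right
  rw [← Int.natCast_dvd]
  exact (CharP.intCast_eq_zero_iff (AlgebraicClosure (ZMod p)) p _).mp h3

/-- for every `w ≥ 1` there are infinitely many squarefree odd `n` with exactly `w` prime factors
and `a_n ≠ 0` -/
theorem infinite_omega {r : ℕ} (β : List (Fin r × Bool)) (hβ : IsKnot β) (w : ℕ) :
    {n : ℕ | Odd n ∧ Squarefree n ∧ n.primeFactors.card = w + 1 ∧ kashaev β n ≠ 0}.Infinite := by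
  have hstep : ∀ m : ℕ, Odd m → Squarefree m → kashaev β m ≠ 0 →
      {n : ℕ | Odd n ∧ Squarefree n ∧ n.primeFactors.card = m.primeFactors.card + 1 ∧
        kashaev β n ≠ 0}.Infinite := by
    intro m hm hsq ham
    obtain ⟨c, hc, hcp⟩ := exists_exceptional β hβ hm ham
    have hinf : {p : ℕ | p.Prime ∧ max c (m + 1) < p}.Infinite := by
      apply Set.infinite_of_not_bddAbove
      rintro ⟨b, hb⟩
      obtain ⟨p, hp1, hp2⟩ := Nat.exists_infinite_primes (max b (max c (m + 1)) + 1)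
      have hpb : p ≤ b := hb (show p ∈ {p : ℕ | p.Prime ∧ max c (m + 1) < p} from ⟨hp2, by omega⟩)
      omega
    refine Set.Infinite.mono ?_ (hinf.image (f := fun p => m * p) ?_)
    · rintro _ ⟨p, ⟨hp, hlt⟩, rfl⟩
      have hmpos : 0 < m := hm.pos
      have hlt1 : c < p ∧ m + 1 < p := by
        have : max c (m + 1) < p := hlt
        exact max_lt_iff.mp this
      obtain ⟨hcp', hmp'⟩ := hlt1
      have hpm : ¬ p ∣ m := fun h => absurd (Nat.le_of_dvd hmpos h) (by omega)
      have hpc : ¬ p ∣ c := fun h => absurd (Nat.le_of_dvd (Nat.pos_of_ne_zero hc) h) (by omega)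
      have hp2 : p ≠ 2 := by omega
      have hcop : Nat.Coprime m p := (Nat.Prime.coprime_iff_not_dvd hp).mpr hpm |>.symm
      refine ⟨hm.mul (hp.odd_of_ne_two hp2), ?_, ?_, ?_⟩
      · exact (Nat.squarefree_mul hcop).mpr ⟨hsq, hp.squarefree⟩
      · show (m * p).primeFactors.card = _
        rw [hcop.primeFactors_mul, hp.primeFactors, Finset.card_union_of_disjoint]
        · simp
        · rw [Finset.disjoint_singleton_right]
          exact fun h => hpm (Nat.dvd_of_mem_primeFactors h)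
      · have := hcp p hp hp2 hpc 1
        rwa [pow_one] at this
    · intro a _ b _ hab
      exact Nat.eq_of_mul_eq_mul_left hm.pos hab
  induction w with
  | zero =>
    have := hstep 1 odd_one squarefree_one (by
      have := ne_zero_prime_pow β hβ Nat.prime_three (by norm_num) 0
      rwa [pow_zero] at this)
    simpa using this
  | succ w ih =>
    obtain ⟨m, hm1, hm2, hm3, hm4⟩ := ih.nonempty
    have := hstep m hm1 hm2 hm4
    rw [hm3] at this
    exact this

end Pool.Agent.Work.MP_b30479_gt
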