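import Mathlib

/-!
# The product of the values of an integral polynomial over all primitive `m`-th roots of unity
-/

namespace Pool.Agent.Work.MP_b30479_gt

open Polynomial

theorem prod_eq_int {m : ℕ} (hm : 0 < m) (R : ℤ[X]) :
    ∃ z : ℤ, ∏ w ∈ primitiveRoots m ℂ, aeval w R = (z : ℂ) := by
  have : NeZero (m : ℂ) := ⟨by exact_mod_cast hm.ne'⟩
  refine ⟨resultant (cyclotomic m ℤ) R (cyclotomic m ℤ).natDegree R.natDegree, ?_⟩
  have h1 := resultant_map_map (cyclotomic m ℤ) R (cyclotomic m ℤ).natDegree R.natDegree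
    (Int.castRingHom ℂ)
  rw [eq_intCast] at h1
  rw [← h1]
  have hdeg : (cyclotomic m ℤ).natDegree = ((cyclotomic m ℤ).map (Int.castRingHom ℂ)).natDegree := by
    rw [map_cyclotomic, natDegree_cyclotomic, natDegree_cyclotomic]
  have hs : ((cyclotomic m ℤ).map (Int.castRingHom ℂ)).Splits := IsAlgClosed.splits _
  rw [hdeg, resultant_eq_prod_eval _ _ _ natDegree_map_le hs, map_cyclotomic,
    (cyclotomic.monic m ℂ).leadingCoeff, one_pow, one_mul, cyclotomic.roots_eq_primitiveRoots_val]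
  show _ = ∏ w ∈ primitiveRoots m ℂ, _
  apply Finset.prod_congr rfl
  intro w _
  rw [eval_map, aeval_def, show algebraMap ℤ ℂ = Int.castRingHom ℂ from RingHom.ext_int _ _]

theorem one_le_prod {m : ℕ} (hm : 0 < m) {R : ℤ[X]} (hR : ∀ w ∈ primitiveRoots m ℂ, aeval w R ≠ 0) :
    1 ≤ ∏ w ∈ primitiveRoots m ℂ, ‖aeval w R‖ := by
  obtain ⟨z, hz⟩ := prod_eq_int hm R
  rw [← norm_prod, hz]
  have hz0 : z ≠ 0 := by
    rintro rfl
    rw [Int.cast_zero, Finset.prod_eq_zero_iff] at hz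
    obtain ⟨w, hw, h0⟩ := hz
    exact hR w hw h0
  have h1 : (1 : ℤ) ≤ |z| := Int.one_le_abs hz0
  rw [Complex.norm_intCast]
  exact_mod_cast h1

end Pool.Agent.Work.MP_b30479_gt
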