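import Pool.Agent.Work.MP_b30479_gt.JonesBound
import Pool.Agent.Work.MP_b30479_gt.NormGe

/-!
# If `a_{m p^k} = 0` then `p` divides `a_m` in `ℤ[ζ_m]`; size of the exceptional set
-/

namespace Pool.Agent.Work.MP_b30479_gt

open Polynomial Finset

/-- reduction modulo the primes above `p`: every primitive `m`-th root of unity in characteristic
`p` is a zero of `J_m(β; ·)` if `a_{m p^k} = 0` -/
theorem descent_all {r : ℕ} (β : List (Fin r × Bool)) (hβ : IsKnot β) {m p k : ℕ} (hm : Odd m)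
    (hp : p.Prime) (hp2 : p ≠ 2) (hpm : ¬ p ∣ m) (h0 : kashaev β (m * p ^ k) = 0)
    (K : Type) [Field K] [CharP K p] (τ : Kˣ) (hτ : IsPrimitiveRoot (τ : K) m) :
    colouredJones ((m - 1) / 2) β τ = 0 := by
  have := Fact.mk hp
  have hpodd : Odd p := hp.odd_of_ne_two hp2
  obtain ⟨s', hs'⟩ := hm
  obtain ⟨u, hu⟩ := hpodd.pow (n := k)
  obtain ⟨s, hs⟩ : Odd (m * p ^ k) := by
    rw [hs', hu]
    exact Odd.mul ⟨s', rfl⟩ ⟨u, rfl⟩
  have hmpos : 0 < m := by omega
  obtain ⟨ζ, hζ, hkash⟩ := kashaev_eq β (s := s) hs.symm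
  obtain ⟨G, hG⟩ := exists_poly s β
  have hn0 : 0 < m * p ^ k := Nat.mul_pos hmpos (pow_pos hp.pos k)
  have hζ1 : ζ ^ (2 * s + 1) = 1 := by
    apply Units.ext
    rw [Units.val_pow_eq_pow_val, ← hs, hζ.pow_eq_one, Units.val_one]
  have hG0 : aeval (ζ : ℂ) G = 0 := by
    rw [aeval_def, show algebraMap ℤ ℂ = Int.castRingHom ℂ from RingHom.ext_int _ _,
      ← hG ℂ ζ hζ1, ← hkash, h0]
  obtain ⟨Q, hQ⟩ := cyclotomic_dvd_of_root hn0 hζ hG0
  have : NeZero ((m : ℕ) : K) := by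
    refine ⟨fun h => hpm ?_⟩
    exact (CharP.cast_eq_zero_iff K p m).mp h
  have hcyc : eval₂ (Int.castRingHom K) (τ : K) (cyclotomic (m * p ^ k) ℤ) = 0 := by
    rw [← eval_map, map_cyclotomic]
    have hr : (cyclotomic m K).eval (τ : K) = 0 := hτ.isRoot_cyclotomic hmpos
    rcases Nat.eq_zero_or_pos k with hk | hk
    · subst hk
      rw [pow_zero, mul_one]
      exact hr
    · rw [mul_comm m, cyclotomic_mul_prime_pow_eq _ hpm hk, eval_pow, hr, zero_pow]
      have : p ^ (k - 1) < p ^ k := Nat.pow_lt_pow_right hp.one_lt (by omega)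
      omega
  have hτn : τ ^ (2 * s + 1) = 1 := by
    apply Units.ext
    rw [Units.val_pow_eq_pow_val, ← hs, pow_mul, hτ.pow_eq_one, one_pow, Units.val_one]
  have h1 : colouredJones s β τ = 0 := by
    rw [hG _ τ hτn, hQ, eval₂_mul, hcyc, zero_mul]
  have hsm : (m - 1) / 2 = s' := by omega
  rw [hsm]
  have hblock : (2 * u + 1) * (2 * s' + 1) = 2 * s + 1 := by
    rw [← hu, ← hs', ← hs, mul_comm]
  rw [← jones_block hblock (by rw [← hs']; exact hτ) β hβ]
  exact h1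

/-- the set of exceptional primes of `m` -/
def IsExc {r : ℕ} (β : List (Fin r × Bool)) (m p : ℕ) : Prop :=
  p.Prime ∧ p ≠ 2 ∧ ¬ p ∣ m ∧ ∃ k, kashaev β (m * p ^ k) = 0

/-- every coefficient of the remainder `G mod Φ_m` is divisible by every exceptional prime -/
theorem dvd_coeff {r : ℕ} (β : List (Fin r × Bool)) (hβ : IsKnot β) {m s' : ℕ}
    (hs' : 2 * s' + 1 = m) {G : ℤ[X]}
    (hG : ∀ (F : Type) [CommRing F] (t : Fˣ), t ^ (2 * s' + 1) = 1 →
      colouredJones s' β t = eval₂ (Int.castRingHom F) (t : F) G)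
    {p : ℕ} (hp : IsExc β m p) (i : ℕ) : (p : ℤ) ∣ (G %ₘ cyclotomic m ℤ).coeff i := by
  classical
  obtain ⟨hp, hp2, hpm, k, h0⟩ := hp
  have := Fact.mk hp
  have hmpos : 0 < m := by omega
  have hmodd : Odd m := ⟨s', hs'.symm⟩
  set K := AlgebraicClosure (ZMod p) with hK
  have hNZ : NeZero ((m : ℕ) : K) := by
    refine ⟨fun h => hpm ?_⟩
    exact (CharP.cast_eq_zero_iff K p m).mp h
  have hroots : ∀ τ ∈ primitiveRoots m K, (G.map (Int.castRingHom K)).eval τ = 0 := by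
    intro τ hτ
    rw [mem_primitiveRoots hmpos] at hτ
    let τ' : Kˣ := (hτ.isUnit hmpos.ne').unit
    have hτ' : (τ' : K) = τ := rfl
    have h1 := descent_all β hβ hmodd hp hp2 hpm h0 K τ' hτ
    have hsm : (m - 1) / 2 = s' := by omega
    rw [hsm, hG K τ' (by
      apply Units.ext
      rw [Units.val_pow_eq_pow_val, hs', hτ', hτ.pow_eq_one, Units.val_one]), hτ', ← eval_map] at h1
    exact h1
  have hdvd : (cyclotomic m ℤ).map (Int.castRingHom K) ∣ G.map (Int.castRingHom K) := by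
    rw [map_cyclotomic]
    obtain ⟨τ0, hτ0⟩ := HasEnoughRootsOfUnity.exists_primitiveRoot K m
    rw [cyclotomic_eq_prod_X_sub_primitiveRoots hτ0]
    apply Finset.prod_dvd_of_coprime
    · intro a _ b _ hab
      exact isCoprime_X_sub_C_of_isUnit_sub (sub_ne_zero.mpr hab).isUnit
    · intro τ hτ
      rw [dvd_iff_isRoot]
      exact hroots τ hτ
  have hmod : (G %ₘ cyclotomic m ℤ).map (Int.castRingHom K) = 0 := by
    rw [map_modByMonic _ (cyclotomic.monic m ℤ)]
    exact (modByMonic_eq_zero_iff_dvd ((cyclotomic.monic m ℤ).map _)).mpr hdvd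
  have h2 := congrArg (fun q => q.coeff i) hmod
  simp only [coeff_map, coeff_zero, eq_intCast] at h2
  exact (CharP.intCast_eq_zero_iff K p _).mp h2

/-- the product of finitely many exceptional primes divides the remainder -/
theorem exists_quotient {r : ℕ} (β : List (Fin r × Bool)) (hβ : IsKnot β) {m s' : ℕ}
    (hs' : 2 * s' + 1 = m) {G : ℤ[X]}
    (hG : ∀ (F : Type) [CommRing F] (t : Fˣ), t ^ (2 * s' + 1) = 1 →
      colouredJones s' β t = eval₂ (Int.castRingHom F) (t : F) G)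
    (S : Finset ℕ) (hS : ∀ p ∈ S, IsExc β m p) :
    ∃ R : ℤ[X], G %ₘ cyclotomic m ℤ = C ((∏ p ∈ S, p : ℕ) : ℤ) * R := by
  have h : C ((∏ p ∈ S, p : ℕ) : ℤ) ∣ G %ₘ cyclotomic m ℤ := by
    rw [C_dvd_iff_dvd_coeff]
    intro i
    push_cast
    apply Finset.prod_dvd_of_coprime
    · intro p hp q hq hpq
      show IsCoprime (p : ℤ) (q : ℤ)
      rw [Nat.isCoprime_iff_coprime]
      exact (Nat.coprime_primes (hS p hp).1 (hS q hq).1).mpr hpq
    · intro p hp
      exact dvd_coeff β hβ hs' hG (hS p hp) i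
  exact h

/-- value of `J_m` at the primitive roots -/
lemma jones_eq_aeval {r s' m : ℕ} (β : List (Fin r × Bool)) (hs' : 2 * s' + 1 = m) {G : ℤ[X]}
    (hG : ∀ (F : Type) [CommRing F] (t : Fˣ), t ^ (2 * s' + 1) = 1 →
      colouredJones s' β t = eval₂ (Int.castRingHom F) (t : F) G)
    {t : ℂˣ} (ht : IsPrimitiveRoot (t : ℂ) m) : colouredJones s' β t = aeval (t : ℂ) G := by
  rw [aeval_def, show algebraMap ℤ ℂ = Int.castRingHom ℂ from RingHom.ext_int _ _, hG ℂ t]
  apply Units.ext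
  rw [Units.val_pow_eq_pow_val, hs', ht.pow_eq_one, Units.val_one]

lemma aeval_mod {m : ℕ} (hm : 0 < m) {w : ℂ} (hw : IsPrimitiveRoot w m) (G : ℤ[X]) :
    aeval w (G %ₘ cyclotomic m ℤ) = aeval w G := by
  have h := modByMonic_add_div G (cyclotomic m ℤ)
  have h0 : aeval w (cyclotomic m ℤ) = 0 := by
    rw [aeval_def, ← eval_map, map_cyclotomic]
    exact hw.isRoot_cyclotomic hm
  conv_rhs => rw [← h]
  rw [map_add, map_mul, h0, zero_mul, add_zero]

/-- vanishing at one primitive root implies vanishing at all -/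
lemma aeval_ne_zero {m : ℕ} (hm : 0 < m) {ζ : ℂ} (hζ : IsPrimitiveRoot ζ m) {G : ℤ[X]}
    (h : aeval ζ G ≠ 0) : ∀ w ∈ primitiveRoots m ℂ, aeval w G ≠ 0 := by
  intro w hw h0
  rw [mem_primitiveRoots hm] at hw
  obtain ⟨Q, hQ⟩ := cyclotomic_dvd_of_root hm hw h0
  apply h
  have h1 : aeval ζ (cyclotomic m ℤ) = 0 := by
    rw [aeval_def, ← eval_map, map_cyclotomic]
    exact hζ.isRoot_cyclotomic hm
  rw [hQ, map_mul, h1, zero_mul]

/-- the exponent constant of a braid word -/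
def kst {r : ℕ} (β : List (Fin r × Bool)) : ℕ := (β.length + 1) * (r + 1) + 5 * β.length

lemma norm_aeval_le {r s' m : ℕ} (β : List (Fin r × Bool)) (hs' : 2 * s' + 1 = m) (hs : 1 ≤ s')
    {G : ℤ[X]}
    (hG : ∀ (F : Type) [CommRing F] (t : Fˣ), t ^ (2 * s' + 1) = 1 →
      colouredJones s' β t = eval₂ (Int.castRingHom F) (t : F) G)
    {w : ℂ} (hw : w ∈ primitiveRoots m ℂ) : ‖aeval w G‖ ≤ Real.exp (kst β * ubd m w) := by
  have hm : 0 < m := by omega
  rw [mem_primitiveRoots hm] at hw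
  let t : ℂˣ := (hw.isUnit hm.ne').unit
  have ht : IsPrimitiveRoot (t : ℂ) m := hw
  have h1 := jones_eq_aeval β hs' hG ht
  have h2 := norm_colouredJones_le hs (t := t) (by rw [hs']; exact ht) β
  rw [h1, hs'] at h2
  exact h2

/-- bound for the product of exceptional primes -/
theorem prod_exc_le {r : ℕ} (β : List (Fin r × Bool)) (hβ : IsKnot β) {m : ℕ} (hm : Odd m)
    (hm3 : 3 ≤ m) (ham : kashaev β m ≠ 0) (S : Finset ℕ) (hS : ∀ p ∈ S, IsExc β m p) :
    m.totient * ∑ p ∈ S, Real.log p ≤ kst β * (10 * m * (1 + Real.log m) ^ 3) := by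
  obtain ⟨s', hs'⟩ := hm
  have hmpos : 0 < m := by omega
  obtain ⟨ζ, hζ, hkash⟩ := kashaev_eq β (s := s') hs'.symm
  obtain ⟨G, hG⟩ := exists_poly s' β
  obtain ⟨R, hR⟩ := exists_quotient β hβ hs'.symm hG S hS
  have hG0 : aeval (ζ : ℂ) G ≠ 0 := by
    rw [← jones_eq_aeval β hs'.symm hG hζ, ← hkash]
    exact ham
  set P : ℕ := ∏ p ∈ S, p with hP
  have hPpos : 0 < P := Finset.prod_pos fun p hp => (hS p hp).1.pos
  have hval : ∀ w ∈ primitiveRoots m ℂ, aeval w G = (P : ℂ) * aeval w R := by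
    intro w hw
    rw [mem_primitiveRoots hmpos] at hw
    rw [← aeval_mod hmpos hw G, hR, map_mul, aeval_C]
    simp
  have hGw := aeval_ne_zero hmpos hζ hG0
  have hRw : ∀ w ∈ primitiveRoots m ℂ, aeval w R ≠ 0 := by
    intro w hw h0
    apply hGw w hw
    rw [hval w hw, h0, mul_zero]
  have h1 := one_le_prod hmpos hRw
  have h2 : (P : ℝ) ^ m.totient ≤ ∏ w ∈ primitiveRoots m ℂ, ‖aeval w G‖ := by
    have e : ∏ w ∈ primitiveRoots m ℂ, ‖aeval w G‖ =
        (P : ℝ) ^ m.totient * ∏ w ∈ primitiveRoots m ℂ, ‖aeval w R‖ := by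
      rw [← Complex.card_primitiveRoots, ← Finset.prod_const, ← Finset.prod_mul_distrib]
      apply Finset.prod_congr rfl
      intro w hw
      rw [hval w hw, norm_mul, Complex.norm_natCast]
    rw [e]
    exact le_mul_of_one_le_right (by positivity) h1
  have h3 : ∏ w ∈ primitiveRoots m ℂ, ‖aeval w G‖ ≤
      Real.exp (kst β * (10 * m * (1 + Real.log m) ^ 3)) := by
    calc ∏ w ∈ primitiveRoots m ℂ, ‖aeval w G‖
        ≤ ∏ w ∈ primitiveRoots m ℂ, Real.exp (kst β * ubd m w) :=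
          Finset.prod_le_prod (fun w _ => norm_nonneg _)
            (fun w hw => norm_aeval_le β hs'.symm (by omega) hG hw)
      _ = Real.exp (∑ w ∈ primitiveRoots m ℂ, kst β * ubd m w) := (Real.exp_sum _ _).symm
      _ ≤ _ := by
          apply Real.exp_le_exp.mpr
          rw [← Finset.mul_sum]
          exact mul_le_mul_of_nonneg_left (sum_ubd_le hmpos) (Nat.cast_nonneg _)
  have h4 := h2.trans h3
  have hP' : (0 : ℝ) < (P : ℝ) ^ m.totient := by positivity
  have h5 := (Real.log_le_iff_le_exp hP').mpr h4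
  rw [Real.log_pow] at h5
  refine le_trans (le_of_eq ?_) h5
  congr 1
  rw [hP]
  push_cast
  rw [Real.log_prod]
  intro p hp
  exact_mod_cast (hS p hp).1.pos.ne'

/-- a lower bound for `|a_m|` when it does not vanish -/
theorem norm_kashaev_ge {r : ℕ} (β : List (Fin r × Bool)) {m : ℕ} (hm : Odd m)
    (hm3 : 3 ≤ m) (ham : kashaev β m ≠ 0) :
    Real.exp (-(kst β * (10 * m * (1 + Real.log m) ^ 3))) ≤ ‖kashaev β m‖ := by
  classical
  obtain ⟨s', hs'⟩ := hm
  have hmpos : 0 < m := by omega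
  obtain ⟨ζ, hζ, hkash⟩ := kashaev_eq β (s := s') hs'.symm
  obtain ⟨G, hG⟩ := exists_poly s' β
  have hk : kashaev β m = aeval (ζ : ℂ) G := by
    rw [hkash, jones_eq_aeval β hs'.symm hG hζ]
  have hG0 : aeval (ζ : ℂ) G ≠ 0 := by
    rw [← hk]
    exact ham
  have hGw := aeval_ne_zero hmpos hζ hG0
  have h1 := one_le_prod hmpos hGw
  have hmem : (ζ : ℂ) ∈ primitiveRoots m ℂ := (mem_primitiveRoots hmpos).mpr hζ
  rw [← Finset.mul_prod_erase _ _ hmem] at h1
  have h3 : ∏ w ∈ (primitiveRoots m ℂ).erase ζ, ‖aeval w G‖ ≤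
      Real.exp (kst β * (10 * m * (1 + Real.log m) ^ 3)) := by
    calc ∏ w ∈ (primitiveRoots m ℂ).erase ζ, ‖aeval w G‖
        ≤ ∏ w ∈ (primitiveRoots m ℂ).erase ζ, Real.exp (kst β * ubd m w) :=
          Finset.prod_le_prod (fun w _ => norm_nonneg _)
            (fun w hw => norm_aeval_le β hs'.symm (by omega) hG (Finset.mem_of_mem_erase hw))
      _ = Real.exp (∑ w ∈ (primitiveRoots m ℂ).erase ζ, kst β * ubd m w) :=
          (Real.exp_sum _ _).symm
      _ ≤ Real.exp (∑ w ∈ primitiveRoots m ℂ, kst β * ubd m w) := by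
          apply Real.exp_le_exp.mpr
          apply Finset.sum_le_sum_of_subset_of_nonneg (Finset.erase_subset _ _)
          intro w _ _
          exact mul_nonneg (Nat.cast_nonneg _) (ubd_nonneg m w)
      _ ≤ _ := by
          apply Real.exp_le_exp.mpr
          rw [← Finset.mul_sum]
          exact mul_le_mul_of_nonneg_left (sum_ubd_le hmpos) (Nat.cast_nonneg _)
  rw [hk, Real.exp_neg]
  set E := Real.exp (kst β * (10 * m * (1 + Real.log m) ^ 3)) with hE
  have hE0 : 0 < E := Real.exp_pos _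
  rw [inv_le_iff_one_le_mul₀ hE0]
  calc (1 : ℝ) ≤ ‖aeval (ζ : ℂ) G‖ * ∏ w ∈ (primitiveRoots m ℂ).erase ζ, ‖aeval w G‖ := h1
    _ ≤ ‖aeval (ζ : ℂ) G‖ * E := mul_le_mul_of_nonneg_left h3 (norm_nonneg _)

end Pool.Agent.Work.MP_b30479_gt
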