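import Pool.Agent.Work.MP_b30479_gt.Totient
import Pool.Agent.Work.MP_b30479_gt.Divis
import Pool.Agent.Work.MP_b30479_gt.DensityMain

/-!
# Final assembly
-/

namespace Pool.Agent.Work.MP_b30479_gt

open Finset

lemma one_lt_log_three : 1 < Real.log 3 := by
  rw [Real.lt_log_iff_exp_lt (by norm_num)]
  have := Real.exp_one_lt_d9
  linarith

lemma one_le_log {n : ℕ} (hn : 3 ≤ n) : 1 ≤ Real.log n := by
  have h : Real.log 3 ≤ Real.log n := Real.log_le_log (by norm_num) (by exact_mod_cast hn)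
  have := one_lt_log_three
  linarith

/-- exceptional primes: bound with `1 + log m` -/
theorem exc_sum_le {r : ℕ} (β : List (Fin r × Bool)) (hβ : IsKnot β) {m : ℕ} (hm : Odd m)
    (hm3 : 3 ≤ m) (ham : kashaev β m ≠ 0) (S : Finset ℕ) (hS : ∀ p ∈ S, IsExc β m p) :
    ∑ p ∈ S, Real.log p ≤ 20 * kst β * (1 + Real.log m) ^ 4 := by
  have h1 := prod_exc_le β hβ hm hm3 ham S hS
  have h2 := le_two_mul_totient (m := m) (by omega)
  have hφ : (0 : ℝ) < m.totient := by exact_mod_cast Nat.totient_pos.mpr (by omega)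
  have hlog : 0 ≤ Real.log m := Real.log_natCast_nonneg m
  have hK : (0 : ℝ) ≤ kst β := Nat.cast_nonneg _
  have h3 : (kst β : ℝ) * (10 * m * (1 + Real.log m) ^ 3) ≤
      kst β * (10 * (2 * m.totient * (1 + Real.log m)) * (1 + Real.log m) ^ 3) := by
    apply mul_le_mul_of_nonneg_left _ hK
    apply mul_le_mul_of_nonneg_right _ (by positivity)
    linarith
  have h4 := h1.trans h3
  have h5 : (m.totient : ℝ) * ∑ p ∈ S, Real.log p ≤
      m.totient * (20 * kst β * (1 + Real.log m) ^ 4) := by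
    refine h4.trans (le_of_eq ?_)
    ring
  exact le_of_mul_le_mul_left h5 hφ

/-- **exceptional primes** -/
theorem exceptional {r : ℕ} (β : List (Fin r × Bool)) (hβ : IsKnot β) :
    ∃ C : ℝ, 0 < C ∧ ∀ m : ℕ, Odd m → kashaev β m ≠ 0 → ∀ S : Finset ℕ,
      (∀ p ∈ S, p.Prime ∧ p ≠ 2 ∧ ¬ p ∣ m ∧ ∃ k, kashaev β (m * p ^ k) = 0) →
      ∑ p ∈ S, Real.log p ≤ C * Real.log m ^ 4 := by
  refine ⟨320 * (kst β + 1), by positivity, ?_⟩
  intro m hm ham S hS
  have hlog : 0 ≤ Real.log m := Real.log_natCast_nonneg m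
  rcases Nat.lt_or_ge m 3 with h | h
  · have hm1 : m = 1 := by
      obtain ⟨j, hj⟩ := hm
      omega
    subst hm1
    have : S = ∅ := by
      rw [Finset.eq_empty_iff_forall_notMem]
      intro p hp
      obtain ⟨h1, h2, -, k, h4⟩ := hS p hp
      rw [one_mul] at h4
      exact ne_zero_prime_pow β hβ h1 h2 k h4
    rw [this]
    simp
  · have h1 := exc_sum_le β hβ hm h ham S hS
    have h2 := one_le_log h
    have h3 : (1 + Real.log m) ^ 4 ≤ (2 * Real.log m) ^ 4 :=
      pow_le_pow_left₀ (by linarith) (by linarith) 4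
    have hK : (0 : ℝ) ≤ kst β := Nat.cast_nonneg _
    have h4 : 0 ≤ Real.log m ^ 4 := by positivity
    calc ∑ p ∈ S, Real.log p ≤ 20 * kst β * (1 + Real.log m) ^ 4 := h1
      _ ≤ 20 * kst β * (2 * Real.log m) ^ 4 := mul_le_mul_of_nonneg_left h3 (by positivity)
      _ = 320 * kst β * Real.log m ^ 4 := by ring
      _ ≤ _ := by nlinarith

lemma exc_card_le {r : ℕ} (β : List (Fin r × Bool)) (hβ : IsKnot β) {m : ℕ} (hm : Odd m)
    (hm3 : 3 ≤ m) (ham : kashaev β m ≠ 0) (S : Finset ℕ) (hS : ∀ p ∈ S, IsExc β m p) :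
    (S.card : ℝ) ≤ 20 * kst β * (1 + Real.log m) ^ 4 := by
  refine le_trans ?_ (exc_sum_le β hβ hm hm3 ham S hS)
  have h : ∀ p ∈ S, (1 : ℝ) ≤ Real.log p := by
    intro p hp
    obtain ⟨h1, h2, -, -⟩ := hS p hp
    have := h1.two_le
    exact one_le_log (by omega)
  calc (S.card : ℝ) = ∑ _p ∈ S, (1 : ℝ) := by simp
    _ ≤ _ := Finset.sum_le_sum h

lemma exc_finite {r : ℕ} (β : List (Fin r × Bool)) (hβ : IsKnot β) {m : ℕ} (hm : Odd m)
    (hm3 : 3 ≤ m) (ham : kashaev β m ≠ 0) : {p | IsExc β m p}.Finite := by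
  by_contra hinf
  obtain ⟨n, hn⟩ := exists_nat_gt (20 * kst β * (1 + Real.log m) ^ 4)
  obtain ⟨S, hS, hcard⟩ := (show {p | IsExc β m p}.Infinite from hinf).exists_subset_card_eq n
  have := exc_card_le β hβ hm hm3 ham S (fun p hp => hS hp)
  rw [hcard] at this
  linarith

open scoped Classical in
/-- the finset of exceptional primes -/
noncomputable def excSet {r : ℕ} (β : List (Fin r × Bool)) (m : ℕ) : Finset ℕ :=
  if h : 3 ≤ m ∧ {p | IsExc β m p}.Finite then h.2.toFinset else ∅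

/-- **positive lower density** -/
theorem positive_density {r : ℕ} (β : List (Fin r × Bool)) (hβ : IsKnot β) :
    ∃ c : ℝ, 0 < c ∧ ∃ C : ℝ, 0 < C ∧ ∃ N0 : ℕ, ∀ N : ℕ, N0 ≤ N →
      c * N ≤ (((Icc 1 N).filter (fun n : ℕ => Odd n ∧
        Real.exp (-(C * n * Real.log n ^ 3)) ≤ ‖kashaev β n‖)).card : ℝ) := by
  classical
  have hone : kashaev β 1 = 1 := by
    unfold kashaev
    exact colouredJones_zero _ β
  obtain ⟨c, hc, N0, hN0⟩ := Density.density (A := {n | kashaev β n ≠ 0})
    (by show kashaev β 1 ≠ 0; rw [hone]; exact one_ne_zero) (excSet β) (C := 20 * kst β)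
    (by positivity)
    (by
      intro m hmA hm
      rcases Nat.lt_or_ge m 3 with h | h
      · unfold excSet
        rw [dif_neg (by omega)]
        have hlog : 0 ≤ Real.log m := Real.log_natCast_nonneg m
        simp only [Finset.card_empty, Nat.cast_zero]
        positivity
      · have hf := exc_finite β hβ hm h hmA
        unfold excSet
        rw [dif_pos ⟨h, hf⟩]
        exact exc_card_le β hβ hm h hmA _ (fun p hp => by
          rw [Set.Finite.mem_toFinset] at hp
          exact hp))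
    (by unfold excSet; rw [dif_neg (by omega)])
    (by
      intro m hmA hm p hp hp2 hpm hpE k
      rcases Nat.lt_or_ge m 3 with h | h
      · have hm1 : m = 1 := by
          obtain ⟨j, hj⟩ := hm
          omega
        subst hm1
        show kashaev β (1 * p ^ k) ≠ 0
        rw [one_mul]
        exact ne_zero_prime_pow β hβ hp hp2 k
      · have hf := exc_finite β hβ hm h hmA
        unfold excSet at hpE
        rw [dif_pos ⟨h, hf⟩, Set.Finite.mem_toFinset] at hpE
        intro h0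
        exact hpE ⟨hp, hp2, hpm, k, h0⟩)
  refine ⟨c, hc, 80 * (kst β + 1), by positivity, N0, ?_⟩
  intro N hN
  refine (hN0 N hN).trans ?_
  have hsub : (Icc 1 N).filter (fun n => Odd n ∧ n ∈ {n | kashaev β n ≠ 0}) ⊆
      (Icc 1 N).filter (fun n : ℕ => Odd n ∧
        Real.exp (-(80 * (kst β + 1) * n * Real.log n ^ 3)) ≤ ‖kashaev β n‖) := by
    intro n hn
    rw [Finset.mem_filter] at hn ⊢
    obtain ⟨h1, h2, h3⟩ := hn
    refine ⟨h1, h2, ?_⟩
    rcases Nat.lt_or_ge n 3 with h | h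
    · have hn1 : n = 1 := by
        obtain ⟨j, hj⟩ := h2
        omega
      subst hn1
      rw [hone]
      simp
    · refine le_trans (Real.exp_le_exp.mpr ?_) (norm_kashaev_ge β h2 h h3)
      have h4 := one_le_log h
      have h5 : (1 + Real.log n) ^ 3 ≤ (2 * Real.log n) ^ 3 :=
        pow_le_pow_left₀ (by linarith) (by linarith) 3
      have hK : (0 : ℝ) ≤ kst β := Nat.cast_nonneg _
      have hn0 : (0 : ℝ) ≤ n := Nat.cast_nonneg _
      have h6 : (kst β : ℝ) * (10 * n * (1 + Real.log n) ^ 3) ≤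
          kst β * (10 * n * (2 * Real.log n) ^ 3) := by
        apply mul_le_mul_of_nonneg_left _ hK
        exact mul_le_mul_of_nonneg_left h5 (by positivity)
      have h7 : 0 ≤ (n : ℝ) * Real.log n ^ 3 := by positivity
      nlinarith
  exact_mod_cast Finset.card_le_card hsub

end Pool.Agent.Work.MP_b30479_gt
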