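import Pool.Agent.Work.MP_b30479_gt.OrdersB
import Pool.Agent.Work.MP_b30479_gt.Counting

/-!
# Final assembly: almost all odd `n`
-/

namespace Pool.Agent.Work.MP_b30479_gt

open Finset

lemma norm_kashaev_ge' {r : ℕ} (β : List (Fin r × Bool)) {n : ℕ} (hodd : Odd n)
    (h0 : kashaev β n ≠ 0) :
    Real.exp (-(80 * (kst β + 1) * n * Real.log n ^ 3)) ≤ ‖kashaev β n‖ := by
  rcases Nat.lt_or_ge n 3 with h | h
  · have hn1 : n = 1 := by
      obtain ⟨j, hj⟩ := hodd
      omega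
    subst hn1
    rw [kashaev_one]
    simp
  · refine le_trans (Real.exp_le_exp.mpr ?_) (norm_kashaev_ge β hodd h h0)
    have h4 := one_le_log h
    have h5 : (1 + Real.log n) ^ 3 ≤ (2 * Real.log n) ^ 3 :=
      pow_le_pow_left₀ (by linarith) (by linarith) 3
    have hK : (0 : ℝ) ≤ kst β := Nat.cast_nonneg _
    have hn0 : (0 : ℝ) ≤ n := Nat.cast_nonneg _
    have h6 : (kst β : ℝ) * (10 * n * (1 + Real.log n) ^ 3) ≤
        kst β * (10 * n * (2 * Real.log n) ^ 3) := by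
      apply mul_le_mul_of_nonneg_left _ hK
      exact mul_le_mul_of_nonneg_left h5 (by positivity)
    have h7 : 0 ≤ (n : ℝ) * Real.log n ^ 3 := by positivity
    nlinarith

/-- **almost all odd `n`** -/
theorem almost_all {r : ℕ} (β : List (Fin r × Bool)) (hβ : IsKnot β) :
    ∃ c : ℝ, 0 < c ∧ ∃ C : ℝ, 0 < C ∧ ∃ N0 : ℕ, ∀ N : ℕ, N0 ≤ N →
      (((Icc 1 N).filter (fun n : ℕ => Odd n ∧
        ‖kashaev β n‖ < Real.exp (-(C * n * Real.log n ^ 3)))).card : ℝ) ≤
        N * Real.exp (-(c * Real.sqrt (Real.log N * Real.log (Real.log N)))) := by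
  classical
  obtain ⟨c, hc, N0, hN0⟩ := Counting.count_bad (Bad := fun n => kashaev β n = 0)
    (E := excSet' β) (B := bst β) (D := 6) (one_le_bst β)
    (fun m hm => card_excSet'_le hβ hm)
    (fun m p k hm hp hpodd hpm hk hbad => mem_excSet' hβ hm hp hpodd hpm hk hbad)
  refine ⟨c, hc, 80 * (kst β + 1), by positivity, N0, ?_⟩
  intro N hN
  refine le_trans ?_ (hN0 N hN)
  have hsub : (Icc 1 N).filter (fun n : ℕ => Odd n ∧
        ‖kashaev β n‖ < Real.exp (-(80 * (kst β + 1) * n * Real.log n ^ 3))) ⊆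
      (Icc 1 N).filter (fun n => Odd n ∧ kashaev β n = 0) := by
    intro n hn
    rw [Finset.mem_filter] at hn ⊢
    obtain ⟨h1, h2, h3⟩ := hn
    refine ⟨h1, h2, ?_⟩
    by_contra h0
    exact absurd (norm_kashaev_ge' β h2 h0) (not_le.mpr h3)
  exact_mod_cast Finset.card_le_card hsub

/-- **exceptional primes for every odd `m`** -/
theorem exceptional_all {r : ℕ} (β : List (Fin r × Bool)) (hβ : IsKnot β) :
    ∃ C : ℝ, 0 < C ∧ ∀ m : ℕ, Odd m → ∀ S : Finset ℕ,
      (∀ p ∈ S, p.Prime ∧ p ≠ 2 ∧ ¬ p ∣ m ∧ ∃ k, 1 ≤ k ∧ kashaev β (m * p ^ k) = 0) →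
      ∑ p ∈ S, Real.log p ≤ (C * (1 + Real.log m) ^ 6) ^ (m.primeFactors.card + 1) ∧
      (kashaev β m ≠ 0 → ∑ p ∈ S, Real.log p ≤ C * Real.log m ^ 4) := by
  obtain ⟨C, hC, h⟩ := exceptional β hβ
  have hb := one_le_bst β
  refine ⟨max C (bst β), lt_of_lt_of_le hC (le_max_left _ _), ?_⟩
  intro m hm S hS
  have hlog : 0 ≤ Real.log m := Real.log_natCast_nonneg m
  constructor
  · refine (exc_sum_log_le hβ hm S hS).trans ?_
    apply pow_le_pow_left₀ (by positivity)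
    exact mul_le_mul_of_nonneg_right (le_max_right _ _) (by positivity)
  · intro ham
    refine (h m hm ham S (fun p hp => ?_)).trans ?_
    · obtain ⟨h1, h2, h3, k, -, h5⟩ := hS p hp
      exact ⟨h1, h2, h3, k, h5⟩
    · exact mul_le_mul_of_nonneg_right (le_max_left _ _) (by positivity)

end Pool.Agent.Work.MP_b30479_gt
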