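import Pool.Agent.Work.MP_b30479_gt.RootSums

/-!
# `∑_{i ≤ a} log |1 - w^i|` for a primitive `m`-th root of unity `w`, by finite Fourier analysis
-/

namespace Pool.Agent.Work.MP_b30479_gt

open Finset ZMod

variable {m : ℕ} [NeZero m]

lemma std_eq (c : ZMod m) : stdAddChar c = root m ^ c.val := by
  have h : c = ((c.val : ℤ) : ZMod m) := by simp
  conv_lhs => rw [h]
  rw [stdAddChar_coe]
  unfold root
  rw [← Complex.exp_nat_mul]
  congr 1
  push_cast
  ring

lemma std_ne_one {c : ZMod m} (hc : c ≠ 0) : stdAddChar c ≠ (1 : ℂ) := by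
  rw [std_eq]
  have h1 : 0 < c.val := Nat.pos_of_ne_zero (by rwa [Ne, ZMod.val_eq_zero])
  exact (root_prim (NeZero.pos m)).pow_ne_one_of_pos_of_lt h1.ne' (ZMod.val_lt c)

lemma norm_std (c : ZMod m) : ‖(stdAddChar c : ℂ)‖ = 1 := by
  rw [stdAddChar_apply]; simp

/-- `log |1 - ζ^c|` -/
noncomputable def ll (c : ZMod m) : ℝ := Real.log ‖1 - (stdAddChar c : ℂ)‖

lemma ll_zero : ll (0 : ZMod m) = 0 := by simp [ll]

lemma sum_std {M : Type*} [AddCommMonoid M] (F : ℂ → M) :
    ∑ c : ZMod m, F (stdAddChar c) = ∑ c ∈ range m, F (root m ^ c) := by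
  have hm : 0 < m := NeZero.pos m
  apply Finset.sum_bij' (fun (c : ZMod m) _ => c.val) (fun (c : ℕ) _ => (c : ZMod m))
  · intro c _
    exact Finset.mem_range.mpr (ZMod.val_lt c)
  · intro c _
    exact Finset.mem_univ _
  · intro c _
    simp
  · intro c hc
    exact ZMod.val_cast_of_lt (Finset.mem_range.mp hc)
  · intro c _
    rw [std_eq]

lemma abs_log_sub_log_le {x y : ℝ} (hx : 0 < x) (hy : 0 < y) :
    |Real.log x - Real.log y| ≤ |x - y| * (x⁻¹ + y⁻¹) := by
  have h1 : Real.log x - Real.log y ≤ (x - y) * y⁻¹ := by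
    rw [← Real.log_div hx.ne' hy.ne']
    have := Real.log_le_sub_one_of_pos (div_pos hx hy)
    have e : x / y - 1 = (x - y) * y⁻¹ := by field_simp
    linarith
  have h2 : Real.log y - Real.log x ≤ (y - x) * x⁻¹ := by
    rw [← Real.log_div hy.ne' hx.ne']
    have := Real.log_le_sub_one_of_pos (div_pos hy hx)
    have e : y / x - 1 = (y - x) * x⁻¹ := by field_simp
    linarith
  have hxi : 0 < x⁻¹ := inv_pos.mpr hx
  have hyi : 0 < y⁻¹ := inv_pos.mpr hy
  have hab := le_abs_self (x - y)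
  have hab2 := neg_abs_le (x - y)
  rw [abs_le]
  constructor <;> nlinarith [abs_nonneg (x - y)]

lemma norm_std_one_sub (hm : 2 ≤ m) : ‖(stdAddChar (1 : ZMod m) : ℂ) - 1‖ ≤ 2 * Real.pi / m := by
  have : Fact (1 < m) := ⟨by omega⟩
  rw [std_eq, ZMod.val_one, root_pow]
  have h := Real.norm_exp_I_mul_ofReal_sub_one_le (x := 2 * Real.pi * ((1 : ℕ) / m))
  refine h.trans (le_of_eq ?_)
  rw [Real.norm_eq_abs, abs_of_nonneg (by positivity)]
  push_cast
  ring

lemma norm_std_sub (hm : 2 ≤ m) (c : ZMod m) :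
    ‖(stdAddChar c : ℂ) - stdAddChar (c - 1)‖ ≤ 2 * Real.pi / m := by
  have h : (stdAddChar c : ℂ) = stdAddChar (c - 1) * stdAddChar (1 : ZMod m) := by
    rw [← AddChar.map_add_eq_mul, sub_add_cancel]
  have h2 : (stdAddChar c : ℂ) - stdAddChar (c - 1) =
      stdAddChar (c - 1) * (stdAddChar (1 : ZMod m) - 1) := by
    rw [h]; ring
  rw [h2, norm_mul, norm_std, one_mul]
  exact norm_std_one_sub hm

lemma norm_one_sub_neg (c : ZMod m) :
    ‖1 - (stdAddChar (-c) : ℂ)‖ = ‖1 - (stdAddChar c : ℂ)‖ := by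
  have h : (1 : ℂ) - stdAddChar (-c) = - (stdAddChar (-c) * (1 - stdAddChar c)) := by
    have : (stdAddChar (-c) : ℂ) * stdAddChar c = 1 := by
      rw [← AddChar.map_add_eq_mul, neg_add_cancel, AddChar.map_zero_eq_one]
    rw [mul_sub, this, mul_one]
    ring
  rw [h, norm_neg, norm_mul, norm_std, one_mul]

lemma abs_ll_one (hm : 2 ≤ m) : |ll (1 : ZMod m)| ≤ Real.log m := by
  have : Fact (1 < m) := ⟨by omega⟩
  have hm' : (2 : ℝ) ≤ m := by exact_mod_cast hm
  have h1 := rd_root_pow_le (m := m) (c := 1) (by norm_num) (by omega)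
  have hne : (1 : ℂ) - root m ^ 1 ≠ 0 := by
    have := (root_prim (NeZero.pos m)).pow_ne_one_of_pos_of_lt (l := 1) (by norm_num) (by omega)
    exact sub_ne_zero.mpr (Ne.symm this)
  have hpos : 0 < ‖1 - root m ^ 1‖ := norm_pos_iff.mpr hne
  have h2 : ‖1 - root m ^ 1‖ ≤ 2 := by
    refine (norm_sub_le _ _).trans ?_
    rw [norm_pow, (root_prim (NeZero.pos m)).norm'_eq_one (NeZero.ne m)]
    norm_num
  have h3 : ‖1 - root m ^ 1‖⁻¹ ≤ m := by
    have h4 : rd (root m ^ 1) ≤ m := by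
      refine h1.trans ?_
      have h5 : ((m - 1 : ℕ) : ℝ)⁻¹ ≤ 1 := by
        apply inv_le_one_of_one_le₀
        exact_mod_cast (by omega : 1 ≤ m - 1)
      norm_num at h5 ⊢
      nlinarith
    exact h4
  unfold ll
  rw [std_eq, ZMod.val_one, abs_le]
  constructor
  · have := Real.log_le_log (inv_pos.mpr hpos) h3
    rw [Real.log_inv] at this
    linarith
  · exact Real.log_le_log hpos (h2.trans hm')

lemma ll_neg (c : ZMod m) : ll (-c) = ll c := by
  unfold ll
  rw [norm_one_sub_neg]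

lemma abs_ll_sub_le (hm : 2 ≤ m) (c : ZMod m) :
    |ll c - ll (c - 1)| ≤ 2 * Real.pi / m * (rd (stdAddChar c) + rd (stdAddChar (c - 1))) +
      ((if c = 0 then Real.log m else 0) + (if c = 1 then Real.log m else 0)) := by
  have : Fact (1 < m) := ⟨by omega⟩
  have hlog : 0 ≤ Real.log m := Real.log_natCast_nonneg m
  have hnn : 0 ≤ 2 * Real.pi / m * (rd (stdAddChar c) + rd (stdAddChar (c - 1))) := by
    have := rd_nonneg (stdAddChar c)
    have := rd_nonneg (stdAddChar (c - 1))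
    positivity
  by_cases h0 : c = 0
  · subst h0
    rw [if_pos rfl, zero_sub, ll_neg, ll_zero, zero_sub, abs_neg, if_neg zero_ne_one]
    rw [zero_sub] at hnn
    have := abs_ll_one hm
    linarith
  · by_cases h1 : c = 1
    · subst h1
      rw [if_pos rfl, sub_self, ll_zero, sub_zero, if_neg one_ne_zero]
      rw [sub_self] at hnn
      have := abs_ll_one hm
      linarith
    · rw [if_neg h0, if_neg h1]
      have hc : 0 < ‖1 - (stdAddChar c : ℂ)‖ :=
        norm_pos_iff.mpr (sub_ne_zero.mpr (Ne.symm (std_ne_one h0)))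
      have hc1 : 0 < ‖1 - (stdAddChar (c - 1) : ℂ)‖ :=
        norm_pos_iff.mpr (sub_ne_zero.mpr (Ne.symm (std_ne_one (sub_ne_zero.mpr h1))))
      have h := abs_log_sub_log_le hc hc1
      have h2 : |‖1 - (stdAddChar c : ℂ)‖ - ‖1 - (stdAddChar (c - 1) : ℂ)‖| ≤
          2 * Real.pi / m := by
        refine (abs_norm_sub_norm_le _ _).trans ?_
        rw [show (1 : ℂ) - stdAddChar c - (1 - stdAddChar (c - 1)) =
          - (stdAddChar c - stdAddChar (c - 1)) by ring, norm_neg]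
        exact norm_std_sub hm c
      unfold ll
      refine h.trans ?_
      rw [add_zero, add_zero]
      apply mul_le_mul_of_nonneg_right h2
      exact add_nonneg (rd_nonneg _) (rd_nonneg _)

lemma sum_var_le (hm : 2 ≤ m) :
    ∑ c : ZMod m, |ll c - ll (c - 1)| ≤ 9 * (1 + Real.log m) := by
  have hm' : (0 : ℝ) < m := by exact_mod_cast (by omega : 0 < m)
  have hlog : 0 ≤ Real.log m := Real.log_natCast_nonneg m
  have hH : ∑ c : ZMod m, rd (stdAddChar c) ≤ (m : ℝ) / 2 * (1 + Real.log m) := by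
    rw [sum_std rd]
    exact sum_rd_root_le (by omega)
  have hH1 : ∑ c : ZMod m, rd (stdAddChar (c - 1)) = ∑ c : ZMod m, rd (stdAddChar c) :=
    Equiv.sum_comp (Equiv.subRight (1 : ZMod m)) (fun c => rd (stdAddChar c))
  refine (Finset.sum_le_sum fun c _ => abs_ll_sub_le hm c).trans ?_
  rw [Finset.sum_add_distrib, Finset.sum_add_distrib, ← Finset.mul_sum, Finset.sum_add_distrib,
    hH1, Finset.sum_ite_eq' univ (0 : ZMod m), Finset.sum_ite_eq' univ (1 : ZMod m),
    if_pos (Finset.mem_univ _), if_pos (Finset.mem_univ _)]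
  have hpi : Real.pi < 3.15 := Real.pi_lt_d2
  have hpi0 : 0 < Real.pi := Real.pi_pos
  have h1 : 2 * Real.pi / m * (∑ c : ZMod m, rd (stdAddChar c) + ∑ c : ZMod m, rd (stdAddChar c)) ≤
      2 * Real.pi / m * ((m : ℝ) / 2 * (1 + Real.log m) + (m : ℝ) / 2 * (1 + Real.log m)) := by
    apply mul_le_mul_of_nonneg_left _ (by positivity)
    linarith
  have h2 : 2 * Real.pi / m * ((m : ℝ) / 2 * (1 + Real.log m) + (m : ℝ) / 2 * (1 + Real.log m)) =
      2 * Real.pi * (1 + Real.log m) := by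
    field_simp
    ring
  nlinarith

open scoped FourierTransform in
/-- bound for the Fourier coefficients -/
lemma norm_dft_le (hm : 2 ≤ m) {h : ZMod m} (hh : h ≠ 0) :
    ‖ZMod.dft (fun c : ZMod m => ((ll c : ℝ) : ℂ)) h‖ ≤
      9 * (1 + Real.log m) * rd (stdAddChar h) := by
  set Φ : ZMod m → ℂ := fun c => ((ll c : ℝ) : ℂ) with hΦ
  have key : (1 - (stdAddChar (-h) : ℂ)) * ZMod.dft Φ h =
      ∑ c : ZMod m, stdAddChar (-(c * h)) * (((ll c - ll (c - 1) : ℝ)) : ℂ) := by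
    rw [ZMod.dft_apply]
    simp only [smul_eq_mul]
    have e1 : ∑ c : ZMod m, stdAddChar (-(c * h)) * (((ll c - ll (c - 1) : ℝ)) : ℂ) =
        ∑ c : ZMod m, stdAddChar (-(c * h)) * Φ c -
        ∑ c : ZMod m, stdAddChar (-(c * h)) * Φ (c - 1) := by
      rw [← Finset.sum_sub_distrib]
      apply Finset.sum_congr rfl
      intro c _
      rw [hΦ]
      push_cast
      ring
    have e2 : ∑ c : ZMod m, stdAddChar (-(c * h)) * Φ (c - 1) =
        ∑ c : ZMod m, stdAddChar (-((c + 1) * h)) * Φ c := by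
      rw [← Equiv.sum_comp (Equiv.subRight (1 : ZMod m))
        (fun c => stdAddChar (-((c + 1) * h)) * Φ c)]
      apply Finset.sum_congr rfl
      intro c _
      simp
    rw [e1, e2, sub_mul, one_mul]
    congr 1
    rw [Finset.mul_sum]
    apply Finset.sum_congr rfl
    intro c _
    rw [← mul_assoc, ← AddChar.map_add_eq_mul]
    congr 2
    ring
  have hne : (1 : ℂ) - stdAddChar (-h) ≠ 0 := by
    have := std_ne_one (c := -h) (neg_ne_zero.mpr hh)
    exact sub_ne_zero.mpr (Ne.symm this)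
  have hpos : 0 < ‖1 - (stdAddChar (-h) : ℂ)‖ := norm_pos_iff.mpr hne
  have hb : ‖1 - (stdAddChar (-h) : ℂ)‖ * ‖ZMod.dft Φ h‖ ≤ 9 * (1 + Real.log m) := by
    rw [← norm_mul, key]
    refine (norm_sum_le _ _).trans (le_trans (Finset.sum_le_sum fun c _ => ?_) (sum_var_le hm))
    rw [norm_mul, norm_std, one_mul, Complex.norm_real, Real.norm_eq_abs]
  rw [norm_one_sub_neg] at hb hpos
  unfold rd
  rw [← div_eq_mul_inv, le_div_iff₀ hpos, mul_comm]
  exact hb

lemma sum_ll : ∑ c : ZMod m, ll c = Real.log m := by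
  have hm : 0 < m := NeZero.pos m
  obtain ⟨n, hn⟩ : ∃ n, m = n + 1 := ⟨m - 1, by omega⟩
  have h1 : ∑ c : ZMod m, ll c = ∑ c ∈ range m, Real.log ‖1 - root m ^ c‖ :=
    sum_std (fun x => Real.log ‖1 - x‖)
  have h2 : ∑ c ∈ range m, Real.log ‖1 - root m ^ c‖ =
      ∑ c ∈ range n, Real.log ‖1 - root m ^ (c + 1)‖ := by
    rw [hn, Finset.sum_range_succ']
    simp
  have hprim := root_prim hm
  have h3 : ∑ c ∈ range n, Real.log ‖1 - root m ^ (c + 1)‖ =
      Real.log ‖∏ c ∈ range n, (1 - root m ^ (c + 1))‖ := by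
    rw [norm_prod, Real.log_prod]
    intro c hc
    rw [Finset.mem_range] at hc
    exact norm_ne_zero_iff.mpr (sub_ne_zero.mpr (Ne.symm
      (hprim.pow_ne_one_of_pos_of_lt (by omega) (by omega))))
  have h4 : ∏ c ∈ range n, (1 - root m ^ (c + 1)) = (n : ℂ) + 1 := by
    apply IsPrimitiveRoot.prod_one_sub_pow_eq_order
    rw [← hn]
    exact hprim
  rw [h1, h2, h3, h4, hn]
  congr 1
  have : ((n : ℂ) + 1) = ((n + 1 : ℕ) : ℂ) := by push_cast; ring
  rw [this, Complex.norm_natCast]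

lemma norm_geom_le {z : ℂ} (hz : ‖z‖ = 1) (hz1 : z ≠ 1) (a : ℕ) :
    ‖∑ i ∈ range a, z ^ (i + 1)‖ ≤ 2 * rd z := by
  have h1 : ∑ i ∈ range a, z ^ (i + 1) = z * ((z ^ a - 1) / (z - 1)) := by
    rw [← geom_sum_eq hz1, Finset.mul_sum]
    apply Finset.sum_congr rfl
    intro i _
    ring
  have h2 : ‖z ^ a - 1‖ ≤ 2 := by
    refine (norm_sub_le _ _).trans ?_
    rw [norm_pow, hz]
    norm_num
  rw [h1, norm_mul, hz, one_mul, norm_div, norm_sub_rev z 1]
  unfold rd
  rw [div_eq_mul_inv]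
  exact mul_le_mul_of_nonneg_right h2 (inv_nonneg.mpr (norm_nonneg _))

theorem abs_sum_ll_le (hm : 2 ≤ m) (u : (ZMod m)ˣ) {a : ℕ} (ha : a ≤ m) :
    |∑ i ∈ range a, ll ((u : ZMod m) * ((i + 1 : ℕ) : ZMod m))| ≤
      Real.log m + 18 * (1 + Real.log m) / m *
        ∑ h : ZMod m, rd (stdAddChar h) * rd (stdAddChar (h * (u : ZMod m))) := by
  have hm' : (0 : ℝ) < m := by exact_mod_cast (by omega : 0 < m)
  have hlog : 0 ≤ Real.log m := Real.log_natCast_nonneg m
  set Φ : ZMod m → ℂ := fun c => ((ll c : ℝ) : ℂ) with hΦ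
  have hinv : ∀ c : ZMod m, Φ c = (m : ℂ)⁻¹ * ∑ h : ZMod m, stdAddChar (h * c) * ZMod.dft Φ h := by
    intro c
    have h1 : ZMod.dft.symm (ZMod.dft Φ) c = Φ c := by
      rw [LinearEquiv.symm_apply_apply]
    rw [← h1, ZMod.invDFT_apply]
    simp only [smul_eq_mul]
  have hsum : ((∑ i ∈ range a, ll ((u : ZMod m) * ((i + 1 : ℕ) : ZMod m)) : ℝ) : ℂ) =
      (m : ℂ)⁻¹ * ∑ h : ZMod m, ZMod.dft Φ h * ∑ i ∈ range a, (stdAddChar (h * (u : ZMod m)) : ℂ) ^ (i + 1) := by
    push_cast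
    have : ∀ i ∈ range a, ((ll ((u : ZMod m) * ((i : ZMod m) + 1)) : ℝ) : ℂ) =
        (m : ℂ)⁻¹ * ∑ h : ZMod m, ZMod.dft Φ h * (stdAddChar (h * (u : ZMod m)) : ℂ) ^ (i + 1) := by
      intro i _
      have h1 := hinv ((u : ZMod m) * ((i : ZMod m) + 1))
      rw [hΦ] at h1
      simp only at h1
      rw [h1]
      congr 1
      apply Finset.sum_congr rfl
      intro h _
      rw [mul_comm]
      congr 1
      rw [← AddChar.map_nsmul_eq_pow]
      congr 1
      rw [nsmul_eq_mul]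
      push_cast
      ring
    rw [Finset.sum_congr rfl this, ← Finset.mul_sum, Finset.sum_comm]
    congr 1
    apply Finset.sum_congr rfl
    intro h _
    rw [Finset.mul_sum]
  have hnorm : |∑ i ∈ range a, ll ((u : ZMod m) * ((i + 1 : ℕ) : ZMod m))| =
      ‖((∑ i ∈ range a, ll ((u : ZMod m) * ((i + 1 : ℕ) : ZMod m)) : ℝ) : ℂ)‖ := by
    rw [Complex.norm_real, Real.norm_eq_abs]
  rw [hnorm, hsum, norm_mul, norm_inv, Complex.norm_natCast]
  have hterm : ∀ h : ZMod m, ‖ZMod.dft Φ h * ∑ i ∈ range a, (stdAddChar (h * (u : ZMod m)) : ℂ) ^ (i + 1)‖ ≤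
      (if h = 0 then (m : ℝ) * Real.log m else 0) +
      18 * (1 + Real.log m) * (rd (stdAddChar h) * rd (stdAddChar (h * (u : ZMod m)))) := by
    intro h
    by_cases hh : h = 0
    · subst hh
      rw [if_pos rfl, zero_mul, AddChar.map_zero_eq_one, rd_one, mul_zero, mul_zero, add_zero,
        norm_mul]
      have h1 : ZMod.dft Φ 0 = ((Real.log m : ℝ) : ℂ) := by
        rw [ZMod.dft_apply_zero, hΦ, ← sum_ll]
        push_cast
        rfl
      rw [h1, Complex.norm_real, Real.norm_eq_abs, abs_of_nonneg hlog]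
      have h2 : ‖∑ i ∈ range a, (1 : ℂ) ^ (i + 1)‖ ≤ m := by
        simp only [one_pow, Finset.sum_const, Finset.card_range, nsmul_eq_mul, mul_one,
          Complex.norm_natCast]
        exact_mod_cast ha
      rw [mul_comm (m : ℝ)]
      exact mul_le_mul_of_nonneg_left h2 hlog
    · rw [if_neg hh, zero_add, norm_mul]
      have h1 := norm_dft_le hm hh
      have hu : h * (u : ZMod m) ≠ 0 := by
        intro h0
        apply hh
        have := congrArg (· * ((u⁻¹ : (ZMod m)ˣ) : ZMod m)) h0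
        simpa [mul_assoc] using this
      have h2 := norm_geom_le (norm_std (h * (u : ZMod m))) (std_ne_one hu) a
      have h3 := mul_le_mul h1 h2 (norm_nonneg _) (by
        have := rd_nonneg (stdAddChar h)
        positivity)
      refine h3.trans (le_of_eq ?_)
      ring
  have htot : ‖∑ h : ZMod m, ZMod.dft Φ h * ∑ i ∈ range a, (stdAddChar (h * (u : ZMod m)) : ℂ) ^ (i + 1)‖ ≤
      m * Real.log m + 18 * (1 + Real.log m) *
        ∑ h : ZMod m, rd (stdAddChar h) * rd (stdAddChar (h * (u : ZMod m))) := by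
    refine (norm_sum_le _ _).trans ((Finset.sum_le_sum fun h _ => hterm h).trans (le_of_eq ?_))
    rw [Finset.sum_add_distrib, Finset.sum_ite_eq' univ (0 : ZMod m), if_pos (Finset.mem_univ _),
      Finset.mul_sum]
  calc (m : ℝ)⁻¹ * ‖∑ h : ZMod m, ZMod.dft Φ h * ∑ i ∈ range a, (stdAddChar (h * (u : ZMod m)) : ℂ) ^ (i + 1)‖
      ≤ (m : ℝ)⁻¹ * (m * Real.log m + 18 * (1 + Real.log m) *
        ∑ h : ZMod m, rd (stdAddChar h) * rd (stdAddChar (h * (u : ZMod m)))) :=
        mul_le_mul_of_nonneg_left htot (by positivity)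
    _ = _ := by
        field_simp

end Pool.Agent.Work.MP_b30479_gt
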