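import Pool.Agent.Work.MP_b30479_gt.TwoBridgeAlt

/-!
# The complex growth of the Kashaev invariants
-/

namespace Pool.Agent.Work.MP_b30479_gt

open Filter Topology

/-- The complex growth statement for the link `L_w` with the complex number `V`: the link has an
orientation and, for every orientation, with `a_n = J_n(L_w; e^{2πi/n})`: `a_n ≠ 0` for all large
odd `n`, and as `n → ∞` through the odd integers `a_{n+2}/a_n → exp (V/π)` in `ℂ` and
`π log |a_{n+2}/a_n| → Re V`. -/
def ComplexGrowth (w : List (Fin 2 × Bool)) (V : ℂ) : Prop :=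
  (∃ δ, IsOrientation w δ) ∧ ∀ δ, IsOrientation w δ →
    (∀ᶠ s : ℕ in atTop, twoBridgeKashaev w δ (2 * s + 1) ≠ 0) ∧
    Tendsto (fun s : ℕ => twoBridgeKashaev w δ (2 * s + 3) / twoBridgeKashaev w δ (2 * s + 1))
      atTop (𝓝 (Complex.exp (V / Real.pi))) ∧
    Tendsto (fun s : ℕ => Real.pi *
      Real.log ‖twoBridgeKashaev w δ (2 * s + 3) / twoBridgeKashaev w δ (2 * s + 1)‖)
      atTop (𝓝 V.re)

end Pool.Agent.Work.MP_b30479_gt
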