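import Pool.Agent.Work.MP_b30479_gt.Defs

namespace Pool.Agent.Work.MP_b30479_gt

section
variable {A : Type*} [CommRing A] (t : A)

@[simp] lemma gauss_zero_right (n : ℕ) : gauss t n 0 = 1 := by cases n <;> rfl
@[simp] lemma gauss_zero_succ (k : ℕ) : gauss t 0 (k + 1) = 0 := rfl
lemma gauss_succ_succ (n k : ℕ) :
    gauss t (n + 1) (k + 1) = gauss t n k + t ^ (k + 1) * gauss t n (k + 1) := rfl

lemma gauss_eq_zero_of_lt {n k : ℕ} (h : n < k) : gauss t n k = 0 := by
  induction n generalizing k with
  | zero => cases k with
    | zero => omega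
    | succ k => rfl
  | succ n ih => cases k with
    | zero => omega
    | succ k => rw [gauss_succ_succ, ih (by omega), ih (by omega)]; simp

lemma gauss_mul_prod {n k : ℕ} (h : k ≤ n) :
    gauss t n k * ∏ i ∈ Finset.range k, (t ^ (i + 1) - 1) =
      ∏ i ∈ Finset.range k, (t ^ (n - i) - 1) := by
  induction n generalizing k with
  | zero => 
    have : k = 0 := by omega
    subst this; simp
  | succ n ih =>
    cases k with
    | zero => simp
    | succ k =>
      rw [gauss_succ_succ]
      have h1 := ih (k := k) (by omega)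
      have e3 : ∏ i ∈ Finset.range (k + 1), (t ^ (n + 1 - i) - 1) =
          (∏ i ∈ Finset.range k, (t ^ (n - i) - 1)) * (t ^ (n + 1) - 1) := by
        rw [Finset.prod_range_succ']
        simp
      rw [e3]
      rcases Nat.lt_or_ge n (k + 1) with hlt | hge
      · have hk : n = k := by omega
        subst hk
        rw [gauss_eq_zero_of_lt t (Nat.lt_succ_self n), Finset.prod_range_succ, ← h1]
        ring
      · have h2 := ih (k := k + 1) hge
        have e4 : ∏ i ∈ Finset.range (k + 1), (t ^ (n - i) - 1) =
          (∏ i ∈ Finset.range k, (t ^ (n - i) - 1)) * (t ^ (n - k) - 1) := by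
          rw [Finset.prod_range_succ]
        rw [e4] at h2
        have e5 : t ^ (n + 1) = t ^ (k + 1) * t ^ (n - k) := by
          rw [← pow_add]; congr 1; omega
        rw [add_mul, Finset.prod_range_succ, ← mul_assoc, h1, mul_assoc (t ^ (k + 1))]
        rw [Finset.prod_range_succ] at h2
        rw [h2, e5]
        ring

/-- at a primitive `m`-th root of unity of a domain, `[m choose k] = 0` for `0 < k < m` -/
lemma gauss_primitive [IsDomain A] {m : ℕ} (ht : IsPrimitiveRoot t m) {k : ℕ} (hk0 : 0 < k)
    (hk : k < m) : gauss t m k = 0 := by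
  have h := gauss_mul_prod t (n := m) (k := k) hk.le
  have hz : ∏ i ∈ Finset.range k, (t ^ (m - i) - 1) = 0 := by
    apply Finset.prod_eq_zero (Finset.mem_range.mpr hk0)
    simp [ht.pow_eq_one]
  rw [hz] at h
  rcases mul_eq_zero.mp h with h | h
  · exact h
  · exfalso
    rw [Finset.prod_eq_zero_iff] at h
    obtain ⟨i, hi, hi0⟩ := h
    rw [Finset.mem_range] at hi
    exact ht.pow_ne_one_of_pos_of_lt (by omega) (by omega) (sub_eq_zero.mp hi0)

lemma gauss_shift [IsDomain A] {m : ℕ} (ht : IsPrimitiveRoot t m) (n : ℕ) {k : ℕ} (hk : k < m) :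
    gauss t (m + n) k = gauss t n k := by
  induction n generalizing k with
  | zero =>
    cases k with
    | zero => simp
    | succ k => rw [Nat.add_zero, gauss_primitive t ht (Nat.succ_pos k) hk]; rfl
  | succ n ih =>
    cases k with
    | zero => simp
    | succ k =>
      rw [← Nat.add_assoc, gauss_succ_succ, gauss_succ_succ, ih (by omega), ih hk]

lemma gauss_shift_mul [IsDomain A] {m : ℕ} (ht : IsPrimitiveRoot t m) (a n : ℕ) {k : ℕ}
    (hk : k < m) : gauss t (m * a + n) k = gauss t n k := by
  induction a with
  | zero => simp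
  | succ a ih =>
    rw [Nat.mul_succ, Nat.add_comm (m * a) m, Nat.add_assoc, gauss_shift t ht _ hk, ih]

end

lemma gauss_map {A B : Type*} [CommRing A] [CommRing B] (f : A →+* B) (t : A) (n k : ℕ) :
    f (gauss t n k) = gauss (f t) n k := by
  induction n generalizing k with
  | zero => cases k <;> simp
  | succ n ih => cases k with
    | zero => simp
    | succ k => rw [gauss_succ_succ, gauss_succ_succ, map_add, map_mul, map_pow, ih, ih]

end Pool.Agent.Work.MP_b30479_gt
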