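import Pool.Agent.Work.MP_b30479_gt.Divis

/-!
# The logarithmic height of `a_n = J_n(L; e^{2πi/n})`
-/

namespace Pool.Agent.Work.MP_b30479_gt

open Finset Polynomial

/-- `J_n(L; e^{2πik/n})` for odd `n`, where `L` is the closure of the braid word `β`
(junk value for even `n`). For `k` prime to `n` these are the Galois conjugates of `a_n`. -/
noncomputable def kashaevConj {r : ℕ} (β : List (Fin r × Bool)) (n k : ℕ) : ℂ :=
  colouredJones ((n - 1) / 2) β
    (Units.mk0 (Complex.exp (2 * Real.pi * Complex.I * k / n)) (Complex.exp_ne_zero _))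

lemma kashaevConj_one {r : ℕ} (β : List (Fin r × Bool)) (n : ℕ) :
    kashaevConj β n 1 = kashaev β n := by
  unfold kashaevConj kashaev
  congr 1
  apply Units.ext
  simp

lemma exp_eq_root_pow (n k : ℕ) :
    Complex.exp (2 * Real.pi * Complex.I * k / n) = root n ^ k := by
  unfold root
  rw [← Complex.exp_nat_mul]
  congr 1
  ring

lemma abs_le_two_sub {x U : ℝ} (hU : 0 ≤ U) (h : x ≤ U) : |x| ≤ 2 * U - x := by
  rcases abs_cases x with ⟨h1, _⟩ | ⟨h1, _⟩ <;> rw [h1] <;> linarith

lemma sum_abs_log_le {r s' m : ℕ} (β : List (Fin r × Bool)) (hs' : 2 * s' + 1 = m) (hs : 1 ≤ s')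
    {G : ℤ[X]}
    (hG : ∀ (F : Type) [CommRing F] (t : Fˣ), t ^ (2 * s' + 1) = 1 →
      colouredJones s' β t = eval₂ (Int.castRingHom F) (t : F) G) :
    ∑ w ∈ primitiveRoots m ℂ, |Real.log ‖aeval w G‖| ≤
      2 * (kst β * (10 * m * (1 + Real.log m) ^ 3)) := by
  have hm : 0 < m := by omega
  have hlog : 0 ≤ Real.log m := Real.log_natCast_nonneg m
  by_cases h0 : ∃ w ∈ primitiveRoots m ℂ, aeval w G ≠ 0
  · obtain ⟨ζ, hζ, hG0⟩ := h0
    have hGw := aeval_ne_zero hm ((mem_primitiveRoots hm).mp hζ) hG0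
    have h1 := one_le_prod hm hGw
    have h2 : 0 ≤ ∑ w ∈ primitiveRoots m ℂ, Real.log ‖aeval w G‖ := by
      rw [← Real.log_prod (fun w hw => norm_ne_zero_iff.mpr (hGw w hw))]
      exact Real.log_nonneg h1
    have h3 : ∀ w ∈ primitiveRoots m ℂ, |Real.log ‖aeval w G‖| ≤
        2 * (kst β * ubd m w) - Real.log ‖aeval w G‖ := by
      intro w hw
      apply abs_le_two_sub (mul_nonneg (Nat.cast_nonneg _) (ubd_nonneg m w))
      rw [Real.log_le_iff_le_exp (norm_pos_iff.mpr (hGw w hw))]
      exact norm_aeval_le β hs' hs hG hw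
    calc _ ≤ ∑ w ∈ primitiveRoots m ℂ, (2 * (kst β * ubd m w) - Real.log ‖aeval w G‖) :=
          Finset.sum_le_sum h3
      _ = 2 * (kst β * ∑ w ∈ primitiveRoots m ℂ, ubd m w) -
          ∑ w ∈ primitiveRoots m ℂ, Real.log ‖aeval w G‖ := by
          rw [Finset.sum_sub_distrib, ← Finset.mul_sum, ← Finset.mul_sum]
      _ ≤ 2 * (kst β * ∑ w ∈ primitiveRoots m ℂ, ubd m w) := by linarith
      _ ≤ _ := by
          apply mul_le_mul_of_nonneg_left _ (by norm_num)
          exact mul_le_mul_of_nonneg_left (sum_ubd_le hm) (Nat.cast_nonneg _)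
  · push Not at h0
    rw [Finset.sum_eq_zero]
    · positivity
    · intro w hw
      rw [h0 w hw]
      simp

theorem height_bound {r : ℕ} (β : List (Fin r × Bool)) :
    ∃ C : ℝ, 0 < C ∧ ∀ n : ℕ, Odd n → 3 ≤ n →
      ∑ k ∈ (range n).filter (fun k => k.Coprime n), |Real.log ‖kashaevConj β n k‖| ≤
        C * n * Real.log n ^ 3 := by
  refine ⟨160 * kst β + 1, by positivity, ?_⟩
  intro n hn h3
  obtain ⟨s, hs⟩ := hn
  have hs' : 2 * s + 1 = n := hs.symm
  have hpos : 0 < n := by omega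
  obtain ⟨G, hG⟩ := exists_poly s β
  have hval : ∀ k ∈ (range n).filter (fun k => k.Coprime n),
      kashaevConj β n k = aeval (root n ^ k) G := by
    intro k hk
    rw [Finset.mem_filter] at hk
    unfold kashaevConj
    rw [show (n - 1) / 2 = s by omega]
    have ht : IsPrimitiveRoot ((Units.mk0 (Complex.exp (2 * Real.pi * Complex.I * k / n))
        (Complex.exp_ne_zero _) : ℂˣ) : ℂ) n := by
      rw [Units.val_mk0, exp_eq_root_pow]
      exact (root_prim hpos).pow_of_coprime k hk.2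
    rw [jones_eq_aeval β hs' hG ht, Units.val_mk0, exp_eq_root_pow]
  have hinj : Set.InjOn (fun k => root n ^ k) ((range n).filter (fun k => k.Coprime n) : Set ℕ) := by
    intro a ha b hb hab
    rw [Finset.mem_coe, Finset.mem_filter, Finset.mem_range] at ha hb
    exact (root_prim hpos).pow_inj ha.1 hb.1 hab
  have h1 : ∑ k ∈ (range n).filter (fun k => k.Coprime n), |Real.log ‖kashaevConj β n k‖| ≤
      ∑ w ∈ primitiveRoots n ℂ, |Real.log ‖aeval w G‖| := by
    classical
    rw [Finset.sum_congr rfl (fun k hk => by rw [hval k hk])]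
    rw [← Finset.sum_image (f := fun w => |Real.log ‖aeval w G‖|) hinj]
    apply Finset.sum_le_sum_of_subset_of_nonneg
    · intro w hw
      obtain ⟨k, hk, rfl⟩ := Finset.mem_image.mp hw
      rw [Finset.mem_filter] at hk
      rw [mem_primitiveRoots hpos]
      exact (root_prim hpos).pow_of_coprime k hk.2
    · intro w _ _
      exact abs_nonneg _
  have h2 := sum_abs_log_le β hs' (by omega) hG
  have hlog1 : 1 ≤ Real.log n := by
    rw [Real.le_log_iff_exp_le (by exact_mod_cast hpos)]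
    have : (3 : ℝ) ≤ n := by exact_mod_cast h3
    linarith [Real.exp_one_lt_d9]
  have hk : (0 : ℝ) ≤ kst β := Nat.cast_nonneg _
  calc _ ≤ 2 * (kst β * (10 * n * (1 + Real.log n) ^ 3)) := h1.trans h2
    _ ≤ 2 * (kst β * (10 * n * (2 * Real.log n) ^ 3)) := by
        gcongr
        linarith
    _ = 160 * kst β * n * Real.log n ^ 3 := by ring
    _ ≤ _ := by
        gcongr
        linarith

end Pool.Agent.Work.MP_b30479_gt
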