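import Pool.Agent.Work.MP_b30479_gt.PrimBound
import Pool.Agent.Work.MP_b30479_gt.Descent

/-!
# Upper bound for `|J_N(β; w)|` at a primitive `N`-th root of unity `w`
-/

namespace Pool.Agent.Work.MP_b30479_gt

open Finset

lemma poch_ne_zero {m : ℕ} {w : ℂ} (hw : IsPrimitiveRoot w m) {a : ℕ} (ha : a < m) :
    poch w a ≠ 0 := by
  unfold poch
  rw [Finset.prod_ne_zero_iff]
  intro i hi
  rw [Finset.mem_range] at hi
  exact sub_ne_zero.mpr (Ne.symm (hw.pow_ne_one_of_pos_of_lt (by omega) (by omega)))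

lemma norm_poch_le {m : ℕ} (hm : 2 ≤ m) {w : ℂ} (hw : IsPrimitiveRoot w m) {a : ℕ}
    (ha : a < m) : ‖poch w a‖ ≤ Real.exp (ubd m w) := by
  have h := (abs_le.mp (abs_log_poch_le hm hw ha)).2
  rwa [Real.log_le_iff_le_exp (norm_pos_iff.mpr (poch_ne_zero hw ha))] at h

lemma le_norm_poch {m : ℕ} (hm : 2 ≤ m) {w : ℂ} (hw : IsPrimitiveRoot w m) {a : ℕ}
    (ha : a < m) : Real.exp (-ubd m w) ≤ ‖poch w a‖ := by
  have h := (abs_le.mp (abs_log_poch_le hm hw ha)).1
  rwa [Real.le_log_iff_exp_le (norm_pos_iff.mpr (poch_ne_zero hw ha))] at h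

lemma norm_prod_pow_sub_one (w : ℂ) (k : ℕ) :
    ‖∏ i ∈ range k, (w ^ (i + 1) - 1)‖ = ‖poch w k‖ := by
  unfold poch
  rw [norm_prod, norm_prod]
  exact Finset.prod_congr rfl fun i _ => norm_sub_rev _ _

/-- `∏_{x<k} (w^{j+1+x} - 1) · (w)_j = ± (w)_{j+k}` -/
lemma norm_prod_shift (w : ℂ) (j k : ℕ) :
    ‖∏ x ∈ range k, (w ^ (j + 1 + x) - 1)‖ * ‖poch w j‖ = ‖poch w (j + k)‖ := by
  unfold poch
  rw [← norm_mul, Finset.prod_range_add, mul_comm, norm_mul, norm_mul]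
  congr 1
  rw [norm_prod, norm_prod]
  apply Finset.prod_congr rfl
  intro x _
  rw [norm_sub_rev]
  congr 3
  ring

lemma norm_prod_reverse (w : ℂ) {n k : ℕ} (hk : k ≤ n) :
    ‖∏ i ∈ range k, (w ^ (n - i) - 1)‖ * ‖poch w (n - k)‖ = ‖poch w n‖ := by
  have h := norm_prod_shift w (n - k) k
  rw [Nat.sub_add_cancel hk] at h
  rw [← h]
  congr 2
  rw [← Finset.prod_range_reflect]
  apply Finset.prod_congr rfl
  intro i hi
  rw [Finset.mem_range] at hi
  congr 2
  omega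

lemma norm_gauss_le {m : ℕ} (hm : 2 ≤ m) {w : ℂ} (hw : IsPrimitiveRoot w m) {n k : ℕ}
    (hn : n < m) (hk : k ≤ n) : ‖gauss w n k‖ ≤ Real.exp (3 * ubd m w) := by
  have h := congrArg norm (gauss_mul_prod w (n := n) (k := k) hk)
  rw [norm_mul, norm_prod_pow_sub_one] at h
  have h2 := norm_prod_reverse w hk
  rw [← h] at h2
  have h3 := norm_poch_le hm hw hn
  have h4 := le_norm_poch hm hw (a := k) (by omega)
  have h5 := le_norm_poch hm hw (a := n - k) (by omega)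
  set E := Real.exp (ubd m w) with hE
  have hE0 : 0 < E := Real.exp_pos _
  have e1 : Real.exp (-ubd m w) = E⁻¹ := Real.exp_neg _
  rw [e1] at h4 h5
  have e3 : Real.exp (3 * ubd m w) = E * E * E := by
    rw [hE, ← Real.exp_add, ← Real.exp_add]; congr 1; ring
  rw [e3]
  have hg := norm_nonneg (gauss w n k)
  have h6 : ‖gauss w n k‖ * E⁻¹ * E⁻¹ ≤ E := by
    calc ‖gauss w n k‖ * E⁻¹ * E⁻¹ ≤ ‖gauss w n k‖ * ‖poch w k‖ * ‖poch w (n - k)‖ := by
          gcongr
      _ = ‖poch w n‖ := h2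
      _ ≤ E := h3
  have h7 : ‖gauss w n k‖ * E⁻¹ * E⁻¹ = ‖gauss w n k‖ / (E * E) := by
    field_simp
  rw [h7, div_le_iff₀ (by positivity)] at h6
  linarith

lemma norm_shift_le {m : ℕ} (hm : 2 ≤ m) {w : ℂ} (hw : IsPrimitiveRoot w m) {j k : ℕ}
    (hjk : j + k < m) : ‖∏ x ∈ range k, (w ^ (j + 1 + x) - 1)‖ ≤ Real.exp (2 * ubd m w) := by
  have h := norm_prod_shift w j k
  have h3 := norm_poch_le hm hw hjk
  have h4 := le_norm_poch hm hw (a := j) (by omega)
  set E := Real.exp (ubd m w) with hE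
  have hE0 : 0 < E := Real.exp_pos _
  have e1 : Real.exp (-ubd m w) = E⁻¹ := Real.exp_neg _
  rw [e1] at h4
  have e3 : Real.exp (2 * ubd m w) = E * E := by
    rw [hE, ← Real.exp_add]; congr 1; ring
  rw [e3]
  have hg := norm_nonneg (∏ x ∈ range k, (w ^ (j + 1 + x) - 1))
  have h6 : ‖∏ x ∈ range k, (w ^ (j + 1 + x) - 1)‖ * E⁻¹ ≤ E := by
    calc _ ≤ ‖∏ x ∈ range k, (w ^ (j + 1 + x) - 1)‖ * ‖poch w j‖ := by gcongr
      _ = ‖poch w (j + k)‖ := h
      _ ≤ E := h3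
  rw [← div_eq_mul_inv, div_le_iff₀ hE0] at h6
  exact h6

lemma norm_unit_zpow {m : ℕ} (hm : 0 < m) {t : ℂˣ} (ht : IsPrimitiveRoot (t : ℂ) m) (x : ℤ) :
    ‖((t ^ x : ℂˣ) : ℂ)‖ = 1 := by
  rw [Units.val_zpow_eq_zpow_val, norm_zpow, ht.norm'_eq_one hm.ne', one_zpow]

lemma norm_entry_le {s : ℕ} (hs : 1 ≤ s) {t : ℂˣ} (ht : IsPrimitiveRoot (t : ℂ) (2 * s + 1))
    (pos : Bool) {i j a b : ℕ} (hi : i ≤ 2 * s) (hj : j ≤ 2 * s) (ha : a ≤ 2 * s)
    (hb : b ≤ 2 * s) :
    ‖entry s t pos i j a b‖ ≤ Real.exp (5 * ubd (2 * s + 1) t) := by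
  have hm : 2 ≤ 2 * s + 1 := by omega
  have h0 : (0 : ℝ) ≤ Real.exp (5 * ubd (2 * s + 1) t) := (Real.exp_pos _).le
  have e5 : Real.exp (5 * ubd (2 * s + 1) t) =
      Real.exp (3 * ubd (2 * s + 1) t) * Real.exp (2 * ubd (2 * s + 1) t) := by
    rw [← Real.exp_add]; congr 1; ring
  unfold entry
  cases pos with
  | true =>
    simp only [if_true]
    split_ifs with h
    · unfold coeffPos
      rw [norm_mul, norm_mul, norm_unit_zpow (by omega) ht, one_mul, e5]
      apply mul_le_mul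
      · exact norm_gauss_le hm ht (by omega) (by omega)
      · exact norm_shift_le hm ht (by omega)
      · exact norm_nonneg _
      · exact (Real.exp_pos _).le
    · simpa using h0
  | false =>
    simp only [Bool.false_eq_true, if_false]
    split_ifs with h
    · unfold coeffNeg
      rw [norm_mul, norm_mul, norm_mul, norm_unit_zpow (by omega) ht, mul_one, norm_pow, norm_neg,
        norm_one, one_pow, one_mul, e5]
      apply mul_le_mul
      · exact norm_gauss_le hm ht (by omega) (by omega)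
      · exact norm_shift_le hm ht (by omega)
      · exact norm_nonneg _
      · exact (Real.exp_pos _).le
    · simpa using h0

lemma norm_crossing_le {r s : ℕ} (hs : 1 ≤ s) {t : ℂˣ}
    (ht : IsPrimitiveRoot (t : ℂ) (2 * s + 1)) (g : Fin r × Bool)
    (y x : Fin (r + 1) → Fin (2 * s + 1)) :
    ‖crossing s t g y x‖ ≤ Real.exp (5 * ubd (2 * s + 1) t) := by
  unfold crossing
  split_ifs
  · have h := fun (z : Fin (2 * s + 1)) => Nat.lt_succ_iff.mp z.isLt
    exact norm_entry_le hs ht _ (h _) (h _) (h _) (h _)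
  · simpa using (Real.exp_pos (5 * ubd (2 * s + 1) t)).le

lemma norm_braidMatrix_le {r s : ℕ} (hs : 1 ≤ s) {t : ℂˣ}
    (ht : IsPrimitiveRoot (t : ℂ) (2 * s + 1)) (β : List (Fin r × Bool))
    (y x : Fin (r + 1) → Fin (2 * s + 1)) :
    ‖braidMatrix s t β y x‖ ≤
      (((2 * s + 1 : ℕ) : ℝ) ^ (r + 1) * Real.exp (5 * ubd (2 * s + 1) t)) ^ β.length := by
  induction β generalizing y x with
  | nil =>
    unfold braidMatrix
    simp only [List.map_nil, List.prod_nil, List.length_nil, pow_zero, Matrix.one_apply]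
    split_ifs <;> simp
  | cons g β ih =>
    have e1 : braidMatrix s t (g :: β) = crossing s t g * braidMatrix s t β := by
      unfold braidMatrix; simp
    rw [e1, Matrix.mul_apply, List.length_cons, pow_succ']
    refine (norm_sum_le _ _).trans ?_
    refine (Finset.sum_le_sum (fun z _ => ?_) :
      _ ≤ ∑ _z : Fin (r + 1) → Fin (2 * s + 1), Real.exp (5 * ubd (2 * s + 1) t) *
        (((2 * s + 1 : ℕ) : ℝ) ^ (r + 1) * Real.exp (5 * ubd (2 * s + 1) t)) ^ β.length).trans ?_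
    · rw [norm_mul]
      exact mul_le_mul (norm_crossing_le hs ht g _ _) (ih _ _) (norm_nonneg _)
        (Real.exp_pos _).le
    · rw [Finset.sum_const, Finset.card_univ, Fintype.card_fun, Fintype.card_fin, Fintype.card_fin,
        nsmul_eq_mul]
      push_cast
      apply le_of_eq
      ring

theorem norm_colouredJones_le {r s : ℕ} (hs : 1 ≤ s) {t : ℂˣ}
    (ht : IsPrimitiveRoot (t : ℂ) (2 * s + 1)) (β : List (Fin r × Bool)) :
    ‖colouredJones s β t‖ ≤
      Real.exp (((β.length + 1) * (r + 1) + 5 * β.length : ℕ) * ubd (2 * s + 1) t) := by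
  have hpos : (0 : ℝ) < ((2 * s + 1 : ℕ) : ℝ) := by positivity
  have hN : ((2 * s + 1 : ℕ) : ℝ) ≤ Real.exp (ubd (2 * s + 1) t) := by
    have h := log_le_ubd (2 * s + 1) (t : ℂ)
    rwa [Real.log_le_iff_le_exp hpos] at h
  set E := Real.exp (ubd (2 * s + 1) t) with hE
  have hE0 : 0 < E := Real.exp_pos _
  have h5 : Real.exp (5 * ubd (2 * s + 1) t) = E ^ 5 := by
    rw [hE, ← Real.exp_nat_mul]
    norm_num
  have hfin : Real.exp (((β.length + 1) * (r + 1) + 5 * β.length : ℕ) * ubd (2 * s + 1) t) =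
      E ^ ((β.length + 1) * (r + 1) + 5 * β.length) := by
    rw [hE, ← Real.exp_nat_mul]
  rw [hfin]
  unfold colouredJones
  rw [norm_mul, norm_unit_zpow (by omega) ht, one_mul]
  refine (norm_sum_le _ _).trans ?_
  have hterm : ∀ x : Fin (r + 1) → Fin (2 * s + 1),
      ‖if x 0 = 0 then
        (∏ l : Fin r, ((t ^ ((s : ℤ) - ((x l.succ : ℕ) : ℤ)) : ℂˣ) : ℂ)) * braidMatrix s t β x x
      else 0‖ ≤ (((2 * s + 1 : ℕ) : ℝ) ^ (r + 1) * E ^ 5) ^ β.length := by
    intro x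
    have hb := norm_braidMatrix_le hs ht β x x
    rw [h5] at hb
    split_ifs
    · rw [norm_mul, norm_prod]
      have : ∏ l : Fin r, ‖((t ^ ((s : ℤ) - ((x l.succ : ℕ) : ℤ)) : ℂˣ) : ℂ)‖ = 1 := by
        apply Finset.prod_eq_one
        intro l _
        exact norm_unit_zpow (by omega) ht _
      rw [this, one_mul]
      exact hb
    · rw [norm_zero]
      positivity
  refine (Finset.sum_le_sum fun x _ => hterm x).trans ?_
  rw [Finset.sum_const, Finset.card_univ, Fintype.card_fun, Fintype.card_fin, Fintype.card_fin,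
    nsmul_eq_mul]
  have hD : ((2 * s + 1 : ℕ) : ℝ) ^ (r + 1) ≤ E ^ (r + 1) := pow_le_pow_left₀ hpos.le hN _
  calc (((2 * s + 1) ^ (r + 1) : ℕ) : ℝ) * (((2 * s + 1 : ℕ) : ℝ) ^ (r + 1) * E ^ 5) ^ β.length
      = ((2 * s + 1 : ℕ) : ℝ) ^ (r + 1) *
        (((2 * s + 1 : ℕ) : ℝ) ^ (r + 1) * E ^ 5) ^ β.length := by push_cast; ring
    _ ≤ E ^ (r + 1) * (E ^ (r + 1) * E ^ 5) ^ β.length := by gcongr
    _ = E ^ ((β.length + 1) * (r + 1) + 5 * β.length) := by
        rw [mul_pow, ← pow_mul, ← pow_mul, ← pow_add, ← pow_add]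
        congr 1
        ring

end Pool.Agent.Work.MP_b30479_gt
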