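import Pool.Agent.Work.MP_b30479_gt.JonesBound

/-!
# Products `∏ (1 - u^a)` for `u` near a primitive `m`-th root of unity
-/

namespace Pool.Agent.Work.MP_b30479_gt

open Finset

/-- `u` is at distance between `ρ` and `3 ρ` of the primitive `m`-th root of unity `η`, where
`ρ = 1 / (9 W³)` -/
structure Near (m W : ℕ) (η u : ℂ) : Prop where
  hm : 2 ≤ m
  hW : m ≤ W
  hη : IsPrimitiveRoot η m
  lo : 1 / (9 * (W : ℝ) ^ 3) ≤ ‖u - η‖
  hi : ‖u - η‖ ≤ 3 * (1 / (9 * (W : ℝ) ^ 3))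

namespace Near
variable {m W : ℕ} {η u : ℂ}

lemma W_two (h : Near m W η u) : (2 : ℝ) ≤ W := by
  have := h.hm
  have := h.hW
  exact_mod_cast (by omega : 2 ≤ W)

lemma norm_u_le (h : Near m W η u) : ‖u‖ ≤ 1 + 3 * (1 / (9 * (W : ℝ) ^ 3)) := by
  have h1 : ‖u‖ ≤ ‖η‖ + ‖u - η‖ := by
    have := norm_add_le η (u - η)
    rwa [add_sub_cancel] at this
  have h2 : ‖η‖ = 1 := h.hη.norm'_eq_one (by have := h.hm; omega)
  have := h.hi
  linarith

lemma pow_norm_le (h : Near m W η u) {a : ℕ} (ha : a ≤ W) : ‖u‖ ^ a ≤ 3 := by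
  have hW := h.W_two
  have h1 := h.norm_u_le
  have hpos : (0 : ℝ) < 1 / (9 * (W : ℝ) ^ 3) := by positivity
  have h2 : (1 : ℝ) + 3 * (1 / (9 * (W : ℝ) ^ 3)) ≤ Real.exp (3 * (1 / (9 * (W : ℝ) ^ 3))) := by
    have := Real.add_one_le_exp (3 * (1 / (9 * (W : ℝ) ^ 3)))
    linarith
  have h3 : ‖u‖ ^ a ≤ Real.exp (3 * (1 / (9 * (W : ℝ) ^ 3))) ^ a :=
    pow_le_pow_left₀ (norm_nonneg _) (h1.trans h2) a
  rw [← Real.exp_nat_mul] at h3
  have h4 : (a : ℝ) * (3 * (1 / (9 * (W : ℝ) ^ 3))) ≤ 1 := by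
    have ha' : (a : ℝ) ≤ W := by exact_mod_cast ha
    have h5 : (a : ℝ) * (3 * (1 / (9 * (W : ℝ) ^ 3))) ≤ W * (3 * (1 / (9 * (W : ℝ) ^ 3))) :=
      mul_le_mul_of_nonneg_right ha' (by positivity)
    have h6 : (W : ℝ) * (3 * (1 / (9 * (W : ℝ) ^ 3))) = 1 / (3 * (W : ℝ) ^ 2) := by
      field_simp
      norm_num
    have h7 : 1 / (3 * (W : ℝ) ^ 2) ≤ 1 := by
      rw [div_le_one (by positivity)]
      nlinarith
    linarith
  have h5 : Real.exp ((a : ℝ) * (3 * (1 / (9 * (W : ℝ) ^ 3)))) ≤ Real.exp 1 :=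
    Real.exp_le_exp.mpr h4
  have h6 := Real.exp_one_lt_d9
  linarith

lemma pow_sub_le (h : Near m W η u) {a : ℕ} (ha : a ≤ W) :
    ‖u ^ a - η ^ a‖ ≤ a / (W : ℝ) ^ 3 := by
  have hW := h.W_two
  have hη : ‖η‖ = 1 := h.hη.norm'_eq_one (by have := h.hm; omega)
  have h1 : u ^ a - η ^ a = (∑ i ∈ range a, u ^ i * η ^ (a - 1 - i)) * (u - η) :=
    (Commute.all u η).geom_sum₂_mul a |>.symm
  rw [h1, norm_mul]
  have h2 : ‖∑ i ∈ range a, u ^ i * η ^ (a - 1 - i)‖ ≤ 3 * a := by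
    refine (norm_sum_le _ _).trans ?_
    refine (Finset.sum_le_sum (fun i hi => ?_) : _ ≤ ∑ _i ∈ range a, (3 : ℝ)).trans ?_
    · rw [norm_mul, norm_pow, norm_pow, hη, one_pow, mul_one]
      rw [Finset.mem_range] at hi
      exact h.pow_norm_le (by omega)
    · rw [Finset.sum_const, Finset.card_range, nsmul_eq_mul]
      linarith
  have h3 := mul_le_mul h2 h.hi (norm_nonneg _) (by positivity)
  refine h3.trans (le_of_eq ?_)
  field_simp
  ring

/-- lower bound for `|1 - η^a|`, `m ∤ a` -/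
lemma _root_.Pool.Agent.Work.MP_b30479_gt.one_sub_pow_ge {m : ℕ} (hm : 2 ≤ m) {η : ℂ}
    (hη : IsPrimitiveRoot η m) {a : ℕ} (ha : ¬ m ∣ a) : 2 / (m : ℝ) ≤ ‖1 - η ^ a‖ := by
  have : NeZero m := ⟨by omega⟩
  obtain ⟨j, hj, hjc, hjw⟩ := (root_prim (m := m) (by omega)).isPrimitiveRoot_iff.mp hη
  have h1 : η ^ a = root m ^ ((j * a) % m) := by
    rw [← hjw, ← pow_mul]
    exact (pow_mod_orderOf (root m) (j * a)).symm.trans (by
      rw [(root_prim (m := m) (by omega)).eq_orderOf.symm])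
  set c := (j * a) % m with hc
  have hc0 : 0 < c := by
    rcases Nat.eq_zero_or_pos c with h | h
    · exfalso
      apply ha
      have h2 : m ∣ j * a := Nat.dvd_of_mod_eq_zero h
      exact (Nat.Coprime.dvd_of_dvd_mul_left (Nat.Coprime.symm hjc) h2)
    · exact h
  have hcm : c < m := Nat.mod_lt _ (by omega)
  have h2 := rd_root_pow_le hc0 hcm
  have hm' : (0 : ℝ) < m := by exact_mod_cast (by omega : 0 < m)
  have h3 : rd (root m ^ c) ≤ m / 2 := by
    refine h2.trans ?_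
    have h4 : (c : ℝ)⁻¹ ≤ 1 := inv_le_one_of_one_le₀ (by exact_mod_cast hc0)
    have h5 : ((m - c : ℕ) : ℝ)⁻¹ ≤ 1 :=
      inv_le_one_of_one_le₀ (by exact_mod_cast (by omega : 1 ≤ m - c))
    nlinarith
  rw [h1]
  have hpos : 0 < ‖1 - root m ^ c‖ := norm_pos_iff.mpr (sub_ne_zero.mpr (Ne.symm
    ((root_prim (m := m) (by omega)).pow_ne_one_of_pos_of_lt hc0.ne' hcm)))
  unfold rd at h3
  have h4 := inv_le_of_inv_le₀ hpos h3
  rw [inv_div] at h4
  exact h4

lemma one_sub_pow_ge' (h : Near m W η u) {a : ℕ} (haW : a ≤ W) (ha : ¬ m ∣ a) :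
    1 / (m : ℝ) ≤ ‖1 - u ^ a‖ := by
  have h1 := one_sub_pow_ge h.hm h.hη ha
  have h2 := h.pow_sub_le haW
  have hW := h.W_two
  have hm : (2 : ℝ) ≤ m := by exact_mod_cast h.hm
  have hmW : (m : ℝ) ≤ W := by exact_mod_cast h.hW
  have h3 : ‖1 - η ^ a‖ ≤ ‖1 - u ^ a‖ + ‖u ^ a - η ^ a‖ := by
    have := norm_add_le (1 - u ^ a) (u ^ a - η ^ a)
    rwa [show 1 - u ^ a + (u ^ a - η ^ a) = 1 - η ^ a by ring] at this
  have h4 : (a : ℝ) / (W : ℝ) ^ 3 ≤ 1 / m := by
    have ha' : (a : ℝ) ≤ W := by exact_mod_cast haW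
    rw [div_le_div_iff₀ (by positivity) (by linarith)]
    have : (W : ℝ) ^ 3 = W * (W * W) := by ring
    nlinarith [mul_le_mul ha' hmW (by linarith) (by linarith)]
  have h5 : 2 / (m : ℝ) = 1 / m + 1 / m := by ring
  linarith

lemma abs_log_sub_le (h : Near m W η u) {a : ℕ} (haW : a ≤ W) (ha : ¬ m ∣ a) :
    |Real.log ‖1 - u ^ a‖ - Real.log ‖1 - η ^ a‖| ≤ 2 / W := by
  have hW := h.W_two
  have hm : (2 : ℝ) ≤ m := by exact_mod_cast h.hm
  have hmW : (m : ℝ) ≤ W := by exact_mod_cast h.hW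
  have h1 := one_sub_pow_ge h.hm h.hη ha
  have h2 := h.one_sub_pow_ge' haW ha
  have h3 := h.pow_sub_le haW
  have hx : 0 < ‖1 - u ^ a‖ := lt_of_lt_of_le (by positivity) h2
  have hy : 0 < ‖1 - η ^ a‖ := lt_of_lt_of_le (by positivity) h1
  refine (abs_log_sub_log_le hx hy).trans ?_
  have h4 : |‖1 - u ^ a‖ - ‖1 - η ^ a‖| ≤ 1 / (W : ℝ) ^ 2 := by
    refine (abs_norm_sub_norm_le _ _).trans ?_
    rw [show (1 : ℂ) - u ^ a - (1 - η ^ a) = -(u ^ a - η ^ a) by ring, norm_neg]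
    refine h3.trans ?_
    have ha' : (a : ℝ) ≤ W := by exact_mod_cast haW
    rw [div_le_div_iff₀ (by positivity) (by positivity)]
    nlinarith [sq_nonneg ((W : ℝ))]
  have h5 : ‖1 - u ^ a‖⁻¹ ≤ m := by
    have := inv_anti₀ (by positivity) h2
    rwa [one_div, inv_inv] at this
  have h6 : ‖1 - η ^ a‖⁻¹ ≤ m := by
    have := inv_anti₀ (by positivity) h1
    rw [inv_div] at this
    linarith
  calc |‖1 - u ^ a‖ - ‖1 - η ^ a‖| * (‖1 - u ^ a‖⁻¹ + ‖1 - η ^ a‖⁻¹)
      ≤ 1 / (W : ℝ) ^ 2 * (m + m) := by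
        apply mul_le_mul h4 (by linarith) (by positivity) (by positivity)
    _ ≤ 1 / (W : ℝ) ^ 2 * (W + W) := by
        apply mul_le_mul_of_nonneg_left (by linarith) (by positivity)
    _ = 2 / W := by
        field_simp
        norm_num

lemma dvd_upper (h : Near m W η u) {a : ℕ} (haW : a ≤ W) (ha : m ∣ a) :
    ‖1 - u ^ a‖ ≤ 1 / (W : ℝ) ^ 2 := by
  have hW := h.W_two
  have h1 : η ^ a = 1 := h.hη.pow_eq_one_iff_dvd a |>.mpr ha
  have h2 := h.pow_sub_le haW
  rw [h1, norm_sub_rev] at h2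
  refine h2.trans ?_
  have ha' : (a : ℝ) ≤ W := by exact_mod_cast haW
  rw [div_le_div_iff₀ (by positivity) (by positivity)]
  nlinarith [sq_nonneg ((W : ℝ))]

lemma dvd_lower (h : Near m W η u) {a : ℕ} (ha0 : 0 < a) (haW : a ≤ W) (ha : m ∣ a) :
    (m : ℝ) / (18 * (W : ℝ) ^ 3) ≤ ‖1 - u ^ a‖ := by
  have hW := h.W_two
  have hη : ‖η‖ = 1 := h.hη.norm'_eq_one (by have := h.hm; omega)
  have h1 : η ^ a = 1 := h.hη.pow_eq_one_iff_dvd a |>.mpr ha
  have h2 : u ^ a - η ^ a = (∑ i ∈ range a, u ^ i * η ^ (a - 1 - i)) * (u - η) :=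
    (Commute.all u η).geom_sum₂_mul a |>.symm
  have h3 : (a : ℝ) / 2 ≤ ‖∑ i ∈ range a, u ^ i * η ^ (a - 1 - i)‖ := by
    have h4 : ∑ i ∈ range a, η ^ i * η ^ (a - 1 - i) = a * η ^ (a - 1) := by
      rw [Finset.sum_congr rfl (g := fun _ => η ^ (a - 1))]
      · rw [Finset.sum_const, Finset.card_range, nsmul_eq_mul]
      · intro i hi
        rw [Finset.mem_range] at hi
        rw [← pow_add]
        congr 1
        omega
    have h5 : ‖∑ i ∈ range a, η ^ i * η ^ (a - 1 - i)‖ = a := by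
      rw [h4, norm_mul, norm_pow, hη, one_pow, mul_one, Complex.norm_natCast]
    have h6 : ‖∑ i ∈ range a, (u ^ i - η ^ i) * η ^ (a - 1 - i)‖ ≤ a / 2 := by
      refine (norm_sum_le _ _).trans ?_
      refine (Finset.sum_le_sum (fun i hi => ?_) :
        _ ≤ ∑ _i ∈ range a, (1 / 2 : ℝ)).trans ?_
      · rw [norm_mul, norm_pow, hη, one_pow, mul_one]
        rw [Finset.mem_range] at hi
        refine (h.pow_sub_le (by omega)).trans ?_
        have hi' : (i : ℝ) ≤ W := by exact_mod_cast (by omega : i ≤ W)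
        rw [div_le_div_iff₀ (by positivity) (by norm_num)]
        have : (W : ℝ) ^ 3 = W * (W * W) := by ring
        nlinarith
      · rw [Finset.sum_const, Finset.card_range, nsmul_eq_mul]
        linarith
    have h7 : ∑ i ∈ range a, u ^ i * η ^ (a - 1 - i) =
        ∑ i ∈ range a, η ^ i * η ^ (a - 1 - i) +
        ∑ i ∈ range a, (u ^ i - η ^ i) * η ^ (a - 1 - i) := by
      rw [← Finset.sum_add_distrib]
      apply Finset.sum_congr rfl
      intro i _
      ring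
    rw [h7]
    have h8 := norm_sub_le_norm_add (∑ i ∈ range a, η ^ i * η ^ (a - 1 - i))
      (∑ i ∈ range a, (u ^ i - η ^ i) * η ^ (a - 1 - i))
    rw [h5] at h8
    linarith
  rw [norm_sub_rev, ← h1, h2, norm_mul]
  have h4 : (m : ℝ) ≤ a := by exact_mod_cast Nat.le_of_dvd ha0 ha
  calc (m : ℝ) / (18 * (W : ℝ) ^ 3) = (m : ℝ) / 2 * (1 / (9 * (W : ℝ) ^ 3)) := by
        field_simp
        ring
    _ ≤ ‖∑ i ∈ range a, u ^ i * η ^ (a - 1 - i)‖ * ‖u - η‖ := by
        apply mul_le_mul (by linarith) h.lo (by positivity) (norm_nonneg _)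

lemma one_sub_pow_ne (h : Near m W η u) {a : ℕ} (ha0 : 0 < a) (haW : a ≤ W) :
    1 - u ^ a ≠ 0 := by
  have hW := h.W_two
  have hm : (2 : ℝ) ≤ m := by exact_mod_cast h.hm
  rw [← norm_pos_iff]
  by_cases ha : m ∣ a
  · exact lt_of_lt_of_le (by positivity) (h.dvd_lower ha0 haW ha)
  · exact lt_of_lt_of_le (by positivity) (h.one_sub_pow_ge' haW ha)

lemma poch_ne (h : Near m W η u) {c : ℕ} (hc : c ≤ W) : poch u c ≠ 0 := by
  unfold poch
  rw [Finset.prod_ne_zero_iff]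
  intro i hi
  rw [Finset.mem_range] at hi
  exact h.one_sub_pow_ne (by omega) (by omega)

/-- part of the logarithm coming from the exponents not divisible by `m` -/
noncomputable def LL (m : ℕ) (u : ℂ) (c : ℕ) : ℝ :=
  ∑ a ∈ (range c).filter (fun a => ¬ m ∣ a + 1), Real.log ‖1 - u ^ (a + 1)‖

/-- part of the logarithm coming from the exponents divisible by `m` -/
noncomputable def LM (m : ℕ) (u : ℂ) (c : ℕ) : ℝ :=
  ∑ a ∈ (range c).filter (fun a => m ∣ a + 1), Real.log ‖1 - u ^ (a + 1)‖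

lemma log_poch (h : Near m W η u) {c : ℕ} (hc : c ≤ W) :
    Real.log ‖poch u c‖ = LL m u c + LM m u c := by
  unfold poch LL LM
  rw [norm_prod, Real.log_prod, add_comm, Finset.sum_filter_add_sum_filter_not]
  intro i hi
  rw [Finset.mem_range] at hi
  exact norm_ne_zero_iff.mpr (h.one_sub_pow_ne (by omega) (by omega))

lemma LL_eta (hm : 2 ≤ m) (hη : IsPrimitiveRoot η m) (c : ℕ) :
    LL m η c = (c / m : ℕ) * Real.log m + Real.log ‖poch η (c % m)‖ := by
  have h1 : LL m η c = ∑ a ∈ range c, Real.log ‖1 - η ^ (a + 1)‖ := by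
    unfold LL
    rw [Finset.sum_filter]
    apply Finset.sum_congr rfl
    intro a _
    by_cases hdv : m ∣ a + 1
    · rw [if_neg (not_not.mpr hdv), (hη.pow_eq_one_iff_dvd (a + 1)).mpr hdv]
      simp
    · rw [if_pos hdv]
  have hper : ∀ n, Real.log ‖1 - η ^ (n + m + 1)‖ = Real.log ‖1 - η ^ (n + 1)‖ := by
    intro n
    rw [show n + m + 1 = n + 1 + m by ring, pow_add, hη.pow_eq_one, mul_one]
  have hper2 : ∀ q n, Real.log ‖1 - η ^ (q * m + n + 1)‖ = Real.log ‖1 - η ^ (n + 1)‖ := by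
    intro q n
    rw [show q * m + n + 1 = (n + 1) + m * q by ring, pow_add, pow_mul, hη.pow_eq_one, one_pow,
      mul_one]
  have h2 : ∑ a ∈ range m, Real.log ‖1 - η ^ (a + 1)‖ = Real.log m := by
    obtain ⟨n, hn⟩ : ∃ n, m = n + 1 := ⟨m - 1, by omega⟩
    rw [hn, Finset.sum_range_succ, ← hn, hη.pow_eq_one, sub_self, norm_zero, Real.log_zero,
      add_zero]
    have h3 : ∏ c ∈ range n, (1 - η ^ (c + 1)) = (n : ℂ) + 1 := by
      apply IsPrimitiveRoot.prod_one_sub_pow_eq_order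
      rw [← hn]
      exact hη
    rw [← Real.log_prod, ← norm_prod, h3]
    · congr 1
      rw [hn]
      have : ((n : ℂ) + 1) = ((n + 1 : ℕ) : ℂ) := by push_cast; ring
      rw [this, Complex.norm_natCast]
    · intro i hi
      rw [Finset.mem_range] at hi
      exact norm_ne_zero_iff.mpr (sub_ne_zero.mpr (Ne.symm
        (hη.pow_ne_one_of_pos_of_lt (by omega) (by omega))))
  have h3 : ∑ a ∈ range (c % m), Real.log ‖1 - η ^ (a + 1)‖ = Real.log ‖poch η (c % m)‖ := by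
    unfold poch
    rw [norm_prod, Real.log_prod]
    intro i hi
    rw [Finset.mem_range] at hi
    have : c % m < m := Nat.mod_lt _ (by omega)
    exact norm_ne_zero_iff.mpr (sub_ne_zero.mpr (Ne.symm
      (hη.pow_ne_one_of_pos_of_lt (by omega) (by omega))))
  rw [h1]
  conv_lhs => rw [← Nat.div_add_mod' c m]
  rw [Finset.sum_range_add, sum_range_mul_periodic (d := c / m) (k := m)
    (fun a => Real.log ‖1 - η ^ (a + 1)‖) hper, h2]
  congr 1
  rw [← h3]
  apply Finset.sum_congr rfl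
  intro n _
  exact hper2 _ _

lemma abs_LL_sub (h : Near m W η u) {c : ℕ} (hc : c ≤ W) : |LL m u c - LL m η c| ≤ 2 := by
  have hW := h.W_two
  unfold LL
  rw [← Finset.sum_sub_distrib]
  refine (Finset.abs_sum_le_sum_abs _ _).trans ?_
  refine (Finset.sum_le_sum (fun a ha => ?_) :
    _ ≤ ∑ _a ∈ (range c).filter (fun a => ¬ m ∣ a + 1), 2 / (W : ℝ)).trans ?_
  · rw [Finset.mem_filter, Finset.mem_range] at ha
    exact h.abs_log_sub_le (by omega) ha.2
  · rw [Finset.sum_const, nsmul_eq_mul]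
    have h1 : (((range c).filter (fun a => ¬ m ∣ a + 1)).card : ℝ) ≤ W := by
      have := (Finset.card_filter_le (range c) (fun a => ¬ m ∣ a + 1)).trans
        (le_of_eq (Finset.card_range c))
      exact_mod_cast this.trans hc
    calc (((range c).filter (fun a => ¬ m ∣ a + 1)).card : ℝ) * (2 / W) ≤ W * (2 / W) :=
          mul_le_mul_of_nonneg_right h1 (by positivity)
      _ = 2 := by field_simp

lemma LL_upper (h : Near m W η u) {c : ℕ} (hc : c ≤ W) :
    LL m u c ≤ (W / m : ℕ) * Real.log m + ubd m η + 2 := by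
  have h1 := (abs_le.mp (h.abs_LL_sub hc)).2
  rw [LL_eta h.hm h.hη] at h1
  have h2 := (abs_le.mp (abs_log_poch_le h.hm h.hη (a := c % m)
    (Nat.mod_lt _ (by have := h.hm; omega)))).2
  have h3 : ((c / m : ℕ) : ℝ) * Real.log m ≤ (W / m : ℕ) * Real.log m := by
    apply mul_le_mul_of_nonneg_right _ (Real.log_natCast_nonneg m)
    exact_mod_cast Nat.div_le_div_right hc
  linarith

lemma LL_lower (h : Near m W η u) {c : ℕ} (hc : c ≤ W) : -(ubd m η + 2) ≤ LL m u c := by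
  have h1 := (abs_le.mp (h.abs_LL_sub hc)).1
  rw [LL_eta h.hm h.hη] at h1
  have h2 := (abs_le.mp (abs_log_poch_le h.hm h.hη (a := c % m)
    (Nat.mod_lt _ (by have := h.hm; omega)))).1
  have h3 : 0 ≤ ((c / m : ℕ) : ℝ) * Real.log m :=
    mul_nonneg (Nat.cast_nonneg _) (Real.log_natCast_nonneg m)
  linarith

lemma card_mult (m c : ℕ) : ((range c).filter (fun a => m ∣ a + 1)).card = c / m :=
  Nat.card_multiples c m

lemma LM_upper (h : Near m W η u) {c : ℕ} (hc : c ≤ W) :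
    LM m u c ≤ (c / m : ℕ) * Real.log (1 / (W : ℝ) ^ 2) := by
  unfold LM
  rw [← card_mult, ← nsmul_eq_mul, ← Finset.sum_const]
  apply Finset.sum_le_sum
  intro a ha
  rw [Finset.mem_filter, Finset.mem_range] at ha
  apply Real.log_le_log
  · exact norm_pos_iff.mpr (h.one_sub_pow_ne (by omega) (by omega))
  · exact h.dvd_upper (by omega) ha.2

lemma LM_lower (h : Near m W η u) {c : ℕ} (hc : c ≤ W) :
    (c / m : ℕ) * Real.log ((m : ℝ) / (18 * (W : ℝ) ^ 3)) ≤ LM m u c := by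
  unfold LM
  rw [← card_mult, ← nsmul_eq_mul, ← Finset.sum_const]
  apply Finset.sum_le_sum
  intro a ha
  rw [Finset.mem_filter, Finset.mem_range] at ha
  have hW := h.W_two
  have hm : (2 : ℝ) ≤ m := by exact_mod_cast h.hm
  apply Real.log_le_log
  · positivity
  · exact h.dvd_lower (by omega) (by omega) ha.2

/-- the divisible parts of a Gaussian binomial -/
lemma LM_diff (h : Near m W η u) {i k : ℕ} (hi : i ≤ W) (hk : k ≤ i) :
    LM m u i - LM m u k - LM m u (i - k) ≤ (W / m : ℕ) * Real.log (18 * (W : ℝ) / m) := by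
  have hW := h.W_two
  have hm : (2 : ℝ) ≤ m := by exact_mod_cast h.hm
  have hmW : (m : ℝ) ≤ W := by exact_mod_cast h.hW
  have h1 := h.LM_upper hi
  have h2 := h.LM_lower (c := k) (by omega)
  have h3 := h.LM_lower (c := i - k) (by omega)
  have hadd : k / m + (i - k) / m ≤ i / m := by
    have : k / m + (i - k) / m ≤ (k + (i - k)) / m := Nat.div_add_div_le_add_div
    rwa [Nat.add_sub_cancel' hk] at this
  have hle : i / m ≤ W / m := Nat.div_le_div_right hi
  set n1 : ℕ := i / m with hn1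
  set n2 : ℕ := k / m + (i - k) / m with hn2
  have hneg : Real.log (1 / (W : ℝ) ^ 2) ≤ 0 := by
    apply Real.log_nonpos (by positivity)
    rw [div_le_one (by positivity)]
    nlinarith
  have h4 : (n1 : ℝ) * Real.log (1 / (W : ℝ) ^ 2) ≤ n2 * Real.log (1 / (W : ℝ) ^ 2) := by
    have : (n2 : ℝ) ≤ n1 := by exact_mod_cast hadd
    nlinarith
  have h5 : Real.log (1 / (W : ℝ) ^ 2) - Real.log ((m : ℝ) / (18 * (W : ℝ) ^ 3)) =
      Real.log (18 * (W : ℝ) / m) := by
    rw [← Real.log_div (by positivity) (by positivity)]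
    congr 1
    field_simp
  have h6 : 0 ≤ Real.log (18 * (W : ℝ) / m) := by
    apply Real.log_nonneg
    rw [le_div_iff₀ (by linarith)]
    linarith
  have h7 : ((n2 : ℕ) : ℝ) = ((k / m : ℕ) : ℝ) + (((i - k) / m : ℕ) : ℝ) := by
    rw [hn2]; push_cast; ring
  have h8 : (n2 : ℝ) * Real.log (18 * (W : ℝ) / m) ≤ (W / m : ℕ) * Real.log (18 * (W : ℝ) / m) := by
    apply mul_le_mul_of_nonneg_right _ h6
    exact_mod_cast hadd.trans hle
  calc LM m u i - LM m u k - LM m u (i - k)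
      ≤ n1 * Real.log (1 / (W : ℝ) ^ 2) -
        (k / m : ℕ) * Real.log ((m : ℝ) / (18 * (W : ℝ) ^ 3)) -
        ((i - k) / m : ℕ) * Real.log ((m : ℝ) / (18 * (W : ℝ) ^ 3)) := by linarith
    _ = n1 * Real.log (1 / (W : ℝ) ^ 2) - n2 * Real.log ((m : ℝ) / (18 * (W : ℝ) ^ 3)) := by
        rw [h7]; ring
    _ ≤ n2 * Real.log (1 / (W : ℝ) ^ 2) - n2 * Real.log ((m : ℝ) / (18 * (W : ℝ) ^ 3)) := by
        linarith
    _ = n2 * Real.log (18 * (W : ℝ) / m) := by rw [← h5]; ring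
    _ ≤ _ := h8

lemma LM_mono (h : Near m W η u) {j k : ℕ} (hjk : j + k ≤ W) : LM m u (j + k) ≤ LM m u j := by
  have hW := h.W_two
  unfold LM
  have hsub : (range j).filter (fun a => m ∣ a + 1) ⊆ (range (j + k)).filter (fun a => m ∣ a + 1) :=
    Finset.filter_subset_filter _ (Finset.range_subset_range.mpr (by omega))
  rw [← Finset.sum_sdiff hsub]
  have : ∑ a ∈ (range (j + k)).filter (fun a => m ∣ a + 1) \ (range j).filter (fun a => m ∣ a + 1),
      Real.log ‖1 - u ^ (a + 1)‖ ≤ 0 := by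
    apply Finset.sum_nonpos
    intro a ha
    rw [Finset.mem_sdiff, Finset.mem_filter, Finset.mem_range] at ha
    apply Real.log_nonpos (norm_nonneg _)
    refine (h.dvd_upper (by omega) ha.1.2).trans ?_
    rw [div_le_one (by positivity)]
    nlinarith
  linarith

lemma log_gauss_le (h : Near m W η u) {i k : ℕ} (hi : i ≤ W) (hk : k ≤ i) :
    ‖gauss u i k‖ ≤ Real.exp ((W / m : ℕ) * Real.log m + 3 * ubd m η + 6 +
      (W / m : ℕ) * Real.log (18 * (W : ℝ) / m)) := by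
  have h1 := congrArg norm (gauss_mul_prod u (n := i) (k := k) hk)
  rw [norm_mul, norm_prod_pow_sub_one] at h1
  have h2 := norm_prod_reverse u hk
  rw [← h1] at h2
  rcases eq_or_ne (gauss u i k) 0 with hg | hg
  · rw [hg, norm_zero]
    exact (Real.exp_pos _).le
  have hg' : 0 < ‖gauss u i k‖ := norm_pos_iff.mpr hg
  have hk' : 0 < ‖poch u k‖ := norm_pos_iff.mpr (h.poch_ne (by omega))
  have hik : 0 < ‖poch u (i - k)‖ := norm_pos_iff.mpr (h.poch_ne (by omega))
  have h3 := congrArg Real.log h2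
  rw [Real.log_mul (by positivity) (by positivity), Real.log_mul (by positivity) (by positivity),
    h.log_poch (c := k) (by omega), h.log_poch (c := i - k) (by omega), h.log_poch hi] at h3
  have h4 := h.LM_diff hi hk
  have h5 := h.LL_upper hi
  have h6 := h.LL_lower (c := k) (by omega)
  have h7 := h.LL_lower (c := i - k) (by omega)
  rw [← Real.log_le_iff_le_exp hg']
  linarith

lemma shift_le (h : Near m W η u) {j k : ℕ} (hjk : j + k ≤ W) :
    ‖∏ x ∈ range k, (u ^ (j + 1 + x) - 1)‖ ≤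
      Real.exp ((W / m : ℕ) * Real.log m + 2 * ubd m η + 4) := by
  have h1 := norm_prod_shift u j k
  have hj : 0 < ‖poch u j‖ := norm_pos_iff.mpr (h.poch_ne (by omega))
  have hjk' : 0 < ‖poch u (j + k)‖ := norm_pos_iff.mpr (h.poch_ne hjk)
  have hP : 0 < ‖∏ x ∈ range k, (u ^ (j + 1 + x) - 1)‖ := by
    rcases (norm_nonneg (∏ x ∈ range k, (u ^ (j + 1 + x) - 1))).lt_or_eq with hh | hh
    · exact hh
    · rw [← hh, zero_mul] at h1
      rw [← h1] at hjk'
      exact absurd hjk' (lt_irrefl 0)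
  have h3 := congrArg Real.log h1
  rw [Real.log_mul (by positivity) (by positivity), h.log_poch (c := j) (by omega),
    h.log_poch hjk] at h3
  have h4 := h.LM_mono hjk
  have h5 := h.LL_upper hjk
  have h6 := h.LL_lower (c := j) (by omega)
  rw [← Real.log_le_iff_le_exp hP]
  linarith

end Near

end Pool.Agent.Work.MP_b30479_gt
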