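import Pool.Agent.Work.MP_b30479_gt.VermaEq
import Pool.Agent.Work.MP_b30479_gt.Divis

/-!
# Integral polynomials representing the state sums
-/

namespace Pool.Agent.Work.MP_b30479_gt

open Finset Polynomial

section map
variable {A B : Type*} [CommRing A] [CommRing B] (f : A →+* B)

lemma map_zpow_unit (w : Aˣ) (x : ℤ) :
    f ((w ^ x : Aˣ) : A) = (((Units.map (f : A →* B) w) ^ x : Bˣ) : B) := by
  rw [← map_zpow]
  rfl

lemma vPos_map (w : Aˣ) (i j k : ℕ) : f (vPos w i j k) = vPos (Units.map (f : A →* B) w) i j k := by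
  unfold vPos
  rw [map_mul, map_mul, map_prod, map_zpow_unit, gauss_map, map_pow]
  simp only [map_sub, map_one, map_zpow_unit]
  rfl

lemma vNeg_map (w : Aˣ) (i j k : ℕ) : f (vNeg w i j k) = vNeg (Units.map (f : A →* B) w) i j k := by
  unfold vNeg
  rw [map_mul, map_mul, map_mul, map_prod, map_zpow_unit, gauss_map, map_pow, map_pow, map_neg,
    map_one]
  simp only [map_sub, map_one, map_zpow_unit]
  rfl

lemma vCoef_map {r : ℕ} (w : Aˣ) (g : Fin r × Bool) (x : Fin (r + 1) → ℕ) (k : ℕ) :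
    f (vCoef w g x k) = vCoef (Units.map (f : A →* B) w) g x k := by
  unfold vCoef
  split_ifs
  · exact vPos_map f w _ _ _
  · exact vNeg_map f w _ _ _

lemma vImg_map {r : ℕ} (w : Aˣ) (g : Fin r × Bool) (x y : Fin (r + 1) → ℕ) :
    f (vImg w g x y) = vImg (Units.map (f : A →* B) w) g x y := by
  unfold vImg
  rw [Finsupp.finsetSum_apply, Finsupp.finsetSum_apply, map_sum]
  apply Finset.sum_congr rfl
  intro k _
  rw [Finsupp.single_apply, Finsupp.single_apply]
  split_ifs
  · exact vCoef_map f w g x k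
  · exact map_zero f

lemma vBraid_map {r : ℕ} (w : Aˣ) (β : List (Fin r × Bool)) (x y : Fin (r + 1) → ℕ) :
    f (vBraid w β x y) = vBraid (Units.map (f : A →* B) w) β x y := by
  induction β generalizing y with
  | nil =>
    show f ((Finsupp.single x (1 : A)) y) = (Finsupp.single x (1 : B)) y
    rw [Finsupp.single_apply, Finsupp.single_apply]
    split_ifs <;> simp
  | cons g β ih =>
    show f (((vBraid w β x).sum fun z c => c • vImg w g z) y) =
      ((vBraid (Units.map (f : A →* B) w) β x).sum fun z c =>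
        c • vImg (Units.map (f : A →* B) w) g z) y
    rw [Finsupp.sum_apply, Finsupp.sum_apply,
      Finsupp.sum_of_support_subset (s := (vBraid w β x).support) (vBraid (Units.map (f : A →* B) w) β x),
      Finsupp.sum, map_sum]
    · apply Finset.sum_congr rfl
      intro z _
      show f (vBraid w β x z • vImg w g z y) =
        vBraid (Units.map (f : A →* B) w) β x z • vImg (Units.map (f : A →* B) w) g z y
      rw [smul_eq_mul, smul_eq_mul, map_mul, ih, vImg_map]
    · intro z hz
      rw [Finsupp.mem_support_iff] at hz ⊢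
      intro h0
      apply hz
      rw [← ih z, h0, map_zero]
    · intro z _
      simp

lemma vSum_map {r : ℕ} (w : Aˣ) (β : List (Fin r × Bool)) (D : ℕ) :
    f (vSum w β D) = vSum (Units.map (f : A →* B) w) β D := by
  unfold vSum
  rw [map_sum]
  apply Finset.sum_congr rfl
  intro x _
  rw [map_mul, map_prod, vBraid_map]
  simp only [map_zpow_unit]

end map

theorem exists_vpoly {r : ℕ} (β : List (Fin r × Bool)) (D : ℕ) :
    ∃ (E : ℕ) (F : ℤ[X]), ∀ (R : Type) [CommRing R] (w : Rˣ),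
      (w : R) ^ E * vSum w β D = eval₂ (Int.castRingHom R) (w : R) F := by
  let T0 : (LaurentPolynomial ℤ)ˣ := (LaurentPolynomial.isUnit_T (R := ℤ) 1).unit
  obtain ⟨E, F, hF⟩ := LaurentPolynomial.exists_T_pow (vSum T0 β D)
  refine ⟨E, F, ?_⟩
  intro R _ w
  let φ : LaurentPolynomial ℤ →+* R := LaurentPolynomial.eval₂ (Int.castRingHom R) w
  have hφ : Units.map (φ : LaurentPolynomial ℤ →* R) T0 = w := by
    apply Units.ext
    show φ (LaurentPolynomial.T 1) = w
    have := LaurentPolynomial.eval₂_T_n (Int.castRingHom R) w 1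
    rw [pow_one] at this
    exact this
  have h1 := congrArg φ hF
  rw [map_mul, vSum_map, hφ] at h1
  have h2 : φ (LaurentPolynomial.T (E : ℤ)) = (w : R) ^ E :=
    LaurentPolynomial.eval₂_T_n (Int.castRingHom R) w E
  have h3 : φ (toLaurent F) = eval₂ (Int.castRingHom R) (w : R) F :=
    LaurentPolynomial.eval₂_toLaurent (Int.castRingHom R) w F
  rw [h2, h3] at h1
  rw [h1, mul_comm]

/-- the exponent -/
noncomputable def vE {r : ℕ} (β : List (Fin r × Bool)) (D : ℕ) : ℕ :=
  Classical.choose (exists_vpoly β D)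

/-- the polynomial -/
noncomputable def vF {r : ℕ} (β : List (Fin r × Bool)) (D : ℕ) : ℤ[X] :=
  Classical.choose (Classical.choose_spec (exists_vpoly β D))

lemma vF_spec {r : ℕ} (β : List (Fin r × Bool)) (D : ℕ) (R : Type) [CommRing R] (w : Rˣ) :
    (w : R) ^ vE β D * vSum w β D = eval₂ (Int.castRingHom R) (w : R) (vF β D) :=
  Classical.choose_spec (Classical.choose_spec (exists_vpoly β D)) R w

theorem vF_congr {r : ℕ} {β : List (Fin r × Bool)} (hβ : IsKnot β) {m i D D' : ℕ} (hm : 0 < m)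
    (hD : m * i ≤ D) (hDD : D ≤ D') :
    ((X : ℤ[X]) ^ m - 1) ^ i ∣ vF β D' * X ^ vE β D - vF β D * X ^ vE β D' := by
  set P : ℤ[X] := (X ^ m - 1) ^ i with hP
  have hroot : ((AdjoinRoot.root P) ^ m - 1) ^ i = 0 := by
    have h := AdjoinRoot.eval₂_root P
    rw [hP] at h
    simpa [eval₂_pow, eval₂_sub] using h
  have hu : IsUnit (AdjoinRoot.root P) := by
    have h1 : IsNilpotent ((AdjoinRoot.root P) ^ m - 1) := ⟨i, hroot⟩
    have h2 : IsUnit ((AdjoinRoot.root P) ^ m) := by
      have := h1.isUnit_add_one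
      rwa [sub_add_cancel] at this
    exact (isUnit_pow_iff hm.ne').mp h2
  let w : (AdjoinRoot P)ˣ := hu.unit
  have hwv : (w : AdjoinRoot P) = AdjoinRoot.root P := rfl
  have hst : vSum w β D' = vSum w β D := vSum_stable hm (by
    rw [Units.val_pow_eq_pow_val, hwv]; exact hroot) hβ hD hDD
  have h1 := vF_spec β D (AdjoinRoot P) w
  have h2 := vF_spec β D' (AdjoinRoot P) w
  rw [hst] at h2
  have hmk : ∀ G : ℤ[X], eval₂ (Int.castRingHom (AdjoinRoot P)) (w : AdjoinRoot P) G =
      AdjoinRoot.mk P G := by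
    intro G
    rw [hwv, show Int.castRingHom (AdjoinRoot P) = algebraMap ℤ (AdjoinRoot P) from
      RingHom.ext_int _ _, ← aeval_def, AdjoinRoot.aeval_eq]
  rw [hmk] at h1 h2
  rw [← AdjoinRoot.mk_eq_mk, map_mul, map_mul, map_pow, map_pow, AdjoinRoot.mk_X, ← h1, ← h2, hwv]
  ring

lemma colouredJones_zero_iff {r s n : ℕ} (β : List (Fin r × Bool)) (hn : 2 * s + 1 = n)
    {t : ℂˣ} (ht : IsPrimitiveRoot (t : ℂ) n) : colouredJones s β t = 0 ↔ kashaev β n = 0 := by
  obtain ⟨ζ, hζ, hkash⟩ := kashaev_eq β hn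
  obtain ⟨G, hG⟩ := exists_poly s β
  rw [hkash, jones_eq_aeval β hn hG ht, jones_eq_aeval β hn hG hζ]
  have hpos : 0 < n := by omega
  constructor
  · intro h
    by_contra hne
    exact aeval_ne_zero hpos hζ hne t ((mem_primitiveRoots hpos).mpr ht) h
  · intro h
    by_contra hne
    exact aeval_ne_zero hpos ht hne ζ ((mem_primitiveRoots hpos).mpr hζ) h

theorem vF_zero_iff {r : ℕ} {β : List (Fin r × Bool)} (hβ : IsKnot β) {n D : ℕ} (hn : Odd n)
    (hD : n ≤ D) : cyclotomic n ℤ ∣ vF β D ↔ kashaev β n = 0 := by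
  obtain ⟨s, hs⟩ := hn
  have hpos : 0 < n := by omega
  have hζ := root_prim hpos
  let w : ℂˣ := (hζ.isUnit hpos.ne').unit
  have hw : IsPrimitiveRoot (w : ℂ) n := hζ
  have hw2 : IsPrimitiveRoot (((w ^ 2 : ℂˣ)) : ℂ) n := by
    rw [Units.val_pow_eq_pow_val]
    exact hw.pow_of_coprime 2 (by
      rw [Nat.coprime_two_left]
      exact ⟨s, hs⟩)
  have h1 := vF_spec β D ℂ w
  rw [vSum_eq (s := s) (by rw [← hs]; exact hw) hβ (by omega)] at h1
  rw [← colouredJones_zero_iff β hs.symm hw2]
  have h2 : aeval (w : ℂ) (vF β D) = 0 ↔ colouredJones s β (w ^ 2) = 0 := by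
    rw [aeval_def, show algebraMap ℤ ℂ = Int.castRingHom ℂ from RingHom.ext_int _ _, ← h1,
      mul_eq_zero]
    constructor
    · rintro (h | h)
      · exact absurd h (pow_ne_zero _ w.ne_zero)
      · exact h
    · intro h
      exact Or.inr h
  rw [← h2]
  constructor
  · rintro ⟨Q, hQ⟩
    have h3 : aeval (w : ℂ) (cyclotomic n ℤ) = 0 := by
      rw [aeval_def, ← eval_map, map_cyclotomic]
      exact hw.isRoot_cyclotomic hpos
    rw [hQ, map_mul, h3, zero_mul]
  · intro h
    exact cyclotomic_dvd_of_root hpos hw h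

end Pool.Agent.Work.MP_b30479_gt
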