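import Pool.Agent.Work.MP_b30479_gt.Near
import Pool.Agent.Work.MP_b30479_gt.VermaPoly

/-!
# Upper bounds for the state sum near roots of unity
-/

namespace Pool.Agent.Work.MP_b30479_gt

open Finset

/-- `w` is at distance `1 / (9 W³)` of the primitive `m`-th root of unity `ζ` -/
structure NearW (m W : ℕ) (ζ : ℂ) (w : ℂˣ) : Prop where
  hm : 3 ≤ m
  odd : Odd m
  hW : m ≤ W
  hζ : IsPrimitiveRoot ζ m
  dist : ‖(w : ℂ) - ζ‖ = 1 / (9 * (W : ℝ) ^ 3)

namespace NearW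
variable {m W : ℕ} {ζ : ℂ} {w : ℂˣ}

lemma W_three (h : NearW m W ζ w) : (3 : ℝ) ≤ W := by
  have := h.hm
  have := h.hW
  exact_mod_cast (by omega : 3 ≤ W)

lemma rho_le (h : NearW m W ζ w) : 1 / (9 * (W : ℝ) ^ 3) ≤ 1 / 243 := by
  have hW := h.W_three
  rw [div_le_div_iff₀ (by positivity) (by norm_num)]
  have : (27 : ℝ) ≤ (W : ℝ) ^ 3 := by
    calc (27 : ℝ) = 3 ^ 3 := by norm_num
      _ ≤ (W : ℝ) ^ 3 := pow_le_pow_left₀ (by norm_num) hW 3
  linarith

lemma rho_pos (h : NearW m W ζ w) : 0 < 1 / (9 * (W : ℝ) ^ 3) := by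
  have hW := h.W_three
  positivity

lemma norm_zeta (h : NearW m W ζ w) : ‖ζ‖ = 1 := h.hζ.norm'_eq_one (by have := h.hm; omega)

lemma near (h : NearW m W ζ w) : Near m W (ζ ^ 2) ((w : ℂ) ^ 2) := by
  have hr := h.rho_le
  have hp := h.rho_pos
  have hz := h.norm_zeta
  have h1 : ‖(w : ℂ) ^ 2 - ζ ^ 2‖ = 1 / (9 * (W : ℝ) ^ 3) * ‖(w : ℂ) + ζ‖ := by
    rw [← h.dist, ← norm_mul]
    congr 1
    ring
  have h2 : ‖(w : ℂ) + ζ‖ ≤ 3 := by
    have h3 : (w : ℂ) + ζ = (w - ζ) + 2 * ζ := by ring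
    have h4 : ‖(w : ℂ) + ζ‖ ≤ ‖(w : ℂ) - ζ‖ + ‖2 * ζ‖ := by rw [h3]; exact norm_add_le _ _
    rw [norm_mul, hz, Complex.norm_ofNat, h.dist] at h4
    linarith
  have h3 : 1 ≤ ‖(w : ℂ) + ζ‖ := by
    have h3 : (2 : ℂ) * ζ = (w + ζ) - (w - ζ) := by ring
    have h4 : ‖2 * ζ‖ ≤ ‖(w : ℂ) + ζ‖ + ‖(w : ℂ) - ζ‖ := by rw [h3]; exact norm_sub_le _ _
    rw [norm_mul, hz, Complex.norm_ofNat, h.dist] at h4
    linarith
  refine ⟨by have := h.hm; omega, h.hW, ?_, ?_, ?_⟩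
  · apply h.hζ.pow_of_coprime
    rw [Nat.coprime_two_left]
    exact h.odd
  · rw [h1]
    nlinarith
  · rw [h1]
    nlinarith

lemma abs_log_norm_le (h : NearW m W ζ w) : |Real.log ‖(w : ℂ)‖| ≤ 2 * (1 / (9 * (W : ℝ) ^ 3)) := by
  set ρ : ℝ := 1 / (9 * (W : ℝ) ^ 3) with hρ
  have hr : ρ ≤ 1 / 243 := h.rho_le
  have hp : 0 < ρ := h.rho_pos
  have hz := h.norm_zeta
  have hd : ‖(w : ℂ) - ζ‖ = ρ := h.dist
  have h1 : ‖(w : ℂ)‖ ≤ 1 + ρ := by
    have := norm_add_le ((w : ℂ) - ζ) ζ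
    rw [sub_add_cancel, hd, hz] at this
    linarith
  have h2 : 1 - ρ ≤ ‖(w : ℂ)‖ := by
    have := norm_sub_le (w : ℂ) ((w : ℂ) - ζ)
    rw [sub_sub_cancel, hd, hz] at this
    linarith
  have hw : 0 < ‖(w : ℂ)‖ := by linarith
  rw [abs_le]
  constructor
  · have h3 := Real.log_le_sub_one_of_pos (inv_pos.mpr hw)
    rw [Real.log_inv] at h3
    have h4 : ‖(w : ℂ)‖⁻¹ ≤ 1 + 2 * ρ := by
      rw [inv_le_comm₀ hw (by linarith)]
      refine le_trans ?_ h2
      rw [inv_le_iff_one_le_mul₀ (by linarith)]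
      nlinarith
    linarith
  · have h3 := Real.log_le_sub_one_of_pos hw
    linarith

lemma zpow_le (h : NearW m W ζ w) {e : ℤ} (he : |e| ≤ 4 * (W : ℤ) ^ 3) :
    ‖((w ^ e : ℂˣ) : ℂ)‖ ≤ Real.exp 1 := by
  have hW := h.W_three
  have hw : 0 < ‖(w : ℂ)‖ := norm_pos_iff.mpr w.ne_zero
  rw [Units.val_zpow_eq_zpow_val, norm_zpow]
  rw [← Real.log_le_iff_le_exp (zpow_pos hw e), Real.log_zpow]
  have h1 := h.abs_log_norm_le
  have h2 : |(e : ℝ)| ≤ 4 * (W : ℝ) ^ 3 := by exact_mod_cast he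
  calc (e : ℝ) * Real.log ‖(w : ℂ)‖ ≤ |(e : ℝ) * Real.log ‖(w : ℂ)‖| := le_abs_self _
    _ = |(e : ℝ)| * |Real.log ‖(w : ℂ)‖| := abs_mul _ _
    _ ≤ (4 * (W : ℝ) ^ 3) * (2 * (1 / (9 * (W : ℝ) ^ 3))) :=
        mul_le_mul h2 h1 (abs_nonneg _) (by positivity)
    _ = 8 / 9 := by field_simp; ring
    _ ≤ 1 := by norm_num

lemma prod_le (h : NearW m W ζ w) {j k : ℕ} (hjk : j + k ≤ W) :
    ‖∏ a ∈ range k, (((w ^ (-(2 * ((j : ℤ) + 1 + a))) : ℂˣ) : ℂ) - 1)‖ ≤
      Real.exp ((W / m : ℕ) * Real.log m + 2 * ubd m (ζ ^ 2) + 5) := by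
  have hW3 := h.W_three
  have hWN : (3 : ℤ) ≤ W := by exact_mod_cast hW3
  have h1 : ∀ a ∈ range k, (((w ^ (-(2 * ((j : ℤ) + 1 + a))) : ℂˣ) : ℂ) - 1) =
      -((w ^ (-(2 * ((j : ℤ) + 1 + a))) : ℂˣ) : ℂ) * (((w : ℂ) ^ 2) ^ (j + 1 + a) - 1) := by
    intro a _
    have h2 : ((w ^ (-(2 * ((j : ℤ) + 1 + a))) : ℂˣ) : ℂ) * ((w : ℂ) ^ 2) ^ (j + 1 + a) = 1 := by
      rw [← Units.val_pow_eq_pow_val, ← Units.val_pow_eq_pow_val, ← Units.val_mul, ← pow_mul,
        ← zpow_natCast, ← zpow_add]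
      have : -(2 * ((j : ℤ) + 1 + a)) + ((2 * (j + 1 + a) : ℕ) : ℤ) = 0 := by
        push_cast
        ring
      rw [this, zpow_zero, Units.val_one]
    linear_combination h2
  rw [Finset.prod_congr rfl h1, Finset.prod_mul_distrib, norm_mul]
  have h2 := h.near.shift_le (j := j) (k := k) hjk
  have h3 : ‖∏ a ∈ range k, -((w ^ (-(2 * ((j : ℤ) + 1 + a))) : ℂˣ) : ℂ)‖ ≤ Real.exp 1 := by
    have h4 : ‖∏ a ∈ range k, -((w ^ (-(2 * ((j : ℤ) + 1 + a))) : ℂˣ) : ℂ)‖ =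
        ‖((w ^ (∑ a ∈ range k, -(2 * ((j : ℤ) + 1 + a))) : ℂˣ) : ℂ)‖ := by
      rw [Units.val_zpow_eq_zpow_val, norm_zpow, norm_prod]
      have hw : ‖(w : ℂ)‖ ≠ 0 := norm_ne_zero_iff.mpr w.ne_zero
      rw [Finset.prod_congr rfl (g := fun a => ‖(w : ℂ)‖ ^ (-(2 * ((j : ℤ) + 1 + (a : ℕ)))))
        (fun a _ => by rw [norm_neg, Units.val_zpow_eq_zpow_val, norm_zpow])]
      clear h1 h2 hjk
      induction k with
      | zero => simp
      | succ k ih => rw [Finset.prod_range_succ, Finset.sum_range_succ, zpow_add₀ hw, ih]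
    rw [h4]
    apply h.zpow_le
    rw [Finset.sum_neg_distrib, abs_neg]
    refine (Finset.abs_sum_le_sum_abs _ _).trans ?_
    refine (Finset.sum_le_sum (fun a ha => ?_) : _ ≤ ∑ _a ∈ range k, (2 * (W : ℤ))).trans ?_
    · rw [Finset.mem_range] at ha
      rw [abs_of_nonneg (by positivity)]
      omega
    · rw [Finset.sum_const, Finset.card_range, nsmul_eq_mul]
      have hk : (k : ℤ) ≤ W := by omega
      have hk0 : (0 : ℤ) ≤ k := by omega
      calc (k : ℤ) * (2 * W) ≤ W * (2 * W) := by nlinarith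
        _ ≤ 4 * (W : ℤ) ^ 3 := by nlinarith [sq_nonneg ((W : ℤ))]
  calc _ ≤ Real.exp 1 * Real.exp ((W / m : ℕ) * Real.log m + 2 * ubd m (ζ ^ 2) + 4) :=
        mul_le_mul h3 h2 (norm_nonneg _) (Real.exp_pos _).le
    _ = _ := by
        rw [← Real.exp_add]
        congr 1
        ring

/-- exponent in the bound for the coefficients -/
noncomputable def lam (m W : ℕ) (ζ : ℂ) : ℝ :=
  12 + 2 * ((W / m : ℕ) * Real.log m) + 5 * ubd m (ζ ^ 2) +
    (W / m : ℕ) * Real.log (18 * (W : ℝ) / m)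

lemma norm_vPos_le (h : NearW m W ζ w) {i j k : ℕ} (hij : i + j ≤ W) (hk : k ≤ i) :
    ‖vPos w i j k‖ ≤ Real.exp (lam m W ζ) := by
  have hW3 := h.W_three
  have hWN : (3 : ℤ) ≤ W := by exact_mod_cast hW3
  have h1 : ‖((w ^ ((k : ℤ) + 1 + i + j + k * (k - 1) + 2 * (i - k) * (j + k)) : ℂˣ) : ℂ)‖ ≤
      Real.exp 1 := by
    apply h.zpow_le
    have hi : (i : ℤ) ≤ W := by omega
    have hj : (j : ℤ) ≤ W := by omega
    have hki : (k : ℤ) ≤ i := by omega
    have hjk : (j : ℤ) + k ≤ W := by omega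
    have hk0 : (0 : ℤ) ≤ k := by omega
    have hj0 : (0 : ℤ) ≤ j := by omega
    have hi0 : (0 : ℤ) ≤ i := by omega
    have hkk : (0 : ℤ) ≤ k * (k - 1) := by
      rcases Nat.eq_zero_or_pos k with h0 | h0
      · simp [h0]
      · apply mul_nonneg hk0; omega
    have hkk2 : (k : ℤ) * (k - 1) ≤ W * W := by nlinarith
    have hp : (0 : ℤ) ≤ 2 * (i - k) * (j + k) := by
      apply mul_nonneg (by linarith) (by linarith)
    have hp2 : 2 * ((i : ℤ) - k) * (j + k) ≤ 2 * (W * W) := by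
      have : ((i : ℤ) - k) * (j + k) ≤ W * W := by
        apply mul_le_mul (by linarith) hjk (by linarith) (by linarith)
      linarith
    rw [abs_of_nonneg (by linarith)]
    have hcube : 3 * (W * W : ℤ) ≤ (W : ℤ) ^ 3 := by
      have : (W : ℤ) ^ 3 = W * (W * W) := by ring
      rw [this]
      nlinarith
    nlinarith
  have h2 := h.near.log_gauss_le (i := i) (k := k) (by omega) hk
  have h3 := h.prod_le (j := j) (k := k) (by omega)
  unfold vPos
  rw [norm_mul, norm_mul]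
  calc _ ≤ Real.exp 1 * Real.exp ((W / m : ℕ) * Real.log m + 3 * ubd m (ζ ^ 2) + 6 +
        (W / m : ℕ) * Real.log (18 * (W : ℝ) / m)) *
        Real.exp ((W / m : ℕ) * Real.log m + 2 * ubd m (ζ ^ 2) + 5) := by
        apply mul_le_mul _ h3 (norm_nonneg _) (by positivity)
        exact mul_le_mul h1 h2 (norm_nonneg _) (Real.exp_pos _).le
    _ = _ := by
        rw [← Real.exp_add, ← Real.exp_add]
        congr 1
        unfold lam
        ring

lemma norm_vNeg_le (h : NearW m W ζ w) {i j k : ℕ} (hij : i + j ≤ W) (hk : k ≤ j) :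
    ‖vNeg w i j k‖ ≤ Real.exp (lam m W ζ) := by
  have hW3 := h.W_three
  have hWN : (3 : ℤ) ≤ W := by exact_mod_cast hW3
  have h1 : ‖((w ^ (-(1 + (i : ℤ) + j - k) - 2 * i * j) : ℂˣ) : ℂ)‖ ≤ Real.exp 1 := by
    apply h.zpow_le
    have hi : (i : ℤ) ≤ W := by omega
    have hj : (j : ℤ) ≤ W := by omega
    have hkj : (k : ℤ) ≤ j := by omega
    have hk0 : (0 : ℤ) ≤ k := by omega
    have hj0 : (0 : ℤ) ≤ j := by omega
    have hi0 : (0 : ℤ) ≤ i := by omega
    have hp : (0 : ℤ) ≤ 2 * i * j := by positivity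
    have hp2 : 2 * (i : ℤ) * j ≤ 2 * (W * W) := by
      have : (i : ℤ) * j ≤ W * W := by
        apply mul_le_mul (by linarith) hj (by linarith) (by linarith)
      linarith
    rw [abs_of_nonpos (by linarith)]
    have hcube : 3 * (W * W : ℤ) ≤ (W : ℤ) ^ 3 := by
      have : (W : ℤ) ^ 3 = W * (W * W) := by ring
      rw [this]
      nlinarith
    nlinarith
  have h2 := h.near.log_gauss_le (i := j) (k := k) (by omega) hk
  have h3 := h.prod_le (j := i) (k := k) (by omega)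
  unfold vNeg
  rw [norm_mul, norm_mul, norm_mul, norm_pow, norm_neg, norm_one, one_pow, one_mul]
  calc _ ≤ Real.exp 1 * Real.exp ((W / m : ℕ) * Real.log m + 3 * ubd m (ζ ^ 2) + 6 +
        (W / m : ℕ) * Real.log (18 * (W : ℝ) / m)) *
        Real.exp ((W / m : ℕ) * Real.log m + 2 * ubd m (ζ ^ 2) + 5) := by
        apply mul_le_mul _ h3 (norm_nonneg _) (by positivity)
        exact mul_le_mul h1 h2 (norm_nonneg _) (Real.exp_pos _).le
    _ = _ := by
        rw [← Real.exp_add, ← Real.exp_add]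
        congr 1
        unfold lam
        ring

end NearW

/-! ### weights -/

lemma sum_split {r : ℕ} (g : Fin r × Bool) (x : Fin (r + 1) → ℕ) :
    ∑ l, x l = x g.1.castSucc + (x g.1.succ +
      ∑ l ∈ (univ.erase g.1.castSucc).erase g.1.succ, x l) := by
  have hne := castSucc_ne_succ' g.1
  rw [← Finset.add_sum_erase _ _ (Finset.mem_univ g.1.castSucc),
    ← Finset.add_sum_erase _ _ (Finset.mem_erase.mpr ⟨hne.symm, Finset.mem_univ g.1.succ⟩)]

lemma sum_moved {r : ℕ} (g : Fin r × Bool) (x : Fin (r + 1) → ℕ) {k : ℕ} (hk : k ≤ kmax g x) :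
    ∑ l, moved g x k l = ∑ l, x l := by
  rw [sum_split g (moved g x k), sum_split g x, moved_castSucc, moved_succ]
  have h1 : ∑ l ∈ (univ.erase g.1.castSucc).erase g.1.succ, moved g x k l =
      ∑ l ∈ (univ.erase g.1.castSucc).erase g.1.succ, x l := by
    apply Finset.sum_congr rfl
    intro l hl
    rw [Finset.mem_erase, Finset.mem_erase] at hl
    exact moved_of_ne g x k hl.2.1 hl.1
  rw [h1]
  unfold kmax at hk
  split_ifs at hk ⊢ <;> omega

lemma pair_le_sum {r : ℕ} (g : Fin r × Bool) (x : Fin (r + 1) → ℕ) :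
    x g.1.castSucc + x g.1.succ ≤ ∑ l, x l := by
  rw [sum_split g x]
  omega

lemma kmax_le_sum {r : ℕ} (g : Fin r × Bool) (x : Fin (r + 1) → ℕ) : kmax g x ≤ ∑ l, x l := by
  have := pair_le_sum g x
  unfold kmax
  split_ifs <;> omega

lemma NearW.norm_vCoef_le {m W : ℕ} {ζ : ℂ} {w : ℂˣ} (h : NearW m W ζ w) {r : ℕ}
    (g : Fin r × Bool) {x : Fin (r + 1) → ℕ} (hx : ∑ l, x l ≤ W) {k : ℕ} (hk : k ≤ kmax g x) :
    ‖vCoef w g x k‖ ≤ Real.exp (NearW.lam m W ζ) := by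
  have := pair_le_sum g x
  unfold vCoef
  unfold kmax at hk
  split_ifs at hk ⊢
  · exact h.norm_vPos_le (by omega) hk
  · exact h.norm_vNeg_le (by omega) hk

/-! ### the `ℓ¹` norm -/

/-- the `ℓ¹` norm -/
noncomputable def l1 {σ : Type*} (f : σ →₀ ℂ) : ℝ := ∑ a ∈ f.support, ‖f a‖

lemma l1_eq {σ : Type*} (f : σ →₀ ℂ) {s : Finset σ} (hs : f.support ⊆ s) :
    l1 f = ∑ a ∈ s, ‖f a‖ := by
  unfold l1
  apply Finset.sum_subset hs
  intro a _ ha
  rw [Finsupp.notMem_support_iff] at ha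
  rw [ha, norm_zero]

lemma l1_nonneg {σ : Type*} (f : σ →₀ ℂ) : 0 ≤ l1 f := Finset.sum_nonneg fun _ _ => norm_nonneg _

lemma l1_zero {σ : Type*} : l1 (0 : σ →₀ ℂ) = 0 := by simp [l1]

lemma l1_add_le {σ : Type*} (f g : σ →₀ ℂ) : l1 (f + g) ≤ l1 f + l1 g := by
  classical
  rw [l1_eq (f + g) (s := f.support ∪ g.support) Finsupp.support_add,
    l1_eq f (s := f.support ∪ g.support) Finset.subset_union_left,
    l1_eq g (s := f.support ∪ g.support) Finset.subset_union_right, ← Finset.sum_add_distrib]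
  exact Finset.sum_le_sum fun a _ => norm_add_le _ _

lemma l1_sum_le {σ ι : Type*} (s : Finset ι) (f : ι → σ →₀ ℂ) :
    l1 (∑ i ∈ s, f i) ≤ ∑ i ∈ s, l1 (f i) := by
  classical
  induction s using Finset.induction_on with
  | empty => simp [l1_zero]
  | insert a s ha ih =>
    rw [Finset.sum_insert ha, Finset.sum_insert ha]
    exact (l1_add_le _ _).trans (by linarith)

lemma l1_smul_le {σ : Type*} (c : ℂ) (f : σ →₀ ℂ) : l1 (c • f) ≤ ‖c‖ * l1 f := by
  rw [l1_eq (c • f) (s := f.support) Finsupp.support_smul]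
  unfold l1
  rw [Finset.mul_sum]
  apply Finset.sum_le_sum
  intro a _
  rw [Finsupp.smul_apply, smul_eq_mul, norm_mul]

lemma l1_single_le {σ : Type*} (a : σ) (c : ℂ) : l1 (Finsupp.single a c) ≤ ‖c‖ := by
  rw [l1_eq (Finsupp.single a c) (s := {a}) Finsupp.support_single_subset]
  simp

lemma norm_apply_le_l1 {σ : Type*} (f : σ →₀ ℂ) (a : σ) : ‖f a‖ ≤ l1 f := by
  classical
  rw [l1_eq f (s := insert a f.support) (Finset.subset_insert _ _)]
  exact Finset.single_le_sum (f := fun a => ‖f a‖) (fun _ _ => norm_nonneg _)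
    (Finset.mem_insert_self _ _)

lemma NearW.l1_vImg_le {m W : ℕ} {ζ : ℂ} {w : ℂˣ} (h : NearW m W ζ w) {r : ℕ}
    (g : Fin r × Bool) {x : Fin (r + 1) → ℕ} (hx : ∑ l, x l ≤ W) :
    l1 (vImg w g x) ≤ (W + 1) * Real.exp (NearW.lam m W ζ) := by
  unfold vImg
  refine (l1_sum_le _ _).trans ?_
  refine (Finset.sum_le_sum (fun k hk => ?_) :
    _ ≤ ∑ _k ∈ range (kmax g x + 1), Real.exp (NearW.lam m W ζ)).trans ?_
  · rw [Finset.mem_range] at hk
    exact (l1_single_le _ _).trans (h.norm_vCoef_le g hx (by omega))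
  · rw [Finset.sum_const, Finset.card_range, nsmul_eq_mul]
    apply mul_le_mul_of_nonneg_right _ (Real.exp_pos _).le
    have := kmax_le_sum g x
    exact_mod_cast (by omega : kmax g x + 1 ≤ W + 1)

lemma sum_of_mem_support_vImg {R : Type*} [CommRing R] {r : ℕ} (w : Rˣ) (g : Fin r × Bool)
    (x y : Fin (r + 1) → ℕ) (hy : y ∈ (vImg w g x).support) : ∑ l, y l = ∑ l, x l := by
  classical
  unfold vImg at hy
  have h1 := Finsupp.support_finsetSum hy
  rw [Finset.mem_biUnion] at h1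
  obtain ⟨k, hk, hyk⟩ := h1
  rw [Finset.mem_range] at hk
  have h2 := Finsupp.support_single_subset hyk
  rw [Finset.mem_singleton] at h2
  rw [h2]
  exact sum_moved g x (by omega)

theorem NearW.l1_vBraid_le {m W : ℕ} {ζ : ℂ} {w : ℂˣ} (h : NearW m W ζ w) {r : ℕ}
    (β : List (Fin r × Bool)) {x : Fin (r + 1) → ℕ} (hx : ∑ l, x l ≤ W) :
    l1 (vBraid w β x) ≤ ((W + 1) * Real.exp (NearW.lam m W ζ)) ^ β.length ∧
      ∀ y ∈ (vBraid w β x).support, ∑ l, y l = ∑ l, x l := by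
  classical
  induction β with
  | nil =>
    show l1 (Finsupp.single x (1 : ℂ)) ≤ _ ∧ ∀ y ∈ (Finsupp.single x (1 : ℂ)).support, _
    refine ⟨?_, ?_⟩
    · refine (l1_single_le _ _).trans ?_
      simp
    · intro y hy
      have h2 := Finsupp.support_single_subset hy
      rw [Finset.mem_singleton] at h2
      rw [h2]
  | cons g β ih =>
    obtain ⟨ih1, ih2⟩ := ih
    show l1 ((vBraid w β x).sum fun z c => c • vImg w g z) ≤ _ ∧
      ∀ y ∈ ((vBraid w β x).sum fun z c => c • vImg w g z).support, _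
    refine ⟨?_, ?_⟩
    · unfold Finsupp.sum
      refine (l1_sum_le _ _).trans ?_
      have hM : (0 : ℝ) ≤ (W + 1) * Real.exp (NearW.lam m W ζ) := by positivity
      refine (Finset.sum_le_sum (fun z hz => ?_) :
        _ ≤ ∑ z ∈ (vBraid w β x).support, ‖vBraid w β x z‖ *
          ((W + 1) * Real.exp (NearW.lam m W ζ))).trans ?_
      · refine (l1_smul_le _ _).trans ?_
        apply mul_le_mul_of_nonneg_left _ (norm_nonneg _)
        exact h.l1_vImg_le g (by rw [ih2 z hz]; exact hx)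
      · rw [← Finset.sum_mul, List.length_cons, pow_succ]
        exact mul_le_mul_of_nonneg_right ih1 hM
    · intro y hy
      unfold Finsupp.sum at hy
      have h1 := Finsupp.support_finsetSum hy
      rw [Finset.mem_biUnion] at h1
      obtain ⟨z, hz, hyz⟩ := h1
      have h2 := Finsupp.support_smul hyz
      rw [sum_of_mem_support_vImg w g z y h2, ih2 z hz]

lemma prod_zpow_sum {ι : Type*} (w : ℂˣ) (s : Finset ι) (f : ι → ℤ) :
    ∏ l ∈ s, w ^ f l = w ^ ∑ l ∈ s, f l := by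
  classical
  induction s using Finset.induction_on with
  | empty => simp
  | insert a s ha ih => rw [Finset.prod_insert ha, Finset.sum_insert ha, zpow_add, ih]

lemma prod_zpow_eq {r : ℕ} (w : ℂˣ) (x : Fin (r + 1) → ℕ) :
    ∏ l : Fin r, ((w ^ (-(1 + 2 * (x l.succ : ℤ))) : ℂˣ) : ℂ) =
      ((w ^ (-∑ l : Fin r, (1 + 2 * (x l.succ : ℤ))) : ℂˣ) : ℂ) := by
  rw [← Units.coe_prod]
  congr 1
  rw [← Finset.sum_neg_distrib]
  exact prod_zpow_sum w _ _

theorem NearW.norm_vSum_le {m W : ℕ} {ζ : ℂ} {w : ℂˣ} (h : NearW m W ζ w) {r D : ℕ}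
    (β : List (Fin r × Bool)) (hD : (r + 1) * D ≤ W) (hD1 : 1 ≤ D) :
    ‖vSum w β D‖ ≤ (D : ℝ) ^ (r + 1) *
      (Real.exp 1 * ((W + 1) * Real.exp (NearW.lam m W ζ)) ^ β.length) := by
  have hW3 := h.W_three
  have hWN : (3 : ℤ) ≤ W := by exact_mod_cast hW3
  unfold vSum
  refine (norm_sum_le _ _).trans ?_
  refine (Finset.sum_le_sum (fun x hx => ?_) :
    _ ≤ ∑ _x ∈ box r D, (Real.exp 1 * ((W + 1) * Real.exp (NearW.lam m W ζ)) ^ β.length)).trans ?_
  · rw [mem_box] at hx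
    have hsum : ∑ l, x l ≤ (r + 1) * D := by
      have : ∑ l, x l ≤ ∑ _l : Fin (r + 1), D := Finset.sum_le_sum fun l _ => (hx.1 l).le
      rwa [Finset.sum_const, Finset.card_univ, Fintype.card_fin, smul_eq_mul] at this
    rw [norm_mul]
    apply mul_le_mul _ _ (norm_nonneg _) (Real.exp_pos _).le
    · rw [prod_zpow_eq]
      apply h.zpow_le
      rw [abs_neg, abs_of_nonneg (Finset.sum_nonneg fun l _ => by positivity)]
      rw [Finset.sum_add_distrib, ← Finset.mul_sum, Finset.sum_const, Finset.card_univ,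
        Fintype.card_fin, nsmul_eq_mul, mul_one]
      have h1 : ∑ l : Fin r, (x l.succ : ℤ) ≤ W := by
        have h2 : ∑ l, x l = x 0 + ∑ l : Fin r, x l.succ := Fin.sum_univ_succ x
        have h3 : ∑ l : Fin r, x l.succ ≤ W := by omega
        exact_mod_cast h3
      have h2 : (r : ℤ) ≤ W := by
        have : r ≤ W := by nlinarith
        exact_mod_cast this
      have hcube : 9 * (W : ℤ) ≤ (W : ℤ) ^ 3 := by
        have h4 : (W : ℤ) ^ 3 = W * (W * W) := by ring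
        rw [h4]
        nlinarith
      linarith
    · exact (norm_apply_le_l1 _ _).trans (h.l1_vBraid_le β (hsum.trans hD)).1
  · rw [Finset.sum_const, nsmul_eq_mul]
    apply mul_le_mul_of_nonneg_right _ (by positivity)
    have h1 : (box r D).card ≤ D ^ (r + 1) := by
      unfold box
      refine (Finset.card_filter_le _ _).trans ?_
      rw [Fintype.card_piFinset]
      simp
    exact_mod_cast h1

end Pool.Agent.Work.MP_b30479_gt
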