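import Pool.Agent.Work.MP_b30479_gt.OrdersB

/-!
# Order bounds for all prime powers, including primes dividing `m`
-/

namespace Pool.Agent.Work.MP_b30479_gt

open Finset Polynomial

/-- `Φ_{m p^b} ≡ p S` at the primitive `m`-th roots of unity, for every `m` -/
lemma cyc_value {p b : ℕ} (hp : p.Prime) (hb : 1 ≤ b) (m : ℕ) (hm : 0 < m) :
    ∃ S : ℤ[X], ∀ w ∈ primitiveRoots m ℂ,
      aeval w (cyclotomic (m * p ^ b) ℤ) = (p : ℂ) * aeval w S := by
  induction m using Nat.strong_induction_on with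
  | _ m ih =>
    by_cases hpm : p ∣ m
    · obtain ⟨m1, rfl⟩ := hpm
      have hm1 : 0 < m1 := Nat.pos_of_mul_pos_left hm |> fun h => by
        rcases Nat.eq_zero_or_pos m1 with h0 | h0
        · simp [h0] at hm
        · exact h0
      obtain ⟨S, hS⟩ := ih m1 (by
        have := hp.two_le
        nlinarith) hm1
      refine ⟨expand ℤ p S, ?_⟩
      intro w hw
      rw [mem_primitiveRoots hm] at hw
      have hw1 : w ^ p ∈ primitiveRoots m1 ℂ := by
        rw [mem_primitiveRoots hm1]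
        exact hw.pow hm rfl
      have h1 : expand ℤ p (cyclotomic (m1 * p ^ b) ℤ) = cyclotomic (p * m1 * p ^ b) ℤ := by
        rw [cyclotomic_expand_eq_cyclotomic hp (Dvd.dvd.mul_left (dvd_pow_self p (by omega)) m1)]
        congr 1
        ring
      have h2 := hS (w ^ p) hw1
      rw [← h1, expand_aeval, expand_aeval]
      exact h2
    · obtain ⟨Sp, Qp, hSp⟩ := cyc_congr hp hpm hb
      refine ⟨Sp, fun w hw => ?_⟩
      rw [mem_primitiveRoots hm] at hw
      have h7 : aeval w (cyclotomic m ℤ) = 0 := by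
        rw [aeval_def, ← eval_map, map_cyclotomic]
        exact hw.isRoot_cyclotomic hm
      rw [hSp, map_add, map_mul, map_mul, h7, zero_mul, add_zero, aeval_C]
      simp

/-- **order bound**, prime powers -/
theorem order_bound_pp {r : ℕ} {β : List (Fin r × Bool)} (hβ : IsKnot β) {m j : ℕ} (hm : 0 < m)
    {H : ℤ[X]} (hL : Lead β m j H) (S : Finset (ℕ × ℕ)) (c : ℕ × ℕ → ℕ)
    (hS : ∀ p ∈ S, p.1.Prime ∧ 1 ≤ p.2 ∧
      cyclotomic (m * p.1 ^ p.2) ℤ ^ c p ∣ vF β (m * p.1 ^ p.2 * c p)) :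
    m.totient * ∑ p ∈ S, c p * Real.log p.1 ≤
      ∑ w ∈ primitiveRoots m ℂ, Real.log ‖aeval w H‖ := by
  classical
  set D : ℕ := m * (j + 1) + ∑ p ∈ S, m * p.1 ^ p.2 * c p with hD
  obtain ⟨H', hH', hnorm⟩ := hL.level hβ hm (D := D) (by omega)
  have hne : ∀ p ∈ S, m * p.1 ^ p.2 ≠ m := by
    intro p hp
    obtain ⟨hpp, hb, -⟩ := hS p hp
    have : 1 < p.1 ^ p.2 := Nat.one_lt_pow (by omega) hpp.one_lt
    intro h
    nlinarith
  have hpos : ∀ p ∈ S, 0 < m * p.1 ^ p.2 := by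
    intro p hp
    exact Nat.mul_pos hm (pow_pos (hS p hp).1.pos _)
  have hdvd : ∀ p ∈ S, cyclotomic (m * p.1 ^ p.2) ℤ ^ c p ∣ H' := by
    intro p hp
    obtain ⟨hpp, hb, hd⟩ := hS p hp
    have hle : m * p.1 ^ p.2 * c p ≤ D := by
      have := Finset.single_le_sum (f := fun p => m * p.1 ^ p.2 * c p)
        (fun _ _ => Nat.zero_le _) hp
      omega
    have h1 : cyclotomic (m * p.1 ^ p.2) ℤ ^ c p ∣ vF β D :=
      (cyc_pow_dvd_iff hβ (hpos p hp) (le_refl _) hle).mp hd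
    rw [hH'] at h1
    refine (cyc_prime (hpos p hp)).pow_dvd_of_dvd_mul_left (c p) ?_ h1
    intro h2
    exact cyc_not_dvd (hpos p hp) hm (hne p hp) ((cyc_prime (hpos p hp)).dvd_of_dvd_pow h2)
  have hprod : ∏ p ∈ S, cyclotomic (m * p.1 ^ p.2) ℤ ^ c p ∣ H' := by
    apply Finset.prod_dvd_of_isRelPrime
    · intro p hp q hq hpq
      show IsRelPrime _ _
      apply IsRelPrime.pow
      rw [(cyc_prime (hpos p hp)).irreducible.isRelPrime_iff_not_dvd]
      apply cyc_not_dvd (hpos p hp) (hpos q hq)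
      intro h
      have h1 : p.1 ^ p.2 = q.1 ^ q.2 := Nat.eq_of_mul_eq_mul_left hm h
      have h2 : p.1 ∣ q.1 ^ q.2 := by
        rw [← h1]
        exact dvd_pow_self p.1 (by have := (hS p hp).2.1; omega)
      have h3 := (hS p hp).1.dvd_of_dvd_pow h2
      have h4 := (Nat.prime_dvd_prime_iff_eq (hS p hp).1 (hS q hq).1).mp h3
      rw [h4] at h1
      exact hpq (Prod.ext h4 (Nat.pow_right_injective (hS q hq).1.two_le h1))
    · exact hdvd
  obtain ⟨Q, hQ⟩ := hprod
  -- choose S_p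
  have hcong : ∀ p : ℕ × ℕ, ∃ Sp : ℤ[X], p ∈ S → ∀ w ∈ primitiveRoots m ℂ,
      aeval w (cyclotomic (m * p.1 ^ p.2) ℤ) = (p.1 : ℂ) * aeval w Sp := by
    intro p
    by_cases hp : p ∈ S
    · obtain ⟨hpp, hb, -⟩ := hS p hp
      obtain ⟨Sp, hSp⟩ := cyc_value hpp hb m hm
      exact ⟨Sp, fun _ w hw => hSp w hw⟩
    · exact ⟨0, fun h => absurd h hp⟩
  choose Sp hSp using hcong
  set R : ℤ[X] := (∏ p ∈ S, Sp p ^ c p) * Q with hR
  set N : ℕ := ∏ p ∈ S, p.1 ^ c p with hN
  have hval : ∀ w ∈ primitiveRoots m ℂ, aeval w H' = (N : ℂ) * aeval w R := by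
    intro w hw
    rw [hQ, map_mul, map_prod, hR, map_mul, map_prod, hN]
    push_cast
    rw [← mul_assoc, ← Finset.prod_mul_distrib]
    congr 1
    apply Finset.prod_congr rfl
    intro p hp
    rw [map_pow, map_pow, hSp p hp w hw, mul_pow]
  have hH0 : ∀ w ∈ primitiveRoots m ℂ, aeval w H ≠ 0 := by
    intro w hw h0
    rw [mem_primitiveRoots hm] at hw
    exact hL.2 (cyclotomic_dvd_of_root hm hw h0)
  have hH'0 : ∀ w ∈ primitiveRoots m ℂ, aeval w H' ≠ 0 := by
    intro w hw h0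
    have h1 := hnorm w hw
    rw [h0, norm_zero] at h1
    exact hH0 w hw (norm_eq_zero.mp h1.symm)
  have hRw : ∀ w ∈ primitiveRoots m ℂ, aeval w R ≠ 0 := by
    intro w hw h0
    apply hH'0 w hw
    rw [hval w hw, h0, mul_zero]
  have h1 := one_le_prod hm hRw
  have hNpos : 0 < N := Finset.prod_pos fun p hp => pow_pos (hS p hp).1.pos _
  have hlogN : Real.log N = ∑ p ∈ S, c p * Real.log p.1 := by
    rw [hN]
    push_cast
    rw [Real.log_prod]
    · apply Finset.sum_congr rfl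
      intro p _
      rw [Real.log_pow]
    · intro p hp
      exact pow_ne_zero _ (by exact_mod_cast (hS p hp).1.pos.ne')
  have h2 : (m.totient : ℝ) * Real.log N ≤ ∑ w ∈ primitiveRoots m ℂ, Real.log ‖aeval w H'‖ := by
    have h3 : ∑ w ∈ primitiveRoots m ℂ, Real.log ‖aeval w H'‖ =
        (m.totient : ℝ) * Real.log N + ∑ w ∈ primitiveRoots m ℂ, Real.log ‖aeval w R‖ := by
      rw [← Complex.card_primitiveRoots, ← nsmul_eq_mul, ← Finset.sum_const,
        ← Finset.sum_add_distrib]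
      apply Finset.sum_congr rfl
      intro w hw
      rw [hval w hw, norm_mul, Complex.norm_natCast, Real.log_mul]
      · exact_mod_cast hNpos.ne'
      · exact norm_ne_zero_iff.mpr (hRw w hw)
    rw [h3, ← Real.log_prod (fun w hw => norm_ne_zero_iff.mpr (hRw w hw))]
    have := Real.log_nonneg h1
    linarith
  rw [← hlogN]
  refine h2.trans (le_of_eq ?_)
  apply Finset.sum_congr rfl
  intro w hw
  rw [hnorm w hw]

theorem order_le_gbd_pp {r : ℕ} {β : List (Fin r × Bool)} (hβ : IsKnot β) {m j : ℕ}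
    (hodd : Odd m) {H : ℤ[X]} (hL : Lead β m j H) (S : Finset (ℕ × ℕ)) (c : ℕ × ℕ → ℕ)
    (hS : ∀ p ∈ S, p.1.Prime ∧ 1 ≤ p.2 ∧
      cyclotomic (m * p.1 ^ p.2) ℤ ^ c p ∣ vF β (m * p.1 ^ p.2 * c p)) :
    ∑ p ∈ S, c p * Real.log p.1 ≤ gbd β m j := by
  have hm : 0 < m := hodd.pos
  have h1 := order_bound_pp hβ hm hL S c hS
  have h2 := sum_log_lead_le' hβ hodd hL
  have hφ : (0 : ℝ) < m.totient := by exact_mod_cast Nat.totient_pos.mpr hm
  exact le_of_mul_le_mul_left (h1.trans h2) hφ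

/-- **exceptional prime powers for every odd `m`** -/
theorem exceptional_prime_powers {r : ℕ} (β : List (Fin r × Bool)) (hβ : IsKnot β) :
    ∃ C : ℝ, 0 < C ∧ ∀ m : ℕ, Odd m → ∀ S : Finset (ℕ × ℕ),
      (∀ s ∈ S, s.1.Prime ∧ s.1 ≠ 2 ∧ 1 ≤ s.2 ∧ kashaev β (m * s.1 ^ s.2) = 0) →
      ∑ s ∈ S, Real.log s.1 ≤ (C * (1 + Real.log m) ^ 6) ^ (m.primeFactors.card + 1) ∧
      (kashaev β m ≠ 0 → ∑ s ∈ S, Real.log s.1 ≤ C * Real.log m ^ 4) := by
  have hb := one_le_bst β
  have hc := one_le_cst β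
  refine ⟨max (16 * cst β) (bst β), lt_of_lt_of_le (by positivity) (le_max_left _ _), ?_⟩
  intro m hm S hS
  have hlog : 0 ≤ Real.log m := Real.log_natCast_nonneg m
  have hdiv : ∀ p ∈ S, p.1.Prime ∧ 1 ≤ p.2 ∧
      cyclotomic (m * p.1 ^ p.2) ℤ ^ 1 ∣ vF β (m * p.1 ^ p.2 * 1) := by
    intro p hp
    obtain ⟨hpp, hp2, hk, h0⟩ := hS p hp
    refine ⟨hpp, hk, ?_⟩
    rw [pow_one, mul_one]
    have hodd' : Odd (m * p.1 ^ p.2) := hm.mul ((hpp.odd_of_ne_two hp2).pow)
    exact (vF_zero_iff hβ hodd' le_rfl).mpr h0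
  constructor
  · obtain ⟨j, H, hL, hj⟩ := exists_lead_le hβ m hm
    have h1 := order_le_gbd_pp hβ hm hL S (fun _ => 1) hdiv
    have h2 := gbd_succ_le β hm.pos le_rfl hj
    simp only [Nat.cast_one, one_mul] at h1
    have h3 : ∑ s ∈ S, Real.log s.1 ≤ (bst β * (1 + Real.log m) ^ 6) ^
        (m.primeFactors.card + 1) := by linarith
    refine h3.trans ?_
    apply pow_le_pow_left₀ (by positivity)
    exact mul_le_mul_of_nonneg_right (le_max_right _ _) (by positivity)
  · intro ham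
    rcases Nat.lt_or_ge m 3 with h | h
    · have hm1 : m = 1 := by
        obtain ⟨j, hj⟩ := hm
        omega
      subst hm1
      have : S = ∅ := by
        rw [Finset.eq_empty_iff_forall_notMem]
        intro p hp
        obtain ⟨h1, h2, -, h4⟩ := hS p hp
        rw [one_mul] at h4
        exact ne_zero_prime_pow β hβ h1 h2 _ h4
      rw [this]
      simp
    · have hord : OrdEq β m 0 := by
        refine ⟨by simp, ?_⟩
        rw [zero_add, pow_one, mul_one]
        intro hd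
        exact ham ((vF_zero_iff hβ hm le_rfl).mp hd)
      obtain ⟨H, hL⟩ := hord.exists_lead
      have h1 := order_le_gbd_pp hβ hm hL S (fun _ => 1) hdiv
      simp only [Nat.cast_one, one_mul] at h1
      have h2 := one_le_log h
      have h3 : (1 + Real.log m) ^ 4 ≤ (2 * Real.log m) ^ 4 :=
        pow_le_pow_left₀ (by linarith) (by linarith) 4
      have h4 : gbd β m 0 = cst β * (1 + Real.log m) ^ 4 := by
        unfold gbd
        simp
      calc ∑ s ∈ S, Real.log s.1 ≤ gbd β m 0 := h1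
        _ = cst β * (1 + Real.log m) ^ 4 := h4
        _ ≤ cst β * (2 * Real.log m) ^ 4 := mul_le_mul_of_nonneg_left h3 (by linarith)
        _ = 16 * cst β * Real.log m ^ 4 := by ring
        _ ≤ _ := mul_le_mul_of_nonneg_right (le_max_left _ _) (by positivity)

end Pool.Agent.Work.MP_b30479_gt
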