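import Pool.Agent.Work.MP_b30479_gt.Cauchy
import Pool.Agent.Work.MP_b30479_gt.Final

/-!
# Orders of vanishing exist and are small; exceptional primes for every odd `m`
-/

namespace Pool.Agent.Work.MP_b30479_gt

open Finset Polynomial

lemma one_le_cst {r : ℕ} (β : List (Fin r × Bool)) : 1 ≤ cst β := by
  unfold cst
  have h1 : (0 : ℝ) ≤ β.length * (((r : ℝ) + 1) ^ 2 + 7 * (r + 1) + 115) := by positivity
  have h2 : (0 : ℝ) ≤ r := Nat.cast_nonneg _
  linarith

/-- the bound -/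
noncomputable def gbd {r : ℕ} (β : List (Fin r × Bool)) (m j : ℕ) : ℝ :=
  cst β * (j + 1) * (1 + Real.log (j + 1)) * (1 + Real.log m) ^ 4

/-- the second constant -/
noncomputable def bst {r : ℕ} (β : List (Fin r × Bool)) : ℝ := 144 * cst β ^ 2

lemma one_le_bst {r : ℕ} (β : List (Fin r × Bool)) : 1 ≤ bst β := by
  have := one_le_cst β
  unfold bst
  nlinarith

lemma kashaev_one {r : ℕ} (β : List (Fin r × Bool)) : kashaev β 1 = 1 := by
  unfold kashaev
  exact colouredJones_zero _ β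

lemma lead_one {r : ℕ} {β : List (Fin r × Bool)} (hβ : IsKnot β) {j : ℕ} {H : ℤ[X]}
    (hL : Lead β 1 j H) : j = 0 := by
  by_contra hj
  have h1 : cyclotomic 1 ℤ ∣ vF β (1 * (j + 1)) := by
    rw [hL.1]
    exact Dvd.dvd.mul_right (dvd_pow_self _ hj) _
  have h2 := (vF_zero_iff hβ (n := 1) (D := 1 * (j + 1)) odd_one (by omega)).mp h1
  rw [kashaev_one] at h2
  exact one_ne_zero h2

/-- the bound for the sum of the leading values, for all odd `m` -/
theorem sum_log_lead_le' {r : ℕ} {β : List (Fin r × Bool)} (hβ : IsKnot β) {m j : ℕ}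
    (hodd : Odd m) {H : ℤ[X]} (hL : Lead β m j H) :
    ∑ ζ ∈ primitiveRoots m ℂ, Real.log ‖aeval ζ H‖ ≤ m.totient * gbd β m j := by
  rcases Nat.lt_or_ge m 3 with h | h
  · have hm1 : m = 1 := by
      obtain ⟨j, hj⟩ := hodd
      omega
    subst hm1
    have hj := lead_one hβ hL
    subst hj
    have h1 : H = vF β 1 := by
      have := hL.1
      rw [pow_zero, one_mul, one_mul, zero_add] at this
      exact this.symm
    have h2 : aeval (1 : ℂ) H = 1 := by
      have h3 := vF_spec β 1 ℂ 1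
      rw [vSum_eq (s := 0) (w := (1 : ℂˣ)) (by simp) hβ (by omega), one_pow,
        colouredJones_zero, Units.val_one, one_pow, mul_one] at h3
      rw [h1, aeval_def, show algebraMap ℤ ℂ = Int.castRingHom ℂ from RingHom.ext_int _ _]
      exact h3.symm
    rw [IsPrimitiveRoot.primitiveRoots_one, Finset.sum_singleton, h2, norm_one, Real.log_one]
    have := one_le_cst β
    unfold gbd
    simp
    linarith
  · have := sum_log_lead_le h hodd hL
    unfold gbd
    exact this

/-- exceptional primes of order `c` -/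
theorem order_le_gbd {r : ℕ} {β : List (Fin r × Bool)} (hβ : IsKnot β) {m j : ℕ}
    (hodd : Odd m) {H : ℤ[X]} (hL : Lead β m j H) (S : Finset ℕ) (b c : ℕ → ℕ)
    (hS : ∀ p ∈ S, p.Prime ∧ ¬ p ∣ m ∧ 1 ≤ b p ∧
      cyclotomic (m * p ^ b p) ℤ ^ c p ∣ vF β (m * p ^ b p * c p)) :
    ∑ p ∈ S, c p * Real.log p ≤ gbd β m j := by
  have hm : 0 < m := hodd.pos
  have h1 := order_bound hβ hm hL S b c hS
  have h2 := sum_log_lead_le' hβ hodd hL
  have hφ : (0 : ℝ) < m.totient := by exact_mod_cast Nat.totient_pos.mpr hm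
  exact le_of_mul_le_mul_left (h1.trans h2) hφ

lemma gbd_nonneg {r : ℕ} (β : List (Fin r × Bool)) (m j : ℕ) : 0 ≤ gbd β m j := by
  have h1 := one_le_cst β
  have h2 : 0 ≤ Real.log m := Real.log_natCast_nonneg m
  have h3 : 0 ≤ Real.log ((j : ℝ) + 1) := Real.log_nonneg (by
    have : (0 : ℝ) ≤ j := Nat.cast_nonneg _
    linarith)
  unfold gbd
  positivity

lemma card_primeFactors_le {m : ℕ} (hm : 0 < m) :
    ((m.primeFactors.card : ℕ) : ℝ) ≤ 2 * Real.log m := by
  have h1 : (2 : ℝ) ^ m.primeFactors.card ≤ m := by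
    have h2 : ∏ _p ∈ m.primeFactors, 2 ≤ ∏ p ∈ m.primeFactors, p :=
      Finset.prod_le_prod' fun p hp => (Nat.prime_of_mem_primeFactors hp).two_le
    rw [Finset.prod_const] at h2
    have h3 : ∏ p ∈ m.primeFactors, p ≤ m := Nat.le_of_dvd hm (Nat.prod_primeFactors_dvd m)
    exact_mod_cast h2.trans h3
  have h2 := Real.log_le_log (by positivity) h1
  rw [Real.log_pow] at h2
  have h3 : (1 : ℝ) / 2 ≤ Real.log 2 := by
    have := Real.log_two_gt_d9
    linarith
  have h4 : (0 : ℝ) ≤ m.primeFactors.card := Nat.cast_nonneg _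
  nlinarith

/-- one step -/
lemma gbd_succ_le {r : ℕ} (β : List (Fin r × Bool)) {m j n : ℕ} (hm : 0 < m) (hmn : m ≤ n)
    (hj : (j : ℝ) + 1 ≤ (bst β * (1 + Real.log m) ^ 6) ^ m.primeFactors.card) :
    gbd β m j + 1 ≤ (bst β * (1 + Real.log n) ^ 6) ^ (m.primeFactors.card + 1) := by
  have hc := one_le_cst β
  have hb := one_le_bst β
  have hlm : 0 ≤ Real.log m := Real.log_natCast_nonneg m
  have hmr : (0 : ℝ) < m := by exact_mod_cast hm
  have hlmn : Real.log m ≤ Real.log n := Real.log_le_log hmr (by exact_mod_cast hmn)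
  set k := m.primeFactors.card with hk
  have hk2 : (k : ℝ) ≤ 2 * Real.log m := card_primeFactors_le hm
  set ℓ : ℝ := 1 + Real.log m with hℓ
  set T : ℝ := (j : ℝ) + 1 with hT
  have hT1 : 1 ≤ T := by rw [hT]; have : (0 : ℝ) ≤ j := Nat.cast_nonneg _; linarith
  have hℓ1 : 1 ≤ ℓ := by linarith
  have hlogT : Real.log T ≤ k * (Real.log (bst β) + 6 * Real.log ℓ) := by
    have h1 := Real.log_le_log (by linarith) hj
    rw [Real.log_pow, Real.log_mul (by positivity) (by positivity), Real.log_pow] at h1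
    exact_mod_cast h1
  have hlogℓ : Real.log ℓ ≤ ℓ := by
    have := Real.log_le_sub_one_of_pos (by linarith : 0 < ℓ)
    linarith
  have hlogb : Real.log (bst β) ≤ 24 * cst β := by
    have h1 : bst β = (12 * cst β) ^ 2 := by unfold bst; ring
    have h2 := Real.log_le_sub_one_of_pos (by positivity : 0 < 12 * cst β)
    rw [h1, Real.log_pow]
    push_cast
    linarith
  have hlogℓ0 : 0 ≤ Real.log ℓ := Real.log_nonneg hℓ1
  have hlogb0 : 0 ≤ Real.log (bst β) := Real.log_nonneg hb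
  have h1 : 1 + Real.log T ≤ (13 + 48 * cst β) * ℓ ^ 2 := by
    have h2 : (k : ℝ) * (Real.log (bst β) + 6 * Real.log ℓ) ≤
        2 * ℓ * (24 * cst β + 6 * ℓ) := by
      apply mul_le_mul (by linarith) (by linarith) (by linarith) (by linarith)
    have h3 : 1 ≤ ℓ ^ 2 := one_le_pow₀ hℓ1
    have h4 : ℓ ≤ ℓ ^ 2 := by nlinarith
    have h5 : cst β * ℓ ≤ cst β * ℓ ^ 2 := mul_le_mul_of_nonneg_left h4 (by linarith)
    nlinarith
  have h2 : gbd β m j + 1 ≤ 2 * gbd β m j := by
    have h3 : 0 ≤ Real.log T := Real.log_nonneg hT1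
    have h4 : 1 ≤ gbd β m j := by
      unfold gbd
      rw [← hT, ← hℓ]
      have h5 : 1 ≤ ℓ ^ 4 := one_le_pow₀ hℓ1
      have h6 : 1 ≤ cst β * T := by nlinarith
      have h7 : 1 ≤ cst β * T * (1 + Real.log T) := by nlinarith
      nlinarith
    linarith
  have hX : (1 : ℝ) ≤ bst β * ℓ ^ 6 := by
    have h5 : 1 ≤ ℓ ^ 6 := one_le_pow₀ hℓ1
    nlinarith
  have h3 : 2 * gbd β m j ≤ (bst β * ℓ ^ 6) ^ (k + 1) := by
    unfold gbd
    rw [← hT, ← hℓ, pow_succ]
    calc 2 * (cst β * T * (1 + Real.log T) * ℓ ^ 4)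
        ≤ 2 * (cst β * T * ((13 + 48 * cst β) * ℓ ^ 2) * ℓ ^ 4) := by
          apply mul_le_mul_of_nonneg_left _ (by norm_num)
          apply mul_le_mul_of_nonneg_right _ (by positivity)
          exact mul_le_mul_of_nonneg_left h1 (by positivity)
      _ = T * ((26 * cst β + 96 * cst β ^ 2) * ℓ ^ 6) := by ring
      _ ≤ (bst β * ℓ ^ 6) ^ k * (bst β * ℓ ^ 6) := by
          apply mul_le_mul hj _ (by positivity) (by positivity)
          apply mul_le_mul_of_nonneg_right _ (by positivity)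
          unfold bst
          nlinarith
  refine (h2.trans h3).trans ?_
  apply pow_le_pow_left₀ (by linarith)
  apply mul_le_mul_of_nonneg_left _ (by linarith)
  exact pow_le_pow_left₀ (by linarith) (by linarith) 6

/-- **orders of vanishing exist and are bounded** -/
theorem exists_lead_le {r : ℕ} {β : List (Fin r × Bool)} (hβ : IsKnot β) (n : ℕ) :
    Odd n → ∃ (j : ℕ) (H : ℤ[X]), Lead β n j H ∧
      (j : ℝ) + 1 ≤ (bst β * (1 + Real.log n) ^ 6) ^ n.primeFactors.card := by
  classical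
  induction n using Nat.recOnPrimePow with
  | zero =>
    intro h
    exact absurd h (by decide)
  | one =>
    intro _
    have h1 : OrdEq β 1 0 := by
      refine ⟨by simp, ?_⟩
      rw [zero_add, pow_one, mul_one]
      intro h
      have h2 := (vF_zero_iff hβ (n := 1) (D := 1) odd_one le_rfl).mp h
      rw [kashaev_one] at h2
      exact one_ne_zero h2
    obtain ⟨H, hH⟩ := h1.exists_lead
    refine ⟨0, H, hH, ?_⟩
    simp
  | prime_pow_mul m p k hp hpm hk ih =>
    intro hodd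
    have hmodd : Odd m := (Nat.odd_mul.mp hodd).2
    have hpodd : Odd p := by
      have h1 := (Nat.odd_mul.mp hodd).1
      exact Nat.Odd.of_mul_left (m := p) (n := p ^ (k - 1)) (by
        rwa [← pow_succ', Nat.sub_add_cancel hk])
    obtain ⟨j, H, hL, hj⟩ := ih hmodd
    have hm : 0 < m := hmodd.pos
    rw [mul_comm (p ^ k) m]
    rw [mul_comm (p ^ k) m] at hodd
    have hlogp : 1 ≤ Real.log p := by
      apply one_le_log
      obtain ⟨i, hi⟩ := hpodd
      have := hp.two_le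
      omega
    have hbd : ∀ c : ℕ, cyclotomic (m * p ^ k) ℤ ^ c ∣ vF β (m * p ^ k * c) →
        (c : ℝ) ≤ gbd β m j := by
      intro c hc
      have h1 := order_le_gbd hβ hmodd hL {p} (fun _ => k) (fun _ => c) (by
        intro q hq
        rw [Finset.mem_singleton] at hq
        subst hq
        exact ⟨hp, hpm, hk, hc⟩)
      rw [Finset.sum_singleton] at h1
      have hc0 : (0 : ℝ) ≤ c := Nat.cast_nonneg _
      nlinarith
    set P : ℕ → Prop := fun c => cyclotomic (m * p ^ k) ℤ ^ c ∣ vF β (m * p ^ k * c) with hP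
    have hfl : ∀ c, P c → c ≤ ⌊gbd β m j⌋₊ := fun c hc => Nat.le_floor (hbd c hc)
    set J := Nat.findGreatest P ⌊gbd β m j⌋₊ with hJ
    have hJP : P J := Nat.findGreatest_spec (P := P) (m := 0) (Nat.zero_le _) (by
      show cyclotomic (m * p ^ k) ℤ ^ 0 ∣ _
      simp)
    have hJmax : ¬ P (J + 1) := by
      intro h
      have h1 := Nat.le_findGreatest (hfl _ h) h
      omega
    have hpos : 0 < m * p ^ k := Nat.mul_pos hm (pow_pos hp.pos k)
    have hord : OrdEq β (m * p ^ k) J := by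
      refine ⟨?_, hJmax⟩
      rw [cyc_pow_dvd_iff hβ hpos (D := m * p ^ k * (J + 1)) (D' := m * p ^ k * J)
        (Nat.mul_le_mul_left _ (by omega)) le_rfl]
      exact hJP
    obtain ⟨H', hH'⟩ := hord.exists_lead
    refine ⟨J, H', hH', ?_⟩
    have h1 := hbd J hJP
    have hle : m ≤ m * p ^ k := Nat.le_mul_of_pos_right m (pow_pos hp.pos k)
    have h2 := gbd_succ_le β hm hle hj
    have hcard : (m * p ^ k).primeFactors.card = m.primeFactors.card + 1 := by
      have hcop : Nat.Coprime m (p ^ k) := by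
        apply Nat.Coprime.pow_right
        rw [Nat.coprime_comm]
        exact (Nat.Prime.coprime_iff_not_dvd hp).mpr hpm
      rw [hcop.primeFactors_mul, Finset.card_union_of_disjoint hcop.disjoint_primeFactors,
        Nat.primeFactors_prime_pow hk.ne' hp, Finset.card_singleton]
    rw [hcard]
    linarith

/-- `p` is exceptional for `m` -/
def IsExc' {r : ℕ} (β : List (Fin r × Bool)) (m p : ℕ) : Prop :=
  p.Prime ∧ p ≠ 2 ∧ ¬ p ∣ m ∧ ∃ k, 1 ≤ k ∧ kashaev β (m * p ^ k) = 0

theorem exc_sum_log_le {r : ℕ} {β : List (Fin r × Bool)} (hβ : IsKnot β) {m : ℕ} (hodd : Odd m)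
    (S : Finset ℕ) (hS : ∀ p ∈ S, IsExc' β m p) :
    ∑ p ∈ S, Real.log p ≤ (bst β * (1 + Real.log m) ^ 6) ^ (m.primeFactors.card + 1) := by
  classical
  obtain ⟨j, H, hL, hj⟩ := exists_lead_le hβ m hodd
  have hex : ∀ p : ℕ, ∃ k, p ∈ S → (1 ≤ k ∧ kashaev β (m * p ^ k) = 0) := by
    intro p
    by_cases hp : p ∈ S
    · obtain ⟨-, -, -, k, hk⟩ := hS p hp
      exact ⟨k, fun _ => hk⟩
    · exact ⟨0, fun h => absurd h hp⟩
  choose b hb using hex
  have h1 := order_le_gbd hβ hodd hL S b (fun _ => 1) (by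
    intro p hp
    obtain ⟨hpp, hp2, hpm, -⟩ := hS p hp
    obtain ⟨hb1, hb2⟩ := hb p hp
    refine ⟨hpp, hpm, hb1, ?_⟩
    rw [pow_one, mul_one]
    have hodd' : Odd (m * p ^ b p) := hodd.mul ((hpp.odd_of_ne_two hp2).pow)
    exact (vF_zero_iff hβ hodd' le_rfl).mpr hb2)
  have h2 := gbd_succ_le β hodd.pos le_rfl hj
  simp only [Nat.cast_one, one_mul] at h1
  linarith

theorem exc_card_le' {r : ℕ} {β : List (Fin r × Bool)} (hβ : IsKnot β) {m : ℕ} (hodd : Odd m)
    (S : Finset ℕ) (hS : ∀ p ∈ S, IsExc' β m p) :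
    (S.card : ℝ) ≤ (bst β * (1 + Real.log m) ^ 6) ^ (m.primeFactors.card + 1) := by
  refine le_trans ?_ (exc_sum_log_le hβ hodd S hS)
  have h : ∀ p ∈ S, (1 : ℝ) ≤ Real.log p := by
    intro p hp
    obtain ⟨h1, h2, -, -⟩ := hS p hp
    have := h1.two_le
    exact one_le_log (by omega)
  calc (S.card : ℝ) = ∑ _p ∈ S, (1 : ℝ) := by simp
    _ ≤ _ := Finset.sum_le_sum h

lemma exc_finite' {r : ℕ} {β : List (Fin r × Bool)} (hβ : IsKnot β) {m : ℕ} (hodd : Odd m) :
    {p | IsExc' β m p}.Finite := by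
  by_contra hinf
  obtain ⟨n, hn⟩ := exists_nat_gt ((bst β * (1 + Real.log m) ^ 6) ^ (m.primeFactors.card + 1))
  obtain ⟨S, hS, hcard⟩ := (show {p | IsExc' β m p}.Infinite from hinf).exists_subset_card_eq n
  have := exc_card_le' hβ hodd S (fun p hp => hS hp)
  rw [hcard] at this
  linarith

open scoped Classical in
/-- the finset of exceptional primes -/
noncomputable def excSet' {r : ℕ} (β : List (Fin r × Bool)) (m : ℕ) : Finset ℕ :=
  if h : {p | IsExc' β m p}.Finite then h.toFinset else ∅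

lemma card_excSet'_le {r : ℕ} {β : List (Fin r × Bool)} (hβ : IsKnot β) {m : ℕ} (hodd : Odd m) :
    ((excSet' β m).card : ℝ) ≤ (bst β * (1 + Real.log m) ^ 6) ^ (m.primeFactors.card + 1) := by
  have hfin := exc_finite' hβ hodd
  unfold excSet'
  rw [dif_pos hfin]
  apply exc_card_le' hβ hodd
  intro p hp
  exact hfin.mem_toFinset.mp hp

lemma mem_excSet' {r : ℕ} {β : List (Fin r × Bool)} (hβ : IsKnot β) {m p k : ℕ} (hodd : Odd m)
    (hp : p.Prime) (hpodd : Odd p) (hpm : ¬ p ∣ m) (hk : 1 ≤ k)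
    (hbad : kashaev β (m * p ^ k) = 0) : p ∈ excSet' β m := by
  have hfin := exc_finite' hβ hodd
  unfold excSet'
  rw [dif_pos hfin, hfin.mem_toFinset]
  refine ⟨hp, ?_, hpm, k, hk, hbad⟩
  rintro rfl
  exact absurd hpodd (by decide)

end Pool.Agent.Work.MP_b30479_gt
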