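import Pool.Agent.Work.MP_b30479_gt.FourierBound

/-!
# Bounds at all primitive roots of unity, and their average
-/

namespace Pool.Agent.Work.MP_b30479_gt

open Finset ZMod

/-- the quantity bounding `|log |(w;w)_a||` for all `a < m` -/
noncomputable def ubd (m : ℕ) (w : ℂ) : ℝ :=
  Real.log m + 18 * (1 + Real.log m) / m * ∑ h ∈ range m, rd (root m ^ h) * rd (w ^ h)

lemma log_le_ubd (m : ℕ) (w : ℂ) : Real.log m ≤ ubd m w := by
  unfold ubd
  have h1 : 0 ≤ Real.log m := Real.log_natCast_nonneg m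
  have h2 : 0 ≤ ∑ h ∈ range m, rd (root m ^ h) * rd (w ^ h) :=
    Finset.sum_nonneg fun h _ => mul_nonneg (rd_nonneg _) (rd_nonneg _)
  have h3 : 0 ≤ 18 * (1 + Real.log m) / m * ∑ h ∈ range m, rd (root m ^ h) * rd (w ^ h) := by
    positivity
  linarith

lemma ubd_nonneg (m : ℕ) (w : ℂ) : 0 ≤ ubd m w :=
  (Real.log_natCast_nonneg m).trans (log_le_ubd m w)

/-- `(w;w)_a` -/
noncomputable def poch (w : ℂ) (a : ℕ) : ℂ := ∏ i ∈ range a, (1 - w ^ (i + 1))

theorem abs_log_poch_le {m : ℕ} (hm : 2 ≤ m) {w : ℂ} (hw : IsPrimitiveRoot w m) {a : ℕ}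
    (ha : a < m) : |Real.log ‖poch w a‖| ≤ ubd m w := by
  have : NeZero m := ⟨by omega⟩
  obtain ⟨j, hj, hjc, hjw⟩ := (root_prim (m := m) (by omega)).isPrimitiveRoot_iff.mp hw
  let u : (ZMod m)ˣ := ZMod.unitOfCoprime j hjc
  have hu : (u : ZMod m) = (j : ZMod m) := ZMod.coe_unitOfCoprime j hjc
  have huw : (stdAddChar (u : ZMod m) : ℂ) = w := by
    rw [hu, std_eq, ZMod.val_cast_of_lt hj, hjw]
  have hpow : ∀ n : ℕ, (stdAddChar ((u : ZMod m) * (n : ZMod m)) : ℂ) = w ^ n := by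
    intro n
    rw [← huw, ← AddChar.map_nsmul_eq_pow, nsmul_eq_mul, mul_comm]
  have h := abs_sum_ll_le hm u ha.le
  have h1 : ∑ i ∈ range a, ll ((u : ZMod m) * ((i + 1 : ℕ) : ZMod m)) = Real.log ‖poch w a‖ := by
    unfold poch
    rw [norm_prod, Real.log_prod]
    · apply Finset.sum_congr rfl
      intro i _
      unfold ll
      rw [hpow]
    · intro i hi
      rw [Finset.mem_range] at hi
      exact norm_ne_zero_iff.mpr (sub_ne_zero.mpr (Ne.symm
        (hw.pow_ne_one_of_pos_of_lt (by omega) (by omega))))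
  have h2 : ∑ h : ZMod m, rd (stdAddChar h) * rd (stdAddChar (h * (u : ZMod m))) =
      ∑ h ∈ range m, rd (root m ^ h) * rd (w ^ h) := by
    apply Finset.sum_bij' (fun (c : ZMod m) _ => c.val) (fun (c : ℕ) _ => (c : ZMod m))
    · intro c _
      exact Finset.mem_range.mpr (ZMod.val_lt c)
    · intro c _
      exact Finset.mem_univ _
    · intro c _
      simp
    · intro c hc
      exact ZMod.val_cast_of_lt (Finset.mem_range.mp hc)
    · intro c _
      rw [← std_eq, ← hpow, mul_comm (u : ZMod m)]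
      simp
  rw [h1, h2] at h
  exact h

lemma sum_prim_le {m : ℕ} (hm : 0 < m) (F : ℂ → ℝ) (hF : ∀ x, 0 ≤ F x) :
    ∑ w ∈ primitiveRoots m ℂ, F w ≤ ∑ u ∈ range m, F (root m ^ u) := by
  classical
  have : NeZero m := ⟨by omega⟩
  have hinj : Set.InjOn (fun u => root m ^ u) (range m : Set ℕ) := by
    intro a ha b hb hab
    simp only [Finset.coe_range, Set.mem_Iio] at ha hb
    exact (root_prim hm).pow_inj ha hb hab
  rw [← Finset.sum_image hinj]
  apply Finset.sum_le_sum_of_subset_of_nonneg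
  · intro w hw
    obtain ⟨j, hj, -, hjw⟩ := (root_prim hm).isPrimitiveRoot_iff.mp (isPrimitiveRoot_of_mem_primitiveRoots hw)
    exact Finset.mem_image.mpr ⟨j, Finset.mem_range.mpr hj, hjw⟩
  · intro i _ _
    exact hF i

theorem sum_ubd_le {m : ℕ} (hm : 0 < m) :
    ∑ w ∈ primitiveRoots m ℂ, ubd m w ≤ 10 * m * (1 + Real.log m) ^ 3 := by
  have hm' : (0 : ℝ) < m := by exact_mod_cast hm
  have hlog : 0 ≤ Real.log m := Real.log_natCast_nonneg m
  unfold ubd
  rw [Finset.sum_add_distrib, Finset.sum_const, ← Finset.mul_sum, Finset.sum_comm,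
    Complex.card_primitiveRoots]
  have h1 : ∀ h ∈ range m, ∑ w ∈ primitiveRoots m ℂ, rd (root m ^ h) * rd (w ^ h) ≤
      rd (root m ^ h) * ((m : ℝ) / 2 * (1 + Real.log m)) := by
    intro h _
    rw [← Finset.mul_sum]
    apply mul_le_mul_of_nonneg_left _ (rd_nonneg _)
    refine (sum_prim_le hm (fun w => rd (w ^ h)) (fun x => rd_nonneg _)).trans ?_
    have hx : (root m ^ h) ^ m = 1 := by
      rw [← pow_mul, mul_comm, pow_mul, (root_prim hm).pow_eq_one, one_pow]
    refine le_trans (le_of_eq ?_) (sum_rd_pow_le hm hx)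
    apply Finset.sum_congr rfl
    intro u _
    rw [← pow_mul, ← pow_mul, mul_comm]
  have h2 : ∑ h ∈ range m, ∑ w ∈ primitiveRoots m ℂ, rd (root m ^ h) * rd (w ^ h) ≤
      ((m : ℝ) / 2 * (1 + Real.log m)) * ((m : ℝ) / 2 * (1 + Real.log m)) := by
    refine (Finset.sum_le_sum h1).trans ?_
    rw [← Finset.sum_mul]
    apply mul_le_mul_of_nonneg_right (sum_rd_root_le hm)
    positivity
  have h3 : (m.totient : ℝ) ≤ m := by exact_mod_cast Nat.totient_le m
  have h4 : 18 * (1 + Real.log m) / m *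
      ∑ h ∈ range m, ∑ w ∈ primitiveRoots m ℂ, rd (root m ^ h) * rd (w ^ h) ≤
      18 * (1 + Real.log m) / m *
      (((m : ℝ) / 2 * (1 + Real.log m)) * ((m : ℝ) / 2 * (1 + Real.log m))) :=
    mul_le_mul_of_nonneg_left h2 (by positivity)
  have h5 : 18 * (1 + Real.log m) / m *
      (((m : ℝ) / 2 * (1 + Real.log m)) * ((m : ℝ) / 2 * (1 + Real.log m))) =
      9 / 2 * m * (1 + Real.log m) ^ 3 := by
    field_simp
    ring
  rw [nsmul_eq_mul]
  have h6 : (m.totient : ℝ) * Real.log m ≤ m * (1 + Real.log m) ^ 3 := by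
    have h7 : Real.log m ≤ (1 + Real.log m) ^ 3 := by nlinarith [sq_nonneg (Real.log m)]
    have h8 : (m.totient : ℝ) * Real.log m ≤ m * Real.log m := mul_le_mul_of_nonneg_right h3 hlog
    nlinarith
  have h9 : 0 ≤ m * (1 + Real.log m) ^ 3 := by positivity
  linarith

end Pool.Agent.Work.MP_b30479_gt
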