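import Pool.Agent.Work.MP_b30479_gt.OrderPP

/-!
# For every odd `m`, `a_{m p^k} ≠ 0` for all but finitely many odd prime powers `p^k`
-/

namespace Pool.Agent.Results.MP_b30479_gt.ExceptionalPrimes

open Pool.Agent.Work.MP_b30479_gt

/-- For every knot `K` there is `C > 0` such that for every odd `m` the set of pairs `(p, k)`,
`p` an odd prime, `k ≥ 1`, with `a_{m p^k} = 0` is finite: the sum of `log p` over it is at most
`(C (1 + log m)^6)^(ω(m) + 1)`, where `ω(m)` is the number of prime factors of `m`, and at most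
`C (log m)^4` if `a_m ≠ 0`. -/
theorem result (r : ℕ) (β : List (Fin r × Bool)) (hβ : IsKnot β) :
    ∃ C : ℝ, 0 < C ∧ ∀ m : ℕ, Odd m → ∀ S : Finset (ℕ × ℕ),
      (∀ s ∈ S, s.1.Prime ∧ s.1 ≠ 2 ∧ 1 ≤ s.2 ∧ kashaev β (m * s.1 ^ s.2) = 0) →
      ∑ s ∈ S, Real.log s.1 ≤ (C * (1 + Real.log m) ^ 6) ^ (m.primeFactors.card + 1) ∧
      (kashaev β m ≠ 0 → ∑ s ∈ S, Real.log s.1 ≤ C * Real.log m ^ 4) :=
  exceptional_prime_powers β hβ

end Pool.Agent.Results.MP_b30479_gt.ExceptionalPrimes
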