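import Pool.Agent.Work.MP_b30479_gt.LT.Public

/-!
# The volume conjecture (ratio form) for two-bridge links with long twist regions
-/

namespace Pool.Agent.Work.MP_b30479_gt.ResLongTwist

open Pool.Agent.Work.MP_b30479_gt Pool.Agent.Work.MP_b30479_gt.LT Filter Topology

/-- Let `M ≥ 1`, let `b_0, ..., b_M` be integers of any signs with `|b_i| ≥ 50`, let `L` be the
two-bridge link with the continued fraction `[b_0, -b_1, b_2, ...]` (the two-bridge link of the
braid word `ltWord [b_0, ..., b_M]`), and let `a_n = J_n(L; e^{2πi/n})`.  The logarithmic edge and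
filling equations of the complement of `L` (`2 M` ideal octahedra, each cut into four ideal
tetrahedra) have exactly one solution with positively oriented tetrahedra.  For every orientation
of `L`, `a_n ≠ 0` for all large odd `n`, the ratio `a_{n+2}/a_n` converges in `ℂ`, as `n → ∞`
through the odd integers, to `(-i)^{∑ b_i} e^{2T}`, where `T` is the value of the potential at
this solution, and `π log |a_{n+2}/a_n|` converges to the sum `volL y ζ > 0` of the Bloch-Wigner
dilogarithms of the `8 M` shapes, the volume. -/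
theorem result {M : ℕ} (hM : 1 ≤ M) (b : Fin (M + 1) → ℤ) (hb : ∀ i, 50 ≤ |b i|) :
    ∃ (y : Fin M → ℂ) (ζ : Fin (M + 1) → ℂ),
      (Geom b y ζ ∧ ∀ y' ζ', Geom b y' ζ' → y' = y ∧ ζ' = ζ) ∧
      0 < volL y ζ ∧
      (∃ δ, IsOrientation (ltWord (List.ofFn b)) δ) ∧
      ∀ δ, IsOrientation (ltWord (List.ofFn b)) δ →
        (∀ᶠ s : ℕ in atTop, twoBridgeKashaev (ltWord (List.ofFn b)) δ (2 * s + 1) ≠ 0) ∧
        Tendsto (fun s : ℕ => twoBridgeKashaev (ltWord (List.ofFn b)) δ (2 * s + 3) /
          twoBridgeKashaev (ltWord (List.ofFn b)) δ (2 * s + 1)) atTop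
          (𝓝 ((-Complex.I) ^ (∑ i, b i) * Complex.exp (2 * TT b y ζ))) ∧
        Tendsto (fun s : ℕ => Real.pi *
          Real.log ‖twoBridgeKashaev (ltWord (List.ofFn b)) δ (2 * s + 3) /
            twoBridgeKashaev (ltWord (List.ofFn b)) δ (2 * s + 1)‖) atTop (𝓝 (volL y ζ)) :=
  pub hM b hb

end Pool.Agent.Work.MP_b30479_gt.ResLongTwist
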