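import Pool.Agent.Work.MP_b30479_gt.TB.CS

/-!
# Positivity of the Kashaev invariants of amphichiral (palindromic) two-bridge links
-/

namespace Pool.Agent.Work.MP_b30479_gt.ResTwoBridgePositivity

open Pool.Agent.Work.MP_b30479_gt

/-- Let `t` be any primitive root of unity of odd order `n = 2s+1`, let `w` be a word in the
generators of `B_3`, and let `w*` be the word `w` read backwards, with the two generators
exchanged and all crossings changed (`mirrorRev w`).  Let `L_w` be the two-bridge link of `w`.
The value at `t` of the coloured Jones polynomial `J_n` of the palindromic two-bridge link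
`L_{w* w}` is a power of `t` (the framing factor of the chosen orientation) times a positive real
number, and it is a positive real number if `L_{w* w}` is a knot. -/
theorem result (s : ℕ) (t : ℂˣ) (ht : IsPrimitiveRoot (t : ℂ) (2 * s + 1))
    (w : List (Fin 2 × Bool)) :
    (∃ δ, IsOrientation (mirrorRev w ++ w) δ) ∧
    (∃ r : ℝ, 0 < r ∧ ∀ δ, IsOrientation (mirrorRev w ++ w) δ →
      twoBridgeJones s (mirrorRev w ++ w) δ t =
        ((t ^ (-(orientedWrithe (mirrorRev w ++ w) ![1, δ, -δ] * (s * (s + 1)))) : ℂˣ) : ℂ) * r) ∧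
    (IsTwoBridgeKnot (mirrorRev w ++ w) → ∀ δ, IsOrientation (mirrorRev w ++ w) δ →
      ∃ r : ℝ, 0 < r ∧ twoBridgeJones s (mirrorRev w ++ w) δ t = r) := by
  refine ⟨TB.exists_orientation _, ?_, ?_⟩
  · obtain ⟨r, hr, hr'⟩ := TB.tangleValue_pos ht w
    refine ⟨r, hr, fun δ _ => ?_⟩
    unfold twoBridgeJones
    rw [hr']
  · intro hk δ hδ
    exact TB.twoBridgeJones_pos ht w hδ hk

end Pool.Agent.Work.MP_b30479_gt.ResTwoBridgePositivity
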