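import Mathlib

/-!
# Sums of `1 / |1 - w|` over roots of unity
-/

namespace Pool.Agent.Work.MP_b30479_gt

open Finset

/-- reciprocal distance to `1` (with value `0` at `1`) -/
noncomputable def rd (x : ℂ) : ℝ := ‖1 - x‖⁻¹

lemma rd_nonneg (x : ℂ) : 0 ≤ rd x := inv_nonneg.mpr (norm_nonneg _)

lemma rd_one : rd 1 = 0 := by simp [rd]

/-- the standard primitive `m`-th root of unity -/
noncomputable def root (m : ℕ) : ℂ := Complex.exp (2 * Real.pi * Complex.I / m)

lemma root_prim {m : ℕ} (hm : 0 < m) : IsPrimitiveRoot (root m) m :=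
  Complex.isPrimitiveRoot_exp m hm.ne'

lemma two_mul_le_sin {x : ℝ} (h0 : 0 ≤ x) (h1 : x ≤ 1) :
    2 * x * (1 - x) ≤ Real.sin (Real.pi * x) := by
  have hpi := Real.pi_pos
  rcases le_total x (1 / 2) with h | h
  · have := Real.mul_le_sin (x := Real.pi * x) (by positivity) (by nlinarith)
    have e : 2 / Real.pi * (Real.pi * x) = 2 * x := by field_simp
    rw [e] at this
    nlinarith
  · have := Real.mul_le_sin (x := Real.pi * (1 - x)) (by nlinarith) (by nlinarith)
    have e : 2 / Real.pi * (Real.pi * (1 - x)) = 2 * (1 - x) := by field_simp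
    rw [e, show Real.pi * (1 - x) = Real.pi - Real.pi * x by ring, Real.sin_pi_sub] at this
    nlinarith

lemma root_pow (m c : ℕ) : root m ^ c = Complex.exp (Complex.I * ((2 * Real.pi * (c / m) : ℝ) : ℂ)) := by
  unfold root
  rw [← Complex.exp_nat_mul]
  congr 1
  push_cast
  ring

lemma norm_one_sub_root_pow (m c : ℕ) :
    ‖1 - root m ^ c‖ = |2 * Real.sin (Real.pi * (c / m))| := by
  rw [norm_sub_rev, root_pow, Complex.norm_exp_I_mul_ofReal_sub_one, Real.norm_eq_abs]
  congr 3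
  ring

lemma rd_root_pow_le {m c : ℕ} (hc : 0 < c) (hcm : c < m) :
    rd (root m ^ c) ≤ (m : ℝ) / 4 * ((c : ℝ)⁻¹ + ((m - c : ℕ) : ℝ)⁻¹) := by
  have hm : (0 : ℝ) < m := by exact_mod_cast (by omega : 0 < m)
  have hc' : (0 : ℝ) < c := by exact_mod_cast hc
  have hmc : (0 : ℝ) < (m : ℝ) - c := by
    have : (c : ℝ) < m := by exact_mod_cast hcm
    linarith
  have hx0 : (0 : ℝ) ≤ (c : ℝ) / m := by positivity
  have hx1 : (c : ℝ) / m ≤ 1 := by
    rw [div_le_one hm]; linarith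
  have h := two_mul_le_sin hx0 hx1
  have hpos : 0 < 2 * (2 * ((c : ℝ) / m) * (1 - (c : ℝ) / m)) := by
    have : 0 < 1 - (c : ℝ) / m := by
      rw [sub_pos, div_lt_one hm]; linarith
    positivity
  unfold rd
  rw [norm_one_sub_root_pow, abs_of_nonneg (by linarith)]
  have h2 : (2 * Real.sin (Real.pi * (c / m)))⁻¹ ≤ (2 * (2 * ((c : ℝ) / m) * (1 - (c : ℝ) / m)))⁻¹ :=
    inv_anti₀ hpos (by linarith)
  refine h2.trans (le_of_eq ?_)
  rw [Nat.cast_sub hcm.le]
  field_simp
  ring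

lemma sum_inv_le (m : ℕ) : ∑ c ∈ Ico 1 m, (c : ℝ)⁻¹ ≤ 1 + Real.log m := by
  rcases Nat.eq_zero_or_pos m with h | h
  · subst h; simp
  · have h1 : ∑ c ∈ Ico 1 m, (c : ℝ)⁻¹ = ((harmonic (m - 1) : ℚ) : ℝ) := by
      rw [harmonic]
      push_cast
      rw [Finset.sum_Ico_eq_sum_range]
      apply Finset.sum_congr rfl
      intro i _
      rw [Nat.cast_add, Nat.cast_one, add_comm]
    rw [h1]
    refine (harmonic_le_one_add_log (m - 1)).trans ?_
    rcases Nat.lt_or_ge 1 m with h2 | h2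
    · have : Real.log ((m - 1 : ℕ) : ℝ) ≤ Real.log m := by
        apply Real.log_le_log
        · exact_mod_cast (by omega : 0 < m - 1)
        · exact_mod_cast (by omega : m - 1 ≤ m)
      linarith
    · have : m = 1 := by omega
      subst this
      simp

lemma sum_rd_root_le {m : ℕ} (hm : 0 < m) :
    ∑ c ∈ range m, rd (root m ^ c) ≤ (m : ℝ) / 2 * (1 + Real.log m) := by
  have hm' : (0 : ℝ) < m := by exact_mod_cast hm
  have h0 : ∑ c ∈ range m, rd (root m ^ c) = ∑ c ∈ Ico 1 m, rd (root m ^ c) := by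
    rw [Finset.range_eq_Ico, Finset.sum_eq_sum_Ico_succ_bot hm]
    simp [rd_one]
  have h1 : ∑ c ∈ Ico 1 m, rd (root m ^ c) ≤
      ∑ c ∈ Ico 1 m, (m : ℝ) / 4 * ((c : ℝ)⁻¹ + ((m - c : ℕ) : ℝ)⁻¹) := by
    apply Finset.sum_le_sum
    intro c hc
    rw [Finset.mem_Ico] at hc
    exact rd_root_pow_le (by omega) hc.2
  have h2 : ∑ c ∈ Ico 1 m, ((m - c : ℕ) : ℝ)⁻¹ = ∑ c ∈ Ico 1 m, (c : ℝ)⁻¹ := by
    have := Finset.sum_Ico_reflect (fun c : ℕ => (c : ℝ)⁻¹) 1 (m := m) (n := m) (by omega)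
    rw [this]
    congr 1
    ext x
    simp only [Finset.mem_Ico]
    omega
  rw [h0]
  refine h1.trans ?_
  rw [← Finset.mul_sum, Finset.sum_add_distrib, h2]
  have h3 := sum_inv_le m
  nlinarith

/-- reindexing: powers of two primitive roots of the same order give the same sum -/
lemma sum_prim_eq {m : ℕ} {t z : ℂ} (ht : IsPrimitiveRoot t m) (hz : IsPrimitiveRoot z m)
    (F : ℂ → ℝ) : ∑ c ∈ range m, F (t ^ c) = ∑ c ∈ range m, F (z ^ c) := by
  have h1 := ht.nthRoots_eq (one_pow m)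
  have h2 := hz.nthRoots_eq (one_pow m)
  have h3 : (Multiset.map (fun x => F x) (Polynomial.nthRoots m (1 : ℂ))).sum =
      ∑ c ∈ range m, F (t ^ c) := by
    rw [h1, Multiset.map_map]
    simp only [mul_one]
    rfl
  have h4 : (Multiset.map (fun x => F x) (Polynomial.nthRoots m (1 : ℂ))).sum =
      ∑ c ∈ range m, F (z ^ c) := by
    rw [h2, Multiset.map_map]
    simp only [mul_one]
    rfl
  rw [← h3, h4]

lemma sum_range_mul_periodic {d k : ℕ} (f : ℕ → ℝ) (hf : ∀ n, f (n + k) = f n) :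
    ∑ c ∈ range (d * k), f c = d * ∑ c ∈ range k, f c := by
  have hper : ∀ d n, f (d * k + n) = f n := by
    intro d
    induction d with
    | zero => intro n; simp
    | succ d ih => intro n; rw [Nat.succ_mul, add_assoc, add_comm k n, ← add_assoc, hf, ih]
  induction d with
  | zero => simp
  | succ d ih =>
    rw [Nat.succ_mul, Finset.sum_range_add, ih, Finset.sum_congr rfl (fun n _ => hper d n)]
    push_cast
    ring

/-- for every `m`-th root of unity `x`, `∑_{u mod m} 1/|1 - x^u| ≤ m (1 + log m) / 2` -/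
lemma sum_rd_pow_le {m : ℕ} (hm : 0 < m) {x : ℂ} (hx : x ^ m = 1) :
    ∑ u ∈ range m, rd (x ^ u) ≤ (m : ℝ) / 2 * (1 + Real.log m) := by
  have hord : orderOf x ∣ m := orderOf_dvd_of_pow_eq_one hx
  obtain ⟨d, hd⟩ := hord
  set k := orderOf x with hk
  have hk0 : 0 < k := Nat.pos_of_ne_zero (by rintro h; rw [h, zero_mul] at hd; omega)
  have hd0 : 0 < d := Nat.pos_of_ne_zero (by rintro h; rw [h, mul_zero] at hd; omega)
  have hprim : IsPrimitiveRoot x k := IsPrimitiveRoot.orderOf x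
  have h1 : ∑ u ∈ range m, rd (x ^ u) = d * ∑ u ∈ range k, rd (x ^ u) := by
    rw [hd, mul_comm k d]
    apply sum_range_mul_periodic
    intro n
    rw [pow_add, hk, pow_orderOf_eq_one, mul_one]
  rw [h1, sum_prim_eq hprim (root_prim hk0) rd]
  have h2 := sum_rd_root_le hk0
  have hlog : Real.log k ≤ Real.log m := by
    apply Real.log_le_log
    · exact_mod_cast hk0
    · exact_mod_cast Nat.le_of_dvd hm ⟨d, hd⟩
  have hmd : (m : ℝ) = k * d := by rw [hd]; push_cast; ring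
  have hd' : (0 : ℝ) ≤ d := Nat.cast_nonneg _
  have hk' : (0 : ℝ) ≤ k := Nat.cast_nonneg _
  calc (d : ℝ) * ∑ c ∈ range k, rd (root k ^ c) ≤ d * ((k : ℝ) / 2 * (1 + Real.log k)) :=
        mul_le_mul_of_nonneg_left h2 hd'
    _ = (m : ℝ) / 2 * (1 + Real.log k) := by rw [hmd]; ring
    _ ≤ (m : ℝ) / 2 * (1 + Real.log m) := by
        apply mul_le_mul_of_nonneg_left
        · linarith
        · positivity

end Pool.Agent.Work.MP_b30479_gt
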