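import Pool.Agent.Work.MP_b30479_gt.Descent

/-!
# The state sum over all natural numbers (Verma-type), at `t = w²`, `q^N = 1`
-/

namespace Pool.Agent.Work.MP_b30479_gt

open Finset

/-- coefficient for a positive crossing -/
def vPos {R : Type*} [CommRing R] (w : Rˣ) (i j k : ℕ) : R :=
  ((w ^ ((k : ℤ) + 1 + i + j + k * (k - 1) + 2 * (i - k) * (j + k)) : Rˣ) : R) *
    gauss ((w : R) ^ 2) i k * ∏ a ∈ range k, (((w ^ (-(2 * ((j : ℤ) + 1 + a))) : Rˣ) : R) - 1)

/-- coefficient for a negative crossing -/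
def vNeg {R : Type*} [CommRing R] (w : Rˣ) (i j k : ℕ) : R :=
  (-1) ^ k * ((w ^ (-(1 + (i : ℤ) + j - k) - 2 * i * j) : Rˣ) : R) *
    gauss ((w : R) ^ 2) j k * ∏ a ∈ range k, (((w ^ (-(2 * ((i : ℤ) + 1 + a))) : Rˣ) : R) - 1)

/-- the new state after the crossing `g` with parameter `k` -/
def moved {r : ℕ} (g : Fin r × Bool) (x : Fin (r + 1) → ℕ) (k : ℕ) : Fin (r + 1) → ℕ :=
  Function.update (Function.update x g.1.castSucc
    (if g.2 then x g.1.succ + k else x g.1.succ - k)) g.1.succ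
    (if g.2 then x g.1.castSucc - k else x g.1.castSucc + k)

/-- coefficient of the transition `x → moved g x k` -/
def vCoef {R : Type*} [CommRing R] {r : ℕ} (w : Rˣ) (g : Fin r × Bool) (x : Fin (r + 1) → ℕ)
    (k : ℕ) : R :=
  if g.2 then vPos w (x g.1.castSucc) (x g.1.succ) k else vNeg w (x g.1.castSucc) (x g.1.succ) k

/-- largest allowed `k` -/
def kmax {r : ℕ} (g : Fin r × Bool) (x : Fin (r + 1) → ℕ) : ℕ :=
  if g.2 then x g.1.castSucc else x g.1.succ

/-- image of a basis vector under a crossing -/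
noncomputable def vImg {R : Type*} [CommRing R] {r : ℕ} (w : Rˣ) (g : Fin r × Bool)
    (x : Fin (r + 1) → ℕ) : (Fin (r + 1) → ℕ) →₀ R :=
  ∑ k ∈ range (kmax g x + 1), Finsupp.single (moved g x k) (vCoef w g x k)

/-- coefficient of `y` in the image of `x` under the braid word `β` -/
noncomputable def vBraid {R : Type*} [CommRing R] {r : ℕ} (w : Rˣ) :
    List (Fin r × Bool) → (Fin (r + 1) → ℕ) → ((Fin (r + 1) → ℕ) →₀ R)
  | [], x => Finsupp.single x 1
  | g :: β, x => (vBraid w β x).sum fun z c => c • vImg w g z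

/-- states with coordinates below `D` and `x 0 = 0` -/
def box (r D : ℕ) : Finset (Fin (r + 1) → ℕ) :=
  (Fintype.piFinset fun _ => range D).filter fun x => x 0 = 0

/-- the state sum -/
noncomputable def vSum {R : Type*} [CommRing R] {r : ℕ} (w : Rˣ) (β : List (Fin r × Bool))
    (D : ℕ) : R :=
  ∑ x ∈ box r D, (∏ l : Fin r, ((w ^ (-(1 + 2 * (x l.succ : ℤ))) : Rˣ) : R)) * vBraid w β x x

lemma mem_box {r D : ℕ} {x : Fin (r + 1) → ℕ} : x ∈ box r D ↔ (∀ l, x l < D) ∧ x 0 = 0 := by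
  unfold box
  rw [Finset.mem_filter, Fintype.mem_piFinset]
  simp

/-! ### filtration -/

/-- total increase of the `m`-levels along the strands -/
def dd {r : ℕ} (m : ℕ) (σ : Equiv.Perm (Fin (r + 1))) (x y : Fin (r + 1) → ℕ) : ℕ :=
  ∑ l, (y (σ l) / m - x l / m)

lemma dd_trans {r : ℕ} (m : ℕ) (σ τ : Equiv.Perm (Fin (r + 1))) (x z y : Fin (r + 1) → ℕ) :
    dd m (τ * σ) x y ≤ dd m σ x z + dd m τ z y := by
  unfold dd
  rw [← Equiv.sum_comp σ (fun l => y (τ l) / m - z l / m), ← Finset.sum_add_distrib]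
  apply Finset.sum_le_sum
  intro l _
  rw [Equiv.Perm.mul_apply]
  omega

lemma prod_mem_pow {R : Type*} [CommRing R] {w : Rˣ} {m : ℕ} {I : Ideal R}
    (hI : ∀ a : ℕ, (((w ^ (-(2 * ((m : ℤ) * a))) : Rˣ) : R) - 1) ∈ I) (j k : ℕ) :
    ∏ a ∈ range k, (((w ^ (-(2 * ((j : ℤ) + 1 + a))) : Rˣ) : R) - 1) ∈
      I ^ ((j + k) / m - j / m) := by
  induction k with
  | zero => simp
  | succ k ih =>
    rw [Finset.prod_range_succ]
    have h1 : (j + (k + 1)) / m = (j + k) / m + if m ∣ j + k + 1 then 1 else 0 := by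
      rw [← Nat.add_assoc, Nat.succ_div]
    have h2 : j / m ≤ (j + k) / m := Nat.div_le_div_right (by omega)
    split_ifs at h1 with hd
    · have h3 : (j + (k + 1)) / m - j / m = ((j + k) / m - j / m) + 1 := by omega
      rw [h3, pow_succ]
      apply Ideal.mul_mem_mul ih
      obtain ⟨a, ha⟩ := hd
      have h4 := hI a
      have h5 : (j : ℤ) + 1 + k = m * a := by
        have : ((j + k + 1 : ℕ) : ℤ) = ((m * a : ℕ) : ℤ) := by rw [ha]
        push_cast at this
        linarith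
      rw [h5]
      exact h4
    · have h3 : (j + (k + 1)) / m - j / m = (j + k) / m - j / m := by omega
      rw [h3]
      exact Ideal.mul_mem_right _ _ ih

lemma castSucc_ne_succ' {r : ℕ} (i : Fin r) : i.castSucc ≠ i.succ := by
  intro h
  have := congrArg Fin.val h
  simp at this

lemma moved_castSucc {r : ℕ} (g : Fin r × Bool) (x : Fin (r + 1) → ℕ) (k : ℕ) :
    moved g x k g.1.castSucc = if g.2 then x g.1.succ + k else x g.1.succ - k := by
  unfold moved
  rw [Function.update_of_ne (castSucc_ne_succ' g.1), Function.update_self]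

lemma moved_succ {r : ℕ} (g : Fin r × Bool) (x : Fin (r + 1) → ℕ) (k : ℕ) :
    moved g x k g.1.succ = if g.2 then x g.1.castSucc - k else x g.1.castSucc + k := by
  unfold moved
  rw [Function.update_self]

lemma moved_of_ne {r : ℕ} (g : Fin r × Bool) (x : Fin (r + 1) → ℕ) (k : ℕ) {l : Fin (r + 1)}
    (h1 : l ≠ g.1.castSucc) (h2 : l ≠ g.1.succ) : moved g x k l = x l := by
  unfold moved
  rw [Function.update_of_ne h2, Function.update_of_ne h1]

lemma dd_moved {r : ℕ} (m : ℕ) (g : Fin r × Bool) (x : Fin (r + 1) → ℕ) (k : ℕ) :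
    dd m (Equiv.swap g.1.castSucc g.1.succ) x (moved g x k) =
      if g.2 then (x g.1.succ + k) / m - x g.1.succ / m
      else (x g.1.castSucc + k) / m - x g.1.castSucc / m := by
  unfold dd
  have hne := castSucc_ne_succ' g.1
  rw [← Finset.add_sum_erase _ _ (Finset.mem_univ g.1.castSucc),
    ← Finset.add_sum_erase _ _ (Finset.mem_erase.mpr ⟨hne.symm, Finset.mem_univ g.1.succ⟩)]
  have hrest : ∑ l ∈ (univ.erase g.1.castSucc).erase g.1.succ,
      (moved g x k (Equiv.swap g.1.castSucc g.1.succ l) / m - x l / m) = 0 := by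
    apply Finset.sum_eq_zero
    intro l hl
    rw [Finset.mem_erase, Finset.mem_erase] at hl
    rw [Equiv.swap_apply_of_ne_of_ne hl.2.1 hl.1, moved_of_ne g x k hl.2.1 hl.1]
    omega
  rw [hrest, Equiv.swap_apply_left, Equiv.swap_apply_right, moved_castSucc, moved_succ]
  have hle : ∀ a : ℕ, (a - k) / m ≤ a / m := fun a => Nat.div_le_div_right (by omega)
  split_ifs
  · have := hle (x g.1.castSucc)
    omega
  · have := hle (x g.1.succ)
    omega

lemma vCoef_mem {R : Type*} [CommRing R] {r : ℕ} {w : Rˣ} {m : ℕ} {I : Ideal R}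
    (hI : ∀ a : ℕ, (((w ^ (-(2 * ((m : ℤ) * a))) : Rˣ) : R) - 1) ∈ I) (g : Fin r × Bool)
    (x : Fin (r + 1) → ℕ) (k : ℕ) :
    vCoef w g x k ∈ I ^ dd m (Equiv.swap g.1.castSucc g.1.succ) x (moved g x k) := by
  rw [dd_moved]
  unfold vCoef
  split_ifs
  · exact Ideal.mul_mem_left _ _ (prod_mem_pow hI _ _)
  · exact Ideal.mul_mem_left _ _ (prod_mem_pow hI _ _)

lemma vImg_mem {R : Type*} [CommRing R] {r : ℕ} {w : Rˣ} {m : ℕ} {I : Ideal R}
    (hI : ∀ a : ℕ, (((w ^ (-(2 * ((m : ℤ) * a))) : Rˣ) : R) - 1) ∈ I) (g : Fin r × Bool)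
    (x y : Fin (r + 1) → ℕ) :
    vImg w g x y ∈ I ^ dd m (Equiv.swap g.1.castSucc g.1.succ) x y := by
  unfold vImg
  rw [Finsupp.finsetSum_apply]
  apply Ideal.sum_mem
  intro k _
  rw [Finsupp.single_apply]
  split_ifs with h
  · rw [← h]
    exact vCoef_mem hI g x k
  · exact Ideal.zero_mem _

lemma vBraid_mem {R : Type*} [CommRing R] {r : ℕ} {w : Rˣ} {m : ℕ} {I : Ideal R}
    (hI : ∀ a : ℕ, (((w ^ (-(2 * ((m : ℤ) * a))) : Rˣ) : R) - 1) ∈ I)
    (β : List (Fin r × Bool)) (x y : Fin (r + 1) → ℕ) :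
    vBraid w β x y ∈ I ^ dd m (braidPerm β) x y := by
  induction β generalizing y with
  | nil =>
    show (Finsupp.single x (1 : R)) y ∈ _
    rw [Finsupp.single_apply]
    split_ifs with h
    · subst h
      have : dd m (braidPerm []) x x = 0 := by
        unfold dd braidPerm
        simp
      rw [this, pow_zero, Ideal.one_eq_top]
      trivial
    · exact Ideal.zero_mem _
  | cons g β ih =>
    have e3 : braidPerm (g :: β) = Equiv.swap g.1.castSucc g.1.succ * braidPerm β := by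
      unfold braidPerm; simp
    show ((vBraid w β x).sum fun z c => c • vImg w g z) y ∈ _
    rw [e3, Finsupp.sum_apply]
    apply Ideal.sum_mem
    intro z _
    show (vBraid w β x z • vImg w g z) y ∈ _
    rw [Finsupp.smul_apply, smul_eq_mul]
    have h1 := Ideal.mul_mem_mul (ih z) (vImg_mem hI g z y)
    rw [← pow_add] at h1
    exact Ideal.pow_le_pow_right (dd_trans m _ _ x z y) h1

/-- along a single cycle the level has to be climbed -/
lemma le_dd {r : ℕ} (m : ℕ) {σ : Equiv.Perm (Fin (r + 1))} (hσ : ∀ i j, σ.SameCycle i j)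
    {x : Fin (r + 1) → ℕ} (hx : x 0 = 0) (l : Fin (r + 1)) : x l / m ≤ dd m σ x x := by
  classical
  have key : ∀ b ∈ Icc 1 (x l / m), ∃ i, x i / m < b ∧ b ≤ x (σ i) / m := by
    intro b hb
    rw [Finset.mem_Icc] at hb
    by_contra hcon
    push Not at hcon
    set S := univ.filter (fun i => x i / m < b) with hS
    have hsub : S.map σ.toEmbedding ⊆ S := by
      intro i hi
      rw [Finset.mem_map] at hi
      obtain ⟨i', hi', rfl⟩ := hi
      rw [hS, Finset.mem_filter] at hi' ⊢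
      exact ⟨Finset.mem_univ _, hcon i' hi'.2⟩
    have heq : S.map σ.toEmbedding = S := Finset.eq_of_subset_of_card_le hsub (by
      rw [Finset.card_map])
    have hiff : ∀ i, i ∈ S ↔ σ i ∈ S := by
      intro i
      constructor
      · intro hi
        exact hsub (Finset.mem_map.mpr ⟨i, hi, rfl⟩)
      · intro hi
        rw [← heq, Finset.mem_map] at hi
        obtain ⟨i', hi', he⟩ := hi
        have : i' = i := σ.injective he
        rwa [← this]
    have hz : ∀ k : ℤ, ∀ i, i ∈ S ↔ (σ ^ k) i ∈ S := by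
      intro k
      induction k using Int.induction_on with
      | zero => intro i; simp
      | succ n ih => intro i; rw [zpow_add_one, Equiv.Perm.mul_apply, ← ih, ← hiff]
      | pred n ih =>
        intro i
        rw [zpow_sub_one, Equiv.Perm.mul_apply, ← ih, hiff (σ⁻¹ i)]
        simp
    obtain ⟨k, hk⟩ := hσ 0 l
    have h0 : (0 : Fin (r + 1)) ∈ S := by
      rw [hS, Finset.mem_filter]
      refine ⟨Finset.mem_univ _, ?_⟩
      rw [hx]
      simp
      omega
    have h1 := (hz k 0).mp h0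
    rw [hk, hS, Finset.mem_filter] at h1
    omega
  have h1 : Icc 1 (x l / m) ⊆ univ.biUnion (fun i => Ioc (x i / m) (x (σ i) / m)) := by
    intro b hb
    obtain ⟨i, hi1, hi2⟩ := key b hb
    exact Finset.mem_biUnion.mpr ⟨i, Finset.mem_univ _, Finset.mem_Ioc.mpr ⟨hi1, hi2⟩⟩
  have h2 := (Finset.card_le_card h1).trans Finset.card_biUnion_le
  simp only [Nat.card_Icc, Nat.card_Ioc] at h2
  unfold dd
  omega

lemma vBraid_mem_pow {R : Type*} [CommRing R] {r : ℕ} {w : Rˣ} {m : ℕ} {I : Ideal R}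
    (hI : ∀ a : ℕ, (((w ^ (-(2 * ((m : ℤ) * a))) : Rˣ) : R) - 1) ∈ I)
    {β : List (Fin r × Bool)} (hβ : IsKnot β) {x : Fin (r + 1) → ℕ} (hx : x 0 = 0) {i : ℕ}
    {l : Fin (r + 1)} (hm : 0 < m) (hl : m * i ≤ x l) : vBraid w β x x ∈ I ^ i := by
  have h1 : i ≤ x l / m := by
    rw [Nat.le_div_iff_mul_le hm, mul_comm]
    exact hl
  exact Ideal.pow_le_pow_right (h1.trans (le_dd m hβ hx l)) (vBraid_mem hI β x x)

/-- stability of the state sum -/
theorem vSum_stable {R : Type*} [CommRing R] {r : ℕ} {w : Rˣ} {m i : ℕ} (hm : 0 < m)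
    (hw : (((w ^ m : Rˣ) : R) - 1) ^ i = 0) {β : List (Fin r × Bool)} (hβ : IsKnot β)
    {D D' : ℕ} (hD : m * i ≤ D) (hDD : D ≤ D') : vSum w β D' = vSum w β D := by
  unfold vSum
  symm
  apply Finset.sum_subset
  · intro x hx
    rw [mem_box] at hx ⊢
    exact ⟨fun l => (hx.1 l).trans_le hDD, hx.2⟩
  · intro x hx hxn
    rw [mem_box] at hx hxn
    have h1 : ∃ l, D ≤ x l := by
      by_contra hcon
      push Not at hcon
      exact hxn ⟨hcon, hx.2⟩
    obtain ⟨l, hl⟩ := h1
    have hI : ∀ a : ℕ, (((w ^ (-(2 * ((m : ℤ) * a))) : Rˣ) : R) - 1) ∈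
        Ideal.span {((w ^ m : Rˣ) : R) - 1} := by
      intro a
      have h2 : w ^ (-(2 * ((m : ℤ) * a))) = ((w ^ m)⁻¹) ^ (2 * a) := by
        rw [← zpow_natCast w m, ← zpow_neg, ← zpow_natCast, ← zpow_mul]
        congr 1
        push_cast
        ring
      have e5 : ((((w ^ m)⁻¹) ^ (2 * a) : Rˣ) : R) = (((w ^ m)⁻¹ : Rˣ) : R) ^ (2 * a) :=
        Units.val_pow_eq_pow_val _ _
      rw [h2, e5, Ideal.mem_span_singleton]
      have h3 : (((w ^ m)⁻¹ : Rˣ) : R) - 1 ∣ (((w ^ m)⁻¹ : Rˣ) : R) ^ (2 * a) - 1 :=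
        sub_one_dvd_pow_sub_one _ _
      refine dvd_trans ?_ h3
      refine ⟨-(((w ^ m)⁻¹ : Rˣ) : R), ?_⟩
      have h4 : ((w ^ m : Rˣ) : R) * (((w ^ m)⁻¹ : Rˣ) : R) = 1 := Units.mul_inv _
      linear_combination h4
    have h2 := vBraid_mem_pow hI hβ hx.2 hm (hD.trans hl)
    rw [Ideal.span_singleton_pow, hw, Ideal.mem_span_singleton, zero_dvd_iff] at h2
    rw [h2, mul_zero]

end Pool.Agent.Work.MP_b30479_gt
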