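import Pool.Agent.Work.MP_b30479_gt.Verma

/-!
# The Verma-type state sum equals the coloured Jones polynomial at roots of unity
-/

namespace Pool.Agent.Work.MP_b30479_gt

open Finset

section
variable {R : Type*} [CommRing R]

/-- rescaling factor -/
def rho (w : Rˣ) (a : ℕ) : R := (-1) ^ a * ((w ^ (a * (a + 1)) : Rˣ) : R)

lemma rho_isUnit (w : Rˣ) (a : ℕ) : IsUnit (rho w a) := by
  unfold rho
  exact IsUnit.mul (IsUnit.pow _ isUnit_one.neg) (Units.isUnit _)

lemma prod_inv_sub_one (w : Rˣ) (j k : ℕ) :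
    ∏ a ∈ range k, (((w ^ (-(2 * ((j : ℤ) + 1 + a))) : Rˣ) : R) - 1) =
      (-1) ^ k * ((w ^ (-(2 * (k : ℤ) * j + k * (k + 1))) : Rˣ) : R) *
        ∏ a ∈ range k, (((w ^ 2 : Rˣ) : R) ^ (j + 1 + a) - 1) := by
  induction k with
  | zero => simp
  | succ k ih =>
    rw [Finset.prod_range_succ, ih, Finset.prod_range_succ]
    have h1 : (((w ^ (-(2 * ((j : ℤ) + 1 + k))) : Rˣ) : R) - 1) =
        -(((w ^ (-(2 * ((j : ℤ) + 1 + k))) : Rˣ) : R) *
          (((w ^ 2 : Rˣ) : R) ^ (j + 1 + k) - 1)) := by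
      have h2 : ((w ^ (-(2 * ((j : ℤ) + 1 + k))) : Rˣ) : R) * ((w ^ 2 : Rˣ) : R) ^ (j + 1 + k) =
          1 := by
        rw [← Units.val_pow_eq_pow_val, ← Units.val_mul, ← pow_mul, ← zpow_natCast, ← zpow_add]
        rw [show (-(2 * ((j : ℤ) + 1 + k)) + ((2 * (j + 1 + k) : ℕ) : ℤ)) = 0 by push_cast; ring,
          zpow_zero, Units.val_one]
      linear_combination h2
    have h3 : ((w ^ (-(2 * ((k + 1 : ℕ) : ℤ) * j + ((k + 1 : ℕ) : ℤ) * (((k + 1 : ℕ) : ℤ) + 1))) : Rˣ) : R) =
        ((w ^ (-(2 * (k : ℤ) * j + k * (k + 1))) : Rˣ) : R) *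
        ((w ^ (-(2 * ((j : ℤ) + 1 + k))) : Rˣ) : R) := by
      rw [← Units.val_mul, ← zpow_add]
      congr 2
      push_cast
      ring
    rw [h1, h3]
    ring

end

section
variable {R : Type*} [CommRing R] [IsDomain R]

lemma gauss_flip {s : ℕ} {t : Rˣ} (ht : IsPrimitiveRoot (t : R) (2 * s + 1)) {i k : ℕ}
    (hk : k ≤ i) (hi : i ≤ 2 * s) :
    gauss (t : R) (2 * s - i + k) k * ((t ^ (k * (i + 1 - k) + k.choose 2) : Rˣ) : R) =
      (-1) ^ k * gauss (t : R) i k := by
  have hne : ∏ a ∈ range k, ((t : R) ^ (a + 1) - 1) ≠ 0 := by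
    rw [Finset.prod_ne_zero_iff]
    intro a ha
    rw [Finset.mem_range] at ha
    exact sub_ne_zero.mpr (ht.pow_ne_one_of_pos_of_lt (by omega) (by omega))
  apply mul_right_cancel₀ hne
  have h1 := gauss_mul_prod (t : R) (n := 2 * s - i + k) (k := k) (by omega)
  have h2 := gauss_mul_prod (t : R) (n := i) (k := k) hk
  have h3 : (∏ a ∈ range k, ((t : R) ^ (2 * s - i + k - a) - 1)) *
      ((t ^ (k * (i + 1 - k) + k.choose 2) : Rˣ) : R) =
      (-1) ^ k * ∏ a ∈ range k, ((t : R) ^ (i - a) - 1) := by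
    have h4 : ∏ a ∈ range k, ((t : R) ^ (i - a) - 1) =
        ∏ a ∈ range k, ((t : R) ^ (i + 1 - k + a) - 1) := by
      rw [← Finset.prod_range_reflect]
      apply Finset.prod_congr rfl
      intro a ha
      rw [Finset.mem_range] at ha
      congr 2
      omega
    have h5 : ((t ^ (k * (i + 1 - k) + k.choose 2) : Rˣ) : R) =
        ∏ a ∈ range k, (t : R) ^ (i + 1 - k + a) := by
      rw [Finset.prod_pow_eq_pow_sum, Finset.sum_add_distrib, Finset.sum_const, Finset.card_range,
        smul_eq_mul, Finset.sum_range_id, Nat.choose_two_right, Units.val_pow_eq_pow_val]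
    have hneg : ((-1 : R)) ^ k = ∏ _a ∈ range k, (-1 : R) := by
      rw [Finset.prod_const, Finset.card_range]
    rw [h4, h5, hneg, ← Finset.prod_mul_distrib, ← Finset.prod_mul_distrib]
    apply Finset.prod_congr rfl
    intro a ha
    rw [Finset.mem_range] at ha
    have h6 : (t : R) ^ (2 * s - i + k - a) * (t : R) ^ (i + 1 - k + a) = 1 := by
      rw [← pow_add, show 2 * s - i + k - a + (i + 1 - k + a) = 2 * s + 1 by omega]
      exact ht.pow_eq_one
    linear_combination h6
  calc gauss (t : R) (2 * s - i + k) k * ((t ^ (k * (i + 1 - k) + k.choose 2) : Rˣ) : R) *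
        ∏ a ∈ range k, ((t : R) ^ (a + 1) - 1)
      = (gauss (t : R) (2 * s - i + k) k * ∏ a ∈ range k, ((t : R) ^ (a + 1) - 1)) *
        ((t ^ (k * (i + 1 - k) + k.choose 2) : Rˣ) : R) := by ring
    _ = (-1) ^ k * ∏ a ∈ range k, ((t : R) ^ (i - a) - 1) := by rw [h1, h3]
    _ = (-1) ^ k * gauss (t : R) i k * ∏ a ∈ range k, ((t : R) ^ (a + 1) - 1) := by
        rw [mul_assoc, h2]

lemma zpow_eq_of_dvd {w : Rˣ} {n : ℕ} (hw : w ^ n = 1) {x y : ℤ} (h : (n : ℤ) ∣ x - y) :
    w ^ x = w ^ y := by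
  obtain ⟨z, hz⟩ := h
  exact zpow_congr hw (z := z) (by linarith)

lemma choose_two_cast (k : ℕ) : (2 : ℤ) * (k.choose 2 : ℤ) = k * (k - 1) := by
  have h := Nat.choose_two_right k
  have h2 : 2 * k.choose 2 = k * (k - 1) := by
    rw [h]
    exact Nat.mul_div_cancel' (Nat.even_mul_pred_self k).two_dvd
  rcases Nat.eq_zero_or_pos k with hk | hk
  · subst hk; simp
  · have h3 : ((2 * k.choose 2 : ℕ) : ℤ) = ((k * (k - 1) : ℕ) : ℤ) := by rw [h2]
    push_cast [Nat.cast_sub hk] at h3
    linarith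

lemma vPos_eq {s : ℕ} {w : Rˣ} (hw : IsPrimitiveRoot (w : R) (2 * s + 1)) {i j k : ℕ}
    (hk : k ≤ i) (hi : i ≤ 2 * s) :
    vPos w i j k * (rho w (j + k) * rho w (i - k)) =
      rho w i * rho w j * (((w ^ 2) ^ (-((s : ℤ) * (s + 1))) : Rˣ) : R) *
        coeffPos s (w ^ 2) i j k := by
  have hwn : w ^ (2 * s + 1) = 1 := by
    apply Units.ext
    rw [Units.val_pow_eq_pow_val, hw.pow_eq_one, Units.val_one]
  have ht : IsPrimitiveRoot (((w ^ 2 : Rˣ) : Rˣ) : R) (2 * s + 1) := by
    rw [Units.val_pow_eq_pow_val]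
    exact hw.pow_of_coprime 2 (by
      rw [Nat.coprime_two_left]
      exact ⟨s, rfl⟩)
  have hflip := gauss_flip ht hk hi
  obtain ⟨d, rfl⟩ := Nat.exists_eq_add_of_le hk
  have hsub : k + d - k = d := by omega
  have hsub1 : k + d + 1 - k = d + 1 := by omega
  rw [hsub1] at hflip
  unfold vPos coeffPos
  rw [hsub, prod_inv_sub_one]
  -- replace the flipped gauss
  set P := ∏ a ∈ range k, (((w ^ 2 : Rˣ) : R) ^ (j + 1 + a) - 1) with hP
  have hT : IsUnit ((((w ^ 2) ^ (k * (d + 1) + k.choose 2) : Rˣ)) : R) := Units.isUnit _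
  apply hT.mul_right_cancel
  have hcast : ((w : R)) ^ 2 = ((w ^ 2 : Rˣ) : R) := (Units.val_pow_eq_pow_val _ _).symm
  rw [hcast]
  unfold rho
  have key : ((w ^ ((k : ℤ) + 1 + ((k + d : ℕ) : ℤ) + j + k * (k - 1) +
      2 * (((k + d : ℕ) : ℤ) - k) * (j + k)) : Rˣ) : R) *
      ((w ^ (-(2 * (k : ℤ) * j + k * (k + 1))) : Rˣ) : R) *
      ((w ^ ((j + k) * (j + k + 1)) : Rˣ) : R) * ((w ^ (d * (d + 1)) : Rˣ) : R) *
      ((((w ^ 2) ^ (k * (d + 1) + k.choose 2) : Rˣ)) : R) =
      ((w ^ ((k + d) * (k + d + 1)) : Rˣ) : R) * ((w ^ (j * (j + 1)) : Rˣ) : R) *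
      (((w ^ 2) ^ (-((s : ℤ) * (s + 1))) : Rˣ) : R) *
      (((w ^ 2) ^ ((k.choose 2 : ℤ) - s * k +
        ((s : ℤ) - ((k + d : ℕ) : ℤ) + k) * ((s : ℤ) - j - k)) : Rˣ) : R) := by
    simp only [← Units.val_mul]
    congr 1
    simp only [← zpow_natCast, ← zpow_mul, ← zpow_add]
    apply zpow_eq_of_dvd hwn
    refine ⟨1 + (k + d) + j + k, ?_⟩
    have hc := choose_two_cast k
    push_cast
    linear_combination 0 * hc
  have hg : gauss ((w ^ 2 : Rˣ) : R) (2 * s - (k + d) + k) k *
      ((((w ^ 2) ^ (k * (d + 1) + k.choose 2) : Rˣ)) : R) =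
      (-1) ^ k * gauss ((w ^ 2 : Rˣ) : R) (k + d) k := hflip
  have hsq : ((-1 : R) ^ k) * ((-1 : R) ^ k) = 1 := by
    rw [← mul_pow]; simp
  have hs1 : (-1 : R) ^ (j + k) * (-1) ^ d = (-1) ^ (k + d) * (-1) ^ j := by
    rw [← pow_add, ← pow_add]; congr 1; ring
  linear_combination (gauss ((w ^ 2 : Rˣ) : R) (k + d) k * P * (-1) ^ k * ((-1) ^ (j + k) * (-1) ^ d)) * key
    - (P * (-1) ^ k * (-1) ^ j * (-1) ^ d * (((w ^ ((k + d) * (k + d + 1)) : Rˣ) : R) *
      ((w ^ (j * (j + 1)) : Rˣ) : R) * (((w ^ 2) ^ (-((s : ℤ) * (s + 1))) : Rˣ) : R) *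
      (((w ^ 2) ^ ((k.choose 2 : ℤ) - s * k +
        ((s : ℤ) - ((k + d : ℕ) : ℤ) + k) * ((s : ℤ) - j - k)) : Rˣ) : R))) * hg

lemma vNeg_eq {s : ℕ} {w : Rˣ} (hw : IsPrimitiveRoot (w : R) (2 * s + 1)) {i j k : ℕ}
    (hk : k ≤ j) (hj : j ≤ 2 * s) :
    vNeg w i j k * (rho w (j - k) * rho w (i + k)) =
      rho w i * rho w j * (((w ^ 2) ^ ((s : ℤ) * (s + 1)) : Rˣ) : R) *
        coeffNeg s (w ^ 2) i j k := by
  have hwn : w ^ (2 * s + 1) = 1 := by
    apply Units.ext
    rw [Units.val_pow_eq_pow_val, hw.pow_eq_one, Units.val_one]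
  have ht : IsPrimitiveRoot (((w ^ 2 : Rˣ) : Rˣ) : R) (2 * s + 1) := by
    rw [Units.val_pow_eq_pow_val]
    exact hw.pow_of_coprime 2 (by
      rw [Nat.coprime_two_left]
      exact ⟨s, rfl⟩)
  have hflip := gauss_flip ht hk hj
  obtain ⟨d, rfl⟩ := Nat.exists_eq_add_of_le hk
  have hsub : k + d - k = d := by omega
  have hsub1 : k + d + 1 - k = d + 1 := by omega
  rw [hsub1] at hflip
  unfold vNeg coeffNeg
  rw [hsub, prod_inv_sub_one]
  set P := ∏ a ∈ range k, (((w ^ 2 : Rˣ) : R) ^ (i + 1 + a) - 1) with hP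
  have hT : IsUnit ((((w ^ 2) ^ (k * (d + 1) + k.choose 2) : Rˣ)) : R) := Units.isUnit _
  apply hT.mul_right_cancel
  have hcast : ((w : R)) ^ 2 = ((w ^ 2 : Rˣ) : R) := (Units.val_pow_eq_pow_val _ _).symm
  rw [hcast]
  unfold rho
  have key : ((w ^ (-(1 + (i : ℤ) + ((k + d : ℕ) : ℤ) - k) - 2 * i * ((k + d : ℕ) : ℤ)) : Rˣ) : R) *
      ((w ^ (-(2 * (k : ℤ) * i + k * (k + 1))) : Rˣ) : R) *
      ((w ^ (d * (d + 1)) : Rˣ) : R) * ((w ^ ((i + k) * (i + k + 1)) : Rˣ) : R) *
      ((((w ^ 2) ^ (k * (d + 1) + k.choose 2) : Rˣ)) : R) =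
      ((w ^ (i * (i + 1)) : Rˣ) : R) * ((w ^ ((k + d) * (k + d + 1)) : Rˣ) : R) *
      (((w ^ 2) ^ ((s : ℤ) * (s + 1)) : Rˣ) : R) *
      (((w ^ 2) ^ (-(s : ℤ) * k - ((s : ℤ) - i) * ((s : ℤ) - ((k + d : ℕ) : ℤ))) : Rˣ) : R) := by
    simp only [← Units.val_mul]
    congr 1
    simp only [← zpow_natCast, ← zpow_mul, ← zpow_add]
    apply zpow_eq_of_dvd hwn
    refine ⟨-(1 + i + (k + d) - k), ?_⟩
    have hc := choose_two_cast k
    push_cast
    linear_combination hc
  have hg : gauss ((w ^ 2 : Rˣ) : R) (2 * s - (k + d) + k) k *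
      ((((w ^ 2) ^ (k * (d + 1) + k.choose 2) : Rˣ)) : R) =
      (-1) ^ k * gauss ((w ^ 2 : Rˣ) : R) (k + d) k := hflip
  have hsq : ((-1 : R) ^ k) * ((-1 : R) ^ k) = 1 := by
    rw [← mul_pow]; simp
  linear_combination (gauss ((w ^ 2 : Rˣ) : R) (k + d) k * P * (-1) ^ k * (-1) ^ k *
      ((-1) ^ d * (-1) ^ (i + k))) * key
    - (P * (-1) ^ k * (-1) ^ k * (-1) ^ i * (-1) ^ d * (((w ^ (i * (i + 1)) : Rˣ) : R) *
      ((w ^ ((k + d) * (k + d + 1)) : Rˣ) : R) * (((w ^ 2) ^ ((s : ℤ) * (s + 1)) : Rˣ) : R) *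
      (((w ^ 2) ^ (-(s : ℤ) * k - ((s : ℤ) - i) * ((s : ℤ) - ((k + d : ℕ) : ℤ))) : Rˣ) : R))) * hg

end

/-! ### matrix level -/

section
variable {R : Type*} [CommRing R]

/-- the values of a state with bounded coordinates -/
def emb {r n : ℕ} (x : Fin (r + 1) → Fin n) : Fin (r + 1) → ℕ := fun l => x l

lemma emb_injective {r n : ℕ} : Function.Injective (emb (r := r) (n := n)) := by
  intro x y h
  funext l
  exact Fin.ext (congrFun h l)

lemma vImg_apply {r : ℕ} (w : Rˣ) (g : Fin r × Bool) (x y : Fin (r + 1) → ℕ) :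
    vImg w g x y = if (∀ l, l ≠ g.1.castSucc → l ≠ g.1.succ → y l = x l) then
      (if g.2 then
        (if x g.1.succ ≤ y g.1.castSucc ∧
          y g.1.castSucc + y g.1.succ = x g.1.castSucc + x g.1.succ then
          vPos w (x g.1.castSucc) (x g.1.succ) (y g.1.castSucc - x g.1.succ) else 0)
      else
        (if x g.1.castSucc ≤ y g.1.succ ∧
          y g.1.castSucc + y g.1.succ = x g.1.castSucc + x g.1.succ then
          vNeg w (x g.1.castSucc) (x g.1.succ) (y g.1.succ - x g.1.castSucc) else 0))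
      else 0 := by
  unfold vImg
  rw [Finsupp.finsetSum_apply]
  simp only [Finsupp.single_apply]
  have hne := castSucc_ne_succ' g.1
  obtain ⟨i, b⟩ := g
  cases b with
  | true =>
    simp only [if_true]
    have hmoved : ∀ k, moved (i, true) x k = y ↔
        (∀ l, l ≠ i.castSucc → l ≠ i.succ → y l = x l) ∧ y i.castSucc = x i.succ + k ∧
          y i.succ = x i.castSucc - k := by
      intro k
      constructor
      · intro h
        rw [← h]
        refine ⟨fun l h1 h2 => moved_of_ne _ x k h1 h2, ?_, ?_⟩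
        · rw [moved_castSucc (i, true)]; simp
        · rw [moved_succ (i, true)]; simp
      · rintro ⟨h1, h2, h3⟩
        funext l
        by_cases hl1 : l = i.castSucc
        · subst hl1
          rw [moved_castSucc (i, true), h2]; simp
        · by_cases hl2 : l = i.succ
          · subst hl2
            rw [moved_succ (i, true), h3]; simp
          · rw [moved_of_ne (i, true) x k hl1 hl2, h1 l hl1 hl2]
    simp only [hmoved]
    by_cases hc : ∀ l, l ≠ i.castSucc → l ≠ i.succ → y l = x l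
    · rw [if_pos hc]
      by_cases hd : x i.succ ≤ y i.castSucc ∧ y i.castSucc + y i.succ = x i.castSucc + x i.succ
      · rw [if_pos hd, Finset.sum_eq_single (y i.castSucc - x i.succ)]
        · rw [if_pos ⟨hc, by omega, by omega⟩]
          simp [vCoef]
        · intro k _ hk
          rw [if_neg]
          rintro ⟨-, h2, -⟩
          omega
        · intro h
          exfalso
          apply h
          rw [Finset.mem_range]
          unfold kmax
          simp only [if_true]
          omega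
      · rw [if_neg hd]
        apply Finset.sum_eq_zero
        intro k hk
        rw [Finset.mem_range] at hk
        unfold kmax at hk
        simp only [if_true] at hk
        rw [if_neg]
        rintro ⟨-, h2, h3⟩
        apply hd
        omega
    · rw [if_neg hc]
      apply Finset.sum_eq_zero
      intro k _
      rw [if_neg (fun h => hc h.1)]
  | false =>
    simp only [Bool.false_eq_true, if_false]
    have hmoved : ∀ k, moved (i, false) x k = y ↔
        (∀ l, l ≠ i.castSucc → l ≠ i.succ → y l = x l) ∧ y i.castSucc = x i.succ - k ∧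
          y i.succ = x i.castSucc + k := by
      intro k
      constructor
      · intro h
        rw [← h]
        refine ⟨fun l h1 h2 => moved_of_ne _ x k h1 h2, ?_, ?_⟩
        · rw [moved_castSucc (i, false)]; simp
        · rw [moved_succ (i, false)]; simp
      · rintro ⟨h1, h2, h3⟩
        funext l
        by_cases hl1 : l = i.castSucc
        · subst hl1
          rw [moved_castSucc (i, false), h2]; simp
        · by_cases hl2 : l = i.succ
          · subst hl2
            rw [moved_succ (i, false), h3]; simp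
          · rw [moved_of_ne (i, false) x k hl1 hl2, h1 l hl1 hl2]
    simp only [hmoved]
    by_cases hc : ∀ l, l ≠ i.castSucc → l ≠ i.succ → y l = x l
    · rw [if_pos hc]
      by_cases hd : x i.castSucc ≤ y i.succ ∧ y i.castSucc + y i.succ = x i.castSucc + x i.succ
      · rw [if_pos hd, Finset.sum_eq_single (y i.succ - x i.castSucc)]
        · rw [if_pos ⟨hc, by omega, by omega⟩]
          simp [vCoef]
        · intro k _ hk
          rw [if_neg]
          rintro ⟨-, -, h2⟩
          omega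
        · intro h
          exfalso
          apply h
          rw [Finset.mem_range]
          unfold kmax
          simp only [Bool.false_eq_true, if_false]
          omega
      · rw [if_neg hd]
        apply Finset.sum_eq_zero
        intro k hk
        rw [Finset.mem_range] at hk
        unfold kmax at hk
        simp only [Bool.false_eq_true, if_false] at hk
        rw [if_neg]
        rintro ⟨-, h2, h3⟩
        apply hd
        omega
    · rw [if_neg hc]
      apply Finset.sum_eq_zero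
      intro k _
      rw [if_neg (fun h => hc h.1)]

/-- product of the rescaling factors -/
def rhoS {r : ℕ} (w : Rˣ) (x : Fin (r + 1) → ℕ) : R := ∏ l, rho w (x l)

lemma rhoS_isUnit {r : ℕ} (w : Rˣ) (x : Fin (r + 1) → ℕ) : IsUnit (rhoS w x) := by
  unfold rhoS
  exact IsUnit.prod_iff.mpr (fun l _ => rho_isUnit w _)

end

section
variable {R : Type*} [CommRing R] [IsDomain R]

lemma crossing_eq {r s : ℕ} {w : Rˣ} (hw : IsPrimitiveRoot (w : R) (2 * s + 1))
    (g : Fin r × Bool) (x y : Fin (r + 1) → Fin (2 * s + 1)) :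
    vImg w g (emb x) (emb y) * rhoS w (emb y) =
      rhoS w (emb x) * (((w ^ 2) ^ (-(if g.2 then (1 : ℤ) else -1) * ((s : ℤ) * (s + 1))) : Rˣ) : R) *
        crossing s (w ^ 2) g y x := by
  rw [vImg_apply]
  unfold crossing
  have hcond : (∀ l, l ≠ g.1.castSucc → l ≠ g.1.succ → emb y l = emb x l) ↔
      (∀ l, l ≠ g.1.castSucc → l ≠ g.1.succ → y l = x l) := by
    constructor
    · intro h l h1 h2
      exact Fin.ext (h l h1 h2)
    · intro h l h1 h2
      unfold emb
      rw [h l h1 h2]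
  by_cases hc : ∀ l, l ≠ g.1.castSucc → l ≠ g.1.succ → y l = x l
  · rw [if_pos (hcond.mpr hc), if_pos hc]
    have hne := castSucc_ne_succ' g.1
    have hsplit : ∀ z : Fin (r + 1) → ℕ, rhoS w z = rho w (z g.1.castSucc) *
        (rho w (z g.1.succ) * ∏ l ∈ (univ.erase g.1.castSucc).erase g.1.succ, rho w (z l)) := by
      intro z
      unfold rhoS
      rw [← Finset.mul_prod_erase _ _ (Finset.mem_univ g.1.castSucc),
        ← Finset.mul_prod_erase _ _ (Finset.mem_erase.mpr ⟨hne.symm, Finset.mem_univ g.1.succ⟩)]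
    have hrest : ∏ l ∈ (univ.erase g.1.castSucc).erase g.1.succ, rho w (emb y l) =
        ∏ l ∈ (univ.erase g.1.castSucc).erase g.1.succ, rho w (emb x l) := by
      apply Finset.prod_congr rfl
      intro l hl
      rw [Finset.mem_erase, Finset.mem_erase] at hl
      unfold emb
      rw [hc l hl.2.1 hl.1]
    rw [hsplit (emb x), hsplit (emb y), hrest]
    set P := ∏ l ∈ (univ.erase g.1.castSucc).erase g.1.succ, rho w (emb x l) with hP
    have hb := fun (z : Fin (2 * s + 1)) => Nat.lt_succ_iff.mp z.isLt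
    unfold entry
    unfold emb
    cases hg : g.2 with
    | true =>
      simp only [if_true]
      split_ifs with hd
      · have hh := vPos_eq hw (i := (x g.1.castSucc : ℕ)) (j := (x g.1.succ : ℕ))
          (k := (y g.1.castSucc : ℕ) - (x g.1.succ : ℕ)) (by omega) (hb _)
        have e1 : (x g.1.succ : ℕ) + ((y g.1.castSucc : ℕ) - (x g.1.succ : ℕ)) =
            (y g.1.castSucc : ℕ) := by omega
        have e2 : (x g.1.castSucc : ℕ) - ((y g.1.castSucc : ℕ) - (x g.1.succ : ℕ)) =
            (y g.1.succ : ℕ) := by omega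
        rw [e1, e2] at hh
        rw [show (-(1 : ℤ) * ((s : ℤ) * (s + 1))) = -((s : ℤ) * (s + 1)) by ring]
        linear_combination P * hh
      · ring
    | false =>
      simp only [Bool.false_eq_true, if_false]
      split_ifs with hd
      · have hh := vNeg_eq hw (i := (x g.1.castSucc : ℕ)) (j := (x g.1.succ : ℕ))
          (k := (y g.1.succ : ℕ) - (x g.1.castSucc : ℕ)) (by omega) (hb _)
        have e1 : (x g.1.castSucc : ℕ) + ((y g.1.succ : ℕ) - (x g.1.castSucc : ℕ)) =
            (y g.1.succ : ℕ) := by omega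
        have e2 : (x g.1.succ : ℕ) - ((y g.1.succ : ℕ) - (x g.1.castSucc : ℕ)) =
            (y g.1.castSucc : ℕ) := by omega
        rw [e1, e2] at hh
        rw [show (-(-(1 : ℤ)) * ((s : ℤ) * (s + 1))) = ((s : ℤ) * (s + 1)) by ring]
        linear_combination P * hh
      · ring
  · rw [if_neg (fun h => hc (hcond.mp h)), if_neg hc]
    ring

omit [IsDomain R] in
lemma hI_bot {s : ℕ} {w : Rˣ} (hwn : w ^ (2 * s + 1) = 1) (a : ℕ) :
    (((w ^ (-(2 * (((2 * s + 1 : ℕ) : ℤ) * a))) : Rˣ) : R) - 1) ∈ (⊥ : Ideal R) := by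
  have h : w ^ (-(2 * (((2 * s + 1 : ℕ) : ℤ) * a))) = 1 := by
    rw [show (-(2 * (((2 * s + 1 : ℕ) : ℤ) * a))) = ((2 * s + 1 : ℕ) : ℤ) * (-(2 * a)) by ring,
      zpow_mul, zpow_natCast, hwn, one_zpow]
  rw [h, Units.val_one, sub_self]
  exact Ideal.zero_mem _

lemma vBraid_eq_zero {r s : ℕ} {w : Rˣ} (hwn : w ^ (2 * s + 1) = 1)
    (β : List (Fin r × Bool)) (x : Fin (r + 1) → Fin (2 * s + 1)) {y : Fin (r + 1) → ℕ}
    {l : Fin (r + 1)} (hl : 2 * s + 1 ≤ y l) : vBraid w β (emb x) y = 0 := by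
  have h1 := vBraid_mem (hI_bot (R := R) hwn) β (emb x) y
  have h2 : 1 ≤ dd (2 * s + 1) (braidPerm β) (emb x) y := by
    unfold dd
    have h3 : y (braidPerm β ((braidPerm β)⁻¹ l)) / (2 * s + 1) -
        emb x ((braidPerm β)⁻¹ l) / (2 * s + 1) ≤
        ∑ l', (y (braidPerm β l') / (2 * s + 1) - emb x l' / (2 * s + 1)) :=
      Finset.single_le_sum (f := fun l' => y (braidPerm β l') / (2 * s + 1) -
        emb x l' / (2 * s + 1)) (fun _ _ => Nat.zero_le _) (Finset.mem_univ _)
    refine le_trans ?_ h3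
    have h4 : braidPerm β ((braidPerm β)⁻¹ l) = l := by simp
    rw [h4]
    have h5 : emb x ((braidPerm β)⁻¹ l) / (2 * s + 1) = 0 :=
      Nat.div_eq_of_lt (x ((braidPerm β)⁻¹ l)).isLt
    rw [h5]
    have h6 : 1 ≤ y l / (2 * s + 1) := by
      rw [Nat.le_div_iff_mul_le (by omega)]
      omega
    omega
  have h3 := Ideal.pow_le_pow_right h2 h1
  rw [pow_one, Ideal.mem_bot] at h3
  exact h3

lemma braid_eq {r s : ℕ} {w : Rˣ} (hw : IsPrimitiveRoot (w : R) (2 * s + 1))
    (β : List (Fin r × Bool)) (x y : Fin (r + 1) → Fin (2 * s + 1)) :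
    vBraid w β (emb x) (emb y) * rhoS w (emb y) =
      rhoS w (emb x) * (((w ^ 2) ^ (-(writhe β) * (s * (s + 1))) : Rˣ) : R) *
        braidMatrix s (w ^ 2) β y x := by
  classical
  have hwn : w ^ (2 * s + 1) = 1 := by
    apply Units.ext
    rw [Units.val_pow_eq_pow_val, hw.pow_eq_one, Units.val_one]
  induction β generalizing y with
  | nil =>
    show (Finsupp.single (emb x) (1 : R)) (emb y) * _ = _
    rw [Finsupp.single_apply]
    unfold braidMatrix writhe
    simp only [List.map_nil, List.sum_nil, List.prod_nil, Matrix.one_apply]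
    by_cases h : x = y
    · subst h
      simp
    · rw [if_neg (fun hh => h (emb_injective hh)), if_neg (Ne.symm h)]
      simp
  | cons g β ih =>
    have e1 : braidMatrix s (w ^ 2) (g :: β) = crossing s (w ^ 2) g * braidMatrix s (w ^ 2) β := by
      unfold braidMatrix; simp
    have e2 : writhe (g :: β) = (if g.2 then (1 : ℤ) else -1) + writhe β := by
      unfold writhe; simp
    have hsum : vBraid w (g :: β) (emb x) (emb y) =
        ∑ z : Fin (r + 1) → Fin (2 * s + 1),
          vBraid w β (emb x) (emb z) * vImg w g (emb z) (emb y) := by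
      show ((vBraid w β (emb x)).sum fun z c => c • vImg w g z) (emb y) = _
      rw [Finsupp.sum_apply, Finsupp.sum_of_support_subset (s := univ.image emb)]
      · rw [Finset.sum_image (fun a _ b _ h => emb_injective h)]
        rfl
      · intro z hz
        rw [Finset.mem_image]
        have hlt : ∀ l, z l < 2 * s + 1 := by
          intro l
          by_contra hcon
          push Not at hcon
          rw [Finsupp.mem_support_iff] at hz
          exact hz (vBraid_eq_zero hwn β x hcon)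
        exact ⟨fun l => ⟨z l, hlt l⟩, Finset.mem_univ _, rfl⟩
      · intro z _
        simp
    rw [hsum, e1, Matrix.mul_apply, e2, Finset.sum_mul, Finset.mul_sum]
    apply Finset.sum_congr rfl
    intro z _
    have h1 := crossing_eq hw g z y
    have h2 := ih z
    have h3 : (((w ^ 2) ^ (-((if g.2 then (1 : ℤ) else -1) + writhe β) * (s * (s + 1))) : Rˣ) : R) =
        (((w ^ 2) ^ (-(if g.2 then (1 : ℤ) else -1) * ((s : ℤ) * (s + 1))) : Rˣ) : R) *
        (((w ^ 2) ^ (-(writhe β) * (s * (s + 1))) : Rˣ) : R) := by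
      rw [← Units.val_mul, ← zpow_add]
      congr 2
      ring
    rw [h3]
    linear_combination vBraid w β (emb x) (emb z) * h1 +
      ((((w ^ 2) ^ (-(if g.2 then (1 : ℤ) else -1) * ((s : ℤ) * (s + 1))) : Rˣ) : R) *
        crossing s (w ^ 2) g y z) * h2

/-- the state sum is the coloured Jones polynomial at roots of unity -/
theorem vSum_eq {r s : ℕ} {w : Rˣ} (hw : IsPrimitiveRoot (w : R) (2 * s + 1))
    {β : List (Fin r × Bool)} (hβ : IsKnot β) {D : ℕ} (hD : 2 * s + 1 ≤ D) :
    vSum w β D = colouredJones s β (w ^ 2) := by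
  classical
  have hwn : w ^ (2 * s + 1) = 1 := by
    apply Units.ext
    rw [Units.val_pow_eq_pow_val, hw.pow_eq_one, Units.val_one]
  have h1 : vSum w β D = vSum w β (2 * s + 1) :=
    vSum_stable (m := 2 * s + 1) (i := 1) (by omega) (by rw [hwn]; simp) hβ (by omega) hD
  rw [h1]
  unfold vSum colouredJones
  have hbox : box r (2 * s + 1) = (univ.filter
      (fun x : Fin (r + 1) → Fin (2 * s + 1) => x 0 = 0)).image emb := by
    ext x
    rw [mem_box, Finset.mem_image]
    constructor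
    · rintro ⟨h2, h3⟩
      refine ⟨fun l => ⟨x l, h2 l⟩, ?_, rfl⟩
      rw [Finset.mem_filter]
      exact ⟨Finset.mem_univ _, Fin.ext h3⟩
    · rintro ⟨z, hz, rfl⟩
      rw [Finset.mem_filter] at hz
      refine ⟨fun l => (z l).isLt, ?_⟩
      unfold emb
      rw [hz.2]
      rfl
  rw [hbox, Finset.sum_image (fun a _ b _ h => emb_injective h), Finset.sum_filter,
    Finset.mul_sum]
  apply Finset.sum_congr rfl
  intro x _
  split_ifs with h0
  · have h2 := braid_eq hw β x x
    have h3 : vBraid w β (emb x) (emb x) =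
        (((w ^ 2) ^ (-(writhe β) * (s * (s + 1))) : Rˣ) : R) * braidMatrix s (w ^ 2) β x x := by
      apply (rhoS_isUnit w (emb x)).mul_right_cancel
      rw [h2]
      ring
    have h4 : ∏ l : Fin r, ((w ^ (-(1 + 2 * (emb x l.succ : ℤ))) : Rˣ) : R) =
        ∏ l : Fin r, (((w ^ 2) ^ ((s : ℤ) - ((x l.succ : ℕ) : ℤ)) : Rˣ) : R) := by
      apply Finset.prod_congr rfl
      intro l _
      congr 1
      rw [← zpow_natCast, ← zpow_mul]
      apply zpow_eq_of_dvd hwn
      refine ⟨-1, ?_⟩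
      unfold emb
      push_cast
      ring
    rw [h3, h4]
    ring
  · ring

end

end Pool.Agent.Work.MP_b30479_gt
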